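import Pool.Agent.R924.K2

set_option autoImplicit false

/-!
Cotorsion modules, and extension of linear maps over subrings.
-/

universe u

namespace Pool.Agent.R924.Fla

open Finsupp CategoryTheory Abelian

/-- Cotorsion left modules: `Ext¹(G, C) = 0` for every flat module `G`. -/
def IsCot (R : Type u) [Ring R] (C : ModuleCat.{u} R) : Prop :=
  ∀ G : ModuleCat.{u} R, IsFlat R G → ∀ e : Ext G C 1, e = 0

/-- The short complex given by two linear maps. -/
def shc {R : Type u} [Ring R] {X Y Z : Type u} [AddCommGroup X] [Module R X] [AddCommGroup Y]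
    [Module R Y] [AddCommGroup Z] [Module R Z] (f : X →ₗ[R] Y) (g : Y →ₗ[R] Z)
    (h : Function.Exact f g) : ShortComplex (ModuleCat.{u} R) where
  X₁ := ModuleCat.of R X
  X₂ := ModuleCat.of R Y
  X₃ := ModuleCat.of R Z
  f := ModuleCat.ofHom f
  g := ModuleCat.ofHom g
  zero := by
    ext x
    exact h.apply_apply_eq_zero x

theorem shc_shortExact {R : Type u} [Ring R] {X Y Z : Type u} [AddCommGroup X] [Module R X]
    [AddCommGroup Y] [Module R Y] [AddCommGroup Z] [Module R Z] (f : X →ₗ[R] Y)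
    (g : Y →ₗ[R] Z) (h : Function.Exact f g) (hf : Function.Injective f)
    (hg : Function.Surjective g) : (shc f g h).ShortExact where
  exact := (ShortComplex.ShortExact.moduleCat_exact_iff_function_exact _).2 h
  mono_f := (ModuleCat.mono_iff_injective _).2 hf
  epi_g := (ModuleCat.epi_iff_surjective _).2 hg

/-- If `Ext¹(Z, C) = 0` then maps `X → C` extend to `Y`, for `0 → X → Y → Z → 0` exact. -/
theorem extend_of_ext {R : Type u} [Ring R] {X Y Z : Type u} [AddCommGroup X] [Module R X]
    [AddCommGroup Y] [Module R Y] [AddCommGroup Z] [Module R Z] {f : X →ₗ[R] Y}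
    {g : Y →ₗ[R] Z} (h : Function.Exact f g) (hf : Function.Injective f)
    (hg : Function.Surjective g) (C : ModuleCat.{u} R)
    (hC : ∀ e : Ext (ModuleCat.of R Z) C 1, e = 0) (φ : X →ₗ[R] C) :
    ∃ ψ : Y →ₗ[R] C, ψ ∘ₗ f = φ := by
  have hS := shc_shortExact f g h hf hg
  obtain ⟨x, hx⟩ := Ext.contravariant_sequence_exact₁ hS C
    (Ext.mk₀ (X := (shc f g h).X₁) (ModuleCat.ofHom φ)) (add_zero 1) (hC _)
  obtain ⟨ψ, rfl⟩ := (Ext.mk₀_bijective _ _).2 x
  refine ⟨ψ.hom, ?_⟩
  rw [Ext.mk₀_comp_mk₀] at hx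
  have h2 := (Ext.mk₀_bijective _ _).1 hx
  exact congrArg ModuleCat.Hom.hom h2

/-- If maps `X → C` extend to `Y`, for `0 → X → Y → Z → 0` exact with `Y` projective, then
`Ext¹(Z, C) = 0`. -/
theorem ext_of_extend {R : Type u} [Ring R] {X Y Z : Type u} [AddCommGroup X] [Module R X]
    [AddCommGroup Y] [Module R Y] [AddCommGroup Z] [Module R Z] {f : X →ₗ[R] Y}
    {g : Y →ₗ[R] Z} (h : Function.Exact f g) (hf : Function.Injective f)
    (hg : Function.Surjective g) (C : ModuleCat.{u} R) (hY : Module.Projective R Y)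
    (H : ∀ φ : X →ₗ[R] C, ∃ ψ : Y →ₗ[R] C, ψ ∘ₗ f = φ) (e : Ext (ModuleCat.of R Z) C 1) :
    e = 0 := by
  have hS := shc_shortExact f g h hf hg
  have hp : Projective (ModuleCat.of R Y) := (IsProjective.iff_projective _).1 hY
  obtain ⟨x, hx⟩ := Ext.contravariant_sequence_exact₃ hS C e
    (Ext.eq_zero_of_projective (P := ModuleCat.of R Y) _) (add_zero 1)
  obtain ⟨φ, rfl⟩ := (Ext.mk₀_bijective _ _).2 x
  obtain ⟨ψ, hψ⟩ := H φ.hom
  have h1 : φ = (shc f g h).f ≫ ModuleCat.ofHom ψ := by
    apply ModuleCat.hom_ext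
    exact hψ.symm
  rw [← hx, h1, ← Ext.mk₀_comp_mk₀, hS.extClass_comp_assoc]
  rfl

/-- If `Ext¹(X, D) = 0` then maps to `Z` lift to `Y`, for `0 → D → Y → Z → 0` exact. -/
theorem lift_of_ext {R : Type u} [Ring R] {X D Y Z : Type u} [AddCommGroup X] [Module R X]
    [AddCommGroup D] [Module R D] [AddCommGroup Y] [Module R Y] [AddCommGroup Z] [Module R Z]
    {f : D →ₗ[R] Y} {g : Y →ₗ[R] Z} (h : Function.Exact f g) (hf : Function.Injective f)
    (hg : Function.Surjective g)
    (hX : ∀ e : Ext (ModuleCat.of R X) (ModuleCat.of R D) 1, e = 0) (φ : X →ₗ[R] Z) :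
    ∃ ψ : X →ₗ[R] Y, g ∘ₗ ψ = φ := by
  have hS := shc_shortExact f g h hf hg
  obtain ⟨x, hx⟩ := Ext.covariant_sequence_exact₃ (ModuleCat.of R X) hS
    (Ext.mk₀ (Y := (shc f g h).X₃) (ModuleCat.ofHom φ)) (zero_add 1) (hX _)
  obtain ⟨ψ, rfl⟩ := (Ext.mk₀_bijective _ _).2 x
  refine ⟨ψ.hom, ?_⟩
  rw [Ext.mk₀_comp_mk₀] at hx
  have h2 := (Ext.mk₀_bijective _ _).1 hx
  exact congrArg ModuleCat.Hom.hom h2

theorem mkQ_exact {R : Type u} [Ring R] {P : Type u} [AddCommGroup P] [Module R P]
    (L : Submodule R P) : Function.Exact L.subtype L.mkQ := by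
  intro x
  rw [Submodule.mkQ_apply, Submodule.Quotient.mk_eq_zero]
  constructor
  · intro hx
    exact ⟨⟨x, hx⟩, rfl⟩
  · rintro ⟨y, rfl⟩
    exact y.2

/-- Maps from submodules with flat quotient extend to cotorsion modules. -/
theorem IsCot.extend {R : Type u} [Ring R] {C : ModuleCat.{u} R} (hC : IsCot R C) {P : Type u}
    [AddCommGroup P] [Module R P] (L : Submodule R P) (hL : IsFlat R (P ⧸ L))
    (φ : L →ₗ[R] C) : ∃ ψ : P →ₗ[R] C, ∀ l : L, ψ l = φ l := by
  obtain ⟨ψ, hψ⟩ := extend_of_ext (mkQ_exact L) Subtype.val_injective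
    (Submodule.mkQ_surjective L) C (hC (ModuleCat.of R (P ⧸ L)) hL) φ
  exact ⟨ψ, fun l => congrArg (fun f => f l) hψ⟩

section

variable {R : Type u} [Ring R] {Λ : Type u} (S : Subring R)

/-- Additive and `S`-linear on a submodule. -/
def LinOn {X C : Type u} [AddCommGroup X] [Module R X] [AddCommGroup C] [Module R C]
    (T : Submodule S X) (φ : X → C) : Prop :=
  ∀ a ∈ S, ∀ w ∈ T, ∀ w' ∈ T, φ (a • w + w') = a • φ w + φ w'

variable {S} in
theorem LinOn.zero {X C : Type u} [AddCommGroup X] [Module R X] [AddCommGroup C] [Module R C]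
    {T : Submodule S X} {φ : X → C} (h : LinOn S T φ) : φ 0 = 0 := by
  have := h 1 S.one_mem 0 T.zero_mem 0 T.zero_mem
  rw [one_smul, one_smul, add_zero] at this
  exact left_eq_add.1 this

variable {S} in
theorem LinOn.add {X C : Type u} [AddCommGroup X] [Module R X] [AddCommGroup C] [Module R C]
    {T : Submodule S X} {φ : X → C} (h : LinOn S T φ) {w w' : X} (hw : w ∈ T) (hw' : w' ∈ T) :
    φ (w + w') = φ w + φ w' := by
  have := h 1 S.one_mem w hw w' hw'
  rwa [one_smul, one_smul] at this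

variable {S} in
theorem LinOn.smul {X C : Type u} [AddCommGroup X] [Module R X] [AddCommGroup C] [Module R C]
    {T : Submodule S X} {φ : X → C} (h : LinOn S T φ) {a : R} (ha : a ∈ S) {w : X}
    (hw : w ∈ T) : φ (a • w) = a • φ w := by
  have := h a ha w hw 0 T.zero_mem
  rwa [add_zero, h.zero, add_zero] at this

variable {S} in
theorem LinOn.sub {X C : Type u} [AddCommGroup X] [Module R X] [AddCommGroup C] [Module R C]
    {T : Submodule S X} {φ : X → C} (h : LinOn S T φ) {w w' : X} (hw : w ∈ T) (hw' : w' ∈ T) :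
    φ (w - w') = φ w - φ w' := by
  have := h (-1) (S.neg_mem S.one_mem) w' hw' w hw
  rw [neg_smul, neg_smul, one_smul, one_smul] at this
  rw [sub_eq_add_neg, add_comm, this, add_comm, ← sub_eq_add_neg]

variable {S} in
theorem smul_mem' {X : Type u} [AddCommGroup X] [Module R X] (T : Submodule S X) {a : R}
    (ha : a ∈ S) {w : X} (hw : w ∈ T) : a • w ∈ T := T.smul_mem ⟨a, ha⟩ hw

variable {S} in
theorem LinOn.sum {X C ι : Type u} [AddCommGroup X] [Module R X] [AddCommGroup C] [Module R C]
    {T : Submodule S X} {φ : X → C} (h : LinOn S T φ) (s : Finset ι) (a : ι → R) (w : ι → X)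
    (ha : ∀ i ∈ s, a i ∈ S) (hw : ∀ i ∈ s, w i ∈ T) :
    (∑ i ∈ s, a i • w i) ∈ T ∧ φ (∑ i ∈ s, a i • w i) = ∑ i ∈ s, a i • φ (w i) := by
  classical
  induction s using Finset.induction_on with
  | empty => exact ⟨T.zero_mem, h.zero⟩
  | insert i s hi ih =>
    obtain ⟨h1, h2⟩ := ih (fun j hj => ha j (Finset.mem_insert_of_mem hj))
      (fun j hj => hw j (Finset.mem_insert_of_mem hj))
    rw [Finset.sum_insert hi, Finset.sum_insert hi]
    refine ⟨T.add_mem (smul_mem' T (ha i (Finset.mem_insert_self _ _))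
      (hw i (Finset.mem_insert_self _ _))) h1, ?_⟩
    rw [h _ (ha i (Finset.mem_insert_self _ _)) _ (hw i (Finset.mem_insert_self _ _)) _ h1, h2]

variable {S} in
/-- A linear combination with coefficients in `S` whose terms with nonzero coefficient are in
`T`. -/
theorem LinOn.lin {Y X C : Type u} [AddCommGroup X] [Module R X] [AddCommGroup C] [Module R C]
    {T : Submodule S X} {φ : X → C} (h : LinOn S T φ) (l : Y →₀ R) (hl : ∀ y, l y ∈ S)
    (θ : Y → X) (hθ : ∀ y, l y ≠ 0 → θ y ∈ T) :
    linearCombination R θ l ∈ T ∧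
      φ (linearCombination R θ l) = linearCombination R (fun y => φ (θ y)) l := by
  rw [linearCombination_apply, linearCombination_apply]
  exact h.sum l.support (fun y => l y) θ (fun y _ => hl y)
    fun y hy => hθ y (Finsupp.mem_support_iff.1 hy)

/-- Extension of maps which are linear over a subring only. -/
theorem IsCot.extend_sub {C : ModuleCat.{u} R} (hC : IsCot R C) (T : Submodule S (Λ →₀ R))
    (hcoef : ∀ l ∈ T, ∀ y, l y ∈ S)
    (hθ : ∀ l ∈ T, ∃ θ : Λ → (Λ →₀ R), (∀ y, θ y ∈ T) ∧ linearCombination R θ l = l)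
    (h : (Λ →₀ R) → C) (hh : LinOn S T h) :
    ∃ γ : Λ → C, ∀ l ∈ T, linearCombination R γ l = h l := by
  -- finitely many elements are fixed simultaneously
  have hfix : ∀ s : Finset (Λ →₀ R), (∀ l ∈ s, l ∈ T) → ∃ θ : Λ → (Λ →₀ R),
      (∀ y, θ y ∈ T) ∧ ∀ l ∈ s, linearCombination R θ l = l := by
    classical
    intro s
    induction s using Finset.induction_on with
    | empty => exact fun _ => ⟨0, fun _ => T.zero_mem, fun l hl => absurd hl (by simp)⟩
    | insert l s hl ih =>
      intro hs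
      obtain ⟨θ', h1, h2⟩ := ih fun w hw => hs w (Finset.mem_insert_of_mem hw)
      have hlT := hs l (Finset.mem_insert_self _ _)
      have hid : LinOn S T (fun w => w) := fun _ _ _ _ _ _ => rfl
      have h3 : linearCombination R θ' l ∈ T :=
        (hid.lin l (hcoef l hlT) θ' fun y _ => h1 y).1
      obtain ⟨θ'', h4, h5⟩ := hθ (l - linearCombination R θ' l) (T.sub_mem hlT h3)
      refine ⟨fun y => θ' y + linearCombination R θ'' (single y 1 - θ' y), fun y => ?_, ?_⟩
      · refine T.add_mem (h1 y) ?_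
        rw [map_sub, linearCombination_single, one_smul]
        exact T.sub_mem (h4 y) (hid.lin (θ' y) (hcoef _ (h1 y)) θ'' fun y _ => h4 y).1
      · have key : ∀ w : Λ →₀ R, linearCombination R (fun y => θ' y +
            linearCombination R θ'' (single y 1 - θ' y)) w = linearCombination R θ' w +
              linearCombination R θ'' (w - linearCombination R θ' w) := by
          intro w
          induction w using Finsupp.induction_linear with
          | zero => simp
          | add f g hf hg =>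
            rw [map_add, hf, hg, map_add (linearCombination R θ') f g]
            rw [add_sub_add_comm, map_add]
            abel
          | single a b =>
            rw [linearCombination_single, linearCombination_single, smul_add, ← map_smul,
              smul_sub, smul_single, smul_eq_mul, mul_one]
        intro w hw
        rw [key]
        rcases Finset.mem_insert.1 hw with rfl | hw
        · rw [h5]
          abel
        · rw [h2 w hw, sub_self, map_zero, add_zero]
  let Φ : (T →₀ R) →ₗ[R] (Λ →₀ R) := linearCombination R (fun l : T => (l : Λ →₀ R))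
  let Ψ : (T →₀ R) →ₗ[R] C := linearCombination R (fun l : T => h l)
  have hgood : ∀ c : T →₀ R, ∃ θ : Λ → (Λ →₀ R), (∀ y, θ y ∈ T) ∧
      linearCombination R θ (Φ c) = Φ c ∧ Ψ c = linearCombination R (fun y => h (θ y)) (Φ c) := by
    classical
    intro c
    obtain ⟨θ, h1, h2⟩ := hfix (c.support.image Subtype.val) (by
      intro l hl
      obtain ⟨l', -, rfl⟩ := Finset.mem_image.1 hl
      exact l'.2)
    refine ⟨θ, h1, ?_, ?_⟩
    · change linearCombination R θ (linearCombination R _ c) = linearCombination R _ c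
      rw [linearCombination_apply R c, Finsupp.sum, map_sum]
      refine Finset.sum_congr rfl fun l hl => ?_
      rw [map_smul, h2 _ (Finset.mem_image_of_mem _ hl)]
    · change linearCombination R _ c = linearCombination R _ (linearCombination R _ c)
      rw [linearCombination_apply R c, linearCombination_apply R c, Finsupp.sum, Finsupp.sum,
        map_sum]
      refine Finset.sum_congr rfl fun l hl => ?_
      rw [map_smul, ← (hh.lin (l : Λ →₀ R) (hcoef _ l.2) θ fun y _ => h1 y).2,
        h2 _ (Finset.mem_image_of_mem _ hl)]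
  have hker : LinearMap.ker Φ ≤ LinearMap.ker Ψ := by
    intro c hc
    rw [LinearMap.mem_ker] at hc ⊢
    obtain ⟨θ, -, -, h3⟩ := hgood c
    rw [h3, hc, map_zero]
  let ψ : LinearMap.range Φ →ₗ[R] C :=
    (LinearMap.ker Φ).liftQ Ψ hker ∘ₗ (LinearMap.quotKerEquivRange Φ).symm.toLinearMap
  have hψ : ∀ c, ψ ⟨Φ c, ⟨c, rfl⟩⟩ = Ψ c := by
    intro c
    change (LinearMap.ker Φ).liftQ Ψ hker ((LinearMap.quotKerEquivRange Φ).symm ⟨Φ c, ⟨c, rfl⟩⟩) = _
    have : (LinearMap.quotKerEquivRange Φ).symm ⟨Φ c, ⟨c, rfl⟩⟩ = Submodule.Quotient.mk c := by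
      rw [LinearEquiv.symm_apply_eq]
      rfl
    rw [this]
    rfl
  have hflat : IsFlat R ((Λ →₀ R) ⧸ LinearMap.range Φ) := by
    apply isFlat_of_theta
    rintro _ ⟨c, rfl⟩
    obtain ⟨θ, h1, h2, -⟩ := hgood c
    refine ⟨θ, fun y => ⟨single ⟨θ y, h1 y⟩ 1, ?_⟩, h2⟩
    change linearCombination R _ _ = _
    rw [linearCombination_single, one_smul]
  obtain ⟨ψ', hψ'⟩ := hC.extend (LinearMap.range Φ) hflat ψ
  refine ⟨fun y => ψ' (single y 1), fun l hl => ?_⟩
  have h1 : Φ (single ⟨l, hl⟩ 1) = l := by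
    change linearCombination R _ _ = _
    rw [linearCombination_single, one_smul]
  have h2 := hψ' ⟨Φ (single ⟨l, hl⟩ 1), ⟨_, rfl⟩⟩
  rw [hψ] at h2
  have h3 : Ψ (single ⟨l, hl⟩ 1) = h l := by
    change linearCombination R _ _ = _
    rw [linearCombination_single, one_smul]
  rw [h3] at h2
  change ψ' (Φ (single ⟨l, hl⟩ 1)) = h l at h2
  rw [h1] at h2
  rw [← h2]
  conv_rhs => rw [← Finsupp.sum_single l, Finsupp.sum, map_sum]
  rw [linearCombination_apply, Finsupp.sum]
  refine Finset.sum_congr rfl fun y _ => ?_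
  rw [← map_smul, smul_single, smul_eq_mul, mul_one]

end

end Pool.Agent.R924.Fla
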