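import Mathlib
import Pool.Agent.W456.Geo2

set_option autoImplicit false

/-!
Dévissage in the derived category of an abelian category.
-/

universe w v u

open CategoryTheory CategoryTheory.Limits Pretriangulated

namespace Pool.Agent.R924

open Pool.Agent.W456

noncomputable section

variable {C : Type u} [Category.{v} C] [Abelian C] [HasDerivedCategory.{w} C]

/-- An object in degree zero. -/
abbrev sg (M : C) : DerivedCategory C := (DerivedCategory.singleFunctor C 0).obj M

/-- Cohomology of the single object. -/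
def hhSingle (M : C) (n : ℤ) : Hh n ((DerivedCategory.singleFunctor C n).obj M) ≅ M :=
  (DerivedCategory.homologyFunctor C n).mapIso ((DerivedCategory.singleFunctorIsoCompQ C n).app M) ≪≫
    (DerivedCategory.homologyFunctorFactors C n).app _ ≪≫
    (HomologicalComplex.homologyFunctorSingleIso C (ComplexShape.up ℤ) n).app M

/-- Shift of the single object. -/
def singleIsoShift (M : C) (n : ℤ) :
    (DerivedCategory.singleFunctor C n).obj M ≅ (sg M)⟦-n⟧ :=
  (((DerivedCategory.singleFunctors C).shiftIso (-n) n 0 (by ring)).app M).symm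

theorem exists_iso_of_concentrated (E : DerivedCategory C) (n : ℤ)
    (h : ∀ i, i ≠ n → IsZero (Hh i E)) : Nonempty (E ≅ (sg (Hh n E))⟦-n⟧) := by
  have h1 : E.IsGE n := (DerivedCategory.isGE_iff E n).2 fun i hi => h i (by lia)
  have h2 : E.IsLE n := (DerivedCategory.isLE_iff E n).2 fun i hi => h i (by lia)
  obtain ⟨Y, ⟨e⟩⟩ := E.exists_iso_singleFunctor_obj_of_isGE_of_isLE n
  let e2 : Hh n E ≅ Y := (DerivedCategory.homologyFunctor C n).mapIso e ≪≫ hhSingle Y n
  exact ⟨e ≪≫ (DerivedCategory.singleFunctor C n).mapIso e2.symm ≪≫ singleIsoShift _ n⟩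

variable (T : ObjectProperty (DerivedCategory C)) [T.IsTriangulated]
  [T.IsClosedUnderIsomorphisms]

/-- Bounded objects with cohomology in a triangulated subcategory belong to it. -/
theorem mem_of_homology (n : ℕ) : ∀ (E : DerivedCategory C) (a : ℤ)
    (_ : ∀ i, i < a → IsZero (Hh i E)) (_ : ∀ i, a + n ≤ i → IsZero (Hh i E))
    (_ : ∀ i, T (sg (Hh i E))), T E := by
  induction n with
  | zero =>
    intro E a ha hb _
    have hE : IsZero E := (isZero_iff_homology E).2 fun i => by
      rcases lt_or_ge i a with h | h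
      · exact ha i h
      · exact hb i (by simpa using h)
    exact T.prop_of_isZero hE
  | succ n ih =>
    intro E a ha hb hT
    obtain ⟨X, Y, hX, hY, f, g, h, mem⟩ := DerivedCategory.TStructure.t.exists_triangle E
      (a + n - 1) (a + n) (by ring)
    have hX' : X.IsLE (a + n - 1) := ⟨hX⟩
    have hY' : Y.IsGE (a + n) := ⟨hY⟩
    have zX : ∀ i, a + n - 1 < i → IsZero (Hh i X) := fun i hi =>
      X.isZero_of_isLE _ i hi
    have zY : ∀ i, i < a + n → IsZero (Hh i Y) := fun i hi =>
      Y.isZero_of_isGE _ i hi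
    have isoX : ∀ i, i < a + n → IsIso ((DerivedCategory.homologyFunctor C i).map f) := by
      intro i hi
      have e1 := DerivedCategory.HomologySequence.exact₂ _ mem i
      have e2 := DerivedCategory.HomologySequence.exact₁ _ mem (i - 1) i (by ring)
      have m1 : Mono ((DerivedCategory.homologyFunctor C i).map f) :=
        e2.mono_g ((zY (i - 1) (by lia)).eq_of_src _ _)
      have m2 : Epi ((DerivedCategory.homologyFunctor C i).map f) :=
        e1.epi_f ((zY i hi).eq_of_tgt _ _)
      exact isIso_of_mono_of_epi _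
    have isoY : ∀ i, a + n ≤ i → IsIso ((DerivedCategory.homologyFunctor C i).map g) := by
      intro i hi
      have e1 := DerivedCategory.HomologySequence.exact₂ _ mem i
      have e2 := DerivedCategory.HomologySequence.exact₃ _ mem i (i + 1) (by ring)
      have m1 : Mono ((DerivedCategory.homologyFunctor C i).map g) :=
        e1.mono_g ((zX i (by lia)).eq_of_src _ _)
      have m2 : Epi ((DerivedCategory.homologyFunctor C i).map g) :=
        e2.epi_f ((zX (i + 1) (by lia)).eq_of_tgt _ _)
      exact isIso_of_mono_of_epi _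
    have hTX : T X := by
      apply ih X a
      · intro i hi
        have := isoX i (by lia)
        exact (ha i hi).of_iso (asIso ((DerivedCategory.homologyFunctor C i).map f))
      · intro i hi
        exact zX i (by lia)
      · intro i
        rcases lt_or_ge i (a + n) with hi | hi
        · have := isoX i hi
          exact T.prop_of_iso ((DerivedCategory.singleFunctor C 0).mapIso
            (asIso ((DerivedCategory.homologyFunctor C i).map f))).symm (hT i)
        · exact T.prop_of_isZero (Functor.map_isZero _ (zX i (by lia)))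
    have hTY : T Y := by
      obtain ⟨e⟩ := exists_iso_of_concentrated Y (a + n) (fun i hi => by
        rcases lt_or_gt_of_ne hi with h | h
        · exact zY i h
        · have := isoY i h.le
          exact (hb i (by push_cast; lia)).of_iso
            (asIso ((DerivedCategory.homologyFunctor C i).map g)).symm)
      have := isoY (a + n) le_rfl
      have h1 : T (sg (Hh (a + n) Y)) := T.prop_of_iso ((DerivedCategory.singleFunctor C 0).mapIso
            (asIso ((DerivedCategory.homologyFunctor C (a + n)).map g))) (hT _)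
      exact T.prop_of_iso e.symm (T.le_shift _ _ h1)
    exact T.ext_of_isTriangulatedClosed₂ _ mem hTX hTY

/-- Two out of three for short exact sequences. -/
theorem mem_left {S : ShortComplex C} (hS : S.ShortExact) (h₂ : T (sg S.X₂)) (h₃ : T (sg S.X₃)) :
    T (sg S.X₁) :=
  T.ext_of_isTriangulatedClosed₁ _ hS.singleTriangle_distinguished h₂ h₃

theorem mem_mid {S : ShortComplex C} (hS : S.ShortExact) (h₁ : T (sg S.X₁)) (h₃ : T (sg S.X₃)) :
    T (sg S.X₂) :=
  T.ext_of_isTriangulatedClosed₂ _ hS.singleTriangle_distinguished h₁ h₃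

theorem mem_right {S : ShortComplex C} (hS : S.ShortExact) (h₁ : T (sg S.X₁))
    (h₂ : T (sg S.X₂)) : T (sg S.X₃) :=
  T.ext_of_isTriangulatedClosed₃ _ hS.singleTriangle_distinguished h₁ h₂

omit [T.IsTriangulated] [T.IsClosedUnderIsomorphisms] in
theorem mem_fst [T.IsStableUnderRetracts] {A B : C} (h : T (sg (A ⊞ B))) : T (sg A) :=
  T.prop_of_retract (((⟨biprod.inl, biprod.fst, by simp⟩ : Retract A (A ⊞ B))).map
    (DerivedCategory.singleFunctor C 0)) h

omit [T.IsTriangulated] [T.IsClosedUnderIsomorphisms] in
theorem mem_snd [T.IsStableUnderRetracts] {A B : C} (h : T (sg (A ⊞ B))) : T (sg B) :=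
  T.prop_of_retract (((⟨biprod.inr, biprod.snd, by simp⟩ : Retract B (A ⊞ B))).map
    (DerivedCategory.singleFunctor C 0)) h

theorem mem_biprod {A B : C} (hA : T (sg A)) (hB : T (sg B)) : T (sg (A ⊞ B)) := by
  have hS : (ShortComplex.mk (biprod.inl : A ⟶ A ⊞ B) biprod.snd (by simp)).ShortExact :=
    (ShortComplex.Splitting.ofHasBinaryBiproduct A B).shortExact
  exact mem_mid T hS hA hB

omit [T.IsTriangulated] in
theorem mem_iso {A B : C} (e : A ≅ B) (hA : T (sg A)) : T (sg B) :=
  T.prop_of_iso ((DerivedCategory.singleFunctor C 0).mapIso e) hA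

/-- If a zero map has cone in a thick subcategory, its source is in the subcategory. -/
theorem mem_of_trW_zero [T.IsStableUnderRetracts] {A B : DerivedCategory C}
    (h : T.trW (0 : A ⟶ B)) : T A := by
  rw [ObjectProperty.trW_iff] at h
  obtain ⟨Z, g, k, mem, hZ⟩ := h
  have h1 := rot_of_distTriang _ mem
  -- the map `k : Z ⟶ A⟦1⟧` is a split epimorphism
  obtain ⟨s, hs⟩ := Triangle.coyoneda_exact₃ _ h1 (𝟙 (A⟦(1 : ℤ)⟧)) (by
    change 𝟙 _ ≫ (-((0 : A ⟶ B)⟦(1 : ℤ)⟧')) = 0
    rw [Functor.map_zero, neg_zero, comp_zero])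
  have h2 : T (A⟦(1 : ℤ)⟧) := T.prop_of_retract ⟨s, k, hs.symm⟩ hZ
  exact T.prop_of_iso ((shiftEquiv (DerivedCategory C) (1 : ℤ)).unitIso.symm.app A)
    (T.le_shift (-1 : ℤ) _ h2)

end

end Pool.Agent.R924
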