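import Mathlib
import Pool.Agent.R924.A1
import Pool.Agent.W456.Geo9

set_option autoImplicit false

/-!
Composites of locally vanishing morphisms vanish.
-/

universe u

open CategoryTheory CategoryTheory.Limits AlgebraicGeometry TopologicalSpace Pretriangulated

namespace Pool.Agent.R924

open Pool.Agent.W456

noncomputable section

attribute [local instance] HasDerivedCategory.standard Abelian.hasFiniteBiproducts

theorem exists_factor {X U : Scheme.{u}} (f : U ⟶ X) [IsOpenImmersion f]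
    (A : DerivedCategory X.Modules) :
    ∃ (A' : DerivedCategory X.Modules) (ρ : A ⟶ A'),
      (∀ (B : DerivedCategory X.Modules) (g : A ⟶ B), (resD f).map g = 0 →
        ∃ g' : A' ⟶ B, ρ ≫ g' = g) ∧
      (∀ z ∈ Set.range f, IsZero ((stD X z).obj A')) ∧
      (∀ z, IsZero ((stD X z).obj A) → IsZero ((stD X z).obj A')) := by
  let adj := dAdj (extAdj f)
  let ε : (extD f).obj ((resD f).obj A) ⟶ A := adj.counit.app A
  obtain ⟨A', ρ, v, hT⟩ := distinguished_cocone_triangle ε
  refine ⟨A', ρ, ?_, ?_, ?_⟩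
  · intro B g hg
    have h1 : ε ≫ g = 0 := by
      have h2 := adj.counit.naturality g
      have h3 : (extD f).map ((resD f).map g) = 0 := by
        rw [hg, Functor.map_zero]
      refine h2.symm.trans ?_
      rw [Functor.comp_map, h3, zero_comp]
    obtain ⟨g', hg'⟩ := Triangle.yoneda_exact₂ _ hT g h1
    exact ⟨g', hg'.symm⟩
  · rintro _ ⟨z, rfl⟩
    rw [isZero_stD_restrict_iff]
    apply Functor.map_isZero
    have hT' := (resD f).map_distinguished _ hT
    refine (Triangle.isZero₃_iff_isIso₁ _ hT').2 ?_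
    have h2 := adj.right_triangle_components A
    have h3 : IsIso (adj.unit.app ((resD f).obj A)) := by
      have : IsIso adj.unit := isIso_dAdj_unit (extAdj f)
      infer_instance
    exact @IsIso.of_isIso_fac_left _ _ _ _ _ _ _ _ h3 (IsIso.id _) h2
  · intro z hz
    have hT' := (stD X z).map_distinguished _ hT
    by_cases hr : z ∈ Set.range f
    · obtain ⟨z, rfl⟩ := hr
      refine Triangle.isZero₃_of_isZero₁₂ _ hT' ?_ hz
      change IsZero ((stD X (f z)).obj ((extD f).obj ((resD f).obj A)))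
      rw [isZero_stD_restrict_iff] at hz ⊢
      exact hz.of_iso ((stD U z).mapIso (resExt f ((resD f).obj A)).symm)
    · refine Triangle.isZero₃_of_isZero₁₂ _ hT' ?_ hz
      change IsZero ((stD X z).obj ((extD f).obj ((resD f).obj A)))
      rw [isZero_mapD_iff]
      intro i
      obtain ⟨e⟩ := mapD_homology (extZ f) ((resD f).obj A) i
      exact (isZero_stalk_ext f (Hh i ((resD f).obj A)) z hr).of_iso ((stalkF X z).mapIso e)

/-- The statement to be iterated: every object of the class maps, with cone in `T`, to a shift of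
an object of the class, in such a way that the map factors through an object which vanishes on the
given open sets. -/
theorem iterate_factor {X : Scheme.{u}} (T : ObjectProperty (DerivedCategory X.Modules))
    [T.IsTriangulated] [T.IsClosedUnderIsomorphisms] (𝒱 : X.Modules → Prop)
    (l : List X.Opens)
    (hstep : ∀ K, 𝒱 K → ∃ (K' : X.Modules) (_ : 𝒱 K') (ξ : sg K ⟶ (sg K')⟦(1 : ℤ)⟧), T.trW ξ ∧
      ∀ U ∈ l, (resD U.ι).map ξ = 0) :
    ∀ K, 𝒱 K → ∃ (K' : X.Modules) (_ : 𝒱 K') (n : ℤ) (B : DerivedCategory X.Modules)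
      (ρ : sg K ⟶ B) (g : B ⟶ (sg K')⟦n⟧), T.trW (ρ ≫ g) ∧
      ∀ U ∈ l, ∀ z ∈ U, IsZero ((stD X z).obj B) := by
  suffices H : ∀ l' : List X.Opens, (∀ U ∈ l', U ∈ l) →
      ∀ K, 𝒱 K → ∃ (K' : X.Modules) (_ : 𝒱 K') (n : ℤ) (B : DerivedCategory X.Modules)
      (ρ : sg K ⟶ B) (g : B ⟶ (sg K')⟦n⟧), T.trW (ρ ≫ g) ∧
      ∀ U ∈ l', ∀ z ∈ U, IsZero ((stD X z).obj B) from H l (fun _ h => h)
  intro l'
  induction l' with
  | nil =>
    intro _ K hK
    let e : sg K ≅ (sg K)⟦(0 : ℤ)⟧ := (shiftFunctorZero (DerivedCategory X.Modules) ℤ).symm.app _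
    refine ⟨K, hK, 0, sg K, 𝟙 _, e.hom, ?_, by simp⟩
    rw [Category.id_comp]
    exact MorphismProperty.of_isIso _ _
  | cons U l' ih =>
    intro hl K hK
    obtain ⟨K', hK', n, B, ρ, g, hg, hB⟩ := ih (fun V hV => hl V (List.mem_cons_of_mem _ hV)) K hK
    obtain ⟨K'', hK'', ξ, hξ, hξU⟩ := hstep K' hK'
    obtain ⟨B', ρ', h1, h2, h3⟩ := exists_factor U.ι B
    let ξ' : (sg K')⟦n⟧ ⟶ (sg K'')⟦(1 : ℤ) + n⟧ :=
      ξ⟦n⟧' ≫ (shiftFunctorAdd (DerivedCategory X.Modules) (1 : ℤ) n).inv.app (sg K'')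
    have hξ' : T.trW ξ' := T.trW.comp_mem _ _
      (ObjectProperty.trW.shift hξ n) (MorphismProperty.of_isIso _ _)
    have h4 : (resD U.ι).map (g ≫ ξ') = 0 := by
      have h5 : (resD U.ι).map (ξ⟦n⟧') = 0 := by
        have h6 := ((resD U.ι).commShiftIso n).hom.naturality ξ
        have h7 : (resD U.ι).map ξ = 0 := hξU U (hl U (List.mem_cons_self ..))
        rw [Functor.comp_map, Functor.comp_map, h7, Functor.map_zero, comp_zero] at h6
        exact (cancel_mono (((resD U.ι).commShiftIso n).hom.app _)).1 (h6.trans zero_comp.symm)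
      rw [Functor.map_comp, Functor.map_comp, h5, zero_comp, comp_zero]
    obtain ⟨g', hg'⟩ := h1 _ _ h4
    refine ⟨K'', hK'', 1 + n, B', ρ ≫ ρ', g', ?_, ?_⟩
    · rw [Category.assoc, hg', ← Category.assoc]
      exact T.trW.comp_mem _ _ hg hξ'
    · intro V hV z hz
      rcases List.mem_cons.1 hV with rfl | hV
      · exact h2 z (by
          have : Set.range V.ι = V := Scheme.Opens.range_ι V
          rw [this]
          exact hz)
      · exact h3 z (hB V hV z hz)

theorem mem_of_cover {X : Scheme.{u}} (T : ObjectProperty (DerivedCategory X.Modules))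
    [T.IsTriangulated] [T.IsClosedUnderIsomorphisms] [T.IsStableUnderRetracts]
    (𝒱 : X.Modules → Prop)
    (l : List X.Opens) (hl : ∀ x : X, ∃ U ∈ l, x ∈ U)
    (hstep : ∀ K, 𝒱 K → ∃ (K' : X.Modules) (_ : 𝒱 K') (ξ : sg K ⟶ (sg K')⟦(1 : ℤ)⟧), T.trW ξ ∧
      ∀ U ∈ l, (resD U.ι).map ξ = 0) (K : X.Modules) (hK : 𝒱 K) : T (sg K) := by
  obtain ⟨K', _, n, B, ρ, g, h1, h2⟩ := iterate_factor T 𝒱 l hstep K hK
  have hB : IsZero B := isZero_of_stD B fun x => by
    obtain ⟨U, hU, hx⟩ := hl x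
    exact h2 U hU x hx
  have h3 : ρ ≫ g = 0 := by
    rw [hB.eq_of_tgt ρ 0, zero_comp]
  rw [h3] at h1
  exact mem_of_trW_zero T h1

end

end Pool.Agent.R924
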