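import Pool.Agent.W506.Q2

set_option autoImplicit false

/-!
Morphisms out of quasi-coherent modules on an affine open.
-/

universe u

open CategoryTheory Limits TopologicalSpace AlgebraicGeometry Opposite

namespace Pool.Agent.R924

open Pool.Agent.W506

set_option backward.isDefEq.respectTransparency false

variable {X : Scheme.{u}} {K N : X.Modules} {U : X.Opens} (φ : Γ(K, U) →ₗ[Γ(X, U)] Γ(N, U))

/-- The graph of the extension of `φ`. -/
def Rel (W : X.Opens) (m : Γ(K, W)) (y : Γ(N, W)) : Prop :=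
  ∀ (g : Γ(X, U)) (hg : X.basicOpen g ≤ W), ∃ (k : ℕ) (t : Γ(K, U)),
    rs K (X.basicOpen_le g) t = ro (X.basicOpen_le g) g ^ k • rs K hg m ∧
    rs N (X.basicOpen_le g) (φ t) = ro (X.basicOpen_le g) g ^ k • rs N hg y

variable {φ}

lemma Rel.mono {W W' : X.Opens} {m : Γ(K, W)} {y : Γ(N, W)} (h : Rel φ W m y) (hW : W' ≤ W) :
    Rel φ W' (rs K hW m) (rs N hW y) := by
  intro g hg
  obtain ⟨k, t, h1, h2⟩ := h g (hg.trans hW)
  exact ⟨k, t, by rw [rs_rs]; exact h1, by rw [rs_rs]; exact h2⟩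

lemma Rel.unique (hU : IsAffineOpen U) (hK : QCOn K U) {W : X.Opens} (hWU : W ≤ U)
    {m : Γ(K, W)} {y y' : Γ(N, W)} (h : Rel φ W m y) (h' : Rel φ W m y') : y = y' := by
  apply ext_rs_of_mem
  intro x hx
  obtain ⟨g, hg, hxg⟩ := hU.exists_basicOpen_le (V := W) ⟨x, hx⟩ (hWU hx)
  refine ⟨X.basicOpen g, hg, hxg, ?_⟩
  obtain ⟨k, t, h1, h2⟩ := h g hg
  obtain ⟨k', t', h1', h2'⟩ := h' g hg
  have h3 : rs K (X.basicOpen_le g) (g ^ k' • t - g ^ k • t') = 0 := by
    rw [map_sub, rs_smul, rs_smul, h1, h1', smul_smul, smul_smul, map_pow, map_pow, mul_comm,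
      sub_self]
  obtain ⟨l, hl⟩ := hK.uniq U hU le_rfl g _ h3
  have h4 := congrArg (fun z => rs N (X.basicOpen_le g) (φ z)) hl
  simp only [map_smul, map_sub, rs_smul, map_zero, h2, h2', map_pow, smul_smul] at h4
  have hu := isUnit_ro_basicOpen g
  have h5 : (ro (X.basicOpen_le g) g ^ l * (ro (X.basicOpen_le g) g ^ k' *
      ro (X.basicOpen_le g) g ^ k)) • (rs N hg y - rs N hg y') = 0 := by
    rw [smul_sub, ← h4, smul_sub, smul_smul, smul_smul,
      mul_comm (ro (X.basicOpen_le g) g ^ k) (ro (X.basicOpen_le g) g ^ k')]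
  have h6 := ((hu.pow l).mul ((hu.pow k').mul (hu.pow k))).smul_eq_zero.1 h5
  exact sub_eq_zero.1 h6

lemma Rel.add {W : X.Opens} {m m' : Γ(K, W)} {y y' : Γ(N, W)} (h : Rel φ W m y)
    (h' : Rel φ W m' y') : Rel φ W (m + m') (y + y') := by
  intro g hg
  obtain ⟨k, t, h1, h2⟩ := h g hg
  obtain ⟨k', t', h1', h2'⟩ := h' g hg
  refine ⟨k + k', g ^ k' • t + g ^ k • t', ?_, ?_⟩
  · rw [map_add, rs_smul, rs_smul, h1, h1', map_add, smul_add, smul_smul, smul_smul, map_pow,
      map_pow, ← pow_add, ← pow_add, add_comm k' k]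
  · rw [map_add, map_smul, map_smul, map_add, rs_smul, rs_smul, h2, h2', map_add, smul_add,
      smul_smul, smul_smul, map_pow, map_pow, ← pow_add, ← pow_add, add_comm k' k]

lemma Rel.smul (hU : IsAffineOpen U) {W : X.Opens} {m : Γ(K, W)} {y : Γ(N, W)} (r : Γ(X, W))
    (h : Rel φ W m y) : Rel φ W (r • m) (r • y) := by
  intro g hg
  obtain ⟨k, t, h1, h2⟩ := h g hg
  obtain ⟨l, b, hb⟩ := ro_ext hU g (ro hg r)
  refine ⟨l + k, b • t, ?_, ?_⟩
  · rw [rs_smul, rs_smul, h1, hb, smul_smul, smul_smul, pow_add]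
    congr 1
    ring
  · rw [map_smul, rs_smul, rs_smul, h2, hb, smul_smul, smul_smul, pow_add]
    congr 1
    ring

/-- A single fraction determines the relation. -/
lemma rel_of_frac (hU : IsAffineOpen U) (g : Γ(X, U)) (k : ℕ) (t : Γ(K, U))
    (m : Γ(K, X.basicOpen g)) (y : Γ(N, X.basicOpen g))
    (h1 : rs K (X.basicOpen_le g) t = ro (X.basicOpen_le g) g ^ k • m)
    (h2 : rs N (X.basicOpen_le g) (φ t) = ro (X.basicOpen_le g) g ^ k • y) :
    Rel φ (X.basicOpen g) m y := by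
  intro g' hg'
  have hu : IsUnit (ro (X.basicOpen_le g') g) := by
    have := (isUnit_ro_basicOpen g).map (ro hg')
    rwa [ro_ro] at this
  obtain ⟨u, hu⟩ := hu.exists_left_inv
  obtain ⟨j, b, hb⟩ := ro_ext hU g' u
  have h3 : ro (X.basicOpen_le g') b ^ k * ro (X.basicOpen_le g') g ^ k =
      ro (X.basicOpen_le g') g' ^ (j * k) := by
    rw [hb, ← mul_pow, mul_assoc, hu, mul_one, pow_mul]
  refine ⟨j * k, b ^ k • t, ?_, ?_⟩
  · have h4 := congrArg (rs K hg') h1
    rw [rs_rs, rs_smul, map_pow, ro_ro] at h4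
    rw [rs_smul, h4, smul_smul, map_pow, h3]
  · have h4 := congrArg (rs N hg') h2
    rw [rs_rs, rs_smul, map_pow, ro_ro] at h4
    rw [map_smul, rs_smul, h4, smul_smul, map_pow, h3]

lemma exists_rel (hU : IsAffineOpen U) (hK : QCOn K U) {W : X.Opens} (hWU : W ≤ U)
    (m : Γ(K, W)) : ∃ y, Rel φ W m y := by
  -- existence on basic opens
  have key : ∀ (g : Γ(X, U)) (hg : X.basicOpen g ≤ W), ∃ (k : ℕ) (t : Γ(K, U))
      (y : Γ(N, X.basicOpen g)),
      rs K (X.basicOpen_le g) t = ro (X.basicOpen_le g) g ^ k • rs K hg m ∧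
      rs N (X.basicOpen_le g) (φ t) = ro (X.basicOpen_le g) g ^ k • y := by
    intro g hg
    obtain ⟨k, t, ht⟩ := hK.ext U hU le_rfl g (rs K hg m)
    obtain ⟨v, hv⟩ := (isUnit_ro_basicOpen g).exists_right_inv
    refine ⟨k, t, v ^ k • rs N (X.basicOpen_le g) (φ t), ht, ?_⟩
    rw [smul_smul, ← mul_pow, hv, one_pow, one_smul]
  choose k t y h1 h2 using key
  have hrel : ∀ (g : Γ(X, U)) (hg : X.basicOpen g ≤ W),
      Rel φ (X.basicOpen g) (rs K hg m) (y g hg) := fun g hg =>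
    rel_of_frac hU g _ _ _ _ (h1 g hg) (h2 g hg)
  let I := {g : Γ(X, U) // X.basicOpen g ≤ W}
  have hcov : W ≤ iSup (fun g : I => X.basicOpen g.1) := by
    intro x hx
    obtain ⟨g, hg, hxg⟩ := hU.exists_basicOpen_le (V := W) ⟨x, hx⟩ (hWU hx)
    exact Opens.mem_iSup.2 ⟨⟨g, hg⟩, hxg⟩
  obtain ⟨Y, hY⟩ := exists_glue (M := N) (fun g : I => X.basicOpen g.1) (fun g => g.2) hcov
    (fun g => y g.1 g.2) (by
      intro g g'
      apply Rel.unique (φ := φ) hU hK (m := rs K (inf_le_left.trans g.2) m)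
        ((inf_le_left).trans (X.basicOpen_le g.1))
      · have := (hrel g.1 g.2).mono (inf_le_left : X.basicOpen g.1 ⊓ X.basicOpen g'.1 ≤ _)
        rwa [rs_rs] at this
      · have := (hrel g'.1 g'.2).mono (inf_le_right : X.basicOpen g.1 ⊓ X.basicOpen g'.1 ≤ _)
        rwa [rs_rs] at this)
  refine ⟨Y, fun g hg => ⟨k g hg, t g hg, h1 g hg, ?_⟩⟩
  rw [h2 g hg]
  have := hY ⟨g, hg⟩
  rw [← this]

/-- Linear maps out of the sections of a quasi-coherent module extend to morphisms. -/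
theorem exists_hom_of_qc (hU : IsAffineOpen U) (hK : QCOn K U) (hN : LocalOn U N) :
    ∃ f : K ⟶ N, ∀ m, ap f U m = φ m := by
  have hex : ∀ (V : X.Opens) (m : Γ(K, V)), ∃ w : Γ(N, V),
      Rel φ (V ⊓ U) (rs K inf_le_left m) (rs N inf_le_left w) := by
    intro V m
    obtain ⟨y, hy⟩ := exists_rel (φ := φ) hU hK (inf_le_right : V ⊓ U ≤ U)
      (rs K (inf_le_left : V ⊓ U ≤ V) m)
    obtain ⟨w, rfl⟩ := (hN V).2 y
    exact ⟨w, hy⟩
  choose w hw using hex
  have huniq : ∀ (V : X.Opens) (m : Γ(K, V)) (w' : Γ(N, V)),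
      Rel φ (V ⊓ U) (rs K inf_le_left m) (rs N inf_le_left w') → w' = w V m := by
    intro V m w' h
    apply (hN V).1
    exact h.unique hU hK inf_le_right (hw V m)
  let f : K ⟶ N := mkHom K N
    (fun V =>
      { toFun := w V
        map_add' := fun m m' => by
          symm
          apply huniq
          rw [map_add, map_add]
          exact (hw V m).add (hw V m')
        map_smul' := fun r m => by
          symm
          apply huniq
          rw [RingHom.id_apply, rs_smul, rs_smul]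
          exact (hw V m).smul hU _ })
    (fun V' V h m => by
      symm
      apply huniq
      change Rel φ (V' ⊓ U) (rs K _ (rs K h m)) (rs N _ (rs N h (w V m)))
      have := (hw V m).mono (inf_le_inf_right U h)
      rw [rs_rs, rs_rs] at this
      rw [rs_rs, rs_rs]
      exact this)
  refine ⟨f, fun m => ?_⟩
  symm
  apply huniq
  intro g hg
  refine ⟨0, m, ?_, ?_⟩
  · rw [pow_zero, one_smul, rs_rs]
  · rw [pow_zero, one_smul, rs_rs]

/-- Morphisms out of a quasi-coherent module are determined by their values on sections. -/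
theorem hom_ext_of_qc (hU : IsAffineOpen U) (hK : QCOn K U) (hN : LocalOn U N) {f f' : K ⟶ N}
    (h : ∀ m, ap f U m = ap f' U m) : f = f' := by
  apply ap_ext
  intro V m
  apply (hN V).1
  rw [← ap_rs, ← ap_rs]
  apply ext_rs_of_mem
  intro x hx
  obtain ⟨g, hg, hxg⟩ := hU.exists_basicOpen_le (V := V ⊓ U) ⟨x, hx⟩ hx.2
  refine ⟨X.basicOpen g, hg, hxg, ?_⟩
  obtain ⟨k, t, ht⟩ := hK.ext U hU le_rfl g (rs K hg (rs K inf_le_left m))
  obtain ⟨v, hv⟩ := (isUnit_ro_basicOpen g).exists_left_inv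
  have h1 : ∀ f : K ⟶ N, rs N hg (ap f (V ⊓ U) (rs K inf_le_left m)) =
      v ^ k • rs N (X.basicOpen_le g) (ap f U t) := by
    intro f
    rw [← ap_rs, ← ap_rs f (X.basicOpen_le g), ht, map_smul, smul_smul, ← mul_pow, hv, one_pow,
      one_smul]
  rw [h1, h1, h]

end Pool.Agent.R924
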