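import Pool.Agent.R924.A2
import Pool.Agent.R924.B1

set_option autoImplicit false

/-!
Short exact sequences with projective quotient split over affine opens.
-/

universe u

open CategoryTheory Limits TopologicalSpace AlgebraicGeometry Opposite Pretriangulated

namespace Pool.Agent.R924

open Pool.Agent.W506 Pool.Agent.W456

set_option backward.isDefEq.respectTransparency false

attribute [local instance] HasDerivedCategory.standard

variable {X : Scheme.{u}}

theorem exists_section (S : ShortComplex X.Modules) (hS : S.ShortExact) {U : X.Opens}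
    (hU : IsAffineOpen U) (h₁ : QCOn S.X₁ U) (h₃ : QCOn S.X₃ U)
    (hp : Module.Projective Γ(X, U) Γ(S.X₃, U)) :
    ∃ σ : (Scheme.Modules.restrictFunctor U.ι).obj S.X₃ ⟶
        (Scheme.Modules.restrictFunctor U.ι).obj S.X₂,
      σ ≫ (Scheme.Modules.restrictFunctor U.ι).map S.g = 𝟙 _ := by
  have hsurj := ap_surjective_of_sumOn S hS h₁.sumOn hU le_rfl
  obtain ⟨σ₀, hσ₀⟩ := Module.projective_lifting_property (ap S.g U)
    (LinearMap.id : Γ(S.X₃, U) →ₗ[Γ(X, U)] Γ(S.X₃, U)) hsurj
  have hσ₀' : ∀ y, ap S.g U (σ₀ y) = y := fun y => congr($hσ₀ y)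
  let adj := Scheme.Modules.restrictAdjunction U.ι
  let φ : Γ(S.X₃, U) →ₗ[Γ(X, U)] Γ(jj U S.X₂, U) := (ap (jjU U S.X₂) U) ∘ₗ σ₀
  obtain ⟨f, hf⟩ := exists_hom_of_qc (φ := φ) hU h₃ (localOn_jj U S.X₂)
  refine ⟨(adj.homEquiv _ _).symm f, ?_⟩
  rw [← adj.homEquiv_naturality_right_symm]
  have h4 : f ≫ (Scheme.Modules.pushforward U.ι).map
      ((Scheme.Modules.restrictFunctor U.ι).map S.g) = adj.unit.app S.X₃ := by
    apply hom_ext_of_qc hU h₃ (localOn_jj U S.X₃)
    intro m
    have hnat : S.g ≫ jjU U S.X₃ = jjU U S.X₂ ≫ (Scheme.Modules.pushforward U.ι).map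
      ((Scheme.Modules.restrictFunctor U.ι).map S.g) := adj.unit.naturality S.g
    have h5 : ap ((Scheme.Modules.pushforward U.ι).map
      ((Scheme.Modules.restrictFunctor U.ι).map S.g)) U (ap f U m) = ap (jjU U S.X₃) U m := by
      rw [hf]
      change ap _ U (ap (jjU U S.X₂) U (σ₀ m)) = _
      rw [← ap_comp, ← hnat, ap_comp, hσ₀']
      rfl
    exact h5
  rw [h4, ← Adjunction.homEquiv_id, Equiv.symm_apply_apply]

theorem resD_singleδ_eq_zero (S : ShortComplex X.Modules) (hS : S.ShortExact) (U : X.Opens)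
    (σ : (Scheme.Modules.restrictFunctor U.ι).obj S.X₃ ⟶
        (Scheme.Modules.restrictFunctor U.ι).obj S.X₂)
    (hσ : σ ≫ (Scheme.Modules.restrictFunctor U.ι).map S.g = 𝟙 _) :
    (resD U.ι).map hS.singleδ = 0 := by
  let F := Scheme.Modules.restrictFunctor U.ι
  let e := F.mapDerivedCategorySingleFunctor 0
  have hT := (resD U.ι).map_distinguished _ hS.singleTriangle_distinguished
  have h1 : (resD U.ι).map ((DerivedCategory.singleFunctor X.Modules 0).map S.g) ≫
      (resD U.ι).map hS.singleδ = 0 := by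
    rw [← Functor.map_comp]
    have := comp_distTriang_mor_zero₂₃ _ hS.singleTriangle_distinguished
    have h2 : (DerivedCategory.singleFunctor X.Modules 0).map S.g ≫ hS.singleδ = 0 := this
    rw [h2, Functor.map_zero]
  let s : (resD U.ι).obj (sg S.X₃) ⟶ (resD U.ι).obj (sg S.X₂) :=
    e.hom.app S.X₃ ≫ (DerivedCategory.singleFunctor _ 0).map σ ≫ e.inv.app S.X₂
  have h3 : s ≫ (resD U.ι).map ((DerivedCategory.singleFunctor X.Modules 0).map S.g) = 𝟙 _ := by
    have h4 := e.inv.naturality S.g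
    have h5 : e.inv.app S.X₂ ≫ (resD U.ι).map ((DerivedCategory.singleFunctor X.Modules 0).map S.g)
        = (DerivedCategory.singleFunctor _ 0).map (F.map S.g) ≫ e.inv.app S.X₃ := h4.symm
    simp only [s, Category.assoc]
    rw [h5, ← Functor.map_comp_assoc, hσ, CategoryTheory.Functor.map_id, Category.id_comp,
      Iso.hom_inv_id_app]
    rfl
  rw [← Category.id_comp ((resD U.ι).map hS.singleδ), ← h3, Category.assoc, h1, comp_zero]

end Pool.Agent.R924
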