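import Pool.Agent.R924.B2

set_option autoImplicit false

/-!
Coherent modules belong to any thick subcategory containing enough vector bundles.
-/

universe u

open CategoryTheory Limits TopologicalSpace AlgebraicGeometry Opposite Pretriangulated

namespace Pool.Agent.R924

open Pool.Agent.W506 Pool.Agent.W456

set_option backward.isDefEq.respectTransparency false

attribute [local instance] HasDerivedCategory.standard

variable {X : Scheme.{u}} {J : Type}

/-- Coherence on the charts. -/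
def CohU (U : J → X.Opens) (M : X.Modules) : Prop :=
  ∀ i, QCOn M (U i) ∧ Module.Finite Γ(X, U i) Γ(M, U i)

/-- Projectivity on the charts. -/
def ProjU (U : J → X.Opens) (M : X.Modules) : Prop :=
  ∀ i, Module.Projective Γ(X, U i) Γ(M, U i)

/-- Charts with noetherian coordinate rings of finite global dimension. -/
structure IsGood (U : J → X.Opens) (N : ℕ) : Prop where
  aff : ∀ i, IsAffineOpen (U i)
  cover : ∀ x : X, ∃ i, x ∈ U i
  noeth : ∀ i, IsNoetherianRing Γ(X, U i)
  dim : ∀ i (M : Type u) [AddCommGroup M] [Module Γ(X, U i) M], Hilb.PdLT Γ(X, U i) M (N + 1)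

variable {U : J → X.Opens} {N : ℕ}

lemma CohU.kernel (h : IsGood U N) (S : ShortComplex X.Modules) (hS : S.ShortExact)
    (h₂ : CohU U S.X₂) (h₃ : CohU U S.X₃) : CohU U S.X₁ := by
  intro i
  have := hS.mono_f
  have := (h₂ i).2
  have := h.noeth i
  exact ⟨qcOn_kernel S hS.exact (h₂ i).1 (h₃ i).1,
    Module.Finite.of_injective (ap S.f (U i)) (ap_injective S.f _)⟩

lemma pd_kernel (h : IsGood U N) (j : ℕ) (S : ShortComplex X.Modules) (hS : S.ShortExact)
    (h₂ : CohU U S.X₂) (hp : ProjU U S.X₂) (h₃ : CohU U S.X₃)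
    (hd : ∀ i, Hilb.PdLT Γ(X, U i) Γ(S.X₃, U i) (j + 2)) (i : J) :
    Hilb.PdLT Γ(X, U i) Γ(S.X₁, U i) (j + 1) := by
  have := hS.mono_f
  have hq := (h₂.kernel h S hS h₃ i).1
  have hsurj := ap_surjective_of_sumOn S hS hq.sumOn (h.aff i) le_rfl
  have hex : Function.Exact (ap S.f (U i)) (ap S.g (U i)) := by
    intro y
    constructor
    · intro hy
      exact ap_exact S hS.exact _ _ hy
    · rintro ⟨z, rfl⟩
      rw [← ap_comp, S.zero]
      rfl
  exact Hilb.pdLT_left _ _ (ap_injective S.f _) hsurj hex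
    (Hilb.pdLT_mono (by omega) (Hilb.pdLT_one_of_projective (hp i))) (hd i)

lemma ProjU.kernel (h : IsGood U N) (S : ShortComplex X.Modules) (hS : S.ShortExact)
    (h₂ : CohU U S.X₂) (hp : ProjU U S.X₂) (h₃ : CohU U S.X₃) (hp' : ProjU U S.X₃) :
    ProjU U S.X₁ := fun i =>
  Hilb.projective_of_pdLT_one (pd_kernel h 0 S hS h₂ hp h₃
    (fun i => Hilb.pdLT_mono (by omega) (Hilb.pdLT_one_of_projective (hp' i))) i)

/-- The short exact sequence given by an epimorphism. -/
noncomputable abbrev kerSC {M Q : X.Modules} (φ : Q ⟶ M) : ShortComplex X.Modules :=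
  ShortComplex.mk (kernel.ι φ) φ (kernel.condition φ)

lemma kerSC_shortExact {M Q : X.Modules} (φ : Q ⟶ M) [Epi φ] : (kerSC φ).ShortExact :=
  { exact := ShortComplex.exact_of_f_is_kernel _ (kernelIsKernel φ) }

variable [Finite J]

/-- Vector bundles belong to thick subcategories with enough vector bundles. -/
theorem bundle_mem (h : IsGood U N) (T : ObjectProperty (DerivedCategory X.Modules))
    [T.IsTriangulated] [T.IsClosedUnderIsomorphisms] [T.IsStableUnderRetracts]
    (hcov : ∀ M, CohU U M → ∃ (Q : X.Modules) (φ : Q ⟶ M), CohU U Q ∧ ProjU U Q ∧ T (sg Q) ∧ Epi φ)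
    (K : X.Modules) (hK : CohU U K) (hK' : ProjU U K) : T (sg K) := by
  have := Fintype.ofFinite J
  refine mem_of_cover T (fun K => CohU U K ∧ ProjU U K) (Finset.univ.toList.map U) ?_ ?_ K
    ⟨hK, hK'⟩
  · intro x
    obtain ⟨i, hi⟩ := h.cover x
    exact ⟨U i, List.mem_map.2 ⟨i, by simp, rfl⟩, hi⟩
  · rintro K ⟨hK, hK'⟩
    obtain ⟨Q, φ, hQ, hQ', hT, hφ⟩ := hcov K hK
    have hS := kerSC_shortExact φ
    refine ⟨kernel φ, ⟨hQ.kernel h _ hS hK, ProjU.kernel h _ hS hQ hQ' hK hK'⟩,
      hS.singleδ, ?_, ?_⟩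
    · exact (ObjectProperty.trW_iff_of_distinguished' T _
        (rot_of_distTriang _ hS.singleTriangle_distinguished)).2 hT
    · intro V hV
      obtain ⟨i, -, rfl⟩ := List.mem_map.1 hV
      obtain ⟨σ, hσ⟩ := exists_section _ hS (h.aff i) (hQ.kernel h _ hS hK i).1 (hK i).1 (hK' i)
      exact resD_singleδ_eq_zero _ hS _ σ hσ

theorem coh_mem_aux (h : IsGood U N) (T : ObjectProperty (DerivedCategory X.Modules))
    [T.IsTriangulated] [T.IsClosedUnderIsomorphisms] [T.IsStableUnderRetracts]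
    (hcov : ∀ M, CohU U M → ∃ (Q : X.Modules) (φ : Q ⟶ M), CohU U Q ∧ ProjU U Q ∧ T (sg Q) ∧ Epi φ)
    (j : ℕ) : ∀ M : X.Modules, CohU U M → (∀ i, Hilb.PdLT Γ(X, U i) Γ(M, U i) (j + 1)) →
      T (sg M) := by
  induction j with
  | zero =>
    intro M hM hd
    exact bundle_mem h T hcov M hM fun i => Hilb.projective_of_pdLT_one (hd i)
  | succ j ih =>
    intro M hM hd
    obtain ⟨Q, φ, hQ, hQ', hT, hφ⟩ := hcov M hM
    have hS := kerSC_shortExact φ
    exact mem_right T hS (ih _ (hQ.kernel h _ hS hM) (pd_kernel h j _ hS hQ hQ' hM hd)) hT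

/-- Coherent modules belong to thick subcategories with enough vector bundles. -/
theorem coh_mem (h : IsGood U N) (T : ObjectProperty (DerivedCategory X.Modules))
    [T.IsTriangulated] [T.IsClosedUnderIsomorphisms] [T.IsStableUnderRetracts]
    (hcov : ∀ M, CohU U M → ∃ (Q : X.Modules) (φ : Q ⟶ M), CohU U Q ∧ ProjU U Q ∧ T (sg Q) ∧ Epi φ)
    (M : X.Modules) (hM : CohU U M) : T (sg M) :=
  coh_mem_aux h T hcov N M hM fun i => h.dim i _

end Pool.Agent.R924
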