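import Pool.Agent.W506.Q2

set_option autoImplicit false

/-!
Coherence is local.
-/

universe u

open CategoryTheory Limits TopologicalSpace AlgebraicGeometry Opposite

namespace Pool.Agent.R924

open Pool.Agent.W506

set_option backward.isDefEq.respectTransparency false

variable {X : Scheme.{u}}

lemma exists_finite_cover {W : X.Opens} (hW : IsAffineOpen W) (P : Γ(X, W) → Prop)
    (h : ∀ x ∈ W, ∃ g : Γ(X, W), x ∈ X.basicOpen g ∧ P g) :
    ∃ (n : ℕ) (g : Fin n → Γ(X, W)), (∀ i, P (g i)) ∧ W ≤ ⨆ i, X.basicOpen (g i) := by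
  choose! g hg hP using h
  obtain ⟨t, ht⟩ := hW.isCompact.elim_finite_subcover
    (fun x : W => (X.basicOpen (g x.1) : Set X)) (fun x => (X.basicOpen (g x.1)).isOpen)
    (fun x hx => Set.mem_iUnion.2 ⟨⟨x, hx⟩, hg x hx⟩)
  let e := t.equivFin.symm
  refine ⟨t.card, fun i => g (e i).1.1, fun i => hP _ (e i).1.2, ?_⟩
  intro x hx
  obtain ⟨y, hy⟩ := Set.mem_iUnion.1 (ht hx)
  obtain ⟨hyt, hxy⟩ := Set.mem_iUnion.1 hy
  refine Opens.mem_iSup.2 ⟨t.equivFin ⟨y, hyt⟩, ?_⟩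
  simp only [e, Equiv.symm_apply_apply]
  exact hxy

lemma exists_sum_eq {n : ℕ} (k : Fin n → ℕ) : ∀ i, ∃ l, ∑ j, k j = l + k i := fun i =>
  ⟨∑ j ∈ Finset.univ.erase i, k j, (Finset.sum_erase_add _ _ (Finset.mem_univ i)).symm⟩

/-- Quasi-coherence is local. -/
theorem qcOn_of_local {M : X.Modules} {W : X.Opens}
    (h : ∀ x ∈ W, ∃ V : X.Opens, x ∈ V ∧ QCOn M V) : QCOn M W := by
  have hcov : ∀ W' : X.Opens, IsAffineOpen W' → W' ≤ W →
      ∃ (n : ℕ) (g : Fin n → Γ(X, W')), (∀ i, QCOn M (X.basicOpen (g i))) ∧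
        W' ≤ ⨆ i, X.basicOpen (g i) := by
    intro W' hW' hle
    apply exists_finite_cover hW' (fun g => QCOn M (X.basicOpen g))
    intro x hx
    obtain ⟨V, hxV, hV⟩ := h x (hle hx)
    obtain ⟨g, hg, hxg⟩ := hW'.exists_basicOpen_le (V := V ⊓ W') ⟨x, hxV, hx⟩ hx
    exact ⟨g, hxg, hV.mono (hg.trans inf_le_left)⟩
  have uniq : ∀ (W' : X.Opens), IsAffineOpen W' → W' ≤ W → ∀ (f : Γ(X, W')) (t : Γ(M, W')),
      rs M (X.basicOpen_le f) t = 0 → ∃ k : ℕ, f ^ k • t = 0 := by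
    intro W' hW' hle f t ht
    obtain ⟨n, g, hg, hc⟩ := hcov W' hW' hle
    have h1 : ∀ i, ∃ k : ℕ, ro (X.basicOpen_le (g i)) f ^ k •
        rs M (X.basicOpen_le (g i)) t = 0 := by
      intro i
      refine (hg i).uniq _ (hW'.basicOpen _) le_rfl _ _ ?_
      rw [rs_rs]
      have h2 : X.basicOpen (ro (X.basicOpen_le (g i)) f) ≤ X.basicOpen f := by
        rw [basicOpen_ro]
        exact inf_le_right
      have h3 := congrArg (rs M h2) ht
      rw [rs_rs, map_zero] at h3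
      exact h3
    choose k hk using h1
    refine ⟨∑ i, k i, ?_⟩
    apply ext_rs (M := M) (fun i => X.basicOpen (g i)) (fun i => X.basicOpen_le _) hc
    intro i
    obtain ⟨l, hl⟩ := exists_sum_eq k i
    rw [rs_smul, map_pow, hl, pow_add, mul_smul, hk, smul_zero, map_zero]
  refine ⟨?_, uniq⟩
  intro W' hW' hle f s
  obtain ⟨n, g, hg, hc⟩ := hcov W' hW' hle
  have hD : ∀ i, X.basicOpen (ro (X.basicOpen_le (g i)) f) = X.basicOpen (g i) ⊓ X.basicOpen f :=
    fun i => basicOpen_ro _ _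
  have h1 : ∀ i, ∃ (k : ℕ) (t : Γ(M, X.basicOpen (g i))),
      rs M (inf_le_left : X.basicOpen (g i) ⊓ X.basicOpen f ≤ _) t =
        ro inf_le_left (ro (X.basicOpen_le (g i)) f) ^ k •
          rs M (inf_le_right : X.basicOpen (g i) ⊓ X.basicOpen f ≤ _) s := fun i =>
    (hg i).ext' (hW'.basicOpen _) le_rfl _ (hD i) inf_le_left _
  choose k t ht using h1
  have hl := exists_sum_eq k
  choose l hl using hl
  obtain ⟨d, hd⟩ : ∃ d, d = ∑ j, k j := ⟨_, rfl⟩
  obtain ⟨t₁, ht₁⟩ : ∃ t₁ : ∀ i, Γ(M, X.basicOpen (g i)), ∀ i,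
      rs M (inf_le_left : X.basicOpen (g i) ⊓ X.basicOpen f ≤ _) (t₁ i) =
        ro inf_le_left (ro (X.basicOpen_le (g i)) f) ^ d •
          rs M (inf_le_right : X.basicOpen (g i) ⊓ X.basicOpen f ≤ _) s := by
    refine ⟨fun i => ro (X.basicOpen_le (g i)) f ^ l i • t i, fun i => ?_⟩
    rw [rs_smul, ht, map_pow, smul_smul, ← pow_add, hd, hl i]
  have h2 : ∀ p : Fin n × Fin n, ∃ m : ℕ,
      ro ((inf_le_left : X.basicOpen (g p.1) ⊓ X.basicOpen (g p.2) ≤ _).trans
        (X.basicOpen_le (g p.1))) f ^ m •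
        (rs M (inf_le_left : X.basicOpen (g p.1) ⊓ X.basicOpen (g p.2) ≤ _) (t₁ p.1) -
          rs M (inf_le_right : X.basicOpen (g p.1) ⊓ X.basicOpen (g p.2) ≤ _) (t₁ p.2)) = 0 := by
    rintro ⟨i, j⟩
    have haff : IsAffineOpen (X.basicOpen (g i) ⊓ X.basicOpen (g j)) := by
      rw [← X.basicOpen_mul]
      exact hW'.basicOpen _
    refine (hg i).uniq' (D := (X.basicOpen (g i) ⊓ X.basicOpen (g j)) ⊓ X.basicOpen f) haff
      inf_le_left _ (basicOpen_ro _ _) inf_le_left _ ?_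
    rw [map_sub, rs_rs, rs_rs, sub_eq_zero]
    have e1 := congrArg (rs M (le_inf (inf_le_left.trans inf_le_left) inf_le_right :
      (X.basicOpen (g i) ⊓ X.basicOpen (g j)) ⊓ X.basicOpen f ≤
        X.basicOpen (g i) ⊓ X.basicOpen f)) (ht₁ i)
    have e2 := congrArg (rs M (le_inf (inf_le_left.trans inf_le_right) inf_le_right :
      (X.basicOpen (g i) ⊓ X.basicOpen (g j)) ⊓ X.basicOpen f ≤
        X.basicOpen (g j) ⊓ X.basicOpen f)) (ht₁ j)
    rw [rs_rs, rs_smul, rs_rs, map_pow, ro_ro, ro_ro] at e1 e2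
    exact e1.trans e2.symm
  choose m hm using h2
  have hl' : ∀ p, ∃ l, ∑ p, m p = l + m p := fun i => ⟨∑ j ∈ Finset.univ.erase i, m j,
    (Finset.sum_erase_add _ _ (Finset.mem_univ i)).symm⟩
  choose l' hl' using hl'
  obtain ⟨K, hK⟩ : ∃ K, K = ∑ p, m p := ⟨_, rfl⟩
  obtain ⟨T, hT⟩ := exists_glue (M := M) (fun i => X.basicOpen (g i))
    (fun i => X.basicOpen_le (g i)) hc
    (fun i => ro (X.basicOpen_le (g i)) f ^ K • t₁ i) (by
      intro i j
      rw [rs_smul, rs_smul, map_pow, map_pow, ro_ro, ro_ro, ← sub_eq_zero, ← smul_sub, hK,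
        hl' (i, j), pow_add, mul_smul, hm (i, j), smul_zero])
  refine ⟨K + d, T, ?_⟩
  apply ext_rs (M := M) (fun i => X.basicOpen (g i) ⊓ X.basicOpen f) (fun i => inf_le_right)
  · intro x hx
    obtain ⟨i, hi⟩ := Opens.mem_iSup.1 (hc ((X.basicOpen_le f) hx))
    exact Opens.mem_iSup.2 ⟨i, hi, hx⟩
  · intro i
    have e1 := congrArg (rs M (inf_le_left : X.basicOpen (g i) ⊓ X.basicOpen f ≤ _)) (hT i)
    rw [rs_rs, rs_smul, ht₁, map_pow, smul_smul, ← pow_add, ro_ro] at e1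
    rw [rs_rs, rs_smul, map_pow, ro_ro]
    exact e1

/-- Finite generation on an affine open from a cover by basic opens. -/
theorem finite_of_cover {M : X.Modules} {W : X.Opens} (hW : IsAffineOpen W) (hM : QCOn M W)
    {n : ℕ} (g : Fin n → Γ(X, W)) (hc : W ≤ ⨆ i, X.basicOpen (g i))
    (hfin : ∀ i, Module.Finite Γ(X, X.basicOpen (g i)) Γ(M, X.basicOpen (g i))) :
    Module.Finite Γ(X, W) Γ(M, W) := by
  classical
  have hspan : Ideal.span (Set.range g) = ⊤ := by
    rw [← hW.self_le_iSup_basicOpen_iff, iSup_subtype, iSup_range]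
    exact hc
  -- generators of the sections over the basic opens coming from `W`
  have h1 : ∀ i, ∃ S : Finset Γ(M, W), Submodule.span Γ(X, X.basicOpen (g i))
      (rs M (X.basicOpen_le (g i)) '' (S : Set Γ(M, W))) = ⊤ := by
    intro i
    obtain ⟨S, hS⟩ := (hfin i).1
    choose k t ht using fun s : Γ(M, X.basicOpen (g i)) => hM.ext W hW le_rfl (g i) s
    refine ⟨S.image t, ?_⟩
    rw [eq_top_iff, ← hS, Submodule.span_le]
    intro s hs
    obtain ⟨v, hv⟩ := (isUnit_ro_basicOpen (g i)).exists_left_inv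
    have h2 : s = v ^ k s • rs M (X.basicOpen_le (g i)) (t s) := by
      rw [ht, smul_smul, ← mul_pow, hv, one_pow, one_smul]
    rw [SetLike.mem_coe, h2]
    apply Submodule.smul_mem
    apply Submodule.subset_span
    exact ⟨t s, by simpa using ⟨s, hs, rfl⟩, rfl⟩
  choose S hS using h1
  refine ⟨Finset.univ.biUnion S, ?_⟩
  rw [eq_top_iff]
  intro m _
  refine Submodule.mem_of_span_eq_top_of_smul_pow_mem _ (Set.range g) hspan m ?_
  rintro ⟨_, i, rfl⟩
  have h2 : rs M (X.basicOpen_le (g i)) m ∈ Submodule.span Γ(X, X.basicOpen (g i))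
      (rs M (X.basicOpen_le (g i)) '' (S i : Set Γ(M, W))) := by rw [hS]; trivial
  -- clearing denominators
  have h3 : ∀ s ∈ Submodule.span Γ(X, X.basicOpen (g i))
      (rs M (X.basicOpen_le (g i)) '' (S i : Set Γ(M, W))), ∃ (k : ℕ) (t : Γ(M, W)),
      t ∈ Submodule.span Γ(X, W) (S i : Set Γ(M, W)) ∧
      rs M (X.basicOpen_le (g i)) t = ro (X.basicOpen_le (g i)) (g i) ^ k • s := by
    intro s hs
    induction hs using Submodule.span_induction with
    | mem x hx =>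
      obtain ⟨y, hy, rfl⟩ := hx
      exact ⟨0, y, Submodule.subset_span hy, by simp⟩
    | zero => exact ⟨0, 0, zero_mem _, by simp⟩
    | add x y _ _ hx hy =>
      obtain ⟨k, t, ht, h⟩ := hx
      obtain ⟨k', t', ht', h'⟩ := hy
      refine ⟨k + k', g i ^ k' • t + g i ^ k • t',
        add_mem (Submodule.smul_mem _ _ ht) (Submodule.smul_mem _ _ ht'), ?_⟩
      rw [map_add, rs_smul, rs_smul, h, h', map_pow, map_pow, smul_smul, smul_smul, ← pow_add,
        ← pow_add, add_comm k' k, smul_add]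
    | smul a x _ hx =>
      obtain ⟨k, t, ht, h⟩ := hx
      obtain ⟨l, b, hb⟩ := ro_ext hW (g i) a
      refine ⟨l + k, b • t, Submodule.smul_mem _ _ ht, ?_⟩
      rw [rs_smul, h, hb, smul_smul, smul_smul, pow_add]
      congr 1
      ring
  obtain ⟨k, t, ht, h⟩ := h3 _ h2
  have h4 : rs M (X.basicOpen_le (g i)) (g i ^ k • m - t) = 0 := by
    rw [map_sub, rs_smul, map_pow, h, sub_self]
  obtain ⟨l, hl⟩ := hM.uniq W hW le_rfl (g i) _ h4
  refine ⟨l + k, ?_⟩
  rw [smul_sub, sub_eq_zero, smul_smul, ← pow_add] at hl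
  change g i ^ (l + k) • m ∈ _
  rw [hl]
  apply Submodule.smul_mem
  refine Submodule.span_mono ?_ ht
  intro y hy
  simp only [Finset.coe_biUnion, Set.mem_iUnion]
  exact ⟨i, by simp, hy⟩

/-- Finite generation passes to basic opens. -/
theorem finite_basicOpen {M : X.Modules} {W : X.Opens} (hW : IsAffineOpen W) (hM : QCOn M W)
    (hfin : Module.Finite Γ(X, W) Γ(M, W)) (g : Γ(X, W)) :
    Module.Finite Γ(X, X.basicOpen g) Γ(M, X.basicOpen g) := by
  classical
  obtain ⟨S, hS⟩ := hfin.1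
  refine ⟨S.image (rs M (X.basicOpen_le g)), ?_⟩
  rw [eq_top_iff]
  intro s _
  obtain ⟨k, t, ht⟩ := hM.ext W hW le_rfl g s
  obtain ⟨v, hv⟩ := (isUnit_ro_basicOpen g).exists_left_inv
  have h2 : s = v ^ k • rs M (X.basicOpen_le g) t := by
    rw [ht, smul_smul, ← mul_pow, hv, one_pow, one_smul]
  rw [h2]
  apply Submodule.smul_mem
  have h3 : t ∈ Submodule.span Γ(X, W) (S : Set Γ(M, W)) := by rw [hS]; trivial
  clear h2 ht
  induction h3 using Submodule.span_induction with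
  | mem x hx =>
    apply Submodule.subset_span
    simpa using ⟨x, hx, rfl⟩
  | zero => rw [map_zero]; exact zero_mem _
  | add x y _ _ hx hy => rw [map_add]; exact add_mem hx hy
  | smul a x _ hx => rw [rs_smul]; exact Submodule.smul_mem _ _ hx

/-- Coherent modules. -/
def CohAll (M : X.Modules) : Prop :=
  ∀ W : X.Opens, IsAffineOpen W → QCOn M W ∧ Module.Finite Γ(X, W) Γ(M, W)

theorem cohAll_of_local {M : X.Modules} (h : ∀ x : X, ∃ W : X.Opens, x ∈ W ∧ IsAffineOpen W ∧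
    QCOn M W ∧ Module.Finite Γ(X, W) Γ(M, W)) : CohAll M := by
  intro W hW
  have hq : QCOn M W := qcOn_of_local fun x _ => by
    obtain ⟨V, hx, -, hV, -⟩ := h x
    exact ⟨V, hx, hV⟩
  refine ⟨hq, ?_⟩
  obtain ⟨n, g, hg, hc⟩ := exists_finite_cover hW
    (fun g => Module.Finite Γ(X, X.basicOpen g) Γ(M, X.basicOpen g)) (by
      intro x hx
      obtain ⟨V, hxV, hV, hqV, hfV⟩ := h x
      obtain ⟨f, g, hfg, hxf⟩ := exists_basicOpen_le_affine_inter hW hV x ⟨hx, hxV⟩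
      refine ⟨f, hxf, ?_⟩
      rw [hfg]
      exact finite_basicOpen hV hqV hfV g)
  exact finite_of_cover hW hq g hc hg

end Pool.Agent.R924
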