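import Pool.Agent.R924.C1
import Pool.Agent.W456.Geo9

set_option autoImplicit false

/-!
Coherent modules form an abelian subcategory; cohomology of perfect complexes.
-/

universe u

open CategoryTheory Limits TopologicalSpace AlgebraicGeometry Opposite Pretriangulated

namespace Pool.Agent.R924

open Pool.Agent.W506 Pool.Agent.W456

set_option backward.isDefEq.respectTransparency false

attribute [local instance] HasDerivedCategory.standard Abelian.hasFiniteBiproducts

variable {X : Scheme.{u}}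

lemma qcOn_coker (S : ShortComplex X.Modules) (hS : S.ShortExact) {W : X.Opens}
    (h₁ : QCOn S.X₁ W) (h₂ : QCOn S.X₂ W) : QCOn S.X₃ W := by
  have := hS.mono_f
  have hsurj : ∀ (W' : X.Opens), IsAffineOpen W' → W' ≤ W → Function.Surjective (ap S.g W') :=
    fun W' hW' hle => ap_surjective_of_sumOn S hS h₁.sumOn hW' hle
  have hz : ∀ (U : X.Opens) (a : Γ(S.X₁, U)), ap S.g U (ap S.f U a) = 0 := by
    intro U a
    rw [← ap_comp, S.zero]
    rfl
  constructor
  · intro W' hW' hle f s
    obtain ⟨b, rfl⟩ := hsurj _ (hW'.basicOpen f) ((X.basicOpen_le f).trans hle) s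
    obtain ⟨k, t, ht⟩ := h₂.ext W' hW' hle f b
    exact ⟨k, ap S.g _ t, by rw [← ap_rs, ht, map_smul]⟩
  · intro W' hW' hle f t ht
    obtain ⟨b, rfl⟩ := hsurj _ hW' hle t
    rw [← ap_rs] at ht
    obtain ⟨a, ha⟩ := ap_exact S hS.exact _ _ ht
    obtain ⟨k, a', ha'⟩ := h₁.ext W' hW' hle f a
    have h3 : rs S.X₂ (X.basicOpen_le f) (f ^ k • b - ap S.f _ a') = 0 := by
      rw [map_sub, rs_smul, ← ha, ← ap_rs, ha', map_smul, map_pow, sub_self]
    obtain ⟨l, hl⟩ := h₂.uniq W' hW' hle f _ h3
    refine ⟨l + k, ?_⟩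
    have h4 := congrArg (ap S.g W') hl
    rw [map_smul, map_sub, map_smul, hz, sub_zero, map_zero, smul_smul, ← pow_add] at h4
    exact h4

lemma CohAll.of_iso {M N : X.Modules} (h : CohAll M) (e : M ≅ N) : CohAll N := by
  intro W hW
  have := (h W hW).2
  exact ⟨(h W hW).1.map (isoOn_iso e _), Module.Finite.equiv (apEquiv e _)⟩

lemma CohAll.coker {S : ShortComplex X.Modules} (hS : S.ShortExact) (h₁ : CohAll S.X₁)
    (h₂ : CohAll S.X₂) : CohAll S.X₃ := by
  intro W hW
  have := (h₂ W hW).2
  exact ⟨qcOn_coker S hS (h₁ W hW).1 (h₂ W hW).1, Module.Finite.of_surjective (ap S.g W)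
    (ap_surjective_of_sumOn S hS (h₁ W hW).1.sumOn hW le_rfl)⟩

lemma cohAll_of_isZero {M : X.Modules} (h : IsZero M) : CohAll M := by
  intro W _
  have := subsingleton_of_isZero h
  exact ⟨⟨fun W' _ _ f s => ⟨0, 0, Subsingleton.elim _ _⟩,
    fun W' _ _ f t _ => ⟨0, Subsingleton.elim _ _⟩⟩, inferInstance⟩

variable [IsLocallyNoetherian X]

lemma CohAll.ker {M N : X.Modules} (φ : M ⟶ N) (hM : CohAll M) (hN : CohAll N) :
    CohAll (kernel φ) := by
  intro W hW
  let S : ShortComplex X.Modules := ShortComplex.mk (kernel.ι φ) φ (kernel.condition φ)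
  have hS : S.Exact := ShortComplex.exact_of_f_is_kernel _ (kernelIsKernel φ)
  have := (hM W hW).2
  have := IsLocallyNoetherian.component_noetherian (X := X) ⟨W, hW⟩
  exact ⟨qcOn_kernel S hS (hM W hW).1 (hN W hW).1,
    Module.Finite.of_injective (ap S.f W) (ap_injective S.f _)⟩

lemma CohAll.cokernel {M N : X.Modules} (φ : M ⟶ N) (hM : CohAll M) (hN : CohAll N) :
    CohAll (cokernel φ) := by
  have h1 : CohAll (Limits.image φ) := by
    let S : ShortComplex X.Modules :=
      ShortComplex.mk (kernel.ι φ) (factorThruImage φ) (by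
        rw [← cancel_mono (image.ι φ), Category.assoc, image.fac, kernel.condition, zero_comp])
    let S₂ : ShortComplex X.Modules :=
      ShortComplex.mk (kernel.ι φ) φ (kernel.condition φ)
    let f : S ⟶ S₂ := { τ₁ := 𝟙 _, τ₂ := 𝟙 _, τ₃ := image.ι φ }
    have : Epi f.τ₁ := inferInstanceAs (Epi (𝟙 _))
    have : IsIso f.τ₂ := inferInstanceAs (IsIso (𝟙 _))
    have : Mono f.τ₃ := inferInstanceAs (Mono (image.ι φ))
    have hS : S.ShortExact :=
      { exact := (ShortComplex.exact_iff_of_epi_of_isIso_of_mono f).2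
          (ShortComplex.exact_of_f_is_kernel _ (kernelIsKernel φ))
        mono_f := inferInstanceAs (Mono (kernel.ι φ))
        epi_g := inferInstanceAs (Epi (factorThruImage φ)) }
    exact CohAll.coker hS (hM.ker φ hN) hM
  let S : ShortComplex X.Modules :=
    ShortComplex.mk (image.ι φ) (Limits.cokernel.π φ) (by
      rw [← cancel_epi (factorThruImage φ), ← Category.assoc, image.fac, cokernel.condition,
        comp_zero])
  let S₁ : ShortComplex X.Modules :=
    ShortComplex.mk φ (Limits.cokernel.π φ) (cokernel.condition φ)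
  let f : S₁ ⟶ S := { τ₁ := factorThruImage φ, τ₂ := 𝟙 _, τ₃ := 𝟙 _ }
  have : Epi f.τ₁ := inferInstanceAs (Epi (factorThruImage φ))
  have : IsIso f.τ₂ := inferInstanceAs (IsIso (𝟙 _))
  have : Mono f.τ₃ := inferInstanceAs (Mono (𝟙 _))
  have hS : S.ShortExact :=
    { exact := (ShortComplex.exact_iff_of_epi_of_isIso_of_mono f).1
        (ShortComplex.exact_of_g_is_cokernel _ (cokernelIsCokernel φ))
      mono_f := inferInstanceAs (Mono (image.ι φ))
      epi_g := inferInstanceAs (Epi (Limits.cokernel.π φ)) }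
  exact CohAll.coker hS h1 hN

lemma CohAll.homology (S : ShortComplex X.Modules) (h₁ : CohAll S.X₁) (h₂ : CohAll S.X₂)
    (h₃ : CohAll S.X₃) : CohAll S.homology := by
  have hc : CohAll S.cycles := (h₂.ker S.g h₃).of_iso
    (IsLimit.conePointUniqueUpToIso (kernelIsKernel S.g) S.cyclesIsKernel)
  exact (h₁.cokernel S.toCycles hc).of_iso
    (IsColimit.coconePointUniqueUpToIso (cokernelIsCokernel S.toCycles) S.homologyIsCokernel)

end Pool.Agent.R924
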