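import Pool.Agent.R924.C2
import Pool.Agent.R924.B3

set_option autoImplicit false

/-!
Transfer of coherence along open immersions; cohomology of perfect complexes is coherent.
-/

universe u

open CategoryTheory Limits TopologicalSpace AlgebraicGeometry Opposite Pretriangulated

namespace Pool.Agent.R924

open Pool.Agent.W506 Pool.Agent.W456

set_option backward.isDefEq.respectTransparency false

attribute [local instance] HasDerivedCategory.standard Abelian.hasFiniteBiproducts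

variable {X : Scheme.{u}}

lemma image_preimage_of_le {U W : X.Opens} (h : W ≤ U) : U.ι ''ᵁ (U.ι ⁻¹ᵁ W) = W := by
  rw [U.ι.image_preimage_eq_opensRange_inf, Scheme.Opens.opensRange_ι]
  exact inf_eq_right.2 h

lemma isAffineOpen_preimage {U W : X.Opens} (h : W ≤ U) (hW : IsAffineOpen W) :
    IsAffineOpen (U.ι ⁻¹ᵁ W) :=
  hW.preimage_of_isOpenImmersion U.ι (by rw [Scheme.Opens.opensRange_ι]; exact h)

lemma image_basicOpen_ro {U W : X.Opens} (h : W ≤ U) (f : Γ(X, W)) :
    U.ι ''ᵁ (U.toScheme.basicOpen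
      (show Γ(U.toScheme, U.ι ⁻¹ᵁ W) from ro (image_preimage_of_le h).le f)) = X.basicOpen f := by
  rw [Scheme.image_basicOpen, Scheme.Opens.ι_appIso]
  change X.basicOpen (ro (image_preimage_of_le h).le f) = _
  rw [basicOpen_ro]
  exact inf_eq_right.2 ((X.basicOpen_le f).trans (image_preimage_of_le h).ge)

lemma qcOn_of_restrict {M : X.Modules} {U W : X.Opens} (hWU : W ≤ U)
    (h : QCOn (M.restrict U.ι) (U.ι ⁻¹ᵁ W)) : QCOn M W := by
  constructor
  · intro W' hW' hle f s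
    have hU' : W' ≤ U := hle.trans hWU
    have him := image_preimage_of_le hU'
    let f' : Γ(U.toScheme, U.ι ⁻¹ᵁ W') := ro him.le f
    have hb : U.ι ''ᵁ (U.toScheme.basicOpen f') = X.basicOpen f := image_basicOpen_ro hU' f
    obtain ⟨k, t, ht⟩ := h.ext _ (isAffineOpen_preimage hU' hW') (preimage_mono U.ι hle) f'
      (show Γ(M, U.ι ''ᵁ (U.toScheme.basicOpen f')) from rs M hb.le s)
    rw [restrict_smul_ι] at ht
    have h1 : rs M (U.ι.image_mono (U.toScheme.basicOpen_le f'))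
        (show Γ(M, U.ι ''ᵁ (U.ι ⁻¹ᵁ W')) from t) =
        ro (U.ι.image_mono (U.toScheme.basicOpen_le f')) (ro him.le f) ^ k • rs M hb.le s := ht
    have h2 := congrArg (rs M hb.ge) h1
    refine ⟨k, rs M him.ge t, ?_⟩
    rw [rs_rs, rs_smul, rs_rs, rs_refl, map_pow, ro_ro, ro_ro] at h2
    rw [rs_rs]
    exact h2
  · intro W' hW' hle f t ht
    have hU' : W' ≤ U := hle.trans hWU
    have him := image_preimage_of_le hU'
    let f' : Γ(U.toScheme, U.ι ⁻¹ᵁ W') := ro him.le f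
    have hb : U.ι ''ᵁ (U.toScheme.basicOpen f') = X.basicOpen f := image_basicOpen_ro hU' f
    obtain ⟨k, hk⟩ := h.uniq _ (isAffineOpen_preimage hU' hW') (preimage_mono U.ι hle) f'
      (show Γ(M, U.ι ''ᵁ (U.ι ⁻¹ᵁ W')) from rs M him.le t) (by
      change rs M (U.ι.image_mono (U.toScheme.basicOpen_le f')) (rs M him.le t) = 0
      have h2 := congrArg (rs M hb.le) ht
      rw [rs_rs, map_zero] at h2
      rw [rs_rs]
      exact h2)
    rw [restrict_smul_ι] at hk
    have h3 : ro him.le f ^ k • rs M him.le t = 0 := hk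
    have h4 := congrArg (rs M him.ge) h3
    refine ⟨k, ?_⟩
    rw [rs_smul, rs_rs, rs_refl, map_pow, ro_ro, ro_refl, map_zero] at h4
    exact h4

lemma finite_of_restrict {M : X.Modules} {U W : X.Opens} (hWU : W ≤ U)
    (h : Module.Finite Γ(U.toScheme, U.ι ⁻¹ᵁ W) Γ(M.restrict U.ι, U.ι ⁻¹ᵁ W)) :
    Module.Finite Γ(X, W) Γ(M, W) := by
  classical
  have him := image_preimage_of_le hWU
  obtain ⟨S, hS⟩ := h.1
  refine ⟨S.image (fun s => rs M him.ge (show Γ(M, U.ι ''ᵁ (U.ι ⁻¹ᵁ W)) from s)), ?_⟩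
  rw [eq_top_iff]
  intro m _
  have key : ∀ s : Γ(M.restrict U.ι, U.ι ⁻¹ᵁ W), s ∈ Submodule.span
      Γ(U.toScheme, U.ι ⁻¹ᵁ W) (S : Set Γ(M.restrict U.ι, U.ι ⁻¹ᵁ W)) →
      rs M him.ge (show Γ(M, U.ι ''ᵁ (U.ι ⁻¹ᵁ W)) from s) ∈ Submodule.span Γ(X, W)
        ((S.image (fun s => rs M him.ge (show Γ(M, U.ι ''ᵁ (U.ι ⁻¹ᵁ W)) from s)) :
          Finset Γ(M, W)) : Set Γ(M, W)) := by
    intro s hs
    induction hs using Submodule.span_induction with
    | mem x hx =>
      apply Submodule.subset_span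
      simpa using ⟨x, hx, rfl⟩
    | zero =>
      have : rs M him.ge (0 : Γ(M, U.ι ''ᵁ (U.ι ⁻¹ᵁ W))) = 0 := map_zero _
      exact this ▸ zero_mem _
    | add x y _ _ hx hy =>
      have := add_mem hx hy
      rw [← map_add] at this
      exact this
    | smul a x _ hx =>
      have h1 : rs M him.ge (show Γ(M, U.ι ''ᵁ (U.ι ⁻¹ᵁ W)) from a • x) =
          ro him.ge (show Γ(X, U.ι ''ᵁ (U.ι ⁻¹ᵁ W)) from a) • rs M him.ge
            (show Γ(M, U.ι ''ᵁ (U.ι ⁻¹ᵁ W)) from x) := by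
        rw [← rs_smul]
        exact congrArg (rs M him.ge) (restrict_smul_ι (M := M) (U := U) _ a x)
      rw [h1]
      exact Submodule.smul_mem _ _ hx
  have h1 := key (rs M him.le m) (by rw [hS]; trivial)
  have h2 : rs M him.ge (rs M him.le m) = m := (rs_rs (M := M) _ _ _).trans (rs_refl (M := M) _ _)
  rw [h2] at h1
  exact h1

/-- Coherence can be tested locally. -/
theorem cohAll_of_restrict {M : X.Modules} (h : ∀ x : X, ∃ U : X.Opens, x ∈ U ∧
    CohAll (M.restrict U.ι)) : CohAll M := by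
  apply cohAll_of_local
  intro x
  obtain ⟨U, hxU, hU⟩ := h x
  obtain ⟨W, hW, hxW, hle⟩ := exists_affine_le (V := U) hxU
  have h1 := hU (U.ι ⁻¹ᵁ W) (isAffineOpen_preimage hle hW)
  exact ⟨W, hxW, hW, qcOn_of_restrict hle h1.1, finite_of_restrict hle h1.2⟩

end Pool.Agent.R924
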