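import Pool.Agent.R924.C3

set_option autoImplicit false

/-!
Cohomology of perfect complexes is coherent and bounded.
-/

universe u

open CategoryTheory Limits TopologicalSpace AlgebraicGeometry Opposite Pretriangulated

namespace Pool.Agent.R924

open Pool.Agent.W506 Pool.Agent.W456

set_option backward.isDefEq.respectTransparency false

attribute [local instance] HasDerivedCategory.standard Abelian.hasFiniteBiproducts

variable {X : Scheme.{u}}

lemma isBasisOn_one (X : Scheme.{u}) : IsBasisOn (N := OO X) (U := ⊤) (fun _ : Fin 1 => ooE ⊤ 1) := by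
  intro V hV
  have h1 : ∀ a : Fin 1 → Γ(X, V), comb (N := OO X) (U := ⊤) (fun _ : Fin 1 => ooE ⊤ 1) hV a =
      ooE V (a 0) := by
    intro a
    have h2 : rs (OO X) hV (ooE ⊤ 1) = ooE V 1 := by
      rw [← ooE_ro, map_one]
    rw [comb, Fin.sum_univ_one, h2, ← map_smul, smul_eq_mul, mul_one]
  constructor
  · intro a b hab
    rw [h1, h1] at hab
    funext i
    rw [Subsingleton.elim i 0]
    exact (ooE V).injective hab
  · intro s
    exact ⟨fun _ => (ooE V).symm s, by rw [h1]; exact (ooE V).apply_symm_apply s⟩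

lemma cohAll_of_basis {M : X.Modules} {n : ℕ} {e : Fin n → Γ(M, ⊤)} (he : IsBasisOn e) :
    CohAll M := fun _ _ =>
  ⟨he.qcOn.mono le_top, Module.Finite.equiv (he.equiv le_top)⟩

lemma cohAll_unit (X : Scheme.{u}) : CohAll (unitMod X) := cohAll_of_basis (isBasisOn_one X)

lemma CohAll.biprod {M N : X.Modules} (hM : CohAll M) (hN : CohAll N) : CohAll (M ⊞ N) := by
  intro W hW
  refine ⟨qcOn_biprod (hM W hW).1 (hN W hW).1, ?_⟩
  have := (hM W hW).2
  have := (hN W hW).2
  refine Module.Finite.of_surjective (LinearMap.coprod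
    (ap (biprod.inl : M ⟶ M ⊞ N) W) (ap (biprod.inr : N ⟶ M ⊞ N) W)) ?_
  intro s
  exact ⟨(ap (biprod.fst : M ⊞ N ⟶ M) _ s, ap (biprod.snd : M ⊞ N ⟶ N) _ s),
    (biprod_section s).symm⟩

lemma cohAll_biproduct {M : X.Modules} (hM : CohAll M) (n : ℕ) :
    CohAll (⨁ fun _ : Fin n => M) := by
  induction n with
  | zero =>
    apply cohAll_of_isZero
    rw [IsZero.iff_id_eq_zero]
    ext i
    exact i.elim0
  | succ n ih =>
    exact (ih.biprod (hM.of_iso (biproductUniqueIso (fun _ : Fin 1 => M)).symm)).of_iso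
      (biprodFin M n 1)

lemma IsFF.cohAll {M : X.Modules} (h : IsFF M) : CohAll M := by
  obtain ⟨n, ⟨e⟩⟩ := h
  exact (cohAll_biproduct (cohAll_unit X) n).of_iso e.symm

lemma cohAll_of_locallyFree {M : X.Modules} (h : IsFiniteLocallyFree M) : CohAll M := by
  apply cohAll_of_restrict
  intro x
  obtain ⟨U, hx, n, ⟨e⟩⟩ := h x
  exact ⟨U, hx, IsFF.cohAll ⟨n, ⟨e⟩⟩⟩

/-- The cohomology of a perfect complex is coherent. -/
theorem cohAll_homology [IsLocallyNoetherian X] {E : DerivedCategory X.Modules}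
    (hE : isPerfect X E) (i : ℤ) : CohAll (Hh i E) := by
  apply cohAll_of_restrict
  intro x
  obtain ⟨U, hx, K, hK, ⟨e⟩⟩ := hE x
  refine ⟨U, hx, ?_⟩
  have hU : IsLocallyNoetherian U.toScheme := isLocallyNoetherian_of_isOpenImmersion U.ι
  obtain ⟨e'⟩ := mapD_homology (Scheme.Modules.restrictFunctor U.ι) E i
  have h1 : CohAll (HomologicalComplex.homology K i) :=
    CohAll.homology (K.sc i) (cohAll_of_locallyFree (hK.2 _)) (cohAll_of_locallyFree (hK.2 _))
      (cohAll_of_locallyFree (hK.2 _))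
  exact h1.of_iso ((DerivedCategory.homologyFunctorFactors _ i).symm.app K ≪≫
    (DerivedCategory.homologyFunctor _ i).mapIso e.symm ≪≫ e')

lemma isZero_of_restrict {M : X.Modules} (h : ∀ x : X, ∃ U : X.Opens, x ∈ U ∧
    IsZero ((Scheme.Modules.restrictFunctor U.ι).obj M)) : IsZero M := by
  apply isZero_of_stalk
  intro x
  obtain ⟨U, hx, hU⟩ := h x
  exact isZero_stalk_restrict U.ι M ⟨x, hx⟩ (Functor.map_isZero _ hU)

/-- Perfect complexes on quasi-compact schemes are bounded. -/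
theorem exists_bounds [CompactSpace X] {E : DerivedCategory X.Modules}
    (hE : isPerfect X E) : ∃ (a : ℤ) (n : ℕ), (∀ i, i < a → IsZero (Hh i E)) ∧
      (∀ i, a + n ≤ i → IsZero (Hh i E)) := by
  have h1 : ∀ x : X, ∃ (U : X.Opens) (a b : ℤ), x ∈ U ∧ ∀ i, i < a ∨ b < i →
      IsZero ((Scheme.Modules.restrictFunctor U.ι).obj (Hh i E)) := by
    intro x
    obtain ⟨U, hx, K, hK, ⟨e⟩⟩ := hE x
    obtain ⟨⟨a, b, hab⟩, -⟩ := hK
    refine ⟨U, a, b, hx, fun i hi => ?_⟩
    obtain ⟨e'⟩ := mapD_homology (Scheme.Modules.restrictFunctor U.ι) E i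
    have h2 : IsZero (HomologicalComplex.homology K i) :=
      ShortComplex.isZero_homology_of_isZero_X₂ _ (hab i hi)
    exact h2.of_iso (e'.symm ≪≫ (DerivedCategory.homologyFunctor _ i).mapIso e ≪≫
      (DerivedCategory.homologyFunctorFactors _ i).app K)
  choose U a b hx hU using h1
  obtain ⟨t, ht⟩ := isCompact_univ.elim_finite_subcover (fun x : X => (U x : Set X))
    (fun x => (U x).isOpen) (fun x _ => Set.mem_iUnion.2 ⟨x, hx x⟩)
  obtain ⟨a₀, ha₀⟩ : ∃ a₀ : ℤ, ∀ x ∈ t, a₀ ≤ a x := by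
    obtain ⟨a₀, ha₀⟩ := (t.image a).bddBelow
    exact ⟨a₀, fun x hx => ha₀ (Finset.mem_image_of_mem _ hx)⟩
  obtain ⟨b₀, hb₀⟩ : ∃ b₀ : ℤ, ∀ x ∈ t, b x ≤ b₀ := by
    obtain ⟨b₀, hb₀⟩ := (t.image b).bddAbove
    exact ⟨b₀, fun x hx => hb₀ (Finset.mem_image_of_mem _ hx)⟩
  have key : ∀ i, i < a₀ ∨ b₀ < i → IsZero (Hh i E) := by
    intro i hi
    apply isZero_of_restrict
    intro x
    obtain ⟨y, hy⟩ := Set.mem_iUnion.1 (ht (Set.mem_univ x))
    obtain ⟨hyt, hxy⟩ := Set.mem_iUnion.1 hy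
    refine ⟨U y, hxy, hU y i ?_⟩
    have := ha₀ y hyt
    have := hb₀ y hyt
    lia
  refine ⟨a₀, (b₀ + 1 - a₀).toNat, fun i hi => key i (Or.inl hi), fun i hi => key i (Or.inr ?_)⟩
  lia

variable {J : Type} [Finite J] {U : J → X.Opens} {N : ℕ}

/-- Perfect complexes belong to thick subcategories with enough vector bundles. -/
theorem perfect_mem [CompactSpace X] [IsLocallyNoetherian X] (h : IsGood U N)
    (T : ObjectProperty (DerivedCategory X.Modules))
    [T.IsTriangulated] [T.IsClosedUnderIsomorphisms] [T.IsStableUnderRetracts]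
    (hcov : ∀ M, CohU U M → ∃ (Q : X.Modules) (φ : Q ⟶ M), CohU U Q ∧ ProjU U Q ∧ T (sg Q) ∧ Epi φ) :
    isPerfect X ≤ T := by
  intro E hE
  obtain ⟨a, n, h1, h2⟩ := exists_bounds hE
  exact mem_of_homology T n E a h1 h2 fun i => coh_mem h T hcov _ fun j =>
    cohAll_homology hE i (U j) (h.aff j)

end Pool.Agent.R924
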