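import Pool.Agent.W506.Q2

set_option autoImplicit false

/-!
Short exact sequences tested locally; modules with one generator.
-/

universe u

open CategoryTheory Limits TopologicalSpace AlgebraicGeometry Opposite

namespace Pool.Agent.R924

open Pool.Agent.W506

set_option backward.isDefEq.respectTransparency false

variable {X : Scheme.{u}}

theorem shortExact_of_local (S : ShortComplex X.Modules)
    (h : ∀ x : X, ∃ U : X.Opens, x ∈ U ∧ ∀ V ≤ U, Function.Injective (ap S.f V) ∧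
      (∀ s, ap S.g V s = 0 → ∃ t, ap S.f V t = s) ∧ Function.Surjective (ap S.g V)) :
    S.ShortExact := by
  have hmono : Mono S.f := by
    apply mono_of_ap_injective
    intro W a b hab
    apply ext_rs_of_mem
    intro x hx
    obtain ⟨U, hxU, hU⟩ := h x
    refine ⟨W ⊓ U, inf_le_left, ⟨hx, hxU⟩, (hU _ inf_le_right).1 ?_⟩
    rw [ap_rs, ap_rs, hab]
  have hepi : Epi S.g := by
    apply epi_of_locally_surj
    intro W s x hx
    obtain ⟨U, hxU, hU⟩ := h x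
    obtain ⟨t, ht⟩ := (hU (W ⊓ U) inf_le_right).2.2 (rs S.X₃ inf_le_left s)
    exact ⟨W ⊓ U, inf_le_left, ⟨hx, hxU⟩, t, ht⟩
  have hex : S.Exact := by
    rw [S.exact_iff_epi_kernel_lift]
    apply epi_of_locally_surj
    intro W s x hx
    obtain ⟨U, hxU, hU⟩ := h x
    have h1 : ap S.g (W ⊓ U) (ap (kernel.ι S.g) (W ⊓ U)
        (rs (kernel S.g) (inf_le_left : W ⊓ U ≤ W) s)) = 0 := by
      rw [← ap_comp, kernel.condition]
      rfl
    obtain ⟨t, ht⟩ := (hU (W ⊓ U) inf_le_right).2.1 _ h1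
    refine ⟨W ⊓ U, inf_le_left, ⟨hx, hxU⟩, t, ?_⟩
    apply ap_injective (kernel.ι S.g)
    rw [← ap_comp, kernel.lift_ι, ht]
  exact { exact := hex }

/-- A generator over an open set. -/
def IsGen {L : X.Modules} {U : X.Opens} (e : Γ(L, U)) : Prop := IsBasisOn (fun _ : Fin 1 => e)

lemma comb_one {L : X.Modules} {U V : X.Opens} (e : Γ(L, U)) (h : V ≤ U) (a : Fin 1 → Γ(X, V)) :
    comb (fun _ : Fin 1 => e) h a = a 0 • rs L h e := by
  rw [comb, Fin.sum_univ_one]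

lemma IsGen.exists_smul {L : X.Modules} {U V : X.Opens} {e : Γ(L, U)} (he : IsGen e) (h : V ≤ U)
    (s : Γ(L, V)) : ∃ a : Γ(X, V), a • rs L h e = s := by
  obtain ⟨a, ha⟩ := (he V h).2 s
  exact ⟨a 0, by rw [← ha, comb_one]⟩

lemma IsGen.smul_inj {L : X.Modules} {U V : X.Opens} {e : Γ(L, U)} (he : IsGen e) (h : V ≤ U)
    {a b : Γ(X, V)} (hab : a • rs L h e = b • rs L h e) : a = b := by
  have h1 := (he V h).1 (a₁ := fun _ => a) (a₂ := fun _ => b) (by rw [comb_one, comb_one]; exact hab)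
  exact congrFun h1 0

lemma isGen_of {L : X.Modules} {U : X.Opens} {e : Γ(L, U)}
    (h₁ : ∀ (V : X.Opens) (h : V ≤ U) (s : Γ(L, V)), ∃ a : Γ(X, V), a • rs L h e = s)
    (h₂ : ∀ (V : X.Opens) (h : V ≤ U) (a : Γ(X, V)), a • rs L h e = 0 → a = 0) : IsGen e := by
  intro V hV
  constructor
  · rw [comb_injective_iff]
    intro a ha
    rw [comb_one] at ha
    funext i
    rw [Subsingleton.elim i 0]
    exact h₂ V hV _ ha
  · intro s
    obtain ⟨a, ha⟩ := h₁ V hV s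
    exact ⟨fun _ => a, by rw [comb_one]; exact ha⟩

lemma IsGen.projective {L : X.Modules} {U : X.Opens} {e : Γ(L, U)} (he : IsGen e) :
    Module.Projective Γ(X, U) Γ(L, U) :=
  Module.Projective.of_equiv (IsBasisOn.equiv he le_rfl)

lemma IsGen.finite {L : X.Modules} {U : X.Opens} {e : Γ(L, U)} (he : IsGen e) :
    Module.Finite Γ(X, U) Γ(L, U) :=
  Module.Finite.equiv (IsBasisOn.equiv he le_rfl)

/-- The local form of the Koszul sequence. -/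
theorem koszul_local {L₀ L₁ L₂ L₃ : X.Modules} (f : L₀ ⟶ L₁ ⊞ L₂) (g : L₁ ⊞ L₂ ⟶ L₃)
    {U V : X.Opens} (hV : V ≤ U)
    {e₀ : Γ(L₀, U)} {e₁ : Γ(L₁, U)} {e₂ : Γ(L₂, U)} {e₃ : Γ(L₃, U)}
    (h₀ : IsGen e₀) (h₁ : IsGen e₁) (h₂ : IsGen e₂) (h₃ : IsGen e₃) (p q l m : Γ(X, U))
    (hlm : l * p + m * q = 1)
    (hf : ap f U e₀ = p • ap (biprod.inl : L₁ ⟶ L₁ ⊞ L₂) U e₁ +
      q • ap (biprod.inr : L₂ ⟶ L₁ ⊞ L₂) U e₂)
    (hg₁ : ap g U (ap (biprod.inl : L₁ ⟶ L₁ ⊞ L₂) U e₁) = q • e₃)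
    (hg₂ : ap g U (ap (biprod.inr : L₂ ⟶ L₁ ⊞ L₂) U e₂) = -(p • e₃)) :
    Function.Injective (ap f V) ∧ (∀ s, ap g V s = 0 → ∃ t, ap f V t = s) ∧
      Function.Surjective (ap g V) := by
  have hlm' : ro hV l * ro hV p + ro hV m * ro hV q = 1 := by
    rw [← map_mul, ← map_mul, ← map_add, hlm, map_one]
  have hf' : ∀ a : Γ(X, V), ap f V (a • rs L₀ hV e₀) =
      (a * ro hV p) • ap (biprod.inl : L₁ ⟶ L₁ ⊞ L₂) V (rs L₁ hV e₁) +
      (a * ro hV q) • ap (biprod.inr : L₂ ⟶ L₁ ⊞ L₂) V (rs L₂ hV e₂) := by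
    intro a
    rw [map_smul, ap_rs, hf, map_add, rs_smul, rs_smul, smul_add, smul_smul, smul_smul, ap_rs,
      ap_rs]
  have hg' : ∀ b c : Γ(X, V), ap g V (b • ap (biprod.inl : L₁ ⟶ L₁ ⊞ L₂) V (rs L₁ hV e₁) +
      c • ap (biprod.inr : L₂ ⟶ L₁ ⊞ L₂) V (rs L₂ hV e₂)) =
      (ro hV q * b - ro hV p * c) • rs L₃ hV e₃ := by
    intro b c
    rw [map_add, map_smul, map_smul, ap_rs, ap_rs, ap_rs, ap_rs, hg₁, hg₂, map_neg, rs_smul,
      rs_smul, smul_neg, smul_smul, smul_smul, sub_smul, ← sub_eq_add_neg, mul_comm b,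
      mul_comm c]
  have hsec : ∀ s : Γ(L₁ ⊞ L₂, V), ∃ b c : Γ(X, V),
      s = b • ap (biprod.inl : L₁ ⟶ L₁ ⊞ L₂) V (rs L₁ hV e₁) +
      c • ap (biprod.inr : L₂ ⟶ L₁ ⊞ L₂) V (rs L₂ hV e₂) := by
    intro s
    obtain ⟨b, hb⟩ := h₁.exists_smul hV (ap (biprod.fst : L₁ ⊞ L₂ ⟶ L₁) V s)
    obtain ⟨c, hc⟩ := h₂.exists_smul hV (ap (biprod.snd : L₁ ⊞ L₂ ⟶ L₂) V s)
    refine ⟨b, c, ?_⟩
    rw [← (ap (biprod.inl : L₁ ⟶ L₁ ⊞ L₂) V).map_smul,
      ← (ap (biprod.inr : L₂ ⟶ L₁ ⊞ L₂) V).map_smul, hb, hc, ← biprod_section]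
  have hinj : ∀ b c b' c' : Γ(X, V),
      b • ap (biprod.inl : L₁ ⟶ L₁ ⊞ L₂) V (rs L₁ hV e₁) +
      c • ap (biprod.inr : L₂ ⟶ L₁ ⊞ L₂) V (rs L₂ hV e₂) =
      b' • ap (biprod.inl : L₁ ⟶ L₁ ⊞ L₂) V (rs L₁ hV e₁) +
      c' • ap (biprod.inr : L₂ ⟶ L₁ ⊞ L₂) V (rs L₂ hV e₂) → b = b' ∧ c = c' := by
    intro b c b' c' h
    rw [← (ap (biprod.inl : L₁ ⟶ L₁ ⊞ L₂) V).map_smul,
      ← (ap (biprod.inr : L₂ ⟶ L₁ ⊞ L₂) V).map_smul,
      ← (ap (biprod.inl : L₁ ⟶ L₁ ⊞ L₂) V).map_smul,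
      ← (ap (biprod.inr : L₂ ⟶ L₁ ⊞ L₂) V).map_smul] at h
    have e1 := congrArg (ap (biprod.fst : L₁ ⊞ L₂ ⟶ L₁) V) h
    have e2 := congrArg (ap (biprod.snd : L₁ ⊞ L₂ ⟶ L₂) V) h
    simp only [map_add, ← ap_comp, biprod.inl_fst, biprod.inr_fst, biprod.inl_snd,
      biprod.inr_snd, ap_id, ap_zero, add_zero, zero_add] at e1 e2
    exact ⟨h₁.smul_inj hV e1, h₂.smul_inj hV e2⟩
  refine ⟨?_, ?_, ?_⟩
  · rw [injective_iff_map_eq_zero]
    intro s hs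
    obtain ⟨a, rfl⟩ := h₀.exists_smul hV s
    rw [hf'] at hs
    obtain ⟨e1, e2⟩ := hinj _ _ 0 0 (by rw [hs, zero_smul, zero_smul, add_zero])
    have : a = 0 := by
      calc a = a * (ro hV l * ro hV p + ro hV m * ro hV q) := by rw [hlm', mul_one]
        _ = ro hV l * (a * ro hV p) + ro hV m * (a * ro hV q) := by ring
        _ = 0 := by rw [e1, e2, mul_zero, mul_zero, add_zero]
    rw [this, zero_smul]
  · intro s hs
    obtain ⟨b, c, rfl⟩ := hsec s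
    rw [hg'] at hs
    have e1 : ro hV q * b - ro hV p * c = 0 := h₃.smul_inj hV (by rw [hs, zero_smul])
    refine ⟨(ro hV l * b + ro hV m * c) • rs L₀ hV e₀, ?_⟩
    rw [hf']
    have e2 : (ro hV l * b + ro hV m * c) * ro hV p = b := by
      calc (ro hV l * b + ro hV m * c) * ro hV p =
          (ro hV l * ro hV p + ro hV m * ro hV q) * b -
            ro hV m * (ro hV q * b - ro hV p * c) := by ring
        _ = b := by rw [hlm', e1, one_mul, mul_zero, sub_zero]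
    have e3 : (ro hV l * b + ro hV m * c) * ro hV q = c := by
      calc (ro hV l * b + ro hV m * c) * ro hV q =
          (ro hV l * ro hV p + ro hV m * ro hV q) * c +
            ro hV l * (ro hV q * b - ro hV p * c) := by ring
        _ = c := by rw [hlm', e1, one_mul, mul_zero, add_zero]
    rw [e2, e3]
  · intro s
    obtain ⟨d, rfl⟩ := h₃.exists_smul hV s
    refine ⟨(ro hV m * d) • ap (biprod.inl : L₁ ⟶ L₁ ⊞ L₂) V (rs L₁ hV e₁) +
      (-(ro hV l * d)) • ap (biprod.inr : L₂ ⟶ L₁ ⊞ L₂) V (rs L₂ hV e₂), ?_⟩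
    rw [hg']
    congr 1
    calc ro hV q * (ro hV m * d) - ro hV p * -(ro hV l * d) =
        (ro hV l * ro hV p + ro hV m * ro hV q) * d := by ring
      _ = d := by rw [hlm', one_mul]

end Pool.Agent.R924
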