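import Pool.Agent.R924.D1

set_option autoImplicit false

/-!
Line bundles given by rational functions on a scheme with charts.
-/

universe u

open CategoryTheory Limits TopologicalSpace AlgebraicGeometry Opposite

namespace Pool.Agent.R924

open Pool.Agent.W506

set_option backward.isDefEq.respectTransparency false

/-- Charts of a scheme, with a small open set into whose functions all functions on the
intersections of charts embed. -/
structure Frame (X : Scheme.{u}) (J : Type) where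
  /-- the charts -/
  U : J → X.Opens
  /-- the small open set -/
  T : X.Opens
  le : ∀ j, T ≤ U j
  inj : ∀ i j k, Function.Injective (ro (le_inf (le_inf (le i) (le j)) (le k)) :
    Γ(X, (U i ⊓ U j) ⊓ U k) → Γ(X, T))
  cover : ∀ x : X, ∃ j, x ∈ U j

variable {X : Scheme.{u}} {J : Type} (F : Frame X J)

namespace Frame

lemma inj₂ (i j : J) : Function.Injective (ro (le_inf (F.le i) (F.le j)) :
    Γ(X, F.U i ⊓ F.U j) → Γ(X, F.T)) := by
  intro a b hab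
  have h1 : ro (inf_le_left : (F.U i ⊓ F.U j) ⊓ F.U j ≤ F.U i ⊓ F.U j) a = ro inf_le_left b := by
    apply F.inj i j j
    rw [ro_ro, ro_ro]
    exact hab
  have h2 := congrArg (ro (le_inf le_rfl inf_le_right : F.U i ⊓ F.U j ≤
    (F.U i ⊓ F.U j) ⊓ F.U j)) h1
  rwa [ro_ro, ro_ro, ro_refl, ro_refl] at h2

lemma inj₁ (i : J) : Function.Injective (ro (F.le i) : Γ(X, F.U i) → Γ(X, F.T)) := by
  intro a b hab
  have h1 : ro (inf_le_left : F.U i ⊓ F.U i ≤ F.U i) a = ro inf_le_left b := by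
    apply F.inj₂ i i
    rw [ro_ro, ro_ro]
    exact hab
  have h2 := congrArg (ro (le_inf le_rfl le_rfl : F.U i ≤ F.U i ⊓ F.U i)) h1
  rwa [ro_ro, ro_ro, ro_refl, ro_refl] at h2

/-- The rational functions which are functions on a chart. -/
noncomputable def reg (j : J) : Subring Γ(X, F.T) := (ro (F.le j)).range

/-- The rational functions which are functions on the intersection of two charts. -/
noncomputable def reg₂ (i j : J) : Subring Γ(X, F.T) := (ro (le_inf (F.le i) (F.le j))).range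

lemma reg_le_left (i j : J) : F.reg i ≤ F.reg₂ i j := by
  rintro _ ⟨a, rfl⟩
  exact ⟨ro inf_le_left a, ro_ro _ _ _⟩

lemma reg_le_right (i j : J) : F.reg j ≤ F.reg₂ i j := by
  rintro _ ⟨a, rfl⟩
  exact ⟨ro inf_le_right a, ro_ro _ _ _⟩

/-- The divisors: families of rational functions whose quotients are units on the intersections of
two charts. -/
def Div : Subgroup (J → Γ(X, F.T)ˣ) where
  carrier := {ℓ | ∀ i j, ((ℓ j * (ℓ i)⁻¹ : Γ(X, F.T)ˣ) : Γ(X, F.T)) ∈ F.reg₂ i j}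
  mul_mem' := by
    intro a b ha hb i j
    have h1 : (a * b) j * ((a * b) i)⁻¹ = (a j * (a i)⁻¹) * (b j * (b i)⁻¹) := by
      rw [Pi.mul_apply, Pi.mul_apply, mul_inv]
      exact mul_mul_mul_comm _ _ _ _
    rw [h1, Units.val_mul]
    exact mul_mem (ha i j) (hb i j)
  one_mem' := by
    intro i j
    rw [Pi.one_apply, Pi.one_apply, inv_one, mul_one, Units.val_one]
    exact one_mem _
  inv_mem' := by
    intro a ha i j
    have h1 : a⁻¹ j * (a⁻¹ i)⁻¹ = a i * (a j)⁻¹ := by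
      rw [Pi.inv_apply, Pi.inv_apply, inv_inv, mul_comm]
    rw [h1]
    obtain ⟨g, hg⟩ := ha j i
    exact ⟨ro (le_inf inf_le_right inf_le_left) g, by rw [ro_ro]; exact hg⟩

variable {F}

/-- The transition functions. -/
noncomputable def tr (δ : F.Div) (i j : J) : Γ(X, F.U i ⊓ F.U j) := (δ.2 i j).choose

lemma ro_tr (δ : F.Div) (i j : J) : ro (le_inf (F.le i) (F.le j)) (tr δ i j) =
    ((δ.1 j * (δ.1 i)⁻¹ : Γ(X, F.T)ˣ) : Γ(X, F.T)) := (δ.2 i j).choose_spec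

variable [Finite J]

/-- The line bundle of a divisor. -/
noncomputable def lb (δ : F.Div) : X.Modules := (exists_glued F.U (tr δ)).choose

/-- The generators of the line bundle of a divisor. -/
noncomputable def lbE (δ : F.Div) : ∀ j, Γ(lb δ, F.U j) := (exists_glued F.U (tr δ)).choose_spec.choose

lemma lb_compat (δ : F.Div) : Compat F.U (tr δ) (lbE δ) :=
  (exists_glued F.U (tr δ)).choose_spec.choose_spec.1

lemma lb_hom (δ : F.Div) (M : X.Modules) (t : ∀ j, Γ(M, F.U j)) (ht : Compat F.U (tr δ) t) :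
    ∃ f : lb δ ⟶ M, ∀ j, ap f _ (lbE δ j) = t j :=
  (exists_glued F.U (tr δ)).choose_spec.choose_spec.2.1 M t ht

lemma lb_ext (δ : F.Div) {M : X.Modules} {f g : lb δ ⟶ M}
    (h : ∀ j, ap f _ (lbE δ j) = ap g _ (lbE δ j)) : f = g :=
  (exists_glued F.U (tr δ)).choose_spec.choose_spec.2.2 M f g h

lemma isGen_lbE (δ : F.Div) (j : J) : IsGen (lbE δ j) := by
  refine isBasisOn_glued F.U (tr δ) ?_ ?_ (lb δ) (lbE δ) (lb_compat δ) (lb_hom δ)
    (fun M f g h => lb_ext δ h) j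
  · intro i
    apply F.inj₂ i i
    rw [ro_tr, mul_inv_cancel, Units.val_one, map_one]
  · intro i j k
    apply F.inj i j k
    rw [map_mul, ro_ro, ro_ro, ro_ro, ro_tr, ro_tr, ro_tr, ← Units.val_mul]
    congr 1
    rw [mul_comm (δ.1 j * (δ.1 i)⁻¹), mul_assoc, inv_mul_cancel_left]

/-- A morphism of line bundles given by a rational function. -/
theorem exists_mul (δ δ' : F.Div) (h : Γ(X, F.T)) (a : ∀ j, Γ(X, F.U j))
    (ha : ∀ j, ro (F.le j) (a j) * (δ'.1 j : Γ(X, F.T)) = h * (δ.1 j : Γ(X, F.T))) :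
    ∃ f : lb δ ⟶ lb δ', ∀ j, ap f _ (lbE δ j) = a j • lbE δ' j := by
  apply lb_hom
  intro i j
  rw [rs_smul, rs_smul, lb_compat δ' i j, smul_smul, smul_smul]
  congr 1
  apply F.inj₂ i j
  rw [map_mul, map_mul, ro_ro, ro_ro, ro_tr, ro_tr]
  have h1 := ha i
  have h2 := ha j
  have e1 : ro (F.le j) (a j) = h * (δ.1 j : Γ(X, F.T)) * ((δ'.1 j)⁻¹ : Γ(X, F.T)ˣ) := by
    rw [← h2, mul_assoc, Units.mul_inv, mul_one]
  have e2 : ro (F.le i) (a i) = h * (δ.1 i : Γ(X, F.T)) * ((δ'.1 i)⁻¹ : Γ(X, F.T)ˣ) := by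
    rw [← h1, mul_assoc, Units.mul_inv, mul_one]
  rw [e1, e2, Units.val_mul, Units.val_mul]
  calc h * (δ.1 j : Γ(X, F.T)) * ((δ'.1 j)⁻¹ : Γ(X, F.T)ˣ) *
        ((δ'.1 j : Γ(X, F.T)) * ((δ'.1 i)⁻¹ : Γ(X, F.T)ˣ)) =
        h * (δ.1 j : Γ(X, F.T)) * (((δ'.1 j)⁻¹ : Γ(X, F.T)ˣ) * (δ'.1 j : Γ(X, F.T))) *
          ((δ'.1 i)⁻¹ : Γ(X, F.T)ˣ) := by ring
    _ = h * (δ.1 j : Γ(X, F.T)) * ((δ'.1 i)⁻¹ : Γ(X, F.T)ˣ) := by
        rw [Units.inv_mul, mul_one]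
    _ = h * (δ.1 j : Γ(X, F.T)) * (((δ.1 i)⁻¹ : Γ(X, F.T)ˣ) * (δ.1 i : Γ(X, F.T))) *
          ((δ'.1 i)⁻¹ : Γ(X, F.T)ˣ) := by
        rw [Units.inv_mul, mul_one]
    _ = (δ.1 j : Γ(X, F.T)) * ((δ.1 i)⁻¹ : Γ(X, F.T)ˣ) *
        (h * (δ.1 i : Γ(X, F.T)) * ((δ'.1 i)⁻¹ : Γ(X, F.T)ˣ)) := by ring

/-- The Koszul sequence. -/
theorem koszul (δ α β : F.Div) (h h' : Γ(X, F.T)) (p q : ∀ j, Γ(X, F.U j))
    (hp : ∀ j, ro (F.le j) (p j) * (α.1 j : Γ(X, F.T)) = h)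
    (hq : ∀ j, ro (F.le j) (q j) * (β.1 j : Γ(X, F.T)) = h')
    (huni : ∀ j, ∃ l m, l * p j + m * q j = 1) :
    ∃ (f : lb δ ⟶ lb (δ * α) ⊞ lb (δ * β)) (g : lb (δ * α) ⊞ lb (δ * β) ⟶ lb (δ * α * β))
      (w : f ≫ g = 0), (ShortComplex.mk f g w).ShortExact := by
  obtain ⟨f₁, hf₁⟩ := exists_mul δ (δ * α) h p (fun j => by
    rw [← hp j]
    change _ * ((δ.1 j * α.1 j : Γ(X, F.T)ˣ) : Γ(X, F.T)) = _
    rw [Units.val_mul]
    ring)
  obtain ⟨f₂, hf₂⟩ := exists_mul δ (δ * β) h' q (fun j => by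
    rw [← hq j]
    change _ * ((δ.1 j * β.1 j : Γ(X, F.T)ˣ) : Γ(X, F.T)) = _
    rw [Units.val_mul]
    ring)
  obtain ⟨g₁, hg₁⟩ := exists_mul (δ * α) (δ * α * β) h' q (fun j => by
    rw [← hq j]
    change _ * ((δ.1 j * α.1 j * β.1 j : Γ(X, F.T)ˣ) : Γ(X, F.T)) =
      _ * ((δ.1 j * α.1 j : Γ(X, F.T)ˣ) : Γ(X, F.T))
    rw [Units.val_mul, Units.val_mul]
    ring)
  obtain ⟨g₂, hg₂⟩ := exists_mul (δ * β) (δ * α * β) h p (fun j => by
    rw [← hp j]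
    change _ * ((δ.1 j * α.1 j * β.1 j : Γ(X, F.T)ˣ) : Γ(X, F.T)) =
      _ * ((δ.1 j * β.1 j : Γ(X, F.T)ˣ) : Γ(X, F.T))
    rw [Units.val_mul, Units.val_mul, Units.val_mul]
    ring)
  have w : biprod.lift f₁ f₂ ≫ biprod.desc g₁ (-g₂) = 0 := by
    rw [biprod.lift_desc]
    apply lb_ext
    intro j
    rw [ap_add, ap_comp, ap_comp, hf₁, hf₂, map_smul, map_smul, hg₁]
    have : ap (-g₂) (F.U j) (lbE (δ * β) j) = -(ap g₂ (F.U j) (lbE (δ * β) j)) := rfl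
    rw [this, hg₂, smul_neg, smul_smul, smul_smul, mul_comm (q j), ← sub_eq_add_neg, sub_self]
    rfl
  refine ⟨biprod.lift f₁ f₂, biprod.desc g₁ (-g₂), w, ?_⟩
  apply shortExact_of_local
  intro x
  obtain ⟨j, hj⟩ := F.cover x
  refine ⟨F.U j, hj, fun V hV => ?_⟩
  obtain ⟨l, m, hlm⟩ := huni j
  refine koszul_local (biprod.lift f₁ f₂) (biprod.desc g₁ (-g₂)) hV (isGen_lbE δ j)
    (isGen_lbE _ j) (isGen_lbE _ j) (isGen_lbE _ j) (p j) (q j) l m hlm ?_ ?_ ?_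
  · have e1 : ap (biprod.fst : lb (δ * α) ⊞ lb (δ * β) ⟶ lb (δ * α)) (F.U j)
        (ap (biprod.lift f₁ f₂) (F.U j) (lbE δ j)) = p j • lbE (δ * α) j := by
      rw [← ap_comp, biprod.lift_fst, hf₁]
    have e2 : ap (biprod.snd : lb (δ * α) ⊞ lb (δ * β) ⟶ lb (δ * β)) (F.U j)
        (ap (biprod.lift f₁ f₂) (F.U j) (lbE δ j)) = q j • lbE (δ * β) j := by
      rw [← ap_comp, biprod.lift_snd, hf₂]
    rw [biprod_section (ap (biprod.lift f₁ f₂) (F.U j) (lbE δ j)), e1, e2,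
      (ap (biprod.inl : lb (δ * α) ⟶ lb (δ * α) ⊞ lb (δ * β)) (F.U j)).map_smul,
      (ap (biprod.inr : lb (δ * β) ⟶ lb (δ * α) ⊞ lb (δ * β)) (F.U j)).map_smul]
  · rw [← ap_comp, biprod.inl_desc, hg₁]
  · rw [← ap_comp, biprod.inr_desc]
    have : ap (-g₂) (F.U j) (lbE (δ * β) j) = -(ap g₂ (F.U j) (lbE (δ * β) j)) := rfl
    rw [this, hg₂]

end Frame

end Pool.Agent.R924
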