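import Pool.Agent.R924.D2
import Pool.Agent.R924.C4

set_option autoImplicit false

/-!
Extension of sections and covers by line bundles.
-/

universe u

open CategoryTheory Limits TopologicalSpace AlgebraicGeometry Opposite

namespace Pool.Agent.R924

open Pool.Agent.W506 Pool.Agent.W456

set_option backward.isDefEq.respectTransparency false

attribute [local instance] HasDerivedCategory.standard

variable {X : Scheme.{u}} {J : Type} {F : Frame X J}

namespace Frame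

/-- A divisor whose line bundle has sections with nonvanishing loci the charts. -/
structure Ample (F : Frame X J) (α : F.Div) where
  aff : ∀ j, IsAffineOpen (F.U j)
  /-- the quotients of the sections -/
  co : ∀ j _ : J, Γ(X, F.U j)
  ro_co : ∀ j i, ro (F.le j) (co j i) = ((α.1 i * (α.1 j)⁻¹ : Γ(X, F.T)ˣ) : Γ(X, F.T))
  basicOpen_co : ∀ j i, X.basicOpen (co j i) = F.U j ⊓ F.U i

variable {α : F.Div} (A : Ample F α)

namespace Ample

lemma co_self (i : J) : A.co i i = 1 := by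
  apply F.inj₁ i
  rw [A.ro_co, mul_inv_cancel, Units.val_one, map_one]

lemma co_mul (i j k : J) :
    ro (inf_le_right : F.U i ⊓ F.U j ≤ F.U j) (A.co j k) *
      ro (inf_le_left : F.U i ⊓ F.U j ≤ F.U i) (A.co i j) =
      ro (inf_le_left : F.U i ⊓ F.U j ≤ F.U i) (A.co i k) := by
  apply F.inj₂ i j
  rw [map_mul, ro_ro, ro_ro, ro_ro, A.ro_co, A.ro_co, A.ro_co, ← Units.val_mul]
  congr 1
  rw [mul_assoc, inv_mul_cancel_left]

lemma co_mulV (i j k : J) {V : X.Opens} (hj : V ≤ F.U j)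
    (hk : V ≤ F.U k) : ro hj (A.co j i) * ro hk (A.co k j) = ro hk (A.co k i) := by
  have h := congrArg (ro (le_inf hk hj)) (A.co_mul k j i)
  rw [map_mul, ro_ro, ro_ro, ro_ro] at h
  exact h

/-- transition functions of the line bundle of degree `-d` -/
noncomputable def gt (d : ℕ) (j k : J) : Γ(X, F.U j ⊓ F.U k) := ro inf_le_right (A.co k j) ^ d

lemma tr_eq_gt (d : ℕ) (j k : J) : tr ((α ^ d)⁻¹) j k = A.gt d j k := by
  apply F.inj₂ j k
  rw [ro_tr, gt, map_pow, ro_ro, A.ro_co, ← Units.val_pow_eq_pow_val]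
  congr 1
  change ((α.1 ^ d)⁻¹) k * (((α.1 ^ d)⁻¹) j)⁻¹ = _
  rw [Pi.inv_apply, Pi.inv_apply, inv_inv, Pi.pow_apply, Pi.pow_apply, mul_pow, inv_pow, mul_comm]

include A in
lemma isAffineOpen_inf (i j : J) : IsAffineOpen (F.U i ⊓ F.U j) := by
  rw [← A.basicOpen_co]
  exact (A.aff i).basicOpen _

variable [Finite J]

include A in
lemma exists_compat {M : X.Modules} (hM : ∀ j, QCOn M (F.U j)) (i : J)
    (s : Γ(M, F.U i)) :
    ∃ (d : ℕ) (t : ∀ j, Γ(M, F.U j)), Compat F.U (A.gt d) t ∧ t i = s := by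
  classical
  have := Fintype.ofFinite J
  -- first extension
  have h1 : ∀ j, ∃ (k : ℕ) (t : Γ(M, F.U j)), rs M (inf_le_left : F.U j ⊓ F.U i ≤ _) t =
      ro (inf_le_left : F.U j ⊓ F.U i ≤ F.U j) (A.co j i) ^ k •
        rs M (inf_le_right : F.U j ⊓ F.U i ≤ F.U i) s := fun j =>
    (hM j).ext' (A.aff j) le_rfl (A.co j i) (A.basicOpen_co j i) inf_le_left _
  choose k t ht using h1
  have hK : ∀ j, ∃ l, ∑ j, k j = l + k j := fun i => ⟨∑ j ∈ Finset.univ.erase i, k j,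
    (Finset.sum_erase_add _ _ (Finset.mem_univ i)).symm⟩
  choose l hl using hK
  obtain ⟨d, hd⟩ : ∃ d, d = ∑ j, k j := ⟨_, rfl⟩
  obtain ⟨t₁, ht₁⟩ : ∃ t₁ : ∀ j, Γ(M, F.U j), ∀ j,
      rs M (inf_le_left : F.U j ⊓ F.U i ≤ F.U j) (t₁ j) =
      ro (inf_le_left : F.U j ⊓ F.U i ≤ F.U j) (A.co j i) ^ d •
        rs M (inf_le_right : F.U j ⊓ F.U i ≤ F.U i) s := by
    refine ⟨fun j => A.co j i ^ l j • t j, fun j => ?_⟩
    rw [rs_smul, ht, map_pow, smul_smul, ← pow_add, hd, hl j]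
  -- vanishing of differences
  have h2 : ∀ p : J × J, ∃ m : ℕ,
      ro (inf_le_right : F.U p.1 ⊓ F.U p.2 ≤ F.U p.2) (A.co p.2 i) ^ m •
        (rs M (inf_le_right : F.U p.1 ⊓ F.U p.2 ≤ _) (t₁ p.2) -
          ro (inf_le_right : F.U p.1 ⊓ F.U p.2 ≤ F.U p.2) (A.co p.2 p.1) ^ d •
            rs M (inf_le_left : F.U p.1 ⊓ F.U p.2 ≤ _) (t₁ p.1)) = 0 := by
    rintro ⟨j, k⟩
    refine (hM k).uniq' (D := (F.U j ⊓ F.U k) ⊓ F.U i) (A.isAffineOpen_inf j k)
      inf_le_right _ ?_ inf_le_left _ ?_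
    · change X.basicOpen (ro (inf_le_right : F.U j ⊓ F.U k ≤ _) (A.co k i)) = _
      rw [basicOpen_ro', A.basicOpen_co, ← inf_assoc]
      congr 1
      exact inf_eq_left.2 inf_le_right
    · rw [map_sub, rs_smul, rs_rs, rs_rs, sub_eq_zero, map_pow, ro_ro]
      have e1 := congrArg (rs M (le_inf (inf_le_left.trans inf_le_left) inf_le_right :
        (F.U j ⊓ F.U k) ⊓ F.U i ≤ F.U j ⊓ F.U i)) (ht₁ j)
      have e2 := congrArg (rs M (le_inf (inf_le_left.trans inf_le_right) inf_le_right :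
        (F.U j ⊓ F.U k) ⊓ F.U i ≤ F.U k ⊓ F.U i)) (ht₁ k)
      rw [rs_rs, rs_smul, rs_rs, map_pow, ro_ro] at e1 e2
      change rs M _ (t₁ k) = ro _ (A.co k j) ^ d • rs M _ (t₁ j)
      rw [e1, e2, smul_smul, ← mul_pow]
      congr 2
      rw [mul_comm]
      exact (A.co_mulV i j k _ _).symm
  choose m hm using h2
  have hK' : ∀ p, ∃ l, ∑ p, m p = l + m p := fun i => ⟨∑ j ∈ Finset.univ.erase i, m j,
    (Finset.sum_erase_add _ _ (Finset.mem_univ i)).symm⟩
  choose l' hl' using hK'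
  obtain ⟨N, hN⟩ : ∃ N, N = ∑ p, m p := ⟨_, rfl⟩
  refine ⟨d + N, fun j => A.co j i ^ N • t₁ j, ?_, ?_⟩
  · intro j k
    change rs M _ (A.co k i ^ N • t₁ k) =
      ro (inf_le_right : F.U j ⊓ F.U k ≤ _) (A.co k j) ^ (d + N) •
        rs M _ (A.co j i ^ N • t₁ j)
    rw [rs_smul, rs_smul, smul_smul]
    have e1 : ro (inf_le_right : F.U j ⊓ F.U k ≤ _) (A.co k j) ^ (d + N) *
        ro (inf_le_left : F.U j ⊓ F.U k ≤ _) (A.co j i ^ N) =
        ro (inf_le_right : F.U j ⊓ F.U k ≤ _) (A.co k i) ^ N *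
          ro (inf_le_right : F.U j ⊓ F.U k ≤ _) (A.co k j) ^ d := by
      rw [← A.co_mulV i j k (inf_le_left : F.U j ⊓ F.U k ≤ _) inf_le_right, map_pow]
      ring
    rw [e1, mul_smul, map_pow, ← sub_eq_zero, ← smul_sub, hN, hl' (j, k), pow_add, mul_smul,
      hm (j, k), smul_zero]
  · change A.co i i ^ N • t₁ i = s
    rw [A.co_self, one_pow, one_smul]
    apply (rs_bijective (N := M) (inf_le_left : F.U i ⊓ F.U i ≤ _) (le_inf le_rfl le_rfl)).1
    rw [ht₁, A.co_self, map_one, one_pow, one_smul]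

/-- Modules which are projective and coherent on the charts and belong to a given class. -/
def Good (F : Frame X J) (T : ObjectProperty (DerivedCategory X.Modules)) (Q : X.Modules) : Prop :=
  CohU F.U Q ∧ ProjU F.U Q ∧ T (sg Q)

omit [Finite J] in
lemma Good.biprod {T : ObjectProperty (DerivedCategory X.Modules)} [T.IsTriangulated]
    [T.IsClosedUnderIsomorphisms] {P Q : X.Modules} (hP : Good F T P) (hQ : Good F T Q) :
    Good F T (P ⊞ Q) := by
  have key : ∀ j, ∃ e : (Γ(P, F.U j) × Γ(Q, F.U j)) ≃ₗ[Γ(X, F.U j)] Γ(P ⊞ Q, F.U j), True := by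
    intro j
    refine ⟨LinearEquiv.ofBijective (LinearMap.coprod
      (ap (biprod.inl : P ⟶ P ⊞ Q) (F.U j)) (ap (biprod.inr : Q ⟶ P ⊞ Q) (F.U j))) ⟨?_, ?_⟩, trivial⟩
    · rw [injective_iff_map_eq_zero]
      rintro ⟨a, b⟩ hab
      rw [LinearMap.coprod_apply] at hab
      have e1 := congrArg (ap (biprod.fst : P ⊞ Q ⟶ P) (F.U j)) hab
      have e2 := congrArg (ap (biprod.snd : P ⊞ Q ⟶ Q) (F.U j)) hab
      simp only [map_add, ← ap_comp, biprod.inl_fst, biprod.inr_fst, biprod.inl_snd,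
        biprod.inr_snd, ap_id, ap_zero, add_zero, zero_add, map_zero] at e1 e2
      rw [e1, e2]
      rfl
    · intro s
      exact ⟨(ap (biprod.fst : P ⊞ Q ⟶ P) _ s, ap (biprod.snd : P ⊞ Q ⟶ Q) _ s),
        (biprod_section s).symm⟩
  refine ⟨fun j => ⟨qcOn_biprod (hP.1 j).1 (hQ.1 j).1, ?_⟩, fun j => ?_, mem_biprod T hP.2.2 hQ.2.2⟩
  · obtain ⟨e, -⟩ := key j
    have := (hP.1 j).2
    have := (hQ.1 j).2
    exact Module.Finite.equiv e
  · obtain ⟨e, -⟩ := key j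
    have := hP.2.1 j
    have := hQ.2.1 j
    exact Module.Projective.of_equiv e

omit [Finite J] in
lemma good_of_isZero {T : ObjectProperty (DerivedCategory X.Modules)} [T.IsTriangulated]
    [T.IsClosedUnderIsomorphisms] {Q : X.Modules} (hQ : IsZero Q) : Good F T Q := by
  have := subsingleton_of_isZero hQ
  exact ⟨fun j => ⟨⟨fun W' _ _ f s => ⟨0, 0, Subsingleton.elim _ _⟩,
    fun W' _ _ f t _ => ⟨0, Subsingleton.elim _ _⟩⟩, inferInstance⟩, fun j => inferInstance,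
    T.prop_of_isZero (Functor.map_isZero _ hQ)⟩

lemma good_lb {T : ObjectProperty (DerivedCategory X.Modules)} (δ : F.Div)
    (h : T (sg (lb δ))) : Good F T (lb δ) :=
  ⟨fun j => ⟨(isGen_lbE δ j).qcOn, (isGen_lbE δ j).finite⟩, fun j => (isGen_lbE δ j).projective, h⟩

include A in
lemma exists_cover {T : ObjectProperty (DerivedCategory X.Modules)} [T.IsTriangulated]
    [T.IsClosedUnderIsomorphisms] (hT : ∀ d : ℕ, T (sg (lb ((α ^ d)⁻¹))))
    {M : X.Modules} (hM : ∀ j, QCOn M (F.U j))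
    (l : List (Σ i, Γ(M, F.U i))) :
    ∃ Q : X.Modules, Good F T Q ∧ ∃ φ : Q ⟶ M, ∀ p ∈ l, ∃ y, ap φ (F.U p.1) y = p.2 := by
  induction l with
  | nil =>
    exact ⟨_, good_of_isZero (isZero_zero _), 0, fun p hp => absurd hp (by simp)⟩
  | cons p l ih =>
    obtain ⟨Q, hQ, φ, hφ⟩ := ih
    obtain ⟨d, t, ht, hti⟩ := A.exists_compat hM p.1 p.2
    have htr : tr ((α ^ d)⁻¹) = A.gt d := by
      funext j k
      exact A.tr_eq_gt d j k
    obtain ⟨f, hf⟩ := lb_hom ((α ^ d)⁻¹) M t (by rw [htr]; exact ht)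
    refine ⟨lb ((α ^ d)⁻¹) ⊞ Q, (good_lb _ (hT d)).biprod hQ, biprod.desc f φ, ?_⟩
    intro p' hp'
    rcases List.mem_cons.1 hp' with rfl | hp'
    · refine ⟨ap (biprod.inl : lb ((α ^ d)⁻¹) ⟶ lb ((α ^ d)⁻¹) ⊞ Q) _ (lbE _ p'.1), ?_⟩
      rw [← ap_comp, biprod.inl_desc, hf, hti]
    · obtain ⟨y, hy⟩ := hφ p' hp'
      refine ⟨ap (biprod.inr : Q ⟶ lb ((α ^ d)⁻¹) ⊞ Q) _ y, ?_⟩
      rw [← ap_comp, biprod.inr_desc, hy]

omit [Finite J] in
lemma epi_of_surj (haff : ∀ j, IsAffineOpen (F.U j)) {M Q : X.Modules}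
    (hM : ∀ i, QCOn M (F.U i)) (φ : Q ⟶ M)
    (h : ∀ i, Function.Surjective (ap φ (F.U i))) : Epi φ := by
  apply epi_of_locally_surj
  intro V s x hx
  obtain ⟨i, hi⟩ := F.cover x
  obtain ⟨f, hle, hxf⟩ := (haff i).exists_basicOpen_le (V := V) ⟨x, hx⟩ hi
  obtain ⟨k, t, ht⟩ := (hM i).ext _ (haff i) le_rfl f (rs M hle s)
  obtain ⟨y, rfl⟩ := h i t
  obtain ⟨v, hv⟩ := (isUnit_ro_basicOpen f).exists_left_inv
  refine ⟨_, hle, hxf, v ^ k • rs Q (X.basicOpen_le f) y, ?_⟩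
  rw [map_smul, ap_rs, ht, smul_smul, ← mul_pow, hv, one_pow, one_smul]

include A in
/-- Every coherent module is a quotient of a sum of line bundles. -/
theorem exists_epi {T : ObjectProperty (DerivedCategory X.Modules)} [T.IsTriangulated]
    [T.IsClosedUnderIsomorphisms] (hT : ∀ d : ℕ, T (sg (lb ((α ^ d)⁻¹))))
    (M : X.Modules) (hM : CohU F.U M) :
    ∃ (Q : X.Modules) (φ : Q ⟶ M), CohU F.U Q ∧ ProjU F.U Q ∧ T (sg Q) ∧ Epi φ := by
  classical
  have := Fintype.ofFinite J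
  have h1 : ∀ i, ∃ S : Finset Γ(M, F.U i),
      Submodule.span Γ(X, F.U i) (S : Set Γ(M, F.U i)) = ⊤ := fun i => (hM i).2.1
  choose S hS using h1
  let l : List (Σ i, Γ(M, F.U i)) :=
    (Finset.univ : Finset J).toList.flatMap (fun i => (S i).toList.map (fun s => ⟨i, s⟩))
  obtain ⟨Q, hQ, φ, hφ⟩ := A.exists_cover hT (fun j => (hM j).1) l
  refine ⟨Q, φ, hQ.1, hQ.2.1, hQ.2.2, epi_of_surj A.aff (fun j => (hM j).1) φ fun i => ?_⟩
  rw [← LinearMap.range_eq_top, eq_top_iff, ← hS i, Submodule.span_le]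
  intro s hs
  exact hφ ⟨i, s⟩ (by
    simp only [l, List.mem_flatMap, List.mem_map]
    exact ⟨i, by simp, s, by simpa using hs, rfl⟩)

end Ample

/-- The main criterion: a thick subcategory containing the negative powers of an ample line bundle
contains all perfect complexes. -/
theorem perfect_le [Finite J] [CompactSpace X] [IsLocallyNoetherian X] {α : F.Div}
    (A : Ample F α) {N : ℕ} (hgood : IsGood F.U N)
    (T : ObjectProperty (DerivedCategory X.Modules)) [T.IsTriangulated]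
    [T.IsClosedUnderIsomorphisms] [T.IsStableUnderRetracts]
    (hT : ∀ d : ℕ, T (sg (lb ((α ^ d)⁻¹)))) : isPerfect X ≤ T :=
  perfect_mem hgood T (fun M hM => A.exists_epi hT M hM)

end Frame

end Pool.Agent.R924
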