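import Pool.Agent.R924.D3

set_option autoImplicit false

/-!
The closure argument for line bundles.
-/

universe u

open CategoryTheory Limits TopologicalSpace AlgebraicGeometry Opposite

namespace Pool.Agent.R924

open Pool.Agent.W506 Pool.Agent.W456

set_option backward.isDefEq.respectTransparency false

attribute [local instance] HasDerivedCategory.standard

/-- The combinatorial core. -/
theorem all_of_rules (P : ℤ → ℤ → Prop)
    (A1 : ∀ i j, P i j → P i (j + 2) → P i (j + 1))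
    (A2 : ∀ i j, P i (j + 1) → P i (j + 2) → P i j)
    (A3 : ∀ i j, P i j → P i (j + 1) → P i (j + 2))
    (B1 : ∀ i j, P i j → P (i + 2) (j + 1) → P (i + 1) j ∧ P (i + 1) (j + 1))
    (B2 : ∀ i j, P (i + 1) j → P (i + 1) (j + 1) → P (i + 2) (j + 1) → P i j)
    (B3 : ∀ i j, P i j → P (i + 1) j → P (i + 1) (j + 1) → P (i + 2) (j + 1))
    (C : P 0 0 → P 4 2 → P 2 0 ∧ P 2 2) (h₀ : P 0 0) (h₁ : P 4 2) : ∀ i j, P i j := by
  obtain ⟨h20, h22⟩ := C h₀ h₁
  have h21 : P 2 1 := A1 2 0 h20 h22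
  obtain ⟨h10, h11⟩ := B1 0 0 h₀ h21
  have row : ∀ i, P i 0 → P i 1 → ∀ j, P i j := by
    intro i hi0 hi1
    have up : ∀ n : ℕ, P i n ∧ P i (n + 1) := by
      intro n
      induction n with
      | zero => exact ⟨hi0, by simpa using hi1⟩
      | succ n ih =>
        refine ⟨by push_cast; exact ih.2, ?_⟩
        have := A3 i n ih.1 ih.2
        push_cast
        rw [add_assoc]
        exact this
    have down : ∀ n : ℕ, P i (-n) ∧ P i (-n + 1) := by
      intro n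
      induction n with
      | zero => exact ⟨by simpa using hi0, by simpa using hi1⟩
      | succ n ih =>
        have e1 : (-((n + 1 : ℕ) : ℤ)) + 1 = -n := by push_cast; ring
        have e2 : (-((n + 1 : ℕ) : ℤ)) + 2 = -n + 1 := by push_cast; ring
        have := A2 i (-((n + 1 : ℕ) : ℤ)) (by rw [e1]; exact ih.1) (by rw [e2]; exact ih.2)
        exact ⟨this, by rw [e1]; exact ih.1⟩
    intro j
    obtain ⟨n, rfl | rfl⟩ := j.eq_nat_or_neg
    · exact (up n).1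
    · exact (down n).1
  have r1 : ∀ j, P 1 j := row 1 h10 h11
  have r2 : ∀ j, P 2 j := row 2 h20 h21
  have up : ∀ n : ℕ, (∀ j, P ((n : ℤ) + 1) j) ∧ (∀ j, P ((n : ℤ) + 2) j) := by
    intro n
    induction n with
    | zero => exact ⟨fun j => by simpa using r1 j, fun j => by simpa using r2 j⟩
    | succ n ih =>
      have e1 : ((n + 1 : ℕ) : ℤ) + 1 = n + 2 := by push_cast; ring
      have e2 : ((n + 1 : ℕ) : ℤ) + 2 = (n + 1) + 2 := by push_cast; ring
      refine ⟨fun j => by rw [e1]; exact ih.2 j, fun j => ?_⟩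
      have := B3 ((n : ℤ) + 1) (j - 1) (ih.1 _) (by
        have := ih.2 (j - 1)
        rwa [show (n : ℤ) + 2 = n + 1 + 1 by ring] at this) (by
        have := ih.2 (j - 1 + 1)
        rwa [show (n : ℤ) + 2 = n + 1 + 1 by ring] at this)
      rw [e2]
      rwa [sub_add_cancel] at this
  have down : ∀ n : ℕ, (∀ j, P (-(n : ℤ) + 1) j) ∧ (∀ j, P (-(n : ℤ) + 2) j) := by
    intro n
    induction n with
    | zero => exact ⟨fun j => by simpa using r1 j, fun j => by simpa using r2 j⟩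
    | succ n ih =>
      have e1 : -((n + 1 : ℕ) : ℤ) + 1 = -n := by push_cast; ring
      have e2 : -((n + 1 : ℕ) : ℤ) + 2 = -n + 1 := by push_cast; ring
      refine ⟨fun j => ?_, fun j => by rw [e2]; exact ih.1 j⟩
      rw [e1]
      exact B2 (-n) j (ih.1 j) (ih.1 (j + 1)) (ih.2 (j + 1))
  intro i j
  obtain ⟨n, rfl | rfl⟩ := i.eq_nat_or_neg
  · rcases n with _ | n
    · have := (down 1).1 j
      simpa using this
    · have := (up n).1 j
      push_cast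
      exact this
  · have := (down (n + 1)).1 j
    rwa [show -((n + 1 : ℕ) : ℤ) + 1 = -(n : ℤ) by push_cast; ring] at this

variable {X : Scheme.{u}} {J : Type} [Finite J] {F : Frame X J}

namespace Frame

/-- The data of a Koszul sequence. -/
structure Kos (α β : F.Div) : Prop where
  out : ∃ (h h' : Γ(X, F.T)) (p q : ∀ j, Γ(X, F.U j)),
    (∀ j, ro (F.le j) (p j) * (α.1 j : Γ(X, F.T)) = h) ∧
    (∀ j, ro (F.le j) (q j) * (β.1 j : Γ(X, F.T)) = h') ∧
    (∀ j, ∃ l m, l * p j + m * q j = 1)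

variable (T : ObjectProperty (DerivedCategory X.Modules)) [T.IsTriangulated]
    [T.IsClosedUnderIsomorphisms] [T.IsStableUnderRetracts]

theorem Kos.rule₁ {α β : F.Div} (h : Kos α β) (δ : F.Div) (h₀ : T (sg (lb δ)))
    (h₃ : T (sg (lb (δ * α * β)))) : T (sg (lb (δ * α))) ∧ T (sg (lb (δ * β))) := by
  obtain ⟨a, a', p, q, hp, hq, hu⟩ := h.out
  obtain ⟨f, g, w, hS⟩ := koszul δ α β a a' p q hp hq hu
  have := mem_mid T hS h₀ h₃
  exact ⟨mem_fst T this, mem_snd T this⟩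

theorem Kos.rule₂ {α β : F.Div} (h : Kos α β) (δ : F.Div) (h₁ : T (sg (lb (δ * α))))
    (h₂ : T (sg (lb (δ * β)))) (h₃ : T (sg (lb (δ * α * β)))) : T (sg (lb δ)) := by
  obtain ⟨a, a', p, q, hp, hq, hu⟩ := h.out
  obtain ⟨f, g, w, hS⟩ := koszul δ α β a a' p q hp hq hu
  exact mem_left T hS (mem_biprod T h₁ h₂) h₃

theorem Kos.rule₃ {α β : F.Div} (h : Kos α β) (δ : F.Div) (h₀ : T (sg (lb δ)))
    (h₁ : T (sg (lb (δ * α))))
    (h₂ : T (sg (lb (δ * β)))) : T (sg (lb (δ * α * β))) := by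
  obtain ⟨a, a', p, q, hp, hq, hu⟩ := h.out
  obtain ⟨f, g, w, hS⟩ := koszul δ α β a a' p q hp hq hu
  exact mem_right T hS h₀ (mem_biprod T h₁ h₂)

/-- Two line bundles whose thick closure contains all `ε^i φ^j`. -/
theorem all_lb (ε φ : F.Div) (h₁ : Kos φ φ) (h₂ : Kos ε (ε * φ))
    (h₃ : Kos (ε ^ 2) (ε ^ 2 * φ ^ 2)) (h0 : T (sg (lb (1 : F.Div))))
    (h1 : T (sg (lb (ε ^ 4 * φ ^ 2)))) (i j : ℤ) : T (sg (lb (ε ^ i * φ ^ j))) := by
  have eqA1 : ∀ i j : ℤ, ε ^ i * φ ^ (j + 1) = ε ^ i * φ ^ j * φ := by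
    intro i j
    rw [zpow_add_one, mul_assoc]
  have eqA2 : ∀ i j : ℤ, ε ^ i * φ ^ (j + 2) = ε ^ i * φ ^ j * φ * φ := by
    intro i j
    rw [show j + 2 = j + 1 + 1 by ring, zpow_add_one, zpow_add_one]
    simp only [mul_assoc]
  have eqB1 : ∀ i j : ℤ, ε ^ (i + 1) * φ ^ j = ε ^ i * φ ^ j * ε := by
    intro i j
    rw [zpow_add_one, mul_assoc, mul_assoc, mul_comm ε]
  have eqB2 : ∀ i j : ℤ, ε ^ (i + 1) * φ ^ (j + 1) = ε ^ i * φ ^ j * (ε * φ) := by
    intro i j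
    rw [zpow_add_one, zpow_add_one]
    exact mul_mul_mul_comm _ _ _ _
  have eqB3 : ∀ i j : ℤ, ε ^ (i + 2) * φ ^ (j + 1) = ε ^ i * φ ^ j * ε * (ε * φ) := by
    intro i j
    rw [← eqB1, ← eqB2, add_assoc]
    rfl
  refine all_of_rules (fun i j => T (sg (lb (ε ^ i * φ ^ j)))) ?_ ?_ ?_ ?_ ?_ ?_ ?_ ?_ ?_ i j
  · intro i j ha hb
    simp only [eqA1, eqA2] at ha hb ⊢
    exact (h₁.rule₁ T _ ha hb).1
  · intro i j ha hb
    simp only [eqA1, eqA2] at ha hb ⊢
    exact h₁.rule₂ T _ ha ha hb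
  · intro i j ha hb
    simp only [eqA1, eqA2] at ha hb ⊢
    exact h₁.rule₃ T _ ha hb hb
  · intro i j ha hb
    simp only [eqB3, eqB2, eqB1] at ha hb ⊢
    exact h₂.rule₁ T _ ha hb
  · intro i j ha hb hc
    simp only [eqB3, eqB2, eqB1] at ha hb hc ⊢
    exact h₂.rule₂ T _ ha hb hc
  · intro i j ha hb hc
    simp only [eqB3, eqB2, eqB1] at ha hb hc ⊢
    exact h₂.rule₃ T _ ha hb hc
  · intro ha hb
    have e0 : ε ^ (0 : ℤ) * φ ^ (0 : ℤ) = 1 := by simp
    have e1 : ε ^ (2 : ℤ) * φ ^ (0 : ℤ) = 1 * ε ^ 2 := by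
      rw [zpow_zero, mul_one, one_mul]; rfl
    have e2 : ε ^ (2 : ℤ) * φ ^ (2 : ℤ) = 1 * (ε ^ 2 * φ ^ 2) := by
      rw [one_mul]; rfl
    have e3 : ε ^ (4 : ℤ) * φ ^ (2 : ℤ) = 1 * ε ^ 2 * (ε ^ 2 * φ ^ 2) := by
      rw [one_mul, ← mul_assoc, ← pow_add]; rfl
    simp only [e0, e1, e2, e3] at ha hb ⊢
    exact h₃.rule₁ T _ ha hb
  · simpa using h0
  · exact h1

end Frame

end Pool.Agent.R924
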