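import Pool.Agent.W456.PerfDef
import Pool.Agent.W456.Geo1

set_option autoImplicit false

/-!
Line bundles and simple-like objects.
-/

universe u

open CategoryTheory Limits AlgebraicGeometry

namespace Pool.Agent.R924

open Pool.Agent.W456

attribute [local instance] HasDerivedCategory.standard

/-- A line bundle: a module locally isomorphic to the structure sheaf. -/
def IsLineBundle {X : Scheme.{u}} (L : X.Modules) : Prop :=
  ∀ x : X, ∃ U : X.Opens, x ∈ U ∧
    Nonempty ((Scheme.Modules.restrictFunctor U.ι).obj L ≅ unitMod U.toScheme)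

/-- The ring homomorphism from the base field to the global functions. -/
noncomputable def skK {K : Type u} [Field K] {X : Scheme.{u}} (π : X ⟶ Spec (CommRingCat.of K)) :
    K →+* Γ(X, ⊤) :=
  ((Scheme.ΓSpecIso (CommRingCat.of K)).inv ≫ π.appTop).hom

/-- Simple-like objects: no negative self-extensions, and endomorphisms of dimension one over the
base field. -/
def IsSimpleLike {K : Type u} [Field K] {X : Scheme.{u}} (π : X ⟶ Spec (CommRingCat.of K))
    (F : DerivedCategory X.Modules) : Prop :=
  (∀ p : ℤ, p < 0 → ∀ f : F ⟶ F⟦p⟧, f = 0) ∧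
    letI : Module K (F ⟶ F) := Module.compHom (F ⟶ F) (skK π)
    Module.finrank K (F ⟶ F) = 1

end Pool.Agent.R924
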