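import Pool.Agent.R924.D1

set_option autoImplicit false

/-!
Functions on the basic open sets of `Proj` of a graded domain.
-/

universe u

open CategoryTheory Limits TopologicalSpace AlgebraicGeometry HomogeneousLocalization

namespace Pool.Agent.R924

open Pool.Agent.W506 (ro ro_ro ro_refl basicOpen_ro)

set_option backward.isDefEq.respectTransparency false

variable {A : Type u} [CommRing A] [IsDomain A] {σ : Type*} [SetLike σ A] [AddSubgroupClass σ A]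
  (𝒜 : ℕ → σ) [GradedRing 𝒜]

/-- the open set where `f` does not vanish -/
noncomputable abbrev DD (f : A) : (Proj 𝒜).Opens := Proj.basicOpen 𝒜 f

variable {𝒜}

/-- the function `a / f ^ k` -/
noncomputable def fr {f : A} {d : ℕ} (hf : f ∈ 𝒜 d) (k : ℕ)
    (a : A) (ha : a ∈ 𝒜 (k * d)) : Γ(Proj 𝒜, DD 𝒜 f) :=
  Proj.awayToSection 𝒜 f (Away.mk 𝒜 hf k a ha)

omit [IsDomain A] in
lemma awayToSection_bijective {f : A} {d : ℕ} (hf : f ∈ 𝒜 d)
    (hd : 0 < d) : Function.Bijective (Proj.awayToSection 𝒜 f) := by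
  have h := (Proj.basicOpenIsoAway 𝒜 f hf hd).isIso_hom
  rw [Proj.basicOpenIsoAway_hom] at h
  exact (ConcreteCategory.isIso_iff_bijective _).1 h

omit [IsDomain A] in
lemma exists_fr {f : A} {d : ℕ} (hf : f ∈ 𝒜 d)
    (hd : 0 < d) (s : Γ(Proj 𝒜, DD 𝒜 f)) :
    ∃ (k : ℕ) (a : A) (ha : a ∈ 𝒜 (k * d)), fr hf k a ha = s := by
  obtain ⟨z, rfl⟩ := (awayToSection_bijective hf hd).2 s
  obtain ⟨k, a, ha, rfl⟩ := Away.mk_surjective 𝒜 hf z
  exact ⟨k, a, ha, rfl⟩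

lemma fr_eq_iff {f : A} {d : ℕ} (hf : f ∈ 𝒜 d)
    (hd : 0 < d) (hf0 : f ≠ 0) (k : ℕ) (a : A)
    (ha : a ∈ 𝒜 (k * d)) (l : ℕ) (b : A)
    (hb : b ∈ 𝒜 (l * d)) : fr hf k a ha = fr hf l b hb ↔ f ^ l * a = f ^ k * b := by
  rw [fr, fr, (awayToSection_bijective hf hd).1.eq_iff, HomogeneousLocalization.ext_iff_val,
    Away.val_mk, Away.val_mk, Localization.mk_eq_mk_iff, Localization.r_iff_exists]
  constructor
  · rintro ⟨⟨_, r, rfl⟩, hc⟩
    exact mul_left_cancel₀ (pow_ne_zero r hf0) hc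
  · intro h
    exact ⟨1, by simpa using h⟩

omit [IsDomain A] in
lemma fr_add {f : A} {d : ℕ} (hf : f ∈ 𝒜 d)
    (k : ℕ) (a : A) (ha : a ∈ 𝒜 (k * d)) (b : A)
    (hb : b ∈ 𝒜 (k * d)) : fr hf k a ha + fr hf k b hb = fr hf k (a + b) (add_mem ha hb) := by
  rw [fr, fr, fr, ← map_add]
  congr 1
  rw [HomogeneousLocalization.ext_iff_val, val_add, Away.val_mk, Away.val_mk, Away.val_mk,
    Localization.add_mk_self]

omit [IsDomain A] in
lemma mul_mem_gr {i j : ℕ} {a b : A} (ha : a ∈ 𝒜 i)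
    (hb : b ∈ 𝒜 j) {l : ℕ} (hl : l = i + j) : a * b ∈ 𝒜 l := by
  subst hl
  exact SetLike.GradedMul.mul_mem ha hb

omit [IsDomain A] in
lemma fr_mul {f : A} {d : ℕ} (hf : f ∈ 𝒜 d)
    (k : ℕ) (a : A) (ha : a ∈ 𝒜 (k * d)) (l : ℕ) (b : A)
    (hb : b ∈ 𝒜 (l * d)) : fr hf k a ha * fr hf l b hb =
      fr hf (k + l) (a * b) (mul_mem_gr ha hb (add_mul k l d)) := by
  rw [fr, fr, fr, ← map_mul]
  congr 1
  rw [HomogeneousLocalization.ext_iff_val, val_mul, Away.val_mk, Away.val_mk, Away.val_mk,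
    Localization.mk_mul]
  congr 1
  apply Subtype.ext
  exact (pow_add f k l).symm

omit [IsDomain A] in
lemma fr_one {f : A} {d : ℕ} (hf : f ∈ 𝒜 d)
    (h1 : (1 : A) ∈ 𝒜 (0 * d)) : fr hf 0 1 h1 = 1 := by
  rw [fr, ← map_one (Proj.awayToSection 𝒜 f).hom]
  change (Proj.awayToSection 𝒜 f).hom _ = _
  congr 1
  rw [HomogeneousLocalization.ext_iff_val, Away.val_mk, val_one, ← Localization.mk_one]
  congr 1
  exact Subtype.ext (pow_zero f)

omit [IsDomain A] in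
lemma ro_fr {f g : A} {d e : ℕ} (hf : f ∈ 𝒜 d) (hg : g ∈ 𝒜 e)
    (hfg : f * g ∈ 𝒜 (d + e))
    (h : DD 𝒜 (f * g) ≤ DD 𝒜 f) (k : ℕ) (a : A)
    (ha : a ∈ 𝒜 (k * d)) :
    ro h (fr hf k a ha) = fr hfg k (a * g ^ k)
      (mul_mem_gr ha (SetLike.pow_mem_graded k hg) (by simp [mul_add])) := by
  have h1 := Proj.awayMap_awayToSection 𝒜 (f := f) hg (x := f * g) rfl
  have h2 := congr($h1 (Away.mk 𝒜 hf k a ha))
  have h3 : ro h (fr hf k a ha) = Proj.awayToSection 𝒜 (f * g)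
      (awayMap 𝒜 hg rfl (Away.mk 𝒜 hf k a ha)) := h2.symm
  rw [h3, fr]
  congr 1
  rw [HomogeneousLocalization.ext_iff_val, awayMap_mk, Away.val_mk]

omit [IsDomain A] in
lemma fr_zero {f : A} {d : ℕ} (hf : f ∈ 𝒜 d) (k : ℕ)
    (h0 : (0 : A) ∈ 𝒜 (k * d)) : fr hf k 0 h0 = 0 := by
  rw [fr, ← map_zero (Proj.awayToSection 𝒜 f).hom]
  change (Proj.awayToSection 𝒜 f).hom _ = _
  congr 1
  rw [HomogeneousLocalization.ext_iff_val, Away.val_mk, val_zero, Localization.mk_zero]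

lemma fr_eq_zero_iff {f : A} {d : ℕ} (hf : f ∈ 𝒜 d)
    (hd : 0 < d) (hf0 : f ≠ 0) (k : ℕ) (a : A)
    (ha : a ∈ 𝒜 (k * d)) : fr hf k a ha = 0 ↔ a = 0 := by
  rw [← fr_zero hf 0 (zero_mem _), fr_eq_iff hf hd hf0]
  simp

omit [IsDomain A] in
lemma fr_cast {f : A} {d : ℕ} (hf : f ∈ 𝒜 d) (k : ℕ)
    {a b : A} (ha : a ∈ 𝒜 (k * d)) (hab : a = b) :
    fr hf k a ha = fr hf k b (hab ▸ ha) := by
  subst hab
  rfl

omit [IsDomain A] in
lemma fr_pow {f : A} {d : ℕ} (hf : f ∈ 𝒜 d) (a : A) (ha : a ∈ 𝒜 d) (k : ℕ) :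
    fr hf 1 a (by simpa using ha) ^ k = fr hf k (a ^ k) (by
      have := SetLike.pow_mem_graded k ha
      simpa using this) := by
  induction k with
  | zero =>
    rw [pow_zero, ← fr_one hf (by simpa using SetLike.GradedOne.one_mem)]
    exact fr_cast _ _ _ (pow_zero _).symm
  | succ k ih =>
    rw [pow_succ, ih, fr_mul]
    exact fr_cast _ _ _ (pow_succ _ _).symm

omit [IsDomain A] in
lemma fr_congr {f g : A} (hfg : f = g) {d : ℕ} (hf : f ∈ 𝒜 d)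
    (hg : g ∈ 𝒜 d) (k : ℕ)
    (a : A) (ha : a ∈ 𝒜 (k * d)) (h : DD 𝒜 g ≤ DD 𝒜 f) :
    ro h (fr hf k a ha) = fr hg k a ha := by
  subst hfg
  exact ro_refl h _

/-- Restriction to a smaller basic open set is injective. -/
lemma ro_injective_of_mul {f g : A} {d e : ℕ} (hf : f ∈ 𝒜 d) (hd : 0 < d) (hg : g ∈ 𝒜 e)
    (hf0 : f ≠ 0) (hg0 : g ≠ 0) (h : DD 𝒜 (f * g) ≤ DD 𝒜 f) :
    Function.Injective (ro h) := by
  rw [injective_iff_map_eq_zero]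
  intro s hs
  obtain ⟨k, a, ha, rfl⟩ := exists_fr hf hd s
  have hfg : f * g ∈ 𝒜 (d + e) := mul_mem_gr hf hg rfl
  rw [ro_fr hf hg hfg, fr_eq_zero_iff hfg (by omega) (mul_ne_zero hf0 hg0)] at hs
  rw [fr_eq_zero_iff hf hd hf0]
  exact (mul_eq_zero.1 hs).resolve_right (pow_ne_zero _ hg0)

end Pool.Agent.R924
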