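import Pool.Agent.R924.E9

set_option autoImplicit false

/-!
Endomorphisms of line bundles; simple-like objects.
-/

universe u

open CategoryTheory Limits TopologicalSpace AlgebraicGeometry Opposite

namespace Pool.Agent.R924

open Pool.Agent.W506 Pool.Agent.W456

set_option backward.isDefEq.respectTransparency false
set_option linter.unusedSectionVars false

attribute [local instance] HasDerivedCategory.standard

variable {X : Scheme.{u}}

lemma neg_hom_eq_zero (M N : X.Modules) (p : ℤ) (hp : p < 0) (f : sg M ⟶ (sg N)⟦p⟧) : f = 0 := by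
  have h1 : (DerivedCategory.TStructure.t (C := X.Modules)).IsGE ((sg N)⟦p⟧) (-p) :=
    DerivedCategory.TStructure.t.isGE_shift (sg N) 0 p (-p) (by omega)
  exact DerivedCategory.TStructure.t.zero_of_isLE_of_isGE f 0 (-p) (by omega) inferInstance h1

variable {J : Type} [Finite J] {F : Frame X J}

/-- Endomorphisms of line bundles are multiplications by functions. -/
theorem Frame.lb_end (δ : F.Div) (f : lb δ ⟶ lb δ) : ∃ a : Γ(X, ⊤), f = a • 𝟙 (lb δ) := by
  have h1 : ∀ j, ∃ a : Γ(X, F.U j), a • lbE δ j = ap f _ (lbE δ j) := by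
    intro j
    obtain ⟨a, ha⟩ := (isGen_lbE δ j).exists_smul le_rfl (ap f _ (lbE δ j))
    rw [rs_refl] at ha
    exact ⟨a, ha⟩
  choose a ha using h1
  have hc := lb_compat δ
  have h2 : ∀ i j, ro (inf_le_left : F.U i ⊓ F.U j ≤ F.U i) (a i) =
      ro (inf_le_right : F.U i ⊓ F.U j ≤ F.U j) (a j) := by
    intro i j
    apply (isGen_lbE δ j).smul_inj (inf_le_right : F.U i ⊓ F.U j ≤ F.U j)
    rw [← rs_smul, ha, ← ap_rs, hc i j, map_smul, ap_rs, ← ha i, rs_smul, smul_smul, smul_smul,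
      mul_comm]
  obtain ⟨b, hb⟩ := exists_glue_ro F.U (fun _ => le_top) (fun x _ => by
    obtain ⟨j, hj⟩ := F.cover x
    exact Opens.mem_iSup.2 ⟨j, hj⟩) a h2
  refine ⟨b, ?_⟩
  rw [smul_id_eq]
  apply lb_ext
  intro j
  rw [← ha, ← hb j]
  rfl

theorem Frame.lb_end_inj (δ : F.Div) (a : Γ(X, ⊤)) (h : a • 𝟙 (lb δ) = 0) : a = 0 := by
  apply F.top_inj
  rw [map_zero]
  rw [smul_id_eq] at h
  by_cases hJ : Nonempty J
  · obtain ⟨j⟩ := hJ
    have h1 : ap (smulEnd a (lb δ)) (F.U j) (lbE δ j) = 0 := by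
      rw [h]
      rfl
    have h2 : ro (le_top : F.U j ≤ ⊤) a • lbE δ j = 0 := h1
    have h3 : ro (le_top : F.U j ≤ ⊤) a = 0 := by
      apply (isGen_lbE δ j).smul_inj le_rfl
      rw [rs_refl, h2, zero_smul]
    rw [← ro_ro (F.le j) le_top, h3, map_zero]
  · apply ext_ro_of_mem
    intro x hx
    obtain ⟨j, hj⟩ := F.cover x
    exact absurd ⟨j⟩ hJ

theorem simpleLike_of {K : Type u} [Field K] (π : X ⟶ Spec (CommRingCat.of K))
    (hπ : Function.Bijective (skK π)) (M : X.Modules)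
    (h₁ : ∀ f : M ⟶ M, ∃ a : Γ(X, ⊤), f = a • 𝟙 M) (h₂ : ∀ a : Γ(X, ⊤), a • 𝟙 M = 0 → a = 0) :
    IsSimpleLike π (sg M) := by
  refine ⟨fun p hp f => neg_hom_eq_zero _ _ p hp f, ?_⟩
  let : Module K (sg M ⟶ sg M) := Module.compHom _ (skK π)
  let φ : K →ₗ[K] (sg M ⟶ sg M) :=
    { toFun := fun c => skK π c • 𝟙 (sg M)
      map_add' := fun c c' => by rw [map_add, add_smul]
      map_smul' := fun c c' => by
        rw [smul_eq_mul, map_mul, mul_smul]
        rfl }
  have hφ : Function.Bijective φ := by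
    have key : ∀ a : Γ(X, ⊤), a • 𝟙 (sg M) =
        (DerivedCategory.singleFunctor X.Modules 0).map (a • 𝟙 M) := by
      intro a
      rw [Functor.map_smul, CategoryTheory.Functor.map_id]
    constructor
    · rw [injective_iff_map_eq_zero]
      intro c hc
      change skK π c • 𝟙 (sg M) = 0 at hc
      rw [key] at hc
      have h3 : skK π c • 𝟙 M = 0 :=
        (DerivedCategory.singleFunctor X.Modules 0).map_injective (by rw [hc, Functor.map_zero])
      exact hπ.1 (by rw [h₂ _ h3, map_zero])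
    · intro f
      obtain ⟨g, rfl⟩ := (DerivedCategory.singleFunctor X.Modules 0).map_surjective f
      obtain ⟨a, rfl⟩ := h₁ g
      obtain ⟨c, rfl⟩ := hπ.2 a
      exact ⟨c, key _⟩
  rw [← (LinearEquiv.ofBijective φ hφ).finrank_eq, Module.finrank_self]

theorem Frame.simpleLike {K : Type u} [Field K] (π : X ⟶ Spec (CommRingCat.of K))
    (hπ : Function.Bijective (skK π)) (δ : F.Div) (M : X.Modules) (e : lb δ ≅ M) :
    IsSimpleLike π (sg M) := by
  apply simpleLike_of π hπ
  · intro f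
    obtain ⟨a, ha⟩ := Frame.lb_end δ (e.hom ≫ f ≫ e.inv)
    refine ⟨a, ?_⟩
    have h1 : f = e.inv ≫ (e.hom ≫ f ≫ e.inv) ≫ e.hom := by simp
    rw [h1, ha, Linear.smul_comp, Linear.comp_smul, Category.id_comp, Iso.inv_hom_id]
  · intro a ha
    apply Frame.lb_end_inj δ
    have h1 : a • 𝟙 (lb δ) = e.hom ≫ (a • 𝟙 M) ≫ e.inv := by
      rw [Linear.smul_comp, Linear.comp_smul, Category.id_comp, Iso.hom_inv_id]
    rw [h1, ha, zero_comp, comp_zero]

end Pool.Agent.R924
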