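import Pool.Agent.R924.P6
import Pool.Agent.R924.E10

set_option autoImplicit false

/-!
The thick closure of two line bundles on the first Hirzebruch surface.
-/

universe u

open CategoryTheory Limits TopologicalSpace AlgebraicGeometry Opposite

namespace Pool.Agent.R924

open Pool.Agent.W506 Pool.Agent.W456

attribute [local instance] HasDerivedCategory.standard

open Pool.Agent.R924.Frame

lemma isPerfect_of_isGen {X : Scheme.{u}} {L : X.Modules}
    (h : ∀ x : X, ∃ U : X.Opens, x ∈ U ∧ ∃ e : Γ(L, U), IsGen e) : isPerfect X (sg L) := by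
  refine ConeGood.isPerfect (coneGood_of_basis fun x => ?_)
  obtain ⟨U, hx, e, he⟩ := h x
  exact ⟨U, hx, 1, fun _ => e, he⟩

lemma Frame.isPerfect_lb {X : Scheme.{u}} {J : Type} [Finite J] {F : Frame X J} (δ : F.Div) :
    isPerfect X (sg (lb δ)) := by
  apply isPerfect_of_isGen
  intro x
  obtain ⟨j, hj⟩ := F.cover x
  exact ⟨F.U j, hj, lbE δ j, isGen_lbE δ j⟩

/-- The criterion for generation. -/
theorem Frame.triangEnvelope_eq {X : Scheme.{u}} {J : Type} [Finite J] {F : Frame X J}
    [CompactSpace X] [IsLocallyNoetherian X] {α : F.Div} (A : Ample F α) {N : ℕ}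
    (hgood : IsGood F.U N) (P : ObjectProperty (DerivedCategory X.Modules)) [P.Nonempty]
    (hP : P ≤ isPerfect X) (hT : ∀ d : ℕ, P.triangEnvelope (sg (lb ((α ^ d)⁻¹)))) :
    P.triangEnvelope = isPerfect X := by
  apply le_antisymm
  · have hcov : ∀ M, CohU F.U M → ∃ (Q : X.Modules) (φ : Q ⟶ M), CohU F.U Q ∧ ProjU F.U Q ∧ Epi φ := by
      intro M hM
      obtain ⟨Q, φ, h1, h2, -, h3⟩ := A.exists_epi hT M hM
      exact ⟨Q, φ, h1, h2, h3⟩
    have := isTriangulated_isPerfect hgood hcov
    have := isStableUnderRetracts_isPerfect hgood hcov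
    exact (ObjectProperty.triangEnvelope_le_iff P).2 hP
  · exact perfect_le A hgood _ hT

variable (K : Type u) [Field K]

/-- The two line bundles. -/
noncomputable def L12 : Fin 2 → (F₁ K).Modules := ![unitMod (F₁ K), L₂ K]

lemma isLineBundle_L12 (i : Fin 2) : IsLineBundle (L12 K i) := by
  fin_cases i
  · exact isLineBundle_of_isGen fun x => ⟨⊤, trivial, ooE ⊤ 1, isBasisOn_one _⟩
  · exact Frame.isLineBundle_lb _

lemma isPerfect_L12 (i : Fin 2) : isPerfect (F₁ K) (sg (L12 K i)) := by
  fin_cases i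
  · exact isPerfect_of_isGen fun x => ⟨⊤, trivial, ooE ⊤ 1, isBasisOn_one _⟩
  · exact Frame.isPerfect_lb _

lemma simpleLike_L12 (i : Fin 2) : IsSimpleLike (pi₁ K) (sg (L12 K i)) := by
  fin_cases i
  · obtain ⟨e⟩ := Frame.lb_one (F := FF K)
    exact Frame.simpleLike (pi₁ K) (skK_bijective K) _ _ e
  · exact Frame.simpleLike (pi₁ K) (skK_bijective K) _ _ (Iso.refl _)

theorem envelope_L12 : (ObjectProperty.ofObj fun i => sg (L12 K i)).triangEnvelope =
    isPerfect (F₁ K) := by
  have h := ObjectProperty.le_triangEnvelope (ObjectProperty.ofObj fun i => sg (L12 K i))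
  refine Frame.triangEnvelope_eq (ample₁ K) (good₁ K) _ ?_ ?_
  · rw [ObjectProperty.ofObj_le_iff]
    exact isPerfect_L12 K
  · have h1 := generate₁ K (ObjectProperty.ofObj fun i => sg (L12 K i)).triangEnvelope
      (h _ ⟨0⟩) (h _ ⟨1⟩)
    intro d
    exact h1 _ (Frame.isPerfect_lb _)

end Pool.Agent.R924
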