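import Pool.Agent.R924.E1

set_option autoImplicit false

/-!
Charts of `Proj` of a graded monoid algebra which are affine planes.
-/

universe u

open CategoryTheory Limits TopologicalSpace AlgebraicGeometry HomogeneousLocalization

namespace Pool.Agent.R924

open Pool.Agent.W506 (ro ro_ro ro_refl basicOpen_ro)

set_option backward.isDefEq.respectTransparency false
set_option linter.unusedSectionVars false

/-- The monoid algebra. -/
abbrev Alg (K : Type u) [Field K] (M : Type) [AddCommMonoid M] := AddMonoidAlgebra K M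

/-- Its grading. -/
noncomputable abbrev gr (K : Type u) [Field K] {M : Type} [AddCommMonoid M] (deg : M →+ ℕ) :
    ℕ → Submodule K (Alg K M) := AddMonoidAlgebra.gradeBy K deg

/-- The monomials. -/
noncomputable abbrev mo (K : Type u) [Field K] {M : Type} [AddCommMonoid M] (m : M) : Alg K M :=
  AddMonoidAlgebra.single m 1

/-- Combinatorial data giving an affine plane. -/
structure Chart {M : Type} [AddCommMonoid M] (deg : M →+ ℕ) where
  /-- the monomial inverted -/
  m₀ : M
  /-- numerator of the first coordinate -/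
  p : M
  /-- numerator of the second coordinate -/
  q : M
  /-- first exponent -/
  β : M →+ ℕ
  /-- second exponent -/
  γ : M →+ ℕ
  deg₀ : deg m₀ = 1
  degp : deg p = 1
  degq : deg q = 1
  rel : ∀ m, m + (β m + γ m) • m₀ = β m • p + γ m • q + deg m • m₀
  β₀ : β m₀ = 0
  γ₀ : γ m₀ = 0
  βp : β p = 1
  γp : γ p = 0
  βq : β q = 0
  γq : γ q = 1

section

variable {K : Type u} [Field K] {M : Type} [AddCommMonoid M] {deg : M →+ ℕ}

lemma mo_mem {m : M} {d : ℕ} (h : deg m = d) (c : K) : (AddMonoidAlgebra.single m c : Alg K M) ∈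
    gr K deg d := by
  subst h
  exact AddMonoidAlgebra.single_mem_gradeBy deg m c

lemma mo_ne_zero (m : M) : mo K m ≠ 0 := AddMonoidAlgebra.single_ne_zero.2 one_ne_zero

/-- Homogeneous elements are sums of terms of the same degree. -/
lemma gr_induction {d : ℕ} {P : ∀ a : Alg K M, a ∈ gr K deg d → Prop}
    (h0 : P 0 (zero_mem _))
    (hadd : ∀ a ha b hb, P a ha → P b hb → P (a + b) (add_mem ha hb))
    (hs : ∀ (m : M) (c : K) (hm : deg m = d), P (AddMonoidAlgebra.single m c) (mo_mem hm c))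
    (a : Alg K M) (ha : a ∈ gr K deg d) : P a ha := by
  have key : ∀ (s : Finset M) (c : M → K) (hs' : ∀ m ∈ s, deg m = d),
      ∃ hmem : (∑ m ∈ s, (AddMonoidAlgebra.single m (c m) : Alg K M)) ∈ gr K deg d,
        P (∑ m ∈ s, (AddMonoidAlgebra.single m (c m) : Alg K M)) hmem := by
    classical
    intro s
    induction s using Finset.induction_on with
    | empty => intro c _; exact ⟨by rw [Finset.sum_empty]; exact zero_mem _, by
        simp only [Finset.sum_empty]; exact h0⟩
    | insert m s hm ih =>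
      intro c hs'
      obtain ⟨h1, h2⟩ := ih c (fun m' hm' => hs' m' (Finset.mem_insert_of_mem hm'))
      have h3 := hs' m (Finset.mem_insert_self _ _)
      refine ⟨by rw [Finset.sum_insert hm]; exact add_mem (mo_mem h3 _) h1, ?_⟩
      simp only [Finset.sum_insert hm]
      exact hadd _ _ _ _ (hs m (c m) h3) h2
  have h1 : ∑ m ∈ a.coeff.support, (AddMonoidAlgebra.single m (a.coeff m) : Alg K M) = a := by
    have := AddMonoidAlgebra.sum_coeff_single a
    rwa [Finsupp.sum] at this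
  obtain ⟨h2, h3⟩ := key a.coeff.support (fun m => a.coeff m) (fun m hm => ha m hm)
  simp only [h1] at h3
  exact h3

lemma fr_eq_iff' {M : Type} [AddCommMonoid M] {deg : M →+ ℕ} [IsDomain (Alg K M)]
    {m₀ : M} (h₀ : deg m₀ = 1) (k : ℕ) (a : Alg K M)
    (ha : a ∈ gr K deg (k * 1)) (l : ℕ) (b : Alg K M)
    (hb : b ∈ gr K deg (l * 1)) : fr (mo_mem h₀ (1 : K)) k a ha = fr (mo_mem h₀ (1 : K)) l b hb ↔
      mo K m₀ ^ l * a = mo K m₀ ^ k * b :=
  fr_eq_iff _ one_pos (mo_ne_zero m₀) k a ha l b hb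

/-- The constants. -/
noncomputable def cst {f : Alg K M} {d : ℕ} (hf : f ∈ gr K deg d) : K →+* Γ(Proj (gr K deg), DD (gr K deg) f) where
  toFun c := fr hf 0 (AddMonoidAlgebra.single 0 c) (mo_mem (by rw [map_zero, zero_mul]) c)
  map_one' := fr_one hf _
  map_mul' c c' := by
    rw [fr_mul]
    exact fr_cast hf 0 _ (by rw [AddMonoidAlgebra.single_mul_single, add_zero])
  map_zero' := by
    rw [← fr_zero hf 0 (zero_mem _)]
    exact fr_cast hf 0 _ (AddMonoidAlgebra.single_zero _)
  map_add' c c' := by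
    rw [fr_add]
    exact fr_cast hf 0 _ (AddMonoidAlgebra.single_add _ _ _)

lemma cst_apply {f : Alg K M} {d : ℕ} (hf : f ∈ gr K deg d) (c : K) :
    cst hf c = fr hf 0 (AddMonoidAlgebra.single 0 c) (mo_mem (by rw [map_zero, zero_mul]) c) := rfl

namespace Chart

variable (D : Chart deg)

/-- The monomial of given exponents. -/
noncomputable def ρ : Alg K M →ₐ[K] MvPolynomial (Fin 2) K :=
  AddMonoidAlgebra.lift K (MvPolynomial (Fin 2) K) M
    { toFun := fun m => MvPolynomial.X 0 ^ D.β m.toAdd * MvPolynomial.X 1 ^ D.γ m.toAdd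
      map_one' := by
        change MvPolynomial.X 0 ^ D.β 0 * MvPolynomial.X 1 ^ D.γ 0 = _
        rw [map_zero, map_zero, pow_zero, pow_zero, mul_one]
      map_mul' := fun m m' => by
        change MvPolynomial.X 0 ^ D.β (m.toAdd + m'.toAdd) * MvPolynomial.X 1 ^ D.γ (m.toAdd + m'.toAdd) = _
        rw [map_add, map_add, pow_add, pow_add]
        ring }

lemma ρ_single (m : M) (c : K) : D.ρ (AddMonoidAlgebra.single m c) =
    MvPolynomial.C c * (MvPolynomial.X 0 ^ D.β m * MvPolynomial.X 1 ^ D.γ m) := by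
  rw [ρ, AddMonoidAlgebra.lift_single, MvPolynomial.smul_eq_C_mul]
  rfl

variable [IsDomain (Alg K M)]

/-- The first coordinate. -/
noncomputable def x : Γ(Proj (gr K deg), DD (gr K deg) (mo K D.m₀)) :=
  fr (mo_mem D.deg₀ (1 : K)) 1 (mo K D.p) (mo_mem (by rw [D.degp]) (1 : K))

/-- The second coordinate. -/
noncomputable def y : Γ(Proj (gr K deg), DD (gr K deg) (mo K D.m₀)) :=
  fr (mo_mem D.deg₀ (1 : K)) 1 (mo K D.q) (mo_mem (by rw [D.degq]) (1 : K))

/-- The chart. -/
noncomputable def ev : MvPolynomial (Fin 2) K →+* Γ(Proj (gr K deg), DD (gr K deg) (mo K D.m₀)) :=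
  MvPolynomial.eval₂Hom (cst (mo_mem D.deg₀ (1 : K))) ![D.x, D.y]

lemma ev_C (c : K) : D.ev (MvPolynomial.C c) = cst (mo_mem D.deg₀ (1 : K)) c :=
  MvPolynomial.eval₂Hom_C _ _ _

lemma ev_X0 : (D.ev (K := K)) (MvPolynomial.X 0) = D.x := MvPolynomial.eval₂Hom_X' _ _ _

lemma ev_X1 : (D.ev (K := K)) (MvPolynomial.X 1) = D.y := MvPolynomial.eval₂Hom_X' _ _ _

lemma ev_rep (P : MvPolynomial (Fin 2) K) : ∃ (k : ℕ) (a : Alg K M) (ha : a ∈ gr K deg (k * 1)),
    D.ev P = fr (mo_mem D.deg₀ (1 : K)) k a ha ∧ D.ρ a = P := by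
  have hm : D.ρ (mo K D.m₀) = 1 := by
    rw [ρ_single, D.β₀, D.γ₀, map_one, pow_zero, pow_zero, mul_one, mul_one]
  induction P using MvPolynomial.induction_on with
  | C c =>
    refine ⟨0, AddMonoidAlgebra.single 0 c, _, D.ev_C c, ?_⟩
    rw [ρ_single, map_zero, map_zero, pow_zero, pow_zero, mul_one, mul_one]
  | add P Q hP hQ =>
    obtain ⟨k, a, ha, h1, h2⟩ := hP
    obtain ⟨l, b, hb, h3, h4⟩ := hQ
    have ha' : a * mo K D.m₀ ^ l ∈ gr K deg ((k + l) * 1) :=
      mul_mem_gr ha (SetLike.pow_mem_graded l (mo_mem D.deg₀ (1 : K))) (by simp)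
    have hb' : b * mo K D.m₀ ^ k ∈ gr K deg ((k + l) * 1) :=
      mul_mem_gr hb (SetLike.pow_mem_graded k (mo_mem D.deg₀ (1 : K))) (by simp [add_comm])
    refine ⟨k + l, a * mo K D.m₀ ^ l + b * mo K D.m₀ ^ k, add_mem ha' hb', ?_, ?_⟩
    · rw [map_add, h1, h3, ← fr_add _ _ _ ha' _ hb']
      congr 1
      · rw [fr_eq_iff' D.deg₀]
        ring
      · rw [fr_eq_iff' D.deg₀]
        ring
    · rw [map_add, map_mul, map_mul, map_pow, map_pow, hm, h2, h4, one_pow, one_pow, mul_one,
        mul_one]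
  | mul_X P i hP =>
    obtain ⟨k, a, ha, h1, h2⟩ := hP
    fin_cases i
    · refine ⟨k + 1, a * mo K D.p, mul_mem_gr ha (mo_mem D.degp (1 : K)) (by simp), ?_, ?_⟩
      · rw [map_mul, h1]
        erw [D.ev_X0]
        rw [x, fr_mul]
      · rw [map_mul, h2, ρ_single, D.βp, D.γp, pow_one, pow_zero, mul_one, map_one, one_mul]
        rfl
    · refine ⟨k + 1, a * mo K D.q, mul_mem_gr ha (mo_mem D.degq (1 : K)) (by simp), ?_, ?_⟩
      · rw [map_mul, h1]
        erw [D.ev_X1]
        rw [y, fr_mul]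
      · rw [map_mul, h2, ρ_single, D.βq, D.γq, pow_one, pow_zero, one_mul, map_one, one_mul]
        rfl

lemma ev_injective : Function.Injective (D.ev (K := K)) := by
  rw [injective_iff_map_eq_zero]
  intro P hP
  obtain ⟨k, a, ha, h1, h2⟩ := D.ev_rep P
  rw [hP] at h1
  have h3 := (fr_eq_zero_iff _ one_pos (mo_ne_zero D.m₀) k a ha).1 h1.symm
  rw [← h2, h3, map_zero]

lemma fr_single (m : M) (c : K) (k : ℕ) (hm : deg m = k * 1) :
    fr (mo_mem D.deg₀ (1 : K)) k (AddMonoidAlgebra.single m c) (mo_mem hm c) =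
      D.ev (MvPolynomial.C c * (MvPolynomial.X 0 ^ D.β m * MvPolynomial.X 1 ^ D.γ m)) := by
  rw [map_mul, map_mul, map_pow, map_pow, D.ev_C, D.ev_X0, D.ev_X1, cst_apply, x, y,
    fr_pow _ _ (mo_mem D.degp (1 : K)), fr_pow _ _ (mo_mem D.degq (1 : K)), fr_mul, fr_mul, fr_eq_iff' D.deg₀]
  have h1 := D.rel m
  rw [hm, mul_one] at h1
  rw [AddMonoidAlgebra.single_pow, AddMonoidAlgebra.single_pow, AddMonoidAlgebra.single_pow,
    AddMonoidAlgebra.single_pow, AddMonoidAlgebra.single_mul_single,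
    AddMonoidAlgebra.single_mul_single, AddMonoidAlgebra.single_mul_single,
    AddMonoidAlgebra.single_mul_single]
  congr 1
  · rw [zero_add, zero_add, add_comm _ m, h1, add_comm]
  · simp

lemma ev_surjective : Function.Surjective (D.ev (K := K)) := by
  intro s
  obtain ⟨k, a, ha, rfl⟩ := exists_fr (mo_mem D.deg₀ (1 : K)) one_pos s
  change _ ∈ Set.range D.ev
  rw [← RingHom.coe_range]
  refine gr_induction (P := fun a ha => fr (mo_mem D.deg₀ (1 : K)) k a ha ∈ D.ev.range)
    ?_ ?_ ?_ a ha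
  · rw [fr_zero]
    exact zero_mem _
  · intro a ha b hb h1 h2
    rw [← fr_add _ _ _ ha _ hb]
    exact add_mem h1 h2
  · intro m c hm
    exact ⟨_, (D.fr_single m c k hm).symm⟩

/-- The chart as an isomorphism. -/
noncomputable def equiv : MvPolynomial (Fin 2) K ≃+* Γ(Proj (gr K deg), DD (gr K deg) (mo K D.m₀)) :=
  RingEquiv.ofBijective D.ev ⟨D.ev_injective, D.ev_surjective⟩

end Chart

end

end Pool.Agent.R924
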