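import Pool.Agent.R924.E2
import Pool.Agent.R924.D4

set_option autoImplicit false

/-!
Frames on `Proj` of a graded monoid algebra.
-/

universe u

open CategoryTheory Limits TopologicalSpace AlgebraicGeometry HomogeneousLocalization

namespace Pool.Agent.R924

open Pool.Agent.W506 (ro ro_ro ro_refl basicOpen_ro)

set_option backward.isDefEq.respectTransparency false
set_option linter.unusedSectionVars false

section

variable {A : Type u} [CommRing A] {σ : Type*} [SetLike σ A] [AddSubgroupClass σ A]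
  {𝒜 : ℕ → σ} [GradedRing 𝒜]

lemma basicOpen_fr {f : A} {d : ℕ} (hf : f ∈ 𝒜 d) (k : ℕ) (a : A) (ha : a ∈ 𝒜 (k * d)) :
    (Proj 𝒜).basicOpen (fr hf k a ha) = DD 𝒜 f ⊓ DD 𝒜 a := by
  ext x
  have key : ∀ hx : x ∈ DD 𝒜 f, IsUnit ((Proj 𝒜).presheaf.germ (DD 𝒜 f) x hx (fr hf k a ha)) ↔
      x ∈ DD 𝒜 a := by
    intro hx
    have h1 := ProjectiveSpectrum.Proj.awayToSection_germ 𝒜 f x hx
    have h2 := congr($h1 (Away.mk 𝒜 hf k a ha))
    have h3 : (Proj 𝒜).presheaf.germ (DD 𝒜 f) x hx (fr hf k a ha) =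
      (AlgebraicGeometry.Proj.stalkIso' 𝒜 x).symm
        (HomogeneousLocalization.mapId 𝒜 (Submonoid.powers_le.mpr hx) (Away.mk 𝒜 hf k a ha)) := h2
    have h4 : IsUnit ((AlgebraicGeometry.Proj.stalkIso' 𝒜 x).symm
        (HomogeneousLocalization.mapId 𝒜 (Submonoid.powers_le.mpr hx) (Away.mk 𝒜 hf k a ha))) ↔
        IsUnit (HomogeneousLocalization.mapId 𝒜 (P := Submonoid.powers f)
          (Q := (ProjectiveSpectrum.asHomogeneousIdeal x).toIdeal.primeCompl)
          (Submonoid.powers_le.mpr hx) (Away.mk 𝒜 hf k a ha)) :=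
      MulEquiv.isUnit_map (AlgebraicGeometry.Proj.stalkIso' 𝒜 x).symm
    rw [h3]
    refine h4.trans ?_
    rw [← isUnit_iff_isUnit_val]
    change IsUnit (HomogeneousLocalization.val (mk _)) ↔ _
    rw [val_mk, Localization.mk_eq_mk', IsLocalization.AtPrime.isUnit_mk'_iff]
    rfl
  constructor
  · intro h
    obtain ⟨hx, h1⟩ := ((Proj 𝒜).mem_basicOpen'' (fr hf k a ha) x).1 h
    exact ⟨hx, (key hx).1 h1⟩
  · rintro ⟨hx, h1⟩
    exact ((Proj 𝒜).mem_basicOpen'' (fr hf k a ha) x).2 ⟨hx, (key hx).2 h1⟩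

lemma ro_fr' {f F R : A} {d e D : ℕ} (hf : f ∈ 𝒜 d) (hR : R ∈ 𝒜 e) (hF : F = f * R)
    (hFD : F ∈ 𝒜 D) (hD : D = d + e) (h : DD 𝒜 F ≤ DD 𝒜 f) (k : ℕ) (a : A)
    (ha : a ∈ 𝒜 (k * d)) :
    ro h (fr hf k a ha) = fr hFD k (a * R ^ k)
      (mul_mem_gr ha (SetLike.pow_mem_graded k hR) (by simp [mul_add, hD])) := by
  subst hF hD
  exact ro_fr hf hR hFD h k a ha

lemma ro_injective' [IsDomain A] {f g : A} {d e : ℕ} (hf : f ∈ 𝒜 d) (hd : 0 < d) (hg : g ∈ 𝒜 e)
    (hf0 : f ≠ 0) (hg0 : g ≠ 0) {T W : (Proj 𝒜).Opens} (hT : T = DD 𝒜 (f * g)) (hW : W = DD 𝒜 f)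
    (h : T ≤ W) : Function.Injective (ro h) := by
  subst hT hW
  exact ro_injective_of_mul hf hd hg hf0 hg0 h

end

variable {K : Type u} [Field K] {M : Type} [AddCommMonoid M] {deg : M →+ ℕ}
  {J : Type} [Fintype J] [DecidableEq J] (g : J → M) (hg : ∀ j, deg (g j) = 1)

lemma sum_eq_rest (j : J) : mo K (∑ i, g i) = mo K (g j) * mo K (∑ i ∈ Finset.univ.erase j, g i) := by
  rw [AddMonoidAlgebra.single_mul_single, mul_one, Finset.add_sum_erase _ _ (Finset.mem_univ j)]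

include hg in
lemma deg_sum : deg (∑ i, g i) = Fintype.card J := by
  rw [map_sum, Finset.sum_congr rfl (fun i _ => hg i), Finset.sum_const, Finset.card_univ,
    smul_eq_mul, mul_one]

include hg in
lemma deg_rest (j : J) : deg (∑ i ∈ Finset.univ.erase j, g i) = Fintype.card J - 1 := by
  rw [map_sum, Finset.sum_congr rfl (fun i _ => hg i), Finset.sum_const,
    Finset.card_erase_of_mem (Finset.mem_univ j), Finset.card_univ, smul_eq_mul, mul_one]

lemma DD_sum_le (j : J) : DD (gr K deg) (mo K (∑ i, g i)) ≤ DD (gr K deg) (mo K (g j)) := by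
  rw [sum_eq_rest g j, DD, Proj.basicOpen_mul]
  exact inf_le_left

variable [IsDomain (Alg K M)]

/-- The frame given by monomials of degree one. -/
noncomputable def mframe (hcov : ∀ x : Proj (gr K deg), ∃ j, x ∈ DD (gr K deg) (mo K (g j))) :
    Frame (Proj (gr K deg)) J where
  U j := DD (gr K deg) (mo K (g j))
  T := DD (gr K deg) (mo K (∑ i, g i))
  le j := DD_sum_le g j
  inj i j k := by
    refine ro_injective' (f := mo K (g i) * mo K (g j) * mo K (g k)) (g := mo K (∑ i, g i))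
      (mul_mem_gr (mul_mem_gr (mo_mem (hg i) (1 : K)) (mo_mem (hg j) (1 : K)) rfl)
        (mo_mem (hg k) (1 : K)) rfl) (by norm_num) (mo_mem (deg_sum g hg) (1 : K)) ?_ (mo_ne_zero _)
      ?_ ?_ _
    · exact mul_ne_zero (mul_ne_zero (mo_ne_zero _) (mo_ne_zero _)) (mo_ne_zero _)
    · simp only [DD, Proj.basicOpen_mul]
      exact (inf_eq_right.2 (le_inf (le_inf (DD_sum_le g i) (DD_sum_le g j)) (DD_sum_le g k))).symm
    · simp only [DD, Proj.basicOpen_mul]
  cover := hcov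

/-- Quotients as rational functions. -/
noncomputable def rr (j : J) (k : ℕ) (a : Alg K M) (ha : a ∈ gr K deg (k * 1)) :
    Γ(Proj (gr K deg), DD (gr K deg) (mo K (∑ i, g i))) :=
  ro (DD_sum_le g j) (fr (mo_mem (hg j) (1 : K)) k a ha)

lemma rr_mul (j : J) (k : ℕ) (a : Alg K M) (ha : a ∈ gr K deg (k * 1)) (l : ℕ)
    (b : Alg K M) (hb : b ∈ gr K deg (l * 1)) : rr g hg j k a ha * rr g hg j l b hb =
      rr g hg j (k + l) (a * b) (mul_mem_gr ha hb (add_mul k l 1)) := by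
  rw [rr, rr, rr, ← map_mul, fr_mul]

lemma rr_trans (i j : J) (k : ℕ) (a : Alg K M) (ha : a ∈ gr K deg (k * 1)) :
    rr g hg i k a ha * rr g hg j k (mo K (g i) ^ k)
      (SetLike.pow_mem_graded k (mo_mem (hg i) (1 : K))) = rr g hg j k a ha := by
  have hc : Fintype.card J = 1 + (Fintype.card J - 1) := by
    have : 0 < Fintype.card J := Fintype.card_pos_iff.2 ⟨i⟩
    omega
  have e : ∀ (j : J) (a : Alg K M) (ha : a ∈ gr K deg (k * 1)), rr g hg j k a ha =
      fr (mo_mem (deg_sum g hg) (1 : K)) k (a * mo K (∑ i ∈ Finset.univ.erase j, g i) ^ k)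
      (mul_mem_gr ha (SetLike.pow_mem_graded k (mo_mem (deg_rest g hg j) (1 : K)))
        (by rw [smul_eq_mul, ← mul_add, ← hc])) := fun j a ha =>
    ro_fr' _ (mo_mem (deg_rest g hg j) (1 : K)) (sum_eq_rest g j) _ hc _ k a ha
  rw [e, e, e, fr_mul, fr_eq_iff _ (Fintype.card_pos_iff.2 ⟨i⟩) (mo_ne_zero _)]
  have h1 : mo K (∑ i, g i) ^ (k + k) = mo K (∑ i, g i) ^ k *
      (mo K (g i) ^ k * mo K (∑ j ∈ Finset.univ.erase i, g j) ^ k) := by
    rw [← mul_pow, ← sum_eq_rest, pow_add]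
  rw [h1]
  ring

lemma rr_self (j : J) (h : mo K (g j) ∈ gr K deg (1 * 1)) : rr g hg j 1 (mo K (g j)) h = 1 := by
  rw [rr, ← map_one (ro (DD_sum_le g j))]
  congr 1
  rw [← fr_one (mo_mem (hg j) (1 : K)) (mo_mem (by simp) (1 : K)), fr_eq_iff' (hg j)]
  rw [pow_zero, pow_one, one_mul, mul_one]

end Pool.Agent.R924
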