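import Pool.Agent.R924.E3

set_option autoImplicit false

/-!
The first Hirzebruch surface as `Proj` of a graded monoid algebra.
-/

universe u

open CategoryTheory Limits TopologicalSpace AlgebraicGeometry HomogeneousLocalization

namespace Pool.Agent.R924

open Pool.Agent.W506 (ro ro_ro ro_refl basicOpen_ro)

set_option backward.isDefEq.respectTransparency false
set_option linter.unusedSectionVars false

/-- The monoid of the first Hirzebruch surface. -/
def MM : AddSubmonoid (Fin 4 → ℕ) where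
  carrier := {m | m 0 + m 1 = 2 * m 2 + m 3}
  zero_mem' := rfl
  add_mem' {a b} ha hb := by
    change a 0 + a 1 = 2 * a 2 + a 3 at ha
    change b 0 + b 1 = 2 * b 2 + b 3 at hb
    change (a 0 + b 0) + (a 1 + b 1) = 2 * (a 2 + b 2) + (a 3 + b 3)
    omega

/-- The degree. -/
def dg : MM →+ ℕ where
  toFun m := m.1 2 + m.1 3
  map_zero' := rfl
  map_add' a b := by
    change (a.1 2 + b.1 2) + (a.1 3 + b.1 3) = _
    omega

/-- The exponents of the monomials of degree one. -/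
def gv : Fin 5 → Fin 4 → ℕ :=
  ![![2, 0, 1, 0], ![0, 2, 1, 0], ![1, 0, 0, 1], ![0, 1, 0, 1], ![1, 1, 1, 0]]

/-- The monomials of degree one which generate. -/
def gg (m : Fin 5) : MM := ⟨gv m, by
  change gv m 0 + gv m 1 = 2 * gv m 2 + gv m 3
  revert m
  decide⟩

lemma dg_gg (m : Fin 5) : dg (gg m) = 1 := by
  change gv m 2 + gv m 3 = 1
  revert m
  decide

/-- The monomials defining the charts. -/
abbrev g4 (j : Fin 4) : MM := gg j.castSucc

lemma MM_ext {a b : MM} (h0 : a.1 0 = b.1 0) (h1 : a.1 1 = b.1 1) (h2 : a.1 2 = b.1 2)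
    (h3 : a.1 3 = b.1 3) : a = b := by
  apply Subtype.ext
  funext i
  fin_cases i <;> assumption

lemma exists_sub (m : MM) (h : 0 < dg m) : ∃ (i : Fin 5) (m' : MM), m = gg i + m' := by
  have hm : m.1 0 + m.1 1 = 2 * m.1 2 + m.1 3 := m.2
  have hd : 0 < m.1 2 + m.1 3 := h
  have key : ∀ i : Fin 5, (∀ j, gv i j ≤ m.1 j) → ∃ m' : MM, m = gg i + m' := by
    intro i hi
    refine ⟨⟨fun j => m.1 j - gv i j, ?_⟩, ?_⟩
    · have h1 : gv i 0 + gv i 1 = 2 * gv i 2 + gv i 3 := (gg i).2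
      have := hi 0
      have := hi 1
      have := hi 2
      have := hi 3
      change (m.1 0 - gv i 0) + (m.1 1 - gv i 1) = 2 * (m.1 2 - gv i 2) + (m.1 3 - gv i 3)
      omega
    · apply Subtype.ext
      funext j
      exact (Nat.add_sub_cancel' (hi j)).symm
  have fin4 : ∀ {P : Fin 4 → Prop}, P 0 → P 1 → P 2 → P 3 → ∀ j, P j := by
    intro P h0 h1 h2 h3 j
    fin_cases j <;> assumption
  by_cases h3 : 0 < m.1 3
  · by_cases h0 : 0 < m.1 0
    · obtain ⟨m', hm'⟩ := key 2 (fin4 h0 (Nat.zero_le _) (Nat.zero_le _) h3)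
      exact ⟨2, m', hm'⟩
    · obtain ⟨m', hm'⟩ := key 3 (fin4 (Nat.zero_le _) (show 1 ≤ m.1 1 by omega) (Nat.zero_le _) h3)
      exact ⟨3, m', hm'⟩
  · have h2 : 0 < m.1 2 := by omega
    by_cases h0 : 2 ≤ m.1 0
    · obtain ⟨m', hm'⟩ := key 0 (fin4 h0 (Nat.zero_le _) h2 (Nat.zero_le _))
      exact ⟨0, m', hm'⟩
    · by_cases h1 : 2 ≤ m.1 1
      · obtain ⟨m', hm'⟩ := key 1 (fin4 (Nat.zero_le _) h1 h2 (Nat.zero_le _))
        exact ⟨1, m', hm'⟩
      · obtain ⟨m', hm'⟩ := key 4 (fin4 (show 1 ≤ m.1 0 by omega) (show 1 ≤ m.1 1 by omega) h2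
          (Nat.zero_le _))
        exact ⟨4, m', hm'⟩

lemma eq_zero_of_dg (m : MM) (h : dg m = 0) : m = 0 := by
  have hm : m.1 0 + m.1 1 = 2 * m.1 2 + m.1 3 := m.2
  have hd : m.1 2 + m.1 3 = 0 := h
  apply MM_ext
  · change m.1 0 = 0
    omega
  · change m.1 1 = 0
    omega
  · change m.1 2 = 0
    omega
  · change m.1 3 = 0
    omega

lemma closure_gg : AddSubmonoid.closure (Set.range gg) = ⊤ := by
  rw [eq_top_iff]
  rintro m -
  induction h : dg m generalizing m with
  | zero => rw [eq_zero_of_dg m h]; exact zero_mem _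
  | succ k ih =>
    obtain ⟨i, m', rfl⟩ := exists_sub m (by omega)
    rw [map_add, dg_gg] at h
    exact add_mem (AddSubmonoid.subset_closure ⟨i, rfl⟩) (ih (m := m') (by omega))

instance : AddMonoid.FG MM := ⟨⟨Finset.univ.image gg, by
  rw [Finset.coe_image, Finset.coe_univ, Set.image_univ, closure_gg]⟩⟩

instance : UniqueSums MM :=
  UniqueSums.of_injective_addHom (MM.subtype : MM →ₙ+ (Fin 4 → ℕ)) Subtype.val_injective inferInstance

variable (K : Type u) [Field K]

instance : IsDomain (Alg K MM) := inferInstance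

/-- The first Hirzebruch surface. -/
noncomputable abbrev F₁ : Scheme.{u} := Proj (gr K dg)

lemma four_sq : mo K (gg 4) * mo K (gg 4) = mo K (gg 0) * mo K (gg 1) := by
  rw [AddMonoidAlgebra.single_mul_single, AddMonoidAlgebra.single_mul_single]
  congr 1
  apply MM_ext <;> rfl

lemma irrelevant_le : (HomogeneousIdeal.irrelevant (gr K dg)).toIdeal ≤
    Ideal.span (Set.range fun i : Fin 5 => mo K (gg i)) := by
  rw [HomogeneousIdeal.toIdeal_irrelevant_le]
  intro i hi a ha
  refine gr_induction (P := fun a _ => a ∈ Ideal.span (Set.range fun i : Fin 5 => mo K (gg i)))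
    (zero_mem _) (fun a _ b _ h1 h2 => add_mem h1 h2) ?_ a ha
  intro m c hm
  obtain ⟨j, m', rfl⟩ := exists_sub m (by omega)
  have : (AddMonoidAlgebra.single (gg j + m') c : Alg K MM) =
      AddMonoidAlgebra.single m' c * mo K (gg j) := by
    rw [AddMonoidAlgebra.single_mul_single, mul_one, add_comm]
  rw [this]
  exact Ideal.mul_mem_left _ _ (Ideal.subset_span ⟨j, rfl⟩)

lemma cover₁ (x : F₁ K) : ∃ j, x ∈ DD (gr K dg) (mo K (g4 j)) := by
  have h1 := Proj.iSup_basicOpen_eq_top (𝒜 := gr K dg) (fun i : Fin 5 => mo K (gg i))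
    (irrelevant_le K)
  have h2 : x ∈ (⊤ : (F₁ K).Opens) := trivial
  rw [← h1, Opens.mem_iSup] at h2
  obtain ⟨i, hi⟩ := h2
  rcases Fin.eq_castSucc_or_eq_last i with ⟨j, rfl⟩ | rfl
  · exact ⟨j, hi⟩
  · refine ⟨0, ?_⟩
    have h3 : x ∈ DD (gr K dg) (mo K (gg 4) * mo K (gg 4)) := by
      rw [DD, Proj.basicOpen_mul]
      exact ⟨hi, hi⟩
    rw [four_sq, DD, Proj.basicOpen_mul] at h3
    exact h3.1

end Pool.Agent.R924
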