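import Pool.Agent.R924.E4

set_option autoImplicit false

/-!
The divisors and the Koszul sequences on the first Hirzebruch surface.
-/

universe u

open CategoryTheory Limits TopologicalSpace AlgebraicGeometry HomogeneousLocalization

namespace Pool.Agent.R924

open Pool.Agent.W506 (ro ro_ro ro_refl basicOpen_ro)

set_option backward.isDefEq.respectTransparency false
set_option linter.unusedSectionVars false

variable (K : Type u) [Field K]

/-- The frame. -/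
noncomputable def FF : Frame (F₁ K) (Fin 4) := mframe g4 (fun _ => dg_gg _) (cover₁ K)

lemma FF_U (j : Fin 4) : (FF K).U j = DD (gr K dg) (mo K (g4 j)) := rfl

/-- The quotient of a monomial of degree one by the one of a chart. -/
noncomputable def fj (j : Fin 4) (m : Fin 5) : Γ(F₁ K, (FF K).U j) :=
  fr (mo_mem (dg_gg j.castSucc) (1 : K)) 1 (mo K (gg m)) (mo_mem (by rw [dg_gg]) (1 : K))

lemma fj_self (j : Fin 4) : fj K j j.castSucc = 1 := by
  rw [fj, ← fr_one (mo_mem (dg_gg j.castSucc) (1 : K)) (mo_mem (by simp) (1 : K)),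
    fr_eq_iff' (dg_gg _)]
  rw [pow_zero, pow_one, one_mul, mul_one]

/-- The same as a rational function. -/
noncomputable def cc (j : Fin 4) (m : Fin 5) : Γ(F₁ K, (FF K).T) := ro ((FF K).le j) (fj K j m)

lemma cc_mem (j : Fin 4) (m : Fin 5) : cc K j m ∈ (FF K).reg j := ⟨_, rfl⟩

lemma cc_self (j : Fin 4) : cc K j j.castSucc = 1 := by
  rw [cc, fj_self, map_one]

lemma cc_trans (i j : Fin 4) (m : Fin 5) : cc K i m * cc K j i.castSucc = cc K j m := by
  have h := rr_trans (deg := dg) g4 (fun j => dg_gg _) i j 1 (mo K (gg m)) (mo_mem (by rw [dg_gg]) (1 : K))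
  have e : rr (deg := dg) g4 (fun j => dg_gg _) j 1 (mo K (g4 i) ^ 1)
      (SetLike.pow_mem_graded 1 (mo_mem (dg_gg _) (1 : K))) = cc K j i.castSucc := by
    rw [cc, fj, rr]
    congr 1
    exact fr_cast _ _ _ (pow_one _)
  rw [e] at h
  exact h

lemma cc_mul_inv (i : Fin 4) : cc K 0 i.castSucc * cc K i 0 = 1 := by
  rw [mul_comm]
  have := cc_trans K i 0 0
  rw [this]
  exact cc_self K 0

lemma cc_mul (j : Fin 4) {a b c d : Fin 5} (h : gg a + gg b = gg c + gg d) :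
    cc K j a * cc K j b = cc K j c * cc K j d := by
  rw [cc, cc, cc, cc, ← map_mul, ← map_mul]
  congr 1
  rw [fj, fj, fj, fj, fr_mul, fr_mul]
  refine fr_cast _ _ _ ?_
  rw [AddMonoidAlgebra.single_mul_single, AddMonoidAlgebra.single_mul_single, h]

/-- The first rational function. -/
noncomputable def xU : (Γ(F₁ K, (FF K).T))ˣ :=
  Units.mkOfMulEqOne (cc K 0 4) (cc K 0 4 * cc K 1 0) (by
    rw [← mul_assoc, cc_mul K 0 (a := 4) (b := 4) (c := 0) (d := 1) (by apply MM_ext <;> rfl),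
      mul_assoc]
    have h1 := cc_mul_inv K 1
    have h2 := cc_self K 0
    change cc K 0 1 * cc K 1 0 = 1 at h1
    change cc K 0 0 = 1 at h2
    rw [h1, h2, mul_one])

/-- The second rational function. -/
noncomputable def yU : (Γ(F₁ K, (FF K).T))ˣ :=
  Units.mkOfMulEqOne (cc K 0 2) (cc K 2 0) (cc_mul_inv K 2)

/-- The rational function of given exponents. -/
noncomputable def uu (e : ℤ × ℤ) : (Γ(F₁ K, (FF K).T))ˣ := xU K ^ e.1 * yU K ^ e.2

lemma uu_add (a b : ℤ × ℤ) : uu K (a + b) = uu K a * uu K b := by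
  rw [uu, uu, uu, Prod.fst_add, Prod.snd_add, zpow_add, zpow_add]
  exact mul_mul_mul_comm _ _ _ _

lemma uu_zero : uu K 0 = 1 := by
  rw [uu, Prod.fst_zero, Prod.snd_zero, zpow_zero, zpow_zero, mul_one]

lemma uu_neg (a : ℤ × ℤ) : uu K (-a) = (uu K a)⁻¹ := by
  rw [eq_inv_iff_mul_eq_one, ← uu_add, neg_add_cancel, uu_zero]

lemma uu_sub (a b : ℤ × ℤ) : uu K (a - b) = uu K a * (uu K b)⁻¹ := by
  rw [sub_eq_add_neg, uu_add, uu_neg]

/-- The exponents. -/
def ex : Fin 5 → ℤ × ℤ := ![(0, 0), (2, 0), (0, 1), (1, 1), (1, 0)]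

lemma cc_zero (m : Fin 5) : cc K 0 m = uu K (ex m) := by
  have h0 : cc K 0 0 = 1 := cc_self K 0
  have hx : ((xU K : (Γ(F₁ K, (FF K).T))ˣ) : Γ(F₁ K, (FF K).T)) = cc K 0 4 := rfl
  have hy : ((yU K : (Γ(F₁ K, (FF K).T))ˣ) : Γ(F₁ K, (FF K).T)) = cc K 0 2 := rfl
  fin_cases m
  · change cc K 0 0 = ((uu K 0 : (Γ(F₁ K, (FF K).T))ˣ) : Γ(F₁ K, (FF K).T))
    rw [uu_zero, h0, Units.val_one]
  · change cc K 0 1 = ((xU K ^ (2 : ℤ) * yU K ^ (0 : ℤ) : (Γ(F₁ K, (FF K).T))ˣ) : Γ(F₁ K, (FF K).T))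
    rw [zpow_zero, mul_one, zpow_two, Units.val_mul, hx,
      cc_mul K 0 (a := 4) (b := 4) (c := 0) (d := 1) (by apply MM_ext <;> rfl), h0, one_mul]
  · change cc K 0 2 = ((xU K ^ (0 : ℤ) * yU K ^ (1 : ℤ) : (Γ(F₁ K, (FF K).T))ˣ) : Γ(F₁ K, (FF K).T))
    rw [zpow_zero, one_mul, zpow_one, hy]
  · change cc K 0 3 = ((xU K ^ (1 : ℤ) * yU K ^ (1 : ℤ) : (Γ(F₁ K, (FF K).T))ˣ) : Γ(F₁ K, (FF K).T))
    rw [zpow_one, zpow_one, Units.val_mul, hx, hy,
      cc_mul K 0 (a := 4) (b := 2) (c := 0) (d := 3) (by apply MM_ext <;> rfl), h0, one_mul]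
  · change cc K 0 4 = ((xU K ^ (1 : ℤ) * yU K ^ (0 : ℤ) : (Γ(F₁ K, (FF K).T))ˣ) : Γ(F₁ K, (FF K).T))
    rw [zpow_zero, mul_one, zpow_one, hx]

lemma cc_eq (j : Fin 4) (m : Fin 5) : cc K j m = uu K (ex m - ex j.castSucc) := by
  have h := cc_trans K j 0 m
  rw [cc_zero, cc_zero] at h
  rw [uu_sub, Units.val_mul, ← h, mul_assoc, Units.mul_inv, mul_one]

lemma uu_mem_reg₂ (i j : Fin 4) (c : ℤ × ℤ)
    (h : ∃ m m' : Fin 5, ex m + ex m' = c + ex i.castSucc + ex j.castSucc) :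
    ((uu K c : (Γ(F₁ K, (FF K).T))ˣ) : Γ(F₁ K, (FF K).T)) ∈ (FF K).reg₂ i j := by
  obtain ⟨m, m', h⟩ := h
  have e : c = (ex m - ex i.castSucc) + (ex m' - ex j.castSucc) := by
    have : ex m + ex m' - ex i.castSucc - ex j.castSucc = c := by rw [h]; abel
    rw [← this]
    abel
  rw [e, uu_add, Units.val_mul, ← cc_eq, ← cc_eq]
  exact mul_mem ((FF K).reg_le_left i j (cc_mem K i m)) ((FF K).reg_le_right i j (cc_mem K j m'))

/-- A divisor with given exponents. -/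
noncomputable def mkDiv (c : Fin 4 → ℤ × ℤ) (h : ∀ i j : Fin 4, ∃ m m' : Fin 5,
    ex m + ex m' = (c j - c i) + ex i.castSucc + ex j.castSucc) : (FF K).Div :=
  ⟨fun j => uu K (c j), fun i j => by
    rw [← uu_sub]
    exact uu_mem_reg₂ K i j _ (h i j)⟩

/-- exponents of the divisor `ε` -/
def ce : Fin 4 → ℤ × ℤ := ![(0, 0), (0, 0), (0, 1), (-1, 1)]

/-- exponents of the divisor `φ` -/
def cf : Fin 4 → ℤ × ℤ := ![(0, 0), (1, 0), (0, 0), (1, 0)]

/-- The divisor `ε`. -/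
noncomputable def ee : (FF K).Div := mkDiv K ce (by decide)

/-- The divisor `φ`. -/
noncomputable def ff : (FF K).Div := mkDiv K cf (by decide)

lemma ee_val (j : Fin 4) : (ee K).1 j = uu K (ce j) := rfl

lemma ff_val (j : Fin 4) : (ff K).1 j = uu K (cf j) := rfl

/-- The ample divisor. -/
noncomputable def aa : (FF K).Div := ee K * ff K ^ 2

lemma aa_val (j : Fin 4) : (aa K).1 j = uu K (ex j.castSucc) := by
  have h1 : (aa K).1 j = (ee K).1 j * ((ff K).1 j) ^ 2 := rfl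
  rw [h1, ee_val, ff_val, pow_two, ← uu_add, ← uu_add]
  congr 1
  clear h1
  revert j
  decide

open Pool.Agent.R924.Frame

/-- The line bundle `ε φ²` is ample. -/
noncomputable def ample₁ : Ample (FF K) (aa K) where
  aff j := Proj.isAffineOpen_basicOpen (gr K dg) _ (mo_mem (dg_gg j.castSucc) (1 : K)) one_pos
  co j i := fj K j i.castSucc
  ro_co j i := by
    rw [aa_val, aa_val, ← uu_sub, ← cc_eq]
    rfl
  basicOpen_co j i := basicOpen_fr _ _ _ _

/-- The Koszul data given by exponents. -/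
theorem kos_of {α β : (FF K).Div} (c c' : Fin 4 → ℤ × ℤ) (hc : ∀ j, α.1 j = uu K (c j))
    (hc' : ∀ j, β.1 j = uu K (c' j)) (s s' : ℤ × ℤ) (m m' : Fin 4 → Fin 5)
    (h : ∀ j : Fin 4, ex (m j) - ex j.castSucc + c j = s)
    (h' : ∀ j : Fin 4, ex (m' j) - ex j.castSucc + c' j = s')
    (hu : ∀ j : Fin 4, m j = j.castSucc ∨ m' j = j.castSucc) : Kos α β := by
  refine ⟨uu K s, uu K s', fun j => fj K j (m j), fun j => fj K j (m' j), ?_, ?_, ?_⟩
  · intro j
    change cc K j (m j) * _ = _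
    rw [cc_eq, hc, ← Units.val_mul, ← uu_add, h]
  · intro j
    change cc K j (m' j) * _ = _
    rw [cc_eq, hc', ← Units.val_mul, ← uu_add, h']
  · intro j
    rcases hu j with h1 | h1
    · refine ⟨1, 0, ?_⟩
      change 1 * fj K j (m j) + 0 * fj K j (m' j) = 1
      rw [h1, fj_self, mul_one, zero_mul, add_zero]
    · refine ⟨0, 1, ?_⟩
      change 0 * fj K j (m j) + 1 * fj K j (m' j) = 1
      rw [h1, fj_self, mul_one, zero_mul, zero_add]

lemma kos₁ : Kos (ff K) (ff K) :=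
  kos_of K cf cf (ff_val K) (ff_val K) (0, 0) (1, 0) ![0, 4, 2, 2] ![4, 1, 3, 3] (by decide)
    (by decide) (by decide)

lemma kos₂ : Kos (ee K) (ee K * ff K) :=
  kos_of K ce (fun j => ce j + cf j) (ee_val K) (fun j => by
    rw [uu_add]
    rfl) (0, 0) (0, 1) ![0, 1, 0, 1] ![2, 3, 2, 3] (by decide) (by decide) (by decide)

lemma Frame.Kos.sq {X : Scheme.{u}} {J : Type} [Finite J] {F : Frame X J} {α β : F.Div}
    (h : Kos α β) : Kos (α ^ 2) (β ^ 2) := by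
  obtain ⟨a, a', p, q, hp, hq, hu⟩ := h.out
  refine ⟨a ^ 2, a' ^ 2, fun j => p j ^ 2, fun j => q j ^ 2, ?_, ?_, ?_⟩
  · intro j
    rw [map_pow, ← hp j, mul_pow]
    rfl
  · intro j
    rw [map_pow, ← hq j, mul_pow]
    rfl
  · intro j
    obtain ⟨l, m, h⟩ := hu j
    refine ⟨l ^ 3 * p j + 3 * l ^ 2 * m * q j, 3 * l * p j * m ^ 2 + m ^ 3 * q j, ?_⟩
    calc (l ^ 3 * p j + 3 * l ^ 2 * m * q j) * p j ^ 2 +
        (3 * l * p j * m ^ 2 + m ^ 3 * q j) * q j ^ 2 = (l * p j + m * q j) ^ 3 := by ring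
      _ = 1 := by rw [h, one_pow]

lemma kos₃ : Kos (ee K ^ 2) (ee K ^ 2 * ff K ^ 2) := by
  rw [← mul_pow]
  exact (kos₂ K).sq

end Pool.Agent.R924
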