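import Pool.Agent.R924.E5
import Pool.Agent.W456.Dim

set_option autoImplicit false

/-!
Geometry of the first Hirzebruch surface: charts, properness and dimension.
-/

universe u

open CategoryTheory Limits TopologicalSpace AlgebraicGeometry HomogeneousLocalization

namespace Pool.Agent.R924

open Pool.Agent.W506 (ro ro_ro ro_refl basicOpen_ro)
open Pool.Agent.W506

set_option backward.isDefEq.respectTransparency false
set_option linter.unusedSectionVars false

/-- The dimension of a scheme is seen on affine charts. -/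
theorem exists_chart_of_le_dim {X : Scheme.{u}} {J : Type} (U : J → X.Opens)
    (hU : ∀ j, IsAffineOpen (U j)) (hcov : ∀ x : X, ∃ j, x ∈ U j) (l : ℕ)
    (h : (l : WithBot ℕ∞) ≤ topologicalKrullDim X) :
    ∃ j, (l : WithBot ℕ∞) ≤ ringKrullDim Γ(X, U j) := by
  obtain ⟨p, hp⟩ := Order.le_krullDim_iff.1 h
  have h1 : (l : ℕ∞) ≤ Order.coheight p.head := by
    rw [← hp]; exact Order.length_le_coheight_head
  obtain ⟨x, hx⟩ := p.head.isIrreducible.nonempty
  obtain ⟨j, hxU⟩ := hcov x
  let f : ↥(U j : Set X) → X := fun u => u.1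
  have hf : Topology.IsOpenEmbedding f := (U j).isOpenEmbedding
  let Z' := (IrreducibleCloseds.orderIsoOfIsOpenEmbedding f hf).symm
    ⟨p.head, ⟨⟨x, hxU⟩, hx⟩⟩
  have h2 : IrreducibleCloseds.map f hf.continuous Z' = p.head := by
    have := (IrreducibleCloseds.orderIsoOfIsOpenEmbedding f hf).apply_symm_apply
      ⟨p.head, ⟨⟨x, hxU⟩, hx⟩⟩
    exact congrArg Subtype.val this
  have h3 : Order.coheight Z' = Order.coheight p.head := by
    rw [← h2]; exact (hf.coheight_map Z').symm
  refine ⟨j, ?_⟩
  have h4 := W456.ringKrullDim_eq_top X ⟨U j, hU j⟩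
  change topologicalKrullDim (U j : Set X) = ringKrullDim Γ(X, U j) at h4
  rw [← h4]
  refine le_trans ?_ (Order.coheight_le_krullDim Z')
  rw [h3]
  exact_mod_cast h1

/-- The dimension of a scheme with charts of the same dimension. -/
theorem dim_eq_of_charts {X : Scheme.{u}} {J : Type} [Nonempty J] (U : J → X.Opens)
    (hU : ∀ j, IsAffineOpen (U j)) (hcov : ∀ x : X, ∃ j, x ∈ U j) (n : ℕ)
    (hd : ∀ j, ringKrullDim Γ(X, U j) = n) : topologicalKrullDim X = n := by
  apply le_antisymm
  · by_contra hlt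
    rw [not_le] at hlt
    have h1 : ((n + 1 : ℕ) : WithBot ℕ∞) ≤ topologicalKrullDim X := by
      generalize topologicalKrullDim X = d at hlt
      induction d using WithBot.recBotCoe with
      | bot => exact absurd hlt (by simp)
      | coe d =>
        have h2 : (n : ℕ∞) < d := by exact_mod_cast hlt
        have h3 : ((n + 1 : ℕ) : ℕ∞) ≤ d := by
          push_cast
          exact Order.add_one_le_of_lt h2
        exact_mod_cast h3
    obtain ⟨j, hj⟩ := exists_chart_of_le_dim U hU hcov (n + 1) h1
    rw [hd j] at hj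
    have : n + 1 ≤ n := by exact_mod_cast hj
    omega
  · obtain ⟨j⟩ := ‹Nonempty J›
    rw [← hd j]
    exact W456.ringKrullDim_le_dim X ⟨U j, hU j⟩

/-- The exponents as homomorphisms. -/
def cof (i : Fin 4) : MM →+ ℕ where
  toFun m := m.1 i
  map_zero' := rfl
  map_add' _ _ := rfl

/-- The chart data. -/
def chart (j : Fin 4) : Chart dg where
  m₀ := g4 j
  p := gg (![4, 4, 3, 2] j)
  q := gg (![2, 3, 0, 1] j)
  β := cof (![1, 0, 1, 0] j)
  γ := cof (![3, 3, 2, 2] j)
  deg₀ := dg_gg _
  degp := dg_gg _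
  degq := dg_gg _
  rel m := by
    have hm : m.1 0 + m.1 1 = 2 * m.1 2 + m.1 3 := m.2
    have sm : ∀ (k : ℕ) (i : Fin 5) (l : Fin 4), (k • gg i).1 l = k * gv i l := fun _ _ _ => rfl
    have ad : ∀ (a b : MM) (l : Fin 4), (a + b).1 l = a.1 l + b.1 l := fun _ _ _ => rfl
    have dd : dg m = m.1 2 + m.1 3 := rfl
    have cf : ∀ (i : Fin 4), cof i m = m.1 i := fun _ => rfl
    fin_cases j
    all_goals
      apply MM_ext
      all_goals
        simp only [ad, g4, sm, dd, cf, gv, Fin.castSucc, Fin.castAdd, Fin.castLE]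
        simp
        try omega
  β₀ := by revert j; decide
  γ₀ := by revert j; decide
  βp := by revert j; decide
  γp := by revert j; decide
  βq := by revert j; decide
  γq := by revert j; decide

variable (K : Type u) [Field K]

/-- The coordinate rings of the charts. -/
noncomputable def chEquiv (j : Fin 4) : MvPolynomial (Fin 2) K ≃+* Γ(F₁ K, (FF K).U j) :=
  (chart j).equiv (K := K)

lemma aff₁ (j : Fin 4) : IsAffineOpen ((FF K).U j) :=
  Proj.isAffineOpen_basicOpen (gr K dg) _ (mo_mem (dg_gg j.castSucc) (1 : K)) one_pos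

theorem good₁ : IsGood (FF K).U 2 where
  aff := aff₁ K
  cover := cover₁ K
  noeth j := isNoetherianRing_of_ringEquiv _ (chEquiv K j)
  dim j M _ _ := by
    let : Module (MvPolynomial (Fin 2) K) M := Module.compHom _ (chEquiv K j).toRingHom
    exact Hilb.pdLT_of_ringEquiv (chEquiv K j) M M (AddEquiv.refl _)
      (fun r m => rfl) (Hilb.hilbert_syzygy K 2 M)

theorem dim₁ : topologicalKrullDim (F₁ K) = 2 := by
  have : topologicalKrullDim (F₁ K) = (2 : ℕ) := by
    refine dim_eq_of_charts (FF K).U (aff₁ K) (cover₁ K) 2 fun j => ?_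
    rw [← ringKrullDim_eq_of_ringEquiv (chEquiv K j), MvPolynomial.ringKrullDim_of_isNoetherianRing,
      ringKrullDim_eq_zero_of_field, Nat.card_eq_fintype_card, Fintype.card_fin, zero_add]
  exact_mod_cast this

instance : IsScalarTower K (gr K dg 0) (Alg K MM) := by
  refine ⟨fun x y z => ?_⟩
  change (x • y).1 • z = x • (y.1 • z)
  exact smul_assoc x y.1 z

instance : Algebra.FiniteType (gr K dg 0) (Alg K MM) :=
  Algebra.FiniteType.of_restrictScalars_finiteType K _ _

lemma bij_zero : Function.Bijective (algebraMap K (gr K dg 0)) := by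
  constructor
  · intro c c' h
    have h1 : (AddMonoidAlgebra.single 0 c : Alg K MM) = AddMonoidAlgebra.single 0 c' :=
      congrArg Subtype.val h
    exact AddMonoidAlgebra.single_right_injective h1
  · rintro ⟨a, ha⟩
    refine gr_induction (P := fun a ha => ∃ c, algebraMap K (gr K dg 0) c = ⟨a, ha⟩) ?_ ?_ ?_ a ha
    · exact ⟨0, map_zero _⟩
    · rintro a ha b hb ⟨c, hc⟩ ⟨c', hc'⟩
      refine ⟨c + c', ?_⟩
      rw [map_add, hc, hc']
      rfl
    · intro m c hm
      refine ⟨c, ?_⟩
      have h0 := eq_zero_of_dg m hm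
      subst h0
      rfl

/-- The structure morphism of the first Hirzebruch surface. -/
noncomputable def pi₁ : F₁ K ⟶ Spec (CommRingCat.of K) :=
  Proj.toSpecZero (gr K dg) ≫ Spec.map (CommRingCat.ofHom (algebraMap K (gr K dg 0)))

instance : IsIso (Spec.map (CommRingCat.ofHom (algebraMap K (gr K dg 0)))) := by
  have : IsIso (CommRingCat.ofHom (algebraMap K (gr K dg 0))) :=
    (ConcreteCategory.isIso_iff_bijective _).2 (bij_zero K)
  infer_instance

instance : IsProper (pi₁ K) := by
  rw [pi₁]
  infer_instance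

instance : CompactSpace (F₁ K) := by
  have := (quasiCompact_iff_compactSpace (f := pi₁ K)).1 inferInstance
  exact this

instance : IsLocallyNoetherian (F₁ K) := by
  refine isLocallyNoetherian_of_affine_cover (S := fun j : Fin 4 => ⟨(FF K).U j, aff₁ K j⟩) ?_ ?_
  · rw [eq_top_iff]
    intro x _
    obtain ⟨j, hj⟩ := cover₁ K x
    exact Opens.mem_iSup.2 ⟨j, hj⟩
  · intro j
    exact isNoetherianRing_of_ringEquiv _ (chEquiv K j)

end Pool.Agent.R924
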