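import Pool.Agent.R924.E6
import Pool.Agent.R924.Defs

set_option autoImplicit false

/-!
Line bundles.
-/

universe u

open CategoryTheory Limits TopologicalSpace AlgebraicGeometry Opposite

namespace Pool.Agent.R924

open Pool.Agent.W506 Pool.Agent.W456

set_option backward.isDefEq.respectTransparency false
set_option linter.unusedSectionVars false

variable {X : Scheme.{u}}

lemma isIso_of_local {M N : X.Modules} (f : M ⟶ N)
    (h : ∀ x : X, ∃ U : X.Opens, x ∈ U ∧ ∀ V ≤ U, Function.Bijective (ap f V)) : IsIso f := by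
  have : Mono f := by
    apply mono_of_ap_injective
    intro W a b hab
    apply ext_rs_of_mem
    intro x hx
    obtain ⟨U, hxU, hU⟩ := h x
    refine ⟨W ⊓ U, inf_le_left, ⟨hx, hxU⟩, (hU _ inf_le_right).1 ?_⟩
    rw [ap_rs, ap_rs, hab]
  have : Epi f := by
    apply epi_of_locally_surj
    intro W s x hx
    obtain ⟨U, hxU, hU⟩ := h x
    obtain ⟨t, ht⟩ := (hU (W ⊓ U) inf_le_right).2 (rs N inf_le_left s)
    exact ⟨W ⊓ U, inf_le_left, ⟨hx, hxU⟩, t, ht⟩
  exact isIso_of_mono_of_epi f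

lemma iso_of_isGen {M N : X.Modules} {e : Γ(M, ⊤)} (he : IsGen e) {e' : Γ(N, ⊤)}
    (he' : IsGen e') : Nonempty (M ≅ N) := by
  have key : ∀ {N : X.Modules} {e' : Γ(N, ⊤)}, IsGen e' → Nonempty (FR X 1 ≅ N) := by
    intro N e' he'
    obtain ⟨f, hf⟩ : ∃ f : FR X 1 ⟶ N, ∀ i, ap f ⊤ (fs _ i) = e' := by
      refine ⟨(SheafOfModules.freeHomEquiv N).symm (fun i => secOf e'), fun i => ?_⟩
      rw [ap_fs, Equiv.apply_symm_apply]
      exact rs_refl (M := N) _ _
    have := isIso_of_bases (isBasisOn_fs X 1) he' f hf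
    exact ⟨asIso f⟩
  obtain ⟨a⟩ := key he
  obtain ⟨b⟩ := key he'
  exact ⟨a.symm ≪≫ b⟩

lemma isLineBundle_of_isGen {L : X.Modules}
    (h : ∀ x : X, ∃ U : X.Opens, x ∈ U ∧ ∃ e : Γ(L, U), IsGen e) : IsLineBundle L := by
  intro x
  obtain ⟨U, hx, e, he⟩ := h x
  exact ⟨U, hx, iso_of_isGen (isBasisOn_restrict he) (isBasisOn_one U.toScheme)⟩

variable {J : Type} [Finite J] {F : Frame X J}

theorem Frame.isLineBundle_lb (δ : F.Div) : IsLineBundle (lb δ) := by
  apply isLineBundle_of_isGen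
  intro x
  obtain ⟨j, hj⟩ := F.cover x
  exact ⟨F.U j, hj, lbE δ j, isGen_lbE δ j⟩

theorem Frame.lb_one : Nonempty (lb (1 : F.Div) ≅ unitMod X) := by
  obtain ⟨f, hf⟩ := lb_hom (1 : F.Div) (OO X) (fun j => ooE _ 1) (by
    intro i j
    have h1 : tr (1 : F.Div) i j = 1 := by
      apply F.inj₂ i j
      rw [ro_tr, map_one]
      change (((1 : Γ(X, F.T)ˣ) * (1 : Γ(X, F.T)ˣ)⁻¹ : Γ(X, F.T)ˣ) : Γ(X, F.T)) = 1
      rw [inv_one, mul_one, Units.val_one]
    rw [h1, one_smul, ← ooE_ro, ← ooE_ro, RingHom.map_one, RingHom.map_one])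
  have : IsIso f := by
    apply isIso_of_local
    intro x
    obtain ⟨j, hj⟩ := F.cover x
    refine ⟨F.U j, hj, fun V hV => ?_⟩
    have key : ∀ a : Γ(X, V), ap f V (a • rs _ hV (lbE _ j)) = ooE V a := by
      intro a
      rw [map_smul, ap_rs, hf, ← ooE_ro, map_one, ← map_smul, smul_eq_mul, mul_one]
    constructor
    · rw [injective_iff_map_eq_zero]
      intro s hs
      obtain ⟨a, rfl⟩ := (isGen_lbE _ j).exists_smul hV s
      rw [key] at hs
      rw [(LinearEquiv.map_eq_zero_iff _).1 hs, zero_smul]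
    · intro s
      exact ⟨(ooE V).symm s • rs _ hV (lbE _ j), by rw [key]; exact (ooE V).apply_symm_apply s⟩
  exact ⟨asIso f⟩

end Pool.Agent.R924
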