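import Pool.Agent.R924.E7

set_option autoImplicit false

/-!
Two line bundles generating the perfect complexes of the first Hirzebruch surface.
-/

universe u

open CategoryTheory Limits TopologicalSpace AlgebraicGeometry Opposite

namespace Pool.Agent.R924

open Pool.Agent.W506 Pool.Agent.W456

set_option backward.isDefEq.respectTransparency false
set_option linter.unusedSectionVars false

attribute [local instance] HasDerivedCategory.standard

variable (K : Type u) [Field K]

open Pool.Agent.R924.Frame

/-- The second line bundle. -/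
noncomputable def L₂ : (F₁ K).Modules := lb (ee K ^ 4 * ff K ^ 2)

theorem generate₁ (T : ObjectProperty (DerivedCategory (F₁ K).Modules)) [T.IsTriangulated]
    [T.IsClosedUnderIsomorphisms] [T.IsStableUnderRetracts] (h₁ : T (sg (unitMod (F₁ K))))
    (h₂ : T (sg (L₂ K))) : isPerfect (F₁ K) ≤ T := by
  obtain ⟨e⟩ := Frame.lb_one (F := FF K)
  have h₁' : T (sg (lb (1 : (FF K).Div))) := mem_iso T e.symm h₁
  have h := all_lb T (ee K) (ff K) (kos₁ K) (kos₂ K) (kos₃ K) h₁' h₂
  refine perfect_le (ample₁ K) (good₁ K) T fun d => ?_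
  have e1 : ((aa K) ^ d)⁻¹ = ee K ^ (-(d : ℤ)) * ff K ^ (-(2 * d : ℤ)) := by
    rw [aa, mul_pow, mul_inv, zpow_neg, zpow_neg, zpow_natCast, ← pow_mul]
    congr 2
  rw [e1]
  exact h _ _

end Pool.Agent.R924
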