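import Pool.Agent.R924.E8

set_option autoImplicit false

/-!
Global functions on the first Hirzebruch surface.
-/

universe u

open CategoryTheory Limits TopologicalSpace AlgebraicGeometry Opposite HomogeneousLocalization

namespace Pool.Agent.R924

open Pool.Agent.W506 Pool.Agent.W456

set_option backward.isDefEq.respectTransparency false
set_option linter.unusedSectionVars false

section

variable {A : Type u} [CommRing A] {σ : Type*} [SetLike σ A] [AddSubgroupClass σ A]
  (𝒜 : ℕ → σ) [GradedRing 𝒜]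

lemma ι_toSpecZero {f : A} {m : ℕ} (hf : f ∈ 𝒜 m) (hm : 0 < m) :
    (Proj.basicOpen 𝒜 f).ι ≫ Proj.toSpecZero 𝒜 = (Proj.basicOpen 𝒜 f).toSpecΓ ≫
      Spec.map (CommRingCat.ofHom (fromZeroRingHom 𝒜 _) ≫ Proj.awayToSection 𝒜 f) := by
  have h := Proj.awayι_toSpecZero 𝒜 f hf hm
  rw [← Proj.basicOpenIsoSpec_inv_ι, Category.assoc, Iso.inv_comp_eq, Proj.basicOpenIsoSpec_hom,
    Proj.basicOpenToSpec, Category.assoc, ← Spec.map_comp] at h
  exact h

lemma toSpecZero_appTop {f : A} {m : ℕ} (hf : f ∈ 𝒜 m) (hm : 0 < m) :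
    (Scheme.ΓSpecIso (CommRingCat.of (𝒜 0))).inv ≫ (Proj.toSpecZero 𝒜).appTop ≫
      (Proj 𝒜).presheaf.map (homOfLE (le_top : Proj.basicOpen 𝒜 f ≤ ⊤)).op =
      CommRingCat.ofHom (fromZeroRingHom 𝒜 _) ≫ Proj.awayToSection 𝒜 f := by
  have h1 := congrArg Scheme.Hom.appTop (ι_toSpecZero 𝒜 hf hm)
  rw [Scheme.Hom.comp_appTop, Scheme.Hom.comp_appTop] at h1
  rw [Scheme.Opens.toSpecΓ_appTop] at h1
  rw [← Category.assoc, Scheme.ΓSpecIso_naturality] at h1
  have h2 : (Proj.basicOpen 𝒜 f).ι.appTop ≫ (Proj.basicOpen 𝒜 f).topIso.hom =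
      (Proj 𝒜).presheaf.map (homOfLE (le_top : Proj.basicOpen 𝒜 f ≤ ⊤)).op := by
    rw [Scheme.Opens.ι_appTop, Scheme.Opens.topIso_hom, ← Functor.map_comp]
    rfl
  rw [Iso.inv_comp_eq, ← h2, ← Category.assoc, h1, Category.assoc, Iso.inv_hom_id,
    Category.comp_id]

end

variable (K : Type u) [Field K]

lemma skK_res (j : Fin 4) (c : K) : ro (le_top : (FF K).U j ≤ ⊤) (skK (pi₁ K) c) =
    cst (mo_mem (dg_gg j.castSucc) (1 : K)) c := by
  have h1 := toSpecZero_appTop (gr K dg) (mo_mem (dg_gg j.castSucc) (1 : K)) one_pos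
  have h2 : (Scheme.ΓSpecIso (CommRingCat.of K)).inv ≫ (pi₁ K).appTop ≫
      (F₁ K).presheaf.map (homOfLE (le_top : (FF K).U j ≤ ⊤)).op =
      CommRingCat.ofHom (algebraMap K (gr K dg 0)) ≫
        CommRingCat.ofHom (fromZeroRingHom (gr K dg) _) ≫ Proj.awayToSection (gr K dg) _ := by
    rw [← h1, pi₁, Scheme.Hom.comp_appTop, Category.assoc, ← Scheme.ΓSpecIso_inv_naturality_assoc]
  have h3 := congr($h2 c)
  refine Eq.trans h3 ?_
  rw [cst_apply]
  change Proj.awayToSection (gr K dg) _ (fromZeroRingHom (gr K dg) _ (algebraMap K (gr K dg 0) c)) =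
    Proj.awayToSection (gr K dg) _ _
  congr 1

section

variable {X : Scheme.{u}} {J : Type} (F : Frame X J)

lemma Frame.top_inj {s t : Γ(X, ⊤)} (h : ro (le_top : F.T ≤ ⊤) s = ro le_top t) : s = t := by
  apply TopCat.Presheaf.IsSheaf.section_ext X.sheaf.property
  intro x _
  obtain ⟨j, hj⟩ := F.cover x
  refine ⟨F.U j, le_top, hj, ?_⟩
  apply F.inj₁ j
  change ro _ (ro le_top s) = ro _ (ro le_top t)
  rw [ro_ro, ro_ro]
  exact h

end

section

variable {K} {M : Type} [AddCommMonoid M] {deg : M →+ ℕ}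
  {J : Type} [Fintype J] [DecidableEq J] (g : J → M) (hg : ∀ j, deg (g j) = 1)
  [IsDomain (Alg K M)]

lemma rr_eq_iff (i j : J) (k : ℕ) (a : Alg K M) (ha : a ∈ gr K deg (k * 1)) (l : ℕ)
    (b : Alg K M) (hb : b ∈ gr K deg (l * 1)) :
    rr g hg i k a ha = rr g hg j l b hb ↔ mo K (g j) ^ l * a = mo K (g i) ^ k * b := by
  have hc : Fintype.card J = 1 + (Fintype.card J - 1) := by
    have : 0 < Fintype.card J := Fintype.card_pos_iff.2 ⟨i⟩
    omega
  have e : ∀ (k : ℕ) (j : J) (a : Alg K M) (ha : a ∈ gr K deg (k * 1)), rr g hg j k a ha =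
      fr (mo_mem (deg_sum g hg) (1 : K)) k (a * mo K (∑ i ∈ Finset.univ.erase j, g i) ^ k)
      (mul_mem_gr ha (SetLike.pow_mem_graded k (mo_mem (deg_rest g hg j) (1 : K)))
        (by rw [smul_eq_mul, ← mul_add, ← hc])) := fun k j a ha =>
    ro_fr' _ (mo_mem (deg_rest g hg j) (1 : K)) (sum_eq_rest g j) _ hc _ k a ha
  rw [e, e, fr_eq_iff _ (Fintype.card_pos_iff.2 ⟨i⟩) (mo_ne_zero _)]
  have h1 : mo K (∑ i, g i) ^ l * (a * mo K (∑ j ∈ Finset.univ.erase i, g j) ^ k) =
      (mo K (∑ i ∈ Finset.univ.erase j, g i) ^ l * mo K (∑ j ∈ Finset.univ.erase i, g j) ^ k) *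
        (mo K (g j) ^ l * a) := by
    rw [sum_eq_rest g j, mul_pow]
    ring
  have h2 : mo K (∑ i, g i) ^ k * (b * mo K (∑ i ∈ Finset.univ.erase j, g i) ^ l) =
      (mo K (∑ i ∈ Finset.univ.erase j, g i) ^ l * mo K (∑ j ∈ Finset.univ.erase i, g j) ^ k) *
        (mo K (g i) ^ k * b) := by
    rw [sum_eq_rest g i, mul_pow]
    ring
  rw [h1, h2]
  exact mul_right_inj' (mul_ne_zero (pow_ne_zero _ (mo_ne_zero _)) (pow_ne_zero _ (mo_ne_zero _)))

end

lemma coeff_mul_cancel (m m' : MM) (r : K) (x : Alg K MM) :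
    (AddMonoidAlgebra.single m r * x).coeff (m + m') = r * x.coeff m' :=
  AddMonoidAlgebra.coeff_single_mul_eq_mul_coeff _ (fun d _ => by
    constructor
    · intro h
      apply Subtype.ext
      exact add_left_cancel (congrArg Subtype.val h)
    · rintro rfl
      rfl)

/-- Global functions are constant. -/
theorem skK_bijective : Function.Bijective (skK (pi₁ K)) := by
  constructor
  · intro c c' h
    have h1 := congrArg (ro (le_top : (FF K).U 0 ≤ ⊤)) h
    rw [skK_res, skK_res, cst_apply, cst_apply, fr_eq_iff' (dg_gg _), pow_zero, one_mul,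
      one_mul] at h1
    exact AddMonoidAlgebra.single_right_injective h1
  · intro s
    obtain ⟨k, a, ha, h0⟩ := exists_fr (mo_mem (dg_gg 0) (1 : K)) one_pos (ro (le_top : (FF K).U 0 ≤ ⊤) s)
    obtain ⟨l, b, hb, h3⟩ := exists_fr (mo_mem (dg_gg 3) (1 : K)) one_pos (ro (le_top : (FF K).U 3 ≤ ⊤) s)
    have h1 : rr (deg := dg) g4 (fun _ => dg_gg _) 0 k a ha = rr g4 (fun _ => dg_gg _) 3 l b hb := by
      have e0 : rr (deg := dg) g4 (fun _ => dg_gg _) 0 k a ha = ro (le_top : (FF K).T ≤ ⊤) s := by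
        rw [rr]
        erw [h0]
        exact ro_ro _ _ _
      have e3 : rr (deg := dg) g4 (fun _ => dg_gg _) 3 l b hb = ro (le_top : (FF K).T ≤ ⊤) s := by
        rw [rr]
        erw [h3]
        exact ro_ro _ _ _
      rw [e0, e3]
    rw [rr_eq_iff] at h1
    have h2 : ∀ m ∈ a.coeff.support, m = k • gg 0 := by
      intro m hm
      rw [AddMonoidAlgebra.single_pow, AddMonoidAlgebra.single_pow, one_pow, one_pow] at h1
      have h4 := congrArg (fun x : Alg K MM => x.coeff (l • gg 3 + m)) h1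
      have h5 : (mo K (l • gg 3) * a).coeff (l • gg 3 + m) = 1 * a.coeff m :=
        coeff_mul_cancel K _ _ _ _
      have h6 : (mo K (k • gg 0) * b).coeff (l • gg 3 + m) ≠ 0 := by
        intro h7
        exact (Finsupp.mem_support_iff.1 hm) (by rw [← one_mul (a.coeff m), ← h5]; exact h4.trans h7)
      obtain ⟨d, hd⟩ : ∃ d, k • gg 0 + d = l • gg 3 + m := by
        by_contra hne
        push Not at hne
        exact h6 (AddMonoidAlgebra.coeff_single_mul_of_forall_add_ne _ _ hne)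
      have q0 : k * 2 + d.1 0 = l * 0 + m.1 0 := congrArg (fun x : MM => x.1 0) hd
      have q2 : k * 1 + d.1 2 = l * 0 + m.1 2 := congrArg (fun x : MM => x.1 2) hd
      have q4 : m.1 2 + m.1 3 = k * 1 := ha m hm
      have q5 : m.1 0 + m.1 1 = 2 * m.1 2 + m.1 3 := m.2
      apply MM_ext
      · change m.1 0 = k * 2
        omega
      · change m.1 1 = k * 0
        omega
      · change m.1 2 = k * 1
        omega
      · change m.1 3 = k * 0
        omega
    refine ⟨a.coeff (k • gg 0), (FF K).top_inj ?_⟩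
    have h4 : ro (le_top : (FF K).U 0 ≤ ⊤) s = ro le_top (skK (pi₁ K) (a.coeff (k • gg 0))) := by
      rw [skK_res, ← h0, cst_apply]
      rw [fr_eq_iff' (dg_gg _)]
      have h5 : a = AddMonoidAlgebra.single (k • gg 0) (a.coeff (k • gg 0)) := by
        apply AddMonoidAlgebra.coeff_injective
        rw [AddMonoidAlgebra.coeff_single]
        refine Finsupp.eq_single_iff.2 ⟨fun m hm => ?_, rfl⟩
        exact Finset.mem_singleton.2 (h2 m hm)
      rw [pow_zero, one_mul]
      refine h5.trans ?_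
      rw [AddMonoidAlgebra.single_pow, AddMonoidAlgebra.single_mul_single, one_pow, one_mul,
        add_zero]
    have h5 := congrArg (ro ((FF K).le 0)) h4
    rw [ro_ro, ro_ro] at h5
    exact h5.symm

end Pool.Agent.R924
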