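import Pool.Agent.R924.E11

set_option autoImplicit false

/-!
Frames on open subschemes.
-/

universe u

open CategoryTheory Limits TopologicalSpace AlgebraicGeometry Opposite

namespace Pool.Agent.R924

open Pool.Agent.W506 Pool.Agent.W456

set_option backward.isDefEq.respectTransparency false

variable {X : Scheme.{u}} (O : X.Opens)

/-- Restriction of functions to an open subscheme. -/
noncomputable def pb (W : X.Opens) : Γ(X, W) →+* Γ(O.toScheme, O.ι ⁻¹ᵁ W) := (O.ι.app W).hom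

lemma pre_mono {W W' : X.Opens} (h : W' ≤ W) : O.ι ⁻¹ᵁ W' ≤ O.ι ⁻¹ᵁ W := fun _ hx => h hx

lemma pb_ro {W W' : X.Opens} (h : W' ≤ W) (a : Γ(X, W)) :
    ro (pre_mono O h) (pb O W a) = pb O W' (ro h a) := by
  have h1 := O.ι.naturality (homOfLE h).op
  exact (congr($h1 a)).symm

lemma pb_bijective {W : X.Opens} (h : W ≤ O) : Function.Bijective (pb O W) := by
  have h2 : O.ι ''ᵁ O.ι ⁻¹ᵁ W = W := by
    rw [Scheme.Hom.image_preimage_eq_opensRange_inf, Scheme.Opens.opensRange_ι]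
    exact inf_eq_right.2 h
  have h3 : IsIso (homOfLE (h2.le : O.ι ''ᵁ O.ι ⁻¹ᵁ W ≤ W)) :=
    ⟨homOfLE h2.ge, Subsingleton.elim _ _, Subsingleton.elim _ _⟩
  have h1 : IsIso (X.presheaf.map (homOfLE (h2.le : O.ι ''ᵁ O.ι ⁻¹ᵁ W ≤ W)).op) := inferInstance
  exact (ConcreteCategory.isIso_iff_bijective _).1 h1

lemma basicOpen_pb {W : X.Opens} (a : Γ(X, W)) :
    O.toScheme.basicOpen (pb O W a) = O.ι ⁻¹ᵁ (X.basicOpen a) :=
  (Scheme.preimage_basicOpen O.ι a).symm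

lemma isAffineOpen_pre {W : X.Opens} (hW : IsAffineOpen W) (h : W ≤ O) :
    IsAffineOpen (O.ι ⁻¹ᵁ W) := by
  apply hW.preimage_of_isOpenImmersion
  rw [Scheme.Opens.opensRange_ι]
  exact h

/-- The frame on an open subscheme. -/
noncomputable def opFrame {J : Type} (U : J → X.Opens) (T : X.Opens) (le : ∀ j, T ≤ U j)
    (inj : ∀ i j k, Function.Injective (ro (le_inf (le_inf (le i) (le j)) (le k)) :
      Γ(X, (U i ⊓ U j) ⊓ U k) → Γ(X, T)))
    (hO : ∀ j, U j ≤ O) (hT : T ≤ O) (cover : ∀ x ∈ O, ∃ j, x ∈ U j) : Frame O.toScheme J where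
  U j := O.ι ⁻¹ᵁ (U j)
  T := O.ι ⁻¹ᵁ T
  le j := pre_mono O (le j)
  inj i j k := by
    intro a b hab
    obtain ⟨a, rfl⟩ := (pb_bijective O (inf_le_right.trans (hO k) : (U i ⊓ U j) ⊓ U k ≤ O)).2 a
    obtain ⟨b, rfl⟩ := (pb_bijective O (inf_le_right.trans (hO k) : (U i ⊓ U j) ⊓ U k ≤ O)).2 b
    congr 1
    apply inj i j k
    apply (pb_bijective O hT).1
    rw [← pb_ro, ← pb_ro]
    exact hab
  cover x := cover x.1 x.2

end Pool.Agent.R924
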