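import Pool.Agent.R924.E11

set_option autoImplicit false

/-!
Generation by the structure sheaf.
-/

universe u

open CategoryTheory Limits TopologicalSpace AlgebraicGeometry Opposite

namespace Pool.Agent.R924

open Pool.Agent.W506 Pool.Agent.W456

set_option backward.isDefEq.respectTransparency false
set_option linter.unusedSectionVars false

attribute [local instance] HasDerivedCategory.standard

variable {X : Scheme.{u}}

lemma mono_of_charts {J : Type} {U : J → X.Opens} (haff : ∀ j, IsAffineOpen (U j))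
    (hcov : ∀ x : X, ∃ j, x ∈ U j) {M N : X.Modules} (φ : M ⟶ N) (hM : ∀ j, QCOn M (U j))
    (hN : ∀ j, QCOn N (U j)) (h : ∀ j, Function.Injective (ap φ (U j))) : Mono φ := by
  apply mono_of_ap_injective
  intro W
  rw [injective_iff_map_eq_zero]
  intro s hs
  apply ext_rs_of_mem
  intro x hx
  obtain ⟨j, hj⟩ := hcov x
  obtain ⟨f, hle, hxf⟩ := (haff j).exists_basicOpen_le (V := W) ⟨x, hx⟩ hj
  refine ⟨_, hle, hxf, ?_⟩
  rw [map_zero]
  obtain ⟨k, t, ht⟩ := (hM j).ext _ (haff j) le_rfl f (rs M hle s)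
  have h1 : rs N (X.basicOpen_le f) (ap φ _ t) = 0 := by
    rw [← ap_rs, ht, map_smul, ap_rs, hs, map_zero, smul_zero]
  obtain ⟨m, hm⟩ := (hN j).uniq _ (haff j) le_rfl f _ h1
  have h2 : f ^ m • t = 0 := by
    apply h j
    rw [map_smul, hm, map_zero]
  have h3 := congrArg (rs M (X.basicOpen_le f)) h2
  rw [rs_smul, ht, smul_smul, map_pow, ← pow_add, map_zero] at h3
  obtain ⟨v, hv⟩ := (isUnit_ro_basicOpen f).exists_left_inv
  have h4 := congrArg (v ^ (m + k) • ·) h3
  change v ^ (m + k) • (ro (X.basicOpen_le f) f ^ (m + k) • rs M hle s) = v ^ (m + k) • 0 at h4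
  rwa [smul_smul, ← mul_pow, hv, one_pow, one_smul, smul_zero] at h4

lemma shortExact_of_mono {M N : X.Modules} (f : M ⟶ N) [Mono f] :
    (ShortComplex.mk f (cokernel.π f) (cokernel.condition f)).ShortExact :=
  { exact := ShortComplex.exact_cokernel f }

namespace Frame

lemma mono_mul {J : Type} [Finite J] {F : Frame X J} (haff : ∀ j, IsAffineOpen (F.U j))
    {δ δ' : F.Div} (f : lb δ ⟶ lb δ') (a : ∀ j, Γ(X, F.U j))
    (hf : ∀ j, ap f _ (lbE δ j) = a j • lbE δ' j) (ha : ∀ j, IsUnit (ro (F.le j) (a j))) :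
    Mono f := by
  refine mono_of_charts haff F.cover f (fun j => (isGen_lbE δ j).qcOn)
    (fun j => (isGen_lbE δ' j).qcOn) fun j => ?_
  rw [injective_iff_map_eq_zero]
  intro s hs
  obtain ⟨b, rfl⟩ := (isGen_lbE δ j).exists_smul le_rfl s
  rw [rs_refl] at hs ⊢
  rw [map_smul, hf, smul_smul] at hs
  have h1 : b * a j = 0 := by
    apply (isGen_lbE δ' j).smul_inj le_rfl
    rw [rs_refl, hs, zero_smul]
  have h2 : ro (F.le j) b = 0 := by
    have h3 := congrArg (ro (F.le j)) h1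
    rw [map_mul, map_zero] at h3
    exact (ha j).mul_left_eq_zero.1 h3
  have h4 : b = 0 := F.inj₁ j (by rw [h2, map_zero])
  rw [h4, zero_smul]

variable {F : Frame X (Fin 2)} {α : F.Div} (A : Ample F α)

/-- The data of a function whose divisor is a union of two disjoint parts. -/
structure Split (α : F.Div) where
  /-- the function on the first chart -/
  ξ : Γ(X, F.U 0)
  /-- the unit on the second chart -/
  p : Γ(X, F.U 1)
  hξ : ro (F.le 0) ξ = (α.1 0 : Γ(X, F.T))
  hp : ro (F.le 1) p = (α.1 1 : Γ(X, F.T))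
  unit : IsUnit p
  le : F.U 0 ⊓ F.U 1 ≤ X.basicOpen ξ

variable (S : Split α)

namespace Split

/-- The coefficients. -/
noncomputable def a : ∀ j : Fin 2, Γ(X, F.U j) := fun j =>
  if h : j = 0 then cast (by rw [h]) S.ξ else cast (by rw [Fin.eq_one_of_ne_zero j h]) S.p

lemma a_zero : S.a 0 = S.ξ := rfl

lemma a_one : S.a 1 = S.p := rfl

lemma ro_a (j : Fin 2) : ro (F.le j) (S.a j) = (α.1 j : Γ(X, F.T)) := by
  fin_cases j
  · exact S.hξ
  · exact S.hp

lemma exists_s (δ : F.Div) : ∃ f : lb δ ⟶ lb (δ * α⁻¹), ∀ j, ap f _ (lbE δ j) = S.a j • lbE _ j := by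
  apply exists_mul δ (δ * α⁻¹) 1 S.a
  intro j
  rw [S.ro_a, one_mul]
  change _ * ((δ.1 j * (α.1 j)⁻¹ : Γ(X, F.T)ˣ) : Γ(X, F.T)) = _
  rw [Units.val_mul, mul_left_comm, Units.mul_inv, mul_one]

/-- The inclusion of line bundles. -/
noncomputable def s (δ : F.Div) : lb δ ⟶ lb (δ * α⁻¹) := (S.exists_s δ).choose

lemma s_e (δ : F.Div) (j : Fin 2) : ap (S.s δ) _ (lbE δ j) = S.a j • lbE _ j :=
  (S.exists_s δ).choose_spec j

/-- The quotient. -/
noncomputable def C (δ : F.Div) : X.Modules := cokernel (S.s δ)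

/-- The projection. -/
noncomputable def π (δ : F.Div) : lb (δ * α⁻¹) ⟶ S.C δ := cokernel.π (S.s δ)

/-- The generators of the quotient. -/
noncomputable def ce (δ : F.Div) (j : Fin 2) : Γ(S.C δ, F.U j) := ap (S.π δ) _ (lbE _ j)

lemma a_ce (δ : F.Div) (j : Fin 2) : S.a j • S.ce δ j = 0 := by
  rw [ce, ← map_smul, ← s_e, ← ap_comp, π, cokernel.condition]
  rfl

lemma ce_one (δ : F.Div) : S.ce δ 1 = 0 := by
  have h := S.a_ce δ 1
  rw [a_one] at h
  obtain ⟨v, hv⟩ := S.unit.exists_left_inv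
  have h1 := congrArg (v • ·) h
  change v • (S.p • S.ce δ 1) = v • 0 at h1
  rwa [smul_smul, hv, one_smul, smul_zero] at h1

lemma rs_ce_zero (δ : F.Div) {V : X.Opens} (h : V ≤ F.U 0) (h' : V ≤ F.U 1) :
    rs (S.C δ) h (S.ce δ 0) = 0 := by
  have h1 := congrArg (rs (S.C δ) (X.basicOpen_le S.ξ)) (S.a_ce δ 0)
  rw [a_zero, rs_smul, map_zero] at h1
  obtain ⟨v, hv⟩ := (isUnit_ro_basicOpen S.ξ).exists_left_inv
  have h2 := congrArg (v • ·) h1
  change v • (ro (X.basicOpen_le S.ξ) S.ξ • rs (S.C δ) (X.basicOpen_le S.ξ) (S.ce δ 0)) = v • 0 at h2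
  rw [smul_smul, hv, one_smul, smul_zero] at h2
  rw [← rs_rs ((le_inf h h').trans S.le) (X.basicOpen_le S.ξ), h2, map_zero]

lemma rs_ce (δ : F.Div) (j : Fin 2) {V : X.Opens} (h₀ : V ≤ F.U 0) (h₁ : V ≤ F.U 1)
    (h : V ≤ F.U j) : rs (S.C δ) h (S.ce δ j) = 0 := by
  obtain rfl | rfl : j = 0 ∨ j = 1 := by omega
  · exact S.rs_ce_zero δ h₀ h₁
  · rw [ce_one, map_zero]

lemma compat_ce (β δ : F.Div) : Compat F.U (tr β) (S.ce δ) := by
  intro i j
  by_cases hij : i = j
  · subst hij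
    have key : tr β i i = 1 := by
      apply F.inj₂ i i
      rw [ro_tr, mul_inv_cancel, Units.val_one, map_one]
    rw [key, one_smul]
  · have h₀ : F.U i ⊓ F.U j ≤ F.U 0 := by
      obtain rfl | rfl : i = 0 ∨ j = 0 := by omega
      · exact inf_le_left
      · exact inf_le_right
    have h₁ : F.U i ⊓ F.U j ≤ F.U 1 := by
      obtain rfl | rfl : i = 1 ∨ j = 1 := by omega
      · exact inf_le_left
      · exact inf_le_right
    rw [S.rs_ce δ j h₀ h₁, S.rs_ce δ i h₀ h₁, smul_zero]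

/-- The morphism to the quotient with the same values on the generators. -/
noncomputable def z (β δ : F.Div) : lb β ⟶ S.C δ := (lb_hom β _ _ (S.compat_ce β δ)).choose

lemma z_e (β δ : F.Div) (j : Fin 2) : ap (S.z β δ) _ (lbE β j) = S.ce δ j :=
  (lb_hom β _ _ (S.compat_ce β δ)).choose_spec j

lemma s_z (δ δ' : F.Div) : S.s δ ≫ S.z (δ * α⁻¹) δ' = 0 := by
  apply lb_ext
  intro j
  rw [ap_comp, s_e, map_smul, z_e, a_ce]
  rfl

/-- The comparison of the quotients. -/
noncomputable def cc (δ δ' : F.Div) : S.C δ ⟶ S.C δ' := cokernel.desc _ _ (S.s_z δ δ')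

lemma π_cc (δ δ' : F.Div) : S.π δ ≫ S.cc δ δ' = S.z (δ * α⁻¹) δ' := cokernel.π_desc _ _ _

lemma cc_ce (δ δ' : F.Div) (j : Fin 2) : ap (S.cc δ δ') _ (S.ce δ j) = S.ce δ' j := by
  rw [ce, ← ap_comp, π_cc, z_e]

lemma C_ext (δ : F.Div) {M : X.Modules} {f g : S.C δ ⟶ M}
    (h : ∀ j, ap f _ (S.ce δ j) = ap g _ (S.ce δ j)) : f = g := by
  have : Epi (S.π δ) := by
    rw [π]
    infer_instance
  rw [← cancel_epi (S.π δ)]
  apply lb_ext
  intro j
  rw [ap_comp, ap_comp]
  exact h j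

/-- All quotients are retracts of each other. -/
noncomputable def retractC (δ δ' : F.Div) : Retract (S.C δ) (S.C δ') where
  i := S.cc δ δ'
  r := S.cc δ' δ
  retract := by
    apply S.C_ext
    intro j
    rw [ap_comp, cc_ce, cc_ce, ap_id]

section

variable {S}

lemma exists_κ (A : Ample F α) : ∃ f : lb (1 : F.Div) ⟶ lb (1 : F.Div),
    ∀ j, ap f _ (lbE _ j) = (S.a j * A.co j 0) • lbE _ j := by
  apply exists_mul 1 1 (α.1 0) (fun j => S.a j * A.co j 0)
  intro j
  rw [map_mul, S.ro_a, A.ro_co, ← Units.val_mul]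
  congr 2
  rw [mul_comm (α.1 0), mul_inv_cancel_left]

lemma exists_θ (A : Ample F α) : ∃ f : lb (1 * α⁻¹ : F.Div) ⟶ lb (1 : F.Div),
    ∀ j, ap f _ (lbE _ j) = A.co j 0 • lbE _ j := by
  apply exists_mul (1 * α⁻¹) 1 (α.1 0) (fun j => A.co j 0)
  intro j
  rw [A.ro_co]
  change _ * (((1 : Γ(X, F.T)ˣ) : Γ(X, F.T))) = _ * ((1 * (α.1 j)⁻¹ : Γ(X, F.T)ˣ) : Γ(X, F.T))
  rw [Units.val_one, mul_one, one_mul, ← Units.val_mul]

end

include S in
/-- The structure sheaf generates the negative powers. -/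
theorem mem (A : Ample F α) (T : ObjectProperty (DerivedCategory X.Modules)) [T.IsTriangulated]
    [T.IsClosedUnderIsomorphisms] [T.IsStableUnderRetracts] (h1 : T (sg (lb (1 : F.Div))))
    (d : ℕ) : T (sg (lb ((α ^ d)⁻¹))) := by
  obtain ⟨κ, hκ⟩ := exists_κ (S := S) A
  obtain ⟨θ, hθ⟩ := exists_θ A
  have hco : A.co 0 0 = 1 := A.co_self 0
  have mκ : Mono κ := by
    refine mono_mul A.aff κ _ hκ fun j => ?_
    rw [map_mul, S.ro_a, A.ro_co]
    exact (Units.isUnit _).mul (Units.isUnit _)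
  have ms : ∀ δ, Mono (S.s δ) := by
    intro δ
    refine mono_mul A.aff (S.s δ) _ (S.s_e δ) fun j => ?_
    rw [S.ro_a]
    exact Units.isUnit _
  have hQ : T (sg (cokernel κ)) := mem_right T (shortExact_of_mono κ) h1 h1
  have hC1 : T (sg (S.C 1)) := by
    have w1 : S.s 1 ≫ θ ≫ cokernel.π κ = 0 := by
      have : S.s 1 ≫ θ = κ := by
        apply lb_ext
        intro j
        rw [ap_comp, s_e, map_smul, hθ, smul_smul, hκ]
      rw [← Category.assoc, this, cokernel.condition]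
    have w2 : κ ≫ S.z 1 1 = 0 := by
      apply lb_ext
      intro j
      rw [ap_comp, hκ, map_smul, z_e, mul_comm, mul_smul, a_ce, smul_zero]
      rfl
    let r : Retract (S.C 1) (cokernel κ) :=
      { i := cokernel.desc _ _ w1
        r := cokernel.desc _ _ w2
        retract := by
          apply S.C_ext
          intro j
          have e1 : S.π 1 ≫ (cokernel.desc _ _ w1 : S.C 1 ⟶ cokernel κ) = θ ≫ cokernel.π κ :=
            cokernel.π_desc _ _ _
          rw [ce, ← ap_comp, ← Category.assoc, e1, Category.assoc, cokernel.π_desc, ap_comp, hθ,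
            map_smul, z_e, ap_id]
          fin_cases j
          · change A.co 0 0 • S.ce 1 0 = S.ce 1 0
            rw [hco, one_smul]
          · change A.co 1 0 • S.ce 1 1 = S.ce 1 1
            rw [ce_one, smul_zero] }
    exact T.prop_of_retract (r.map (DerivedCategory.singleFunctor X.Modules 0)) hQ
  have hC : ∀ δ, T (sg (S.C δ)) := fun δ =>
    T.prop_of_retract ((S.retractC δ 1).map (DerivedCategory.singleFunctor X.Modules 0)) hC1
  induction d with
  | zero => rwa [pow_zero, inv_one]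
  | succ d ih =>
    have := ms ((α ^ d)⁻¹)
    have h2 := mem_mid T (shortExact_of_mono (S.s ((α ^ d)⁻¹))) ih (hC _)
    rw [pow_succ, mul_inv]
    exact h2

end Split

end Frame

end Pool.Agent.R924
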