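import Pool.Agent.W506.H2

set_option autoImplicit false

/-!
Projective dimension and localization.
-/

universe u

open TensorProduct

namespace Pool.Agent.R924

open Pool.Agent.W506 Pool.Agent.W506.Hilb

variable {R : Type u} [CommRing R] (R' : Type u) [CommRing R'] [Algebra R R']

lemma baseChange_injective [Module.Flat R R'] {M N : Type u} [AddCommGroup M] [Module R M]
    [AddCommGroup N] [Module R N] (f : M →ₗ[R] N) (hf : Function.Injective f) :
    Function.Injective (f.baseChange R') := by
  change Function.Injective (f.lTensor R')
  exact Module.Flat.lTensor_preserves_injective_linearMap f hf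

lemma pdLT_baseChange_step [Module.Flat R R'] {n : ℕ} {K P M : Type u} [AddCommGroup K] [Module R K]
    [AddCommGroup P] [Module R P] [AddCommGroup M] [Module R M] (f : K →ₗ[R] P) (g : P →ₗ[R] M)
    (hf : Function.Injective f) (hg : Function.Surjective g) (hfg : Function.Exact f g)
    (hP : Module.Projective R P) (h : PdLT R' (R' ⊗[R] K) (n + 1)) :
    PdLT R' (R' ⊗[R] M) (n + 2) := by
  have h2 : PdLT R' (R' ⊗[R] P) (n + 2) :=
    pdLT_mono (by omega) (pdLT_one_of_projective inferInstance)
  refine pdLT_right (f.baseChange R') (g.baseChange R') (baseChange_injective R' _ hf)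
    (LinearMap.lTensor_surjective R' hg) ?_ h h2
  have h3 : Function.Exact (f.lTensor R') (g.lTensor R') := lTensor_exact R' hfg hg
  exact h3

/-- Flat base change does not increase the projective dimension. -/
lemma pdLT_baseChange [Module.Flat R R'] {n : ℕ} : ∀ (M : Type u) [AddCommGroup M] [Module R M],
    PdLT R M (n + 1) → PdLT R' (R' ⊗[R] M) (n + 1) := by
  induction n with
  | zero =>
    intro M _ _ h
    have hp := projective_of_pdLT_one h
    exact pdLT_one_of_projective inferInstance
  | succ n ih =>
    intro M _ _ h
    let π : (M →₀ R) →ₗ[R] M := Finsupp.linearCombination R id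
    have hπ : Function.Surjective π := Finsupp.linearCombination_id_surjective R M
    have hK : PdLT R (LinearMap.ker π) (n + 1) :=
      pdLT_left (LinearMap.ker π).subtype π (Submodule.injective_subtype _) hπ
        (LinearMap.exact_subtype_ker_map π)
        (pdLT_mono (by omega) (pdLT_one_of_projective inferInstance)) h
    exact pdLT_baseChange_step R' _ _ (Submodule.injective_subtype _) hπ
      (LinearMap.exact_subtype_ker_map π) inferInstance (ih _ hK)

/-- Localization does not increase the global dimension. -/
theorem pdLT_localization (S : Submonoid R) [IsLocalization S R'] {n : ℕ}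
    (h : ∀ (M : Type u) [AddCommGroup M] [Module R M], PdLT R M (n + 1))
    (M : Type u) [AddCommGroup M] [Module R' M] : PdLT R' M (n + 1) := by
  let : Module R M := Module.compHom M (algebraMap R R')
  have : IsScalarTower R R' M := ⟨fun r f m => by
    rw [Algebra.smul_def, mul_smul]; rfl⟩
  have : Module.Flat R R' := IsLocalization.flat R' S
  have h1 : IsLocalizedModule S (LinearMap.id : M →ₗ[R] M) := isLocalizedModule_id S M R'
  have h2 := (IsLocalizedModule.isBaseChange S R' (LinearMap.id : M →ₗ[R] M)).equiv
  exact pdLT_equiv h2 (pdLT_baseChange R' M (h M))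

end Pool.Agent.R924
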