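import Pool.Agent.R924.G1
import Pool.Agent.R924.G2
import Pool.Agent.R924.G3

set_option autoImplicit false

/-!
An open subscheme of the first Hirzebruch surface: the frame, the divisor and the charts.
-/

universe u

open CategoryTheory Limits TopologicalSpace AlgebraicGeometry Opposite

namespace Pool.Agent.R924

open Pool.Agent.W506 Pool.Agent.W456

set_option backward.isDefEq.respectTransparency false
set_option linter.unusedSectionVars false

variable (K : Type u) [Field K]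

/-- The monomials defining the two charts. -/
def m2 : Fin 2 → MM := ![gg 2, gg 3 + gg 1]

/-- The two charts, as open sets of the first Hirzebruch surface. -/
noncomputable def UU (j : Fin 2) : (F₁ K).Opens := DD (gr K dg) (mo K (m2 j))

lemma DD_add (a b : MM) : DD (gr K dg) (mo K (a + b)) = DD (gr K dg) (mo K a) ⊓ DD (gr K dg) (mo K b) := by
  have h : mo K (a + b) = mo K a * mo K b := by
    rw [AddMonoidAlgebra.single_mul_single, mul_one]
  rw [h, DD, Proj.basicOpen_mul]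

lemma UU_zero : UU K 0 = (FF K).U 2 := rfl

lemma UU_one : UU K 1 = (FF K).U 3 ⊓ (FF K).U 1 := DD_add K (gg 3) (gg 1)

/-- Which charts of the surface contain the given one. -/
lemma UU_le_two : UU K 0 ≤ (FF K).U 2 := le_rfl

lemma UU_le_three : UU K 1 ≤ (FF K).U 3 := by
  rw [UU_one]
  exact inf_le_left

lemma UU_le_one : UU K 1 ≤ (FF K).U 1 := by
  rw [UU_one]
  exact inf_le_right

lemma T_le (j : Fin 2) : (FF K).T ≤ UU K j := by
  obtain rfl | rfl : j = 0 ∨ j = 1 := by omega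
  · exact (FF K).le 2
  · rw [UU_one]
    exact le_inf ((FF K).le 3) ((FF K).le 1)

/-- The open subset. -/
noncomputable def OS : (F₁ K).Opens := UU K 0 ⊔ UU K 1

lemma UU_le (j : Fin 2) : UU K j ≤ OS K := by
  obtain rfl | rfl : j = 0 ∨ j = 1 := by omega
  · exact le_sup_left
  · exact le_sup_right

lemma dg_m2 (j : Fin 2) : 0 < dg (m2 j) := by
  obtain rfl | rfl : j = 0 ∨ j = 1 := by omega
  · change 0 < dg (gg 2)
    rw [dg_gg]
    exact one_pos
  · change 0 < dg (gg 3 + gg 1)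
    rw [map_add, dg_gg, dg_gg]
    norm_num

lemma mo_mem_gr (m : MM) : mo K m ∈ gr K dg (dg m) := mo_mem rfl (1 : K)

lemma DD_mul (f g : Alg K MM) : DD (gr K dg) (f * g) = DD (gr K dg) f ⊓ DD (gr K dg) g :=
  Proj.basicOpen_mul _ _ _

lemma inj_UU (i j k : Fin 2) : Function.Injective
    (ro (le_inf (le_inf (T_le K i) (T_le K j)) (T_le K k)) :
      Γ(F₁ K, (UU K i ⊓ UU K j) ⊓ UU K k) → Γ(F₁ K, (FF K).T)) := by
  have hi := dg_m2 i
  have h1 : mo K (m2 i) * mo K (m2 j) * mo K (m2 k) ∈ gr K dg (dg (m2 i) + dg (m2 j) + dg (m2 k)) :=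
    SetLike.mul_mem_graded (SetLike.mul_mem_graded (mo_mem_gr K _) (mo_mem_gr K _)) (mo_mem_gr K _)
  refine ro_injective' (f := mo K (m2 i) * mo K (m2 j) * mo K (m2 k)) (g := mo K (∑ i, g4 i))
    h1 (by omega) (mo_mem_gr K _) ?_ (mo_ne_zero _) ?_ ?_ _
  · exact mul_ne_zero (mul_ne_zero (mo_ne_zero _) (mo_ne_zero _)) (mo_ne_zero _)
  · rw [DD_mul, DD_mul, DD_mul]
    exact (inf_eq_right.2 (le_inf (le_inf (T_le K i) (T_le K j)) (T_le K k))).symm
  · rw [DD_mul, DD_mul]
    rfl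

/-- The frame on the open subscheme. -/
noncomputable def GF : Frame (OS K).toScheme (Fin 2) :=
  opFrame (OS K) (UU K) (FF K).T (T_le K) (inj_UU K) (UU_le K) ((T_le K 0).trans (UU_le K 0)) (by
    intro x hx
    rcases hx with hx | hx
    · exact ⟨0, hx⟩
    · exact ⟨1, hx⟩)

/-- The rational functions of given exponents. -/
noncomputable def vv (e : ℤ × ℤ) : (Γ((OS K).toScheme, (GF K).T))ˣ :=
  Units.map (pb (OS K) (FF K).T).toMonoidHom (uu K e)

lemma vv_val (e : ℤ × ℤ) : ((vv K e : (Γ((OS K).toScheme, (GF K).T))ˣ) : Γ((OS K).toScheme, (GF K).T)) =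
    pb (OS K) (FF K).T (uu K e) := rfl

lemma vv_add (a b : ℤ × ℤ) : vv K (a + b) = vv K a * vv K b := by
  rw [vv, uu_add, map_mul]
  rfl

lemma vv_zero : vv K 0 = 1 := by
  rw [vv, uu_zero, map_one]

lemma vv_neg (a : ℤ × ℤ) : vv K (-a) = (vv K a)⁻¹ := by
  rw [eq_inv_iff_mul_eq_one, ← vv_add, neg_add_cancel, vv_zero]

lemma vv_sub (a b : ℤ × ℤ) : vv K (a - b) = vv K a * (vv K b)⁻¹ := by
  rw [sub_eq_add_neg, vv_add, vv_neg]

/-- The functions on the charts. -/
noncomputable def hh (j : Fin 2) (i : Fin 4) (h : UU K j ≤ (FF K).U i) (m : Fin 5) :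
    Γ((OS K).toScheme, (GF K).U j) := pb (OS K) (UU K j) (ro h (fj K i m))

lemma ro_hh (j : Fin 2) (i : Fin 4) (h : UU K j ≤ (FF K).U i) (m : Fin 5) :
    ro ((GF K).le j) (hh K j i h m) = vv K (ex m - ex i.castSucc) := by
  rw [vv_val, ← cc_eq, cc, ← ro_ro (T_le K j) h, ← pb_ro (OS K) (T_le K j)]
  rfl

lemma basicOpen_hh (j : Fin 2) (i : Fin 4) (h : UU K j ≤ (FF K).U i) (m : Fin 5) :
    (OS K).toScheme.basicOpen (hh K j i h m) =
      (OS K).ι ⁻¹ᵁ (UU K j ⊓ DD (gr K dg) (mo K (gg m))) := by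
  have h1 : (F₁ K).basicOpen (fj K i m) = (FF K).U i ⊓ DD (gr K dg) (mo K (gg m)) :=
    basicOpen_fr _ _ _ _
  rw [hh, basicOpen_pb, basicOpen_ro, h1, ← inf_assoc, inf_eq_left.2 h]

end Pool.Agent.R924
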