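import Pool.Agent.R924.G4

set_option autoImplicit false

/-!
The ample divisor on the open subscheme and the data which show that the structure sheaf generates.
-/

universe u

open CategoryTheory Limits TopologicalSpace AlgebraicGeometry Opposite

namespace Pool.Agent.R924

open Pool.Agent.W506 Pool.Agent.W456 Pool.Agent.R924.Frame

set_option backward.isDefEq.respectTransparency false
set_option linter.unusedSectionVars false

variable (K : Type u) [Field K]

lemma DD_rel : DD (gr K dg) (mo K (gg 0)) ⊓ DD (gr K dg) (mo K (gg 3)) =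
    DD (gr K dg) (mo K (gg 1)) ⊓ DD (gr K dg) (mo K (gg 2)) := by
  have e : gg 0 + (gg 3 + gg 3) = gg 1 + (gg 2 + gg 2) := by apply MM_ext <;> rfl
  have h1 : DD (gr K dg) (mo K (gg 0 + (gg 3 + gg 3))) =
    DD (gr K dg) (mo K (gg 1 + (gg 2 + gg 2))) := by rw [e]
  rw [DD_add, DD_add, DD_add, DD_add, inf_idem, inf_idem] at h1
  exact h1

lemma pre_inf {X : Scheme.{u}} (O W W' : X.Opens) : O.ι ⁻¹ᵁ (W ⊓ W') = O.ι ⁻¹ᵁ W ⊓ O.ι ⁻¹ᵁ W' := rfl

lemma GF_U (j : Fin 2) : (GF K).U j = (OS K).ι ⁻¹ᵁ (UU K j) := rfl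

/-- The exponents of the ample divisor. -/
def eα : Fin 2 → ℤ × ℤ := ![(0, -1), (2, -2)]

lemma mem_reg₂_of (i j : Fin 2) (e : ℤ × ℤ) (m m' : Fin 4) (h : UU K i ≤ (FF K).U m) (a b : Fin 5)
    (he : e = (ex a - ex m.castSucc) + (ex b - ex m.castSucc) + (ex b - ex m.castSucc)) :
    ((vv K e : (Γ((OS K).toScheme, (GF K).T))ˣ) : Γ((OS K).toScheme, (GF K).T)) ∈ (GF K).reg₂ i j := by
  apply (GF K).reg_le_left
  rw [he, vv_add, vv_add, Units.val_mul, Units.val_mul, ← ro_hh K i m h, ← ro_hh K i m h]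
  exact mul_mem (mul_mem ⟨_, rfl⟩ ⟨_, rfl⟩) ⟨_, rfl⟩

/-- The ample divisor. -/
noncomputable def αG : (GF K).Div :=
  ⟨fun j => vv K (eα j), fun i j => by
    rw [← vv_sub]
    obtain rfl | rfl : i = 0 ∨ i = 1 := by omega
    · obtain rfl | rfl : j = 0 ∨ j = 1 := by omega
      · exact mem_reg₂_of K 0 0 _ 2 2 (UU_le_two K) 2 2 (by decide)
      · exact mem_reg₂_of K 0 1 _ 2 2 (UU_le_two K) 0 3 (by decide)
    · obtain rfl | rfl : j = 0 ∨ j = 1 := by omega
      · exact mem_reg₂_of K 1 0 _ 1 1 (UU_le_one K) 2 1 (by decide)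
      · exact mem_reg₂_of K 1 1 _ 1 1 (UU_le_one K) 1 1 (by decide)⟩

lemma αG_val (j : Fin 2) : (αG K).1 j = vv K (eα j) := rfl

/-- The coefficients. -/
noncomputable def cG : ∀ j _ : Fin 2, Γ((OS K).toScheme, (GF K).U j)
  | 0, 0 => 1
  | 0, 1 => hh K 0 2 (UU_le_two K) 0 * hh K 0 2 (UU_le_two K) 3 ^ 2
  | 1, 0 => hh K 1 1 (UU_le_one K) 2
  | 1, 1 => 1

lemma ro_cG : ∀ j i, ro ((GF K).le j) (cG K j i) =
    (((αG K).1 i * ((αG K).1 j)⁻¹ : Γ((OS K).toScheme, (GF K).T)ˣ) : Γ((OS K).toScheme, (GF K).T))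
  | 0, 0 => by
    rw [mul_inv_cancel, Units.val_one]
    exact map_one _
  | 0, 1 => by
    rw [αG_val, αG_val, ← vv_sub]
    have e : eα 1 - eα 0 = (ex 0 - ex (2 : Fin 4).castSucc) + ((ex 3 - ex (2 : Fin 4).castSucc) +
      (ex 3 - ex (2 : Fin 4).castSucc)) := by decide
    rw [e, vv_add, vv_add, Units.val_mul, Units.val_mul, ← ro_hh K 0 2 (UU_le_two K),
      ← ro_hh K 0 2 (UU_le_two K), ← pow_two, ← map_pow, ← map_mul]
    rfl
  | 1, 0 => by
    rw [αG_val, αG_val, ← vv_sub]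
    have e : eα 0 - eα 1 = ex 2 - ex (1 : Fin 4).castSucc := by decide
    rw [e, ← ro_hh K 1 1 (UU_le_one K)]
    rfl
  | 1, 1 => by
    rw [mul_inv_cancel, Units.val_one]
    exact map_one _

lemma basicOpen_cG : ∀ j i, (OS K).toScheme.basicOpen (cG K j i) = (GF K).U j ⊓ (GF K).U i
  | 0, 0 => by
    rw [inf_idem]
    exact Scheme.basicOpen_of_isUnit _ isUnit_one
  | 0, 1 => by
    have h : (OS K).toScheme.basicOpen (hh K 0 2 (UU_le_two K) 0 * hh K 0 2 (UU_le_two K) 3 ^ 2) =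
      (GF K).U 0 ⊓ (GF K).U 1 := by
      rw [Scheme.basicOpen_mul, Scheme.basicOpen_pow _ _ (by norm_num), basicOpen_hh, basicOpen_hh, GF_U,
        GF_U, ← pre_inf, ← pre_inf, UU_one]
      congr 1
      change (DD (gr K dg) (mo K (gg 2)) ⊓ DD (gr K dg) (mo K (gg 0))) ⊓
        (DD (gr K dg) (mo K (gg 2)) ⊓ DD (gr K dg) (mo K (gg 3))) =
        DD (gr K dg) (mo K (gg 2)) ⊓ (DD (gr K dg) (mo K (gg 3)) ⊓ DD (gr K dg) (mo K (gg 1)))
      rw [← inf_inf_distrib_left, DD_rel]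
      have h1 : DD (gr K dg) (mo K (gg 1)) ⊓ DD (gr K dg) (mo K (gg 2)) ≤
        DD (gr K dg) (mo K (gg 3)) := by
        rw [← DD_rel]
        exact inf_le_right
      apply le_antisymm
      · exact le_inf inf_le_left (le_inf (inf_le_right.trans h1) (inf_le_right.trans inf_le_left))
      · exact le_inf inf_le_left (le_inf (inf_le_right.trans inf_le_right) inf_le_left)
    exact h
  | 1, 0 => by
    have h : (OS K).toScheme.basicOpen (hh K 1 1 (UU_le_one K) 2) = (GF K).U 1 ⊓ (GF K).U 0 := by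
      rw [basicOpen_hh]
      rfl
    exact h
  | 1, 1 => by
    rw [inf_idem]
    exact Scheme.basicOpen_of_isUnit _ isUnit_one

lemma affUU (j : Fin 2) : IsAffineOpen (UU K j) :=
  Proj.isAffineOpen_basicOpen (gr K dg) _ (mo_mem_gr K (m2 j)) (dg_m2 j)

lemma affG (j : Fin 2) : IsAffineOpen ((GF K).U j) := isAffineOpen_pre (OS K) (affUU K j) (UU_le K j)

/-- The line bundle is ample. -/
noncomputable def ampleG : Ample (GF K) (αG K) where
  aff := affG K
  co := cG K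
  ro_co := ro_cG K
  basicOpen_co := basicOpen_cG K

/-- The function with disjoint parts of the divisor. -/
noncomputable def splitG : Split (αG K) where
  ξ := hh K 0 2 (UU_le_two K) 0
  p := hh K 1 3 (UU_le_three K) 1 ^ 2
  hξ := by
    rw [αG_val, ro_hh]
    congr 2
  hp := by
    rw [αG_val, map_pow, ro_hh]
    have e : eα 1 = (ex 1 - ex (3 : Fin 4).castSucc) + (ex 1 - ex (3 : Fin 4).castSucc) := by decide
    rw [e, vv_add, Units.val_mul, pow_two]
  unit := by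
    refine IsUnit.of_mul_eq_one (hh K 1 1 (UU_le_one K) 3 ^ 2) ?_
    apply (GF K).inj₁ 1
    rw [map_mul, map_pow, map_pow, ro_hh, ro_hh, map_one, ← mul_pow, ← Units.val_mul, ← vv_add]
    have e : (ex 1 - ex (3 : Fin 4).castSucc) + (ex 3 - ex (1 : Fin 4).castSucc) = 0 := by decide
    rw [e, vv_zero, Units.val_one, one_pow]
  le := by
    rw [basicOpen_hh, GF_U, GF_U, ← pre_inf]
    apply pre_mono
    refine le_inf inf_le_left ?_
    have h1 : DD (gr K dg) (mo K (gg 1)) ⊓ DD (gr K dg) (mo K (gg 2)) ≤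
      DD (gr K dg) (mo K (gg 0)) := by
      rw [← DD_rel]
      exact inf_le_left
    exact le_trans (le_inf (inf_le_right.trans (UU_le_one K)) inf_le_left) h1

end Pool.Agent.R924
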