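import Pool.Agent.R924.G5

set_option autoImplicit false

/-!
Regularity, compactness and separatedness of the open subscheme.
-/

universe u

open CategoryTheory Limits TopologicalSpace AlgebraicGeometry Opposite

namespace Pool.Agent.R924

open Pool.Agent.W506 Pool.Agent.W456 Pool.Agent.R924.Frame

set_option backward.isDefEq.respectTransparency false
set_option linter.unusedSectionVars false

/-- A noetherian ring of bounded global dimension. -/
structure GoodRing (R : Type u) [CommRing R] (N : ℕ) : Prop where
  noeth : IsNoetherianRing R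
  dim : ∀ (M : Type u) [AddCommGroup M] [Module R M], Hilb.PdLT R M (N + 1)

lemma GoodRing.equiv {R S : Type u} [CommRing R] [CommRing S] (e : R ≃+* S) {N : ℕ}
    (h : GoodRing R N) : GoodRing S N where
  noeth := by
    have := h.noeth
    exact isNoetherianRing_of_ringEquiv _ e
  dim M _ _ := by
    let : Module R M := Module.compHom _ e.toRingHom
    exact Hilb.pdLT_of_ringEquiv e M M (AddEquiv.refl _) (fun r m => rfl) (h.dim M)

lemma GoodRing.localization {R S : Type u} [CommRing R] [CommRing S] [Algebra R S] (W : Submonoid R)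
    [IsLocalization W S] {N : ℕ} (h : GoodRing R N) : GoodRing S N where
  noeth := by
    have := h.noeth
    exact IsLocalization.isNoetherianRing W S inferInstance
  dim M _ _ := pdLT_localization S W h.dim M

lemma GoodRing.basicOpen {X : Scheme.{u}} {W : X.Opens} (hW : IsAffineOpen W) (f : Γ(X, W)) {N : ℕ}
    (h : GoodRing Γ(X, W) N) : GoodRing Γ(X, X.basicOpen f) N := by
  have := hW.isLocalization_basicOpen f
  exact h.localization (Submonoid.powers f)

variable (K : Type u) [Field K]

lemma goodRing_FF (j : Fin 4) : GoodRing Γ(F₁ K, (FF K).U j) 2 :=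
  ⟨(good₁ K).noeth j, (good₁ K).dim j⟩

lemma goodRing_UU (j : Fin 2) : GoodRing Γ(F₁ K, UU K j) 2 := by
  obtain rfl | rfl : j = 0 ∨ j = 1 := by omega
  · exact goodRing_FF K 2
  · have h1 : (F₁ K).basicOpen (fj K 3 1) = UU K 1 := by
      have h2 : (F₁ K).basicOpen (fj K 3 1) = (FF K).U 3 ⊓ DD (gr K dg) (mo K (gg 1)) :=
        basicOpen_fr _ _ _ _
      rw [h2, UU_one]
      rfl
    rw [← h1]
    exact (goodRing_FF K 3).basicOpen (aff₁ K 3) _

lemma goodRing_GF (j : Fin 2) : GoodRing Γ((OS K).toScheme, (GF K).U j) 2 :=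
  (goodRing_UU K j).equiv (RingEquiv.ofBijective (pb (OS K) (UU K j)) (pb_bijective (OS K) (UU_le K j)))

theorem goodG : IsGood (GF K).U 2 where
  aff := affG K
  cover := (GF K).cover
  noeth j := (goodRing_GF K j).noeth
  dim j := (goodRing_GF K j).dim

instance : CompactSpace (OS K).toScheme := by
  constructor
  have : (Set.univ : Set (OS K).toScheme) = ⋃ j, ((GF K).U j : Set (OS K).toScheme) := by
    rw [eq_comm, Set.eq_univ_iff_forall]
    intro x
    obtain ⟨j, hj⟩ := (GF K).cover x
    exact Set.mem_iUnion.2 ⟨j, hj⟩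
  rw [this]
  exact isCompact_iUnion fun j => (affG K j).isCompact

instance : IsLocallyNoetherian (OS K).toScheme := by
  refine isLocallyNoetherian_of_affine_cover (S := fun j : Fin 2 => ⟨(GF K).U j, affG K j⟩) ?_ ?_
  · rw [eq_top_iff]
    intro x _
    obtain ⟨j, hj⟩ := (GF K).cover x
    exact Opens.mem_iSup.2 ⟨j, hj⟩
  · intro j
    exact (goodRing_GF K j).noeth

instance : (OS K).toScheme.IsSeparated := by
  constructor
  rw [← terminal.comp_from (OS K).ι]
  infer_instance

attribute [local instance] HasDerivedCategory.standard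

theorem envelope_OS : (ObjectProperty.ofObj fun _ : Unit => sg (unitMod (OS K).toScheme)).triangEnvelope =
    isPerfect (OS K).toScheme := by
  have h := ObjectProperty.le_triangEnvelope
    (ObjectProperty.ofObj fun _ : Unit => sg (unitMod (OS K).toScheme))
  refine Frame.triangEnvelope_eq (ampleG K) (goodG K) _ ?_ ?_
  · rw [ObjectProperty.ofObj_le_iff]
    intro _
    exact isPerfect_of_isGen fun x => ⟨⊤, trivial, ooE ⊤ 1, isBasisOn_one _⟩
  · obtain ⟨e⟩ := Frame.lb_one (F := GF K)
    have h1 := Frame.Split.mem (splitG K) (ampleG K)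
      (ObjectProperty.ofObj fun _ : Unit => sg (unitMod (OS K).toScheme)).triangEnvelope
      (mem_iso _ e.symm (h _ ⟨()⟩))
    exact h1

end Pool.Agent.R924
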