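import Pool.Agent.R924.G6

set_option autoImplicit false

/-!
The open subscheme is not quasi-affine.
-/

universe u

open CategoryTheory Limits TopologicalSpace AlgebraicGeometry Opposite

namespace Pool.Agent.R924

open Pool.Agent.W506 Pool.Agent.W456 Pool.Agent.R924.Frame

set_option backward.isDefEq.respectTransparency false
set_option linter.unusedSectionVars false

variable (K : Type u) [Field K]

section point

variable {X : Scheme.{u}} {U : X.Opens} (hU : IsAffineOpen U) {L : Type u} [Field L]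
  (φ : Γ(X, U) →+* L)

/-- The point given by a homomorphism to a field. -/
noncomputable def ptOf : X := hU.fromSpec ⟨RingHom.ker φ, RingHom.ker_isPrime φ⟩

lemma ptOf_mem_basicOpen (f : Γ(X, U)) : ptOf hU φ ∈ X.basicOpen f ↔ φ f ≠ 0 := by
  have h := hU.fromSpec_preimage_basicOpen f
  have h1 : (⟨RingHom.ker φ, RingHom.ker_isPrime φ⟩ : PrimeSpectrum Γ(X, U)) ∈
      hU.fromSpec ⁻¹ᵁ X.basicOpen f ↔
    (⟨RingHom.ker φ, RingHom.ker_isPrime φ⟩ : PrimeSpectrum Γ(X, U)) ∈ PrimeSpectrum.basicOpen f := by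
    rw [h]
  exact h1

lemma ptOf_mem : ptOf hU φ ∈ U := by
  have h := (ptOf_mem_basicOpen hU φ 1).2 (by rw [map_one]; exact one_ne_zero)
  exact X.basicOpen_le _ h

end point

lemma fr_eq_ev {M : Type} [AddCommMonoid M] {deg : M →+ ℕ} [IsDomain (Alg K M)] (D : Chart deg)
    (k : ℕ) (a : Alg K M) (ha : a ∈ gr K deg (k * 1)) :
    fr (mo_mem D.deg₀ (1 : K)) k a ha = D.ev (D.ρ a) := by
  refine gr_induction (P := fun a ha => fr (mo_mem D.deg₀ (1 : K)) k a ha = D.ev (D.ρ a))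
    ?_ ?_ ?_ a ha
  · rw [fr_zero, map_zero, map_zero]
  · intro a ha b hb h1 h2
    rw [← fr_add _ _ _ ha _ hb, h1, h2, map_add, map_add]
  · intro m c hm
    rw [D.fr_single m c k hm, D.ρ_single]

/-- The evaluation at a point of the exceptional curve. -/
noncomputable def evE (t : K) : MvPolynomial (Fin 2) K →+* K := MvPolynomial.eval ![t, 0]

lemma evE_ρ (t t' : K) (a : Alg K MM) (h : ∀ m ∈ a.coeff.support, m.1 1 ≤ m.1 2) :
    evE K t ((chart 2).ρ a) = evE K t' ((chart 2).ρ a) := by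
  have h1 : ∑ m ∈ a.coeff.support, (AddMonoidAlgebra.single m (a.coeff m) : Alg K MM) = a := by
    have := AddMonoidAlgebra.sum_coeff_single a
    rwa [Finsupp.sum] at this
  rw [← h1, map_sum, map_sum, map_sum]
  refine Finset.sum_congr rfl fun m hm => ?_
  rw [(chart 2).ρ_single]
  have hβ : (chart 2).β m = m.1 1 := rfl
  have hγ : (chart 2).γ m = m.1 2 := rfl
  rw [hβ, hγ]
  have hv : ∀ t : K, evE K t (MvPolynomial.C (a.coeff m) * (MvPolynomial.X 0 ^ m.1 1 *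
      MvPolynomial.X 1 ^ m.1 2)) = a.coeff m * (t ^ m.1 1 * 0 ^ m.1 2) := by
    intro t
    rw [evE, map_mul, map_mul, map_pow, map_pow, MvPolynomial.eval_C, MvPolynomial.eval_X,
      MvPolynomial.eval_X]
    rfl
  rw [hv, hv]
  by_cases h2 : m.1 2 = 0
  · have h3 := h m hm
    rw [h2] at h3
    rw [Nat.le_zero.1 h3, pow_zero, pow_zero]
  · simp only [zero_pow h2, mul_zero]

/-- The homomorphism to the field on the first chart. -/
noncomputable def φE (t : K) : Γ((OS K).toScheme, (GF K).U 0) →+* K :=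
  ((evE K t).comp (chEquiv K 2).symm.toRingHom).comp
    (RingEquiv.ofBijective (pb (OS K) (UU K 0)) (pb_bijective (OS K) (UU_le K 0))).symm.toRingHom

lemma φE_pb (t : K) (P : MvPolynomial (Fin 2) K) :
    φE K t (pb (OS K) (UU K 0) ((chart 2).ev P)) = evE K t P := by
  have h1 : (RingEquiv.ofBijective (pb (OS K) (UU K 0)) (pb_bijective (OS K) (UU_le K 0))).symm
      (pb (OS K) (UU K 0) ((chart 2).ev P)) = (chart 2).ev P :=
    RingEquiv.symm_apply_apply _ _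
  have h2 : (chEquiv K 2).symm ((chart 2).ev P) = P := RingEquiv.symm_apply_apply (chEquiv K 2) _
  change evE K t ((chEquiv K 2).symm ((RingEquiv.ofBijective (pb (OS K) (UU K 0))
    (pb_bijective (OS K) (UU_le K 0))).symm (pb (OS K) (UU K 0) ((chart 2).ev P)))) = _
  rw [h1, h2]

lemma support_le (k l : ℕ) (a b : Alg K MM) (ha : a ∈ gr K dg (k * 1))
    (h : mo K (gg 3 + gg 1) ^ l * a = mo K (gg 2) ^ k * b) :
    ∀ m ∈ a.coeff.support, m.1 1 ≤ m.1 2 := by
  intro m hm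
  rw [AddMonoidAlgebra.single_pow, AddMonoidAlgebra.single_pow, one_pow, one_pow] at h
  have h4 := congrArg (fun x : Alg K MM => x.coeff (l • (gg 3 + gg 1) + m)) h
  have h5 : (mo K (l • (gg 3 + gg 1)) * a).coeff (l • (gg 3 + gg 1) + m) = 1 * a.coeff m :=
    coeff_mul_cancel K _ _ _ _
  have h6 : (mo K (k • gg 2) * b).coeff (l • (gg 3 + gg 1) + m) ≠ 0 := by
    intro h7
    exact (Finsupp.mem_support_iff.1 hm) (by rw [← one_mul (a.coeff m), ← h5]; exact h4.trans h7)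
  obtain ⟨d, hd⟩ : ∃ d, k • gg 2 + d = l • (gg 3 + gg 1) + m := by
    by_contra hne
    push Not at hne
    exact h6 (AddMonoidAlgebra.coeff_single_mul_of_forall_add_ne _ _ hne)
  have q0 : k * 1 + d.1 0 = l * (0 + 0) + m.1 0 := congrArg (fun x : MM => x.1 0) hd
  have q4 : m.1 2 + m.1 3 = k * 1 := ha m hm
  have q5 : m.1 0 + m.1 1 = 2 * m.1 2 + m.1 3 := m.2
  omega

/-- Comparison of fractions on the intersection. -/
lemma ro_fr_eq_iff (k l : ℕ) (a b : Alg K MM) (ha : a ∈ gr K dg (k * 1))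
    (hb : b ∈ gr K dg (l * 2)) (h2 : mo K (gg 3 + gg 1) ∈ gr K dg 2)
    (h : ro (T_le K 0) (fr (mo_mem (dg_gg 2) (1 : K)) k a ha) = ro (T_le K 1) (fr h2 l b hb)) :
    mo K (gg 3 + gg 1) ^ l * a = mo K (gg 2) ^ k * b := by
  have s1 : mo K (∑ i, g4 i) = mo K (gg 2) * mo K (gg 0 + gg 1 + gg 3) := by
    rw [AddMonoidAlgebra.single_mul_single, mul_one]
    congr 1
    apply MM_ext <;> rfl
  have s2 : mo K (∑ i, g4 i) = mo K (gg 3 + gg 1) * mo K (gg 0 + gg 2) := by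
    rw [AddMonoidAlgebra.single_mul_single, mul_one]
    congr 1
    apply MM_ext <;> rfl
  have d1 : dg (gg 0 + gg 1 + gg 3) = 3 := rfl
  have d2 : dg (gg 0 + gg 2) = 2 := rfl
  have d3 : dg (∑ i, g4 i) = 4 := rfl
  have e1 : ro (T_le K 0) (fr (mo_mem (dg_gg 2) (1 : K)) k a ha) = _ :=
    ro_fr' _ (mo_mem d1 (1 : K)) s1 (mo_mem d3 (1 : K)) rfl _ k a ha
  have e2 : ro (T_le K 1) (fr h2 l b hb) = _ :=
    ro_fr' _ (mo_mem d2 (1 : K)) s2 (mo_mem d3 (1 : K)) rfl _ l b hb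
  replace h := e1.symm.trans (h.trans e2)
  rw [fr_eq_iff _ (by norm_num) (mo_ne_zero _)] at h
  have h1 : mo K (∑ i, g4 i) ^ l * (a * mo K (gg 0 + gg 1 + gg 3) ^ k) =
      (mo K (gg 0 + gg 2) ^ l * mo K (gg 0 + gg 1 + gg 3) ^ k) * (mo K (gg 3 + gg 1) ^ l * a) := by
    rw [s2, mul_pow]
    ring
  have h2 : mo K (∑ i, g4 i) ^ k * (b * mo K (gg 0 + gg 2) ^ l) =
      (mo K (gg 0 + gg 2) ^ l * mo K (gg 0 + gg 1 + gg 3) ^ k) * (mo K (gg 2) ^ k * b) := by
    rw [s1, mul_pow]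
    ring
  rw [h1, h2] at h
  exact mul_left_cancel₀ (mul_ne_zero (pow_ne_zero _ (mo_ne_zero _)) (pow_ne_zero _ (mo_ne_zero _))) h

theorem φE_global (t t' : K) (r : Γ((OS K).toScheme, ⊤)) :
    φE K t (ro (le_top : (GF K).U 0 ≤ ⊤) r) = φE K t' (ro (le_top : (GF K).U 0 ≤ ⊤) r) := by
  obtain ⟨s₀, h0⟩ := (pb_bijective (OS K) (UU_le K 0)).2 (ro (le_top : (GF K).U 0 ≤ ⊤) r)
  obtain ⟨s₁, h1⟩ := (pb_bijective (OS K) (UU_le K 1)).2 (ro (le_top : (GF K).U 1 ≤ ⊤) r)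
  obtain ⟨k, a, ha, rfl⟩ := exists_fr (mo_mem (dg_gg 2) (1 : K)) one_pos s₀
  obtain ⟨l, b, hb, rfl⟩ := exists_fr (mo_mem (m := gg 3 + gg 1) (d := 2) (deg := dg) rfl (1 : K))
    two_pos s₁
  have h2 : ro (T_le K 0) (fr (mo_mem (dg_gg 2) (1 : K)) k a ha) =
      ro (T_le K 1) (fr (mo_mem (m := gg 3 + gg 1) (d := 2) (deg := dg) rfl (1 : K)) l b hb) := by
    apply (pb_bijective (OS K) ((T_le K 0).trans (UU_le K 0))).1
    rw [← pb_ro, ← pb_ro]
    have e0 : ro (pre_mono (OS K) (T_le K 0)) (pb (OS K) (UU K 0)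
      (fr (mo_mem (dg_gg 2) (1 : K)) k a ha)) = ro (le_top : (GF K).T ≤ ⊤) r := by
      rw [h0]
      exact ro_ro _ _ _
    have e1 : ro (pre_mono (OS K) (T_le K 1)) (pb (OS K) (UU K 1)
      (fr (mo_mem (m := gg 3 + gg 1) (d := 2) (deg := dg) rfl (1 : K)) l b hb)) =
        ro (le_top : (GF K).T ≤ ⊤) r := by
      rw [h1]
      exact ro_ro _ _ _
    rw [e0, e1]
  have h3 := support_le K k l a b ha (ro_fr_eq_iff K k l a b ha hb _ h2)
  have h4 : fr (mo_mem (dg_gg 2) (1 : K)) k a ha = (chart 2).ev ((chart 2).ρ a) :=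
    fr_eq_ev K (chart 2) k a ha
  rw [← h0, h4, φE_pb, φE_pb]
  exact evE_ρ K t t' a h3

/-- A point of the exceptional curve. -/
noncomputable def ptE (t : K) : (OS K).toScheme := ptOf (affG K 0) (φE K t)

lemma ptE_mem_global (t t' : K) (r : Γ((OS K).toScheme, ⊤))
    (h : ptE K t ∈ (OS K).toScheme.basicOpen r) : ptE K t' ∈ (OS K).toScheme.basicOpen r := by
  have key : ∀ t : K, ptE K t ∈ (OS K).toScheme.basicOpen r ↔
      φE K t (ro (le_top : (GF K).U 0 ≤ ⊤) r) ≠ 0 := by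
    intro t
    rw [← ptOf_mem_basicOpen (affG K 0), basicOpen_ro]
    exact ⟨fun h => ⟨ptOf_mem (affG K 0) _, h⟩, fun h => h.2⟩
  rw [key] at h ⊢
  rwa [← φE_global K t t']

theorem not_isQuasiAffine : ¬ (OS K).toScheme.IsQuasiAffine := by
  intro hq
  -- the coordinate on the exceptional curve
  let w : Γ((OS K).toScheme, (GF K).U 0) := pb (OS K) (UU K 0) ((chart 2).ev (MvPolynomial.X 0))
  have hw : ∀ t : K, φE K t w = t := by
    intro t
    change φE K t (pb (OS K) (UU K 0) ((chart 2).ev (MvPolynomial.X 0))) = t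
    rw [φE_pb, evE, MvPolynomial.eval_X]
    rfl
  have h1 : ptE K 1 ∈ (OS K).toScheme.basicOpen w := by
    rw [ptE, ptOf_mem_basicOpen, hw]
    exact one_ne_zero
  have h0 : ptE K 0 ∉ (OS K).toScheme.basicOpen w := by
    rw [ptE, ptOf_mem_basicOpen, hw]
    exact fun h => h rfl
  obtain ⟨_, ⟨_, ⟨r, -, rfl⟩, rfl⟩, hxr, hle⟩ := (Scheme.IsQuasiAffine.isBasis_basicOpen
    (OS K).toScheme).exists_subset_of_mem_open h1 ((OS K).toScheme.basicOpen w).2
  exact h0 (hle (ptE_mem_global K 1 0 r hxr))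

end Pool.Agent.R924
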