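import Mathlib

set_option autoImplicit false

/-!
Flat and cotorsion modules over noncommutative rings, and extensions over free algebras.
-/

namespace Pool.Agent.R924

/-- Flat left modules over an arbitrary ring (the equational criterion: every linear relation is a
consequence of relations in the ring). -/
def IsFlat (S : Type) [Ring S] (F : Type) [AddCommGroup F] [Module S F] : Prop :=
  ∀ (n : ℕ) (r : Fin n → S) (x : Fin n → F), ∑ i, r i • x i = 0 →
    ∃ (k : ℕ) (a : Fin n → Fin k → S) (y : Fin k → F),
      (∀ i, x i = ∑ j, a i j • y j) ∧ ∀ j, ∑ i, r i * a i j = 0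

/-- `Ext¹(F, C) = 0`: every extension of `F` by `C` splits. -/
def Ext1Zero (S : Type) [Ring S] (F C : Type) [AddCommGroup F] [Module S F] [AddCommGroup C]
    [Module S C] : Prop :=
  ∀ (Y : Type) [AddCommGroup Y] [Module S Y] (i : C →ₗ[S] Y) (p : Y →ₗ[S] F),
    Function.Injective i → Function.Surjective p → Function.Exact i p →
      ∃ s : F →ₗ[S] Y, p ∘ₗ s = LinearMap.id

/-- Cotorsion left modules. -/
def IsCotorsion (S : Type) [Ring S] (C : Type) [AddCommGroup C] [Module S C] : Prop :=
  ∀ (F : Type) [AddCommGroup F] [Module S F], IsFlat S F → Ext1Zero S F C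

/-- Over a quotient ring `A` of `R`, injective `A`-modules are cotorsion over `R`. -/
theorem cotorsion_of_injective {R A : Type} [Ring R] [Ring A] (f : R →+* A)
    (hf : Function.Surjective f) {E : Type} [AddCommGroup E] [Module A E] [Module R E]
    (hs : ∀ (r : R) (e : E), r • e = f r • e) (hE : Module.Injective A E)
    {G : Type} [AddCommGroup G] [Module R G] (hG : IsFlat R G) : Ext1Zero R G E := by
  intro Y _ _ i p hi hp hex
  let I : Submodule R Y := Submodule.span R {y | ∃ (r : R) (z : Y), f r = 0 ∧ y = r • z}
  have hI : ∀ y ∈ I, ∃ (n : ℕ) (r : Fin n → R) (z : Fin n → Y), (∀ j, f (r j) = 0) ∧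
      y = ∑ j, r j • z j := by
    intro y hy
    obtain ⟨n, c, g, h⟩ := (Submodule.mem_span_set').1 hy
    choose r z hr hz using fun j => (g j).2
    refine ⟨n, fun j => c j * r j, z, fun j => by rw [map_mul, hr j, mul_zero], ?_⟩
    rw [← h]
    refine Finset.sum_congr rfl fun j _ => ?_
    rw [hz j, mul_smul]
  -- the quotient is a module over the quotient ring
  have hkill : ∀ (r : R) (y : Y ⧸ I), f r = 0 → r • y = 0 := by
    intro r y hr
    obtain ⟨y, rfl⟩ := Submodule.mkQ_surjective _ y
    rw [← map_smul]
    exact (Submodule.Quotient.mk_eq_zero _).2 (Submodule.subset_span ⟨r, y, hr, rfl⟩)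
  let _ : SMul A (Y ⧸ I) := ⟨fun a y => (Classical.choose (hf a)) • y⟩
  have hsm : ∀ (r : R) (y : Y ⧸ I), f r • y = r • y := by
    intro r y
    change (Classical.choose (hf (f r))) • y = r • y
    rw [← sub_eq_zero, ← sub_smul]
    apply hkill
    rw [map_sub, Classical.choose_spec (hf (f r)), sub_self]
  let _ : Module A (Y ⧸ I) := Function.Surjective.moduleLeft f hf hsm
  let j : E →ₗ[A] (Y ⧸ I) :=
    { toFun := fun e => I.mkQ (i e)
      map_add' := fun e e' => by rw [map_add, map_add]
      map_smul' := fun a e => by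
        obtain ⟨r, rfl⟩ := hf a
        rw [← hs, map_smul, map_smul, RingHom.id_apply]
        exact (hsm r _).symm }
  have hj : Function.Injective j := by
    rw [injective_iff_map_eq_zero]
    intro e he
    have he' : i e ∈ I := (Submodule.Quotient.mk_eq_zero _).1 he
    obtain ⟨n, r, z, hr, hz⟩ := hI _ he'
    have h0 : ∑ l, r l • p (z l) = 0 := by
      have h1 := hex.apply_apply_eq_zero e
      rw [hz, map_sum] at h1
      rw [← h1]
      exact Finset.sum_congr rfl fun l _ => (map_smul p _ _).symm
    obtain ⟨k, a, y, hy, ha⟩ := hG n r _ h0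
    choose y' hy' using fun l => hp (y l)
    have h1 : ∀ l, ∃ e' : E, i e' = z l - ∑ m, a l m • y' m := by
      intro l
      apply (hex _).1
      rw [map_sub, map_sum, hy l, sub_eq_zero]
      exact Finset.sum_congr rfl fun m _ => by rw [map_smul, hy']
    choose e' he' using h1
    apply hi
    rw [map_zero, hz]
    have h2 : ∀ l, r l • z l = i (r l • e' l) + ∑ m, (r l * a l m) • y' m := by
      intro l
      rw [map_smul, he', smul_sub, Finset.smul_sum]
      simp only [mul_smul]
      abel
    have h3 : ∀ l, r l • e' l = 0 := by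
      intro l
      rw [hs, hr, zero_smul]
    simp only [h2, h3, map_zero, zero_add]
    rw [Finset.sum_comm]
    refine Finset.sum_eq_zero fun m _ => ?_
    rw [← Finset.sum_smul, ha, zero_smul]
  obtain ⟨ρ, hρ⟩ := hE.out j hj LinearMap.id
  let r : Y →ₗ[R] E :=
    { toFun := fun y => ρ (I.mkQ y)
      map_add' := fun y y' => by rw [map_add, map_add]
      map_smul' := fun r y => by
        rw [map_smul, ← hsm, map_smul, RingHom.id_apply, hs] }
  have hr : r ∘ₗ i = LinearMap.id := by
    ext e
    exact hρ e
  have h4 : (∃ l : G →ₗ[R] Y, p ∘ₗ l = LinearMap.id) ↔ (∃ l : Y →ₗ[R] E, l ∘ₗ i = LinearMap.id) :=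
    (hex.split_tfae hi hp).out 0 1
  exact h4.2 ⟨r, hr⟩

section free

variable {k X : Type} [Field k]

/-- Linear maps over free algebras. -/
def mkLin {M N : Type} [AddCommGroup M] [AddCommGroup N] [Module (FreeAlgebra k X) M]
    [Module (FreeAlgebra k X) N] [Module k M] [Module k N] [IsScalarTower k (FreeAlgebra k X) M]
    [IsScalarTower k (FreeAlgebra k X) N] (h : M →ₗ[k] N)
    (hx : ∀ (x : X) (m : M), h (FreeAlgebra.ι k x • m) = FreeAlgebra.ι k x • h m) :
    M →ₗ[FreeAlgebra k X] N where
  toFun := h
  map_add' := h.map_add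
  map_smul' r m := by
    rw [RingHom.id_apply]
    induction r using FreeAlgebra.induction generalizing m with
    | grade0 c => rw [algebraMap_smul, algebraMap_smul, map_smul]
    | grade1 x => exact hx x m
    | mul a b ha hb => rw [mul_smul, ha, hb, mul_smul]
    | add a b ha hb => rw [add_smul, map_add, ha, hb, add_smul]

lemma mkLin_apply {M N : Type} [AddCommGroup M] [AddCommGroup N] [Module (FreeAlgebra k X) M]
    [Module (FreeAlgebra k X) N] [Module k M] [Module k N] [IsScalarTower k (FreeAlgebra k X) M]
    [IsScalarTower k (FreeAlgebra k X) N] (h : M →ₗ[k] N)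
    (hx : ∀ (x : X) (m : M), h (FreeAlgebra.ι k x • m) = FreeAlgebra.ι k x • h m) (m : M) :
    mkLin h hx m = h m := rfl

/-- A direct sum with a twisted action of the free algebra. -/
structure Tw (E G : Type) where
  /-- first component -/
  fst : E
  /-- second component -/
  snd : G

/-- The underlying pair. -/
def Tw.equiv (E G : Type) : Tw E G ≃ E × G where
  toFun t := (t.fst, t.snd)
  invFun t := ⟨t.1, t.2⟩
  left_inv _ := rfl
  right_inv _ := rfl

instance (E G : Type) [AddCommGroup E] [AddCommGroup G] : AddCommGroup (Tw E G) :=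
  (Tw.equiv E G).addCommGroup

instance (E G : Type) [AddCommGroup E] [AddCommGroup G] [Module k E] [Module k G] :
    Module k (Tw E G) :=
  (Tw.equiv E G).module k

lemma Tw.ext' {E G : Type} {a b : Tw E G} (h1 : a.fst = b.fst) (h2 : a.snd = b.snd) : a = b := by
  cases a
  cases b
  cases h1
  cases h2
  rfl

/-- A surjection induces a surjection on extensions over a free algebra. -/
theorem ext1Zero_of_surjective {E C G : Type} [AddCommGroup E] [AddCommGroup C] [AddCommGroup G]
    [Module (FreeAlgebra k X) E] [Module (FreeAlgebra k X) C] [Module (FreeAlgebra k X) G]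
    (q : E →ₗ[FreeAlgebra k X] C) (hq : Function.Surjective q)
    (h : Ext1Zero (FreeAlgebra k X) G E) : Ext1Zero (FreeAlgebra k X) G C := by
  intro Y _ _ i p hi hp hex
  let _ : Module k E := Module.compHom E (algebraMap k (FreeAlgebra k X))
  let _ : Module k C := Module.compHom C (algebraMap k (FreeAlgebra k X))
  let _ : Module k G := Module.compHom G (algebraMap k (FreeAlgebra k X))
  let _ : Module k Y := Module.compHom Y (algebraMap k (FreeAlgebra k X))
  have _ : IsScalarTower k (FreeAlgebra k X) E := IsScalarTower.of_algebraMap_smul fun _ _ => rfl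
  have _ : IsScalarTower k (FreeAlgebra k X) C := IsScalarTower.of_algebraMap_smul fun _ _ => rfl
  have _ : IsScalarTower k (FreeAlgebra k X) G := IsScalarTower.of_algebraMap_smul fun _ _ => rfl
  have _ : IsScalarTower k (FreeAlgebra k X) Y := IsScalarTower.of_algebraMap_smul fun _ _ => rfl
  let qk : E →ₗ[k] C := q.restrictScalars k
  let ik : C →ₗ[k] Y := i.restrictScalars k
  let pk : Y →ₗ[k] G := p.restrictScalars k
  obtain ⟨t, ht⟩ := pk.exists_rightInverse_of_surjective (LinearMap.range_eq_top.2 hp)
  obtain ⟨l, hl⟩ := qk.exists_rightInverse_of_surjective (LinearMap.range_eq_top.2 hq)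
  have ht' : ∀ g, p (t g) = g := fun g => LinearMap.congr_fun ht g
  have hl' : ∀ c, q (l c) = c := fun g => LinearMap.congr_fun hl g
  obtain ⟨ri, hri⟩ := ik.exists_leftInverse_of_injective (LinearMap.ker_eq_bot.2 hi)
  have hri' : ∀ c, ri (i c) = c := fun g => LinearMap.congr_fun hri g
  -- the derivations
  let D0 : X → G → Y := fun x g => FreeAlgebra.ι k x • t g - t (FreeAlgebra.ι k x • g)
  have hD0 : ∀ x g, i (ri (D0 x g)) = D0 x g := by
    intro x g
    obtain ⟨c, hc⟩ := (hex (D0 x g)).1 (by
      change p (FreeAlgebra.ι k x • t g - t (FreeAlgebra.ι k x • g)) = 0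
      rw [map_sub, map_smul, ht', ht', sub_self])
    rw [← hc, hri']
  have sm : ∀ (x : X) (c : k) {M : Type} [AddCommGroup M] [Module (FreeAlgebra k X) M] (m : M),
      FreeAlgebra.ι k x • (algebraMap k (FreeAlgebra k X) c • m) =
        algebraMap k (FreeAlgebra k X) c • (FreeAlgebra.ι k x • m) := by
    intro x c M _ _ m
    rw [← mul_smul, ← mul_smul, Algebra.commutes]
  let T : X → Module.End k (Tw E G) := fun x =>
    { toFun := fun a => ⟨FreeAlgebra.ι k x • a.fst + l (ri (D0 x a.snd)), FreeAlgebra.ι k x • a.snd⟩
      map_add' := fun a b => by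
        apply Tw.ext'
        · change FreeAlgebra.ι k x • (a.fst + b.fst) + l (ri (D0 x (a.snd + b.snd))) =
            (FreeAlgebra.ι k x • a.fst + l (ri (D0 x a.snd))) +
              (FreeAlgebra.ι k x • b.fst + l (ri (D0 x b.snd)))
          have e : D0 x (a.snd + b.snd) = D0 x a.snd + D0 x b.snd := by
            simp only [D0, map_add, smul_add]
            abel
          rw [e, map_add, map_add, smul_add]
          abel
        · exact smul_add _ _ _
      map_smul' := fun c a => by
        apply Tw.ext'
        · change FreeAlgebra.ι k x • (c • a.fst) + l (ri (D0 x (c • a.snd))) =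
            c • (FreeAlgebra.ι k x • a.fst + l (ri (D0 x a.snd)))
          have e : D0 x (c • a.snd) = c • D0 x a.snd := by
            have e1 : FreeAlgebra.ι k x • (c • a.snd) = c • (FreeAlgebra.ι k x • a.snd) := sm x c _
            have e2 : FreeAlgebra.ι k x • (c • t a.snd) = c • (FreeAlgebra.ι k x • t a.snd) :=
              sm x c _
            simp only [D0, map_smul, e1, e2, smul_sub]
          have e3 : FreeAlgebra.ι k x • (c • a.fst) = c • (FreeAlgebra.ι k x • a.fst) := sm x c _
          rw [e, map_smul, map_smul, e3, smul_add]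
        · exact sm x c _ }
  let _ : Module (FreeAlgebra k X) (Tw E G) :=
    Module.compHom (Tw E G) (FreeAlgebra.lift k T).toRingHom
  have hT : ∀ x (a : Tw E G), FreeAlgebra.ι k x • a = T x a := by
    intro x a
    change (FreeAlgebra.lift k T (FreeAlgebra.ι k x)) a = T x a
    rw [FreeAlgebra.lift_ι_apply]
  have _ : IsScalarTower k (FreeAlgebra k X) (Tw E G) := by
    apply IsScalarTower.of_algebraMap_smul
    intro c a
    change (FreeAlgebra.lift k T (algebraMap k _ c)) a = c • a
    rw [AlgHom.commutes]
    rfl
  let iE : E →ₗ[FreeAlgebra k X] Tw E G := mkLin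
    { toFun := fun e => ⟨e, 0⟩
      map_add' := fun a b => by
        apply Tw.ext'
        · rfl
        · exact (add_zero (0 : G)).symm
      map_smul' := fun c a => by
        apply Tw.ext'
        · rfl
        · exact (smul_zero c).symm } (by
    intro x e
    rw [hT]
    apply Tw.ext'
    · change FreeAlgebra.ι k x • e = FreeAlgebra.ι k x • e + l (ri (D0 x 0))
      have e1 : D0 x 0 = 0 := by
        simp only [D0, map_zero, smul_zero, sub_zero]
      rw [e1, map_zero, map_zero, add_zero]
    · exact (smul_zero _).symm)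
  let pG : Tw E G →ₗ[FreeAlgebra k X] G := mkLin
    { toFun := fun a => a.snd
      map_add' := fun a b => rfl
      map_smul' := fun c a => rfl } (by
    intro x a
    rw [hT]
    rfl)
  have h1 : Function.Injective iE := fun a b hab => congrArg Tw.fst hab
  have h2 : Function.Surjective pG := fun g => ⟨⟨0, g⟩, rfl⟩
  have h3 : Function.Exact iE pG := by
    intro a
    constructor
    · intro ha
      have ha' : a.snd = 0 := ha
      exact ⟨a.fst, Tw.ext' rfl ha'.symm⟩
    · rintro ⟨e, rfl⟩
      rfl
  obtain ⟨s, hs⟩ := h (Tw E G) iE pG h1 h2 h3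
  have hs' : ∀ g, (s g).snd = g := fun g => LinearMap.congr_fun hs g
  let v : Tw E G →ₗ[FreeAlgebra k X] Y := mkLin
    { toFun := fun a => i (q a.fst) + t a.snd
      map_add' := fun a b => by
        change i (q (a.fst + b.fst)) + t (a.snd + b.snd) = _
        rw [map_add, map_add, map_add]
        abel
      map_smul' := fun c a => by
        change i (q (c • a.fst)) + t (c • a.snd) = c • (i (q a.fst) + t a.snd)
        have e1 : q (c • a.fst) = c • q a.fst := map_smul qk c a.fst
        have e2 : i (c • q a.fst) = c • i (q a.fst) := map_smul ik c _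
        rw [e1, e2, map_smul, smul_add] } (by
    intro x a
    rw [hT]
    change i (q (FreeAlgebra.ι k x • a.fst + l (ri (D0 x a.snd)))) + t (FreeAlgebra.ι k x • a.snd) =
      FreeAlgebra.ι k x • (i (q a.fst) + t a.snd)
    rw [map_add, map_add, hl', hD0, map_smul, map_smul, smul_add]
    simp only [D0]
    abel)
  refine ⟨v ∘ₗ s, ?_⟩
  ext g
  change p (i (q (s g).fst) + t (s g).snd) = g
  rw [map_add, hex.apply_apply_eq_zero, zero_add, ht', hs']

end free

end Pool.Agent.R924
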