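import Mathlib

set_option autoImplicit false

/-!
Functions on a Cantor cube which depend on finitely many coordinates.
-/

namespace Pool.Agent.R924

/-- The functions on a Cantor cube which depend on finitely many coordinates. -/
def FDs (ι k : Type) [Field k] : Subring ((ι → Bool) → k) where
  carrier := {f | ∃ s : Finset ι, ∀ x y : ι → Bool, (∀ i ∈ s, x i = y i) → f x = f y}
  one_mem' := ⟨∅, fun _ _ _ => rfl⟩
  zero_mem' := ⟨∅, fun _ _ _ => rfl⟩
  mul_mem' := by
    classical
    rintro f g ⟨s, hs⟩ ⟨t, ht⟩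
    refine ⟨s ∪ t, fun x y h => ?_⟩
    rw [Pi.mul_apply, Pi.mul_apply, hs x y fun i hi => h i (Finset.mem_union_left _ hi),
      ht x y fun i hi => h i (Finset.mem_union_right _ hi)]
  add_mem' := by
    classical
    rintro f g ⟨s, hs⟩ ⟨t, ht⟩
    refine ⟨s ∪ t, fun x y h => ?_⟩
    rw [Pi.add_apply, Pi.add_apply, hs x y fun i hi => h i (Finset.mem_union_left _ hi),
      ht x y fun i hi => h i (Finset.mem_union_right _ hi)]
  neg_mem' := by
    rintro f ⟨s, hs⟩
    exact ⟨s, fun x y h => by rw [Pi.neg_apply, Pi.neg_apply, hs x y h]⟩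

/-- The ring of functions on a Cantor cube which depend on finitely many coordinates. -/
def FD (ι k : Type) [Field k] : Type := FDs ι k

noncomputable instance (ι k : Type) [Field k] : CommRing (FD ι k) := inferInstanceAs (CommRing (FDs ι k))

/-- The constant functions. -/
noncomputable def cstF (ι k : Type) [Field k] : k →+* FD ι k where
  toFun c := (⟨fun _ => c, ∅, fun _ _ _ => rfl⟩ : FDs ι k)
  map_one' := rfl
  map_mul' _ _ := rfl
  map_zero' := rfl
  map_add' _ _ := rfl

noncomputable instance (ι k : Type) [Field k] : Algebra k (FD ι k) := (cstF ι k).toAlgebra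

variable {ι k : Type} [Field k]

namespace FD

lemma ext' {f g : FD ι k} (h : ∀ x, f.1 x = g.1 x) : f = g := Subtype.ext (funext h)

/-- A finite set of coordinates on which the function depends. -/
noncomputable def sp (f : FD ι k) : Finset ι := f.2.choose

lemma sp_spec (f : FD ι k) {x y : ι → Bool} (h : ∀ i ∈ sp f, x i = y i) : f.1 x = f.1 y :=
  f.2.choose_spec x y h

/-- The coordinates. -/
def xx (α : ι) : FD ι k :=
  ⟨fun x => if x α then 1 else 0, {α}, fun x y h => by
    have h1 := h α (Finset.mem_singleton_self α)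
    simp only [h1]⟩

lemma xx_apply (α : ι) (x : ι → Bool) : (xx α : FD ι k).1 x = if x α then 1 else 0 := rfl

/-- The evaluation at the origin. -/
noncomputable def ev₀ (ι k : Type) [Field k] : FD ι k →+* k where
  toFun f := f.1 fun _ => false
  map_one' := rfl
  map_mul' _ _ := rfl
  map_zero' := rfl
  map_add' _ _ := rfl

/-- The maximal ideal at the origin. -/
noncomputable def mm (ι k : Type) [Field k] : Ideal (FD ι k) := RingHom.ker (ev₀ ι k)

lemma xx_mem (α : ι) : (xx α : FD ι k) ∈ mm ι k := by
  change (xx α : FD ι k).1 (fun _ => false) = 0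
  rw [xx_apply]
  rfl

open Classical in
/-- Setting a coordinate equal to one. -/
noncomputable def rho (β : ι) : FD ι k →+* FD ι k where
  toFun f := ⟨fun x => f.1 (Function.update x β true), by
    refine ⟨sp f, fun x y h => sp_spec f fun i hi => ?_⟩
    by_cases hb : i = β
    · subst hb
      rw [Function.update_self, Function.update_self]
    · rw [Function.update_of_ne hb, Function.update_of_ne hb, h i hi]⟩
  map_one' := rfl
  map_mul' _ _ := rfl
  map_zero' := rfl
  map_add' _ _ := rfl

open Classical in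
lemma rho_apply (β : ι) (f : FD ι k) (x : ι → Bool) :
    (rho β f).1 x = f.1 (Function.update x β true) := rfl

lemma rho_of_notMem {β : ι} {f : FD ι k} (h : β ∉ sp f) : rho β f = f := by
  classical
  refine ext' fun x => ?_
  rw [rho_apply]
  refine sp_spec f fun i hi => ?_
  rw [Function.update_of_ne]
  rintro rfl
  exact h hi

lemma rho_self (β : ι) : rho β (xx β : FD ι k) = 1 := by
  classical
  refine ext' fun x => ?_
  rw [rho_apply, xx_apply, Function.update_self]
  rfl

lemma rho_of_ne {α β : ι} (h : α ≠ β) : rho β (xx α : FD ι k) = xx α := by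
  classical
  refine ext' fun x => ?_
  rw [rho_apply, xx_apply, xx_apply, Function.update_of_ne h]

/-- A function killed by a coordinate on which it does not depend is zero. -/
lemma eq_zero_of_mul {β : ι} {f : FD ι k} (h : β ∉ sp f) (h0 : xx β * f = 0) : f = 0 := by
  have h1 := congrArg (rho β) h0
  rwa [map_mul, rho_self, one_mul, rho_of_notMem h, map_zero] at h1

lemma eq_zero_of_infinite {T : Set ι} (hT : T.Infinite) {f : FD ι k}
    (h0 : ∀ α ∈ T, xx α * f = 0) : f = 0 := by
  obtain ⟨α, hα, hs⟩ := hT.exists_notMem_finset (sp f)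
  exact eq_zero_of_mul hs (h0 α hα)

lemma exists_unit_mem {b : FD ι k} (hb : b ∈ mm ι k) : ∃ u ∈ mm ι k, u * b = b := by
  classical
  refine ⟨⟨fun x => if ∀ i ∈ sp b, x i = false then 0 else 1, sp b, fun x y h => ?_⟩, ?_, ?_⟩
  · have : (∀ i ∈ sp b, x i = false) ↔ (∀ i ∈ sp b, y i = false) :=
      forall₂_congr fun i hi => by rw [h i hi]
    simp only [this]
  · change (if ∀ i ∈ sp b, (fun _ : ι => false) i = false then (0 : k) else 1) = 0
    rw [if_pos fun _ _ => rfl]
  · refine ext' fun x => ?_
    change (if ∀ i ∈ sp b, x i = false then (0 : k) else 1) * b.1 x = b.1 x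
    by_cases h : ∀ i ∈ sp b, x i = false
    · rw [if_pos h, zero_mul]
      have h1 : b.1 x = b.1 fun _ => false := sp_spec b h
      have h2 : (b.1 fun _ => false) = 0 := hb
      rw [h1, h2]
    · rw [if_neg h, one_mul]

/-- Homomorphisms from the maximal ideal are multiplications, if there are uncountably many
coordinates. -/
theorem hom_eq [Uncountable ι] (φ : mm ι k →ₗ[FD ι k] FD ι k) :
    ∃ c : FD ι k, ∀ m, φ m = c * m.1 := by
  classical
  let g : ι → FD ι k := fun α => φ ⟨xx α, xx_mem α⟩
  have hg : ∀ α β, xx β * g α = xx α * g β := by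
    intro α β
    have h1 : (xx β : FD ι k) • (⟨xx α, xx_mem α⟩ : mm ι k) =
        (xx α : FD ι k) • (⟨xx β, xx_mem β⟩ : mm ι k) := Subtype.ext (mul_comm _ _)
    have h2 := congrArg φ h1
    rwa [map_smul, map_smul] at h2
  obtain ⟨e⟩ : Nonempty (ℕ ↪ ι) := ⟨Infinite.natEmbedding ι⟩
  let T : Set ι := Set.range e
  have hT : T.Infinite := Set.infinite_range_of_injective e.injective
  let U : Set ι := T ∪ ⋃ n : ℕ, (sp (g (e n)) : Set ι)
  have hU : U.Countable := (Set.countable_range e).union
    (Set.countable_iUnion fun n => (sp (g (e n))).countable_toSet)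
  obtain ⟨β, hβ⟩ : ∃ β, β ∉ U := by
    by_contra hne
    push Not at hne
    have : U = Set.univ := Set.eq_univ_of_forall hne
    rw [this] at hU
    exact Set.not_countable_univ hU
  let c : FD ι k := rho β (g β)
  have hc : ∀ α ∈ T, g α = xx α * c := by
    rintro _ ⟨n, rfl⟩
    have h1 := congrArg (rho β) (hg (e n) β)
    have hne : e n ≠ β := fun h => hβ (Or.inl ⟨n, h⟩)
    have hns : β ∉ sp (g (e n)) := fun h => hβ (Or.inr (Set.mem_iUnion.2 ⟨n, h⟩))
    rw [map_mul, map_mul, rho_self, one_mul, rho_of_notMem hns, rho_of_ne hne] at h1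
    exact h1
  have hc' : ∀ γ, g γ = xx γ * c := by
    intro γ
    rw [← sub_eq_zero]
    refine eq_zero_of_infinite hT fun α hα => ?_
    rw [mul_sub, hg γ α, hc α hα]
    ring
  refine ⟨c, fun m => ?_⟩
  rw [← sub_eq_zero]
  refine eq_zero_of_infinite (Set.infinite_univ (α := ι)) fun γ _ => ?_
  have h1 : xx γ * φ m = m.1 * g γ := by
    have h2 : (xx γ : FD ι k) • m = m.1 • (⟨xx γ, xx_mem γ⟩ : mm ι k) := Subtype.ext (mul_comm _ _)
    have h3 := congrArg φ h2
    rwa [map_smul, map_smul] at h3
  rw [mul_sub, h1, hc']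
  ring

/-- The maximal ideal is not projective. -/
theorem no_section [Uncountable ι] (σ : mm ι k →ₗ[FD ι k] (mm ι k →₀ FD ι k))
    (hσ : ∀ m, Finsupp.linearCombination (FD ι k) (id : mm ι k → mm ι k) (σ m) = m) : False := by
  classical
  have h1 : ∀ i : mm ι k, ∃ c : FD ι k, ∀ m, σ m i = c * m.1 := fun i =>
    hom_eq ((Finsupp.lapply i).comp σ)
  choose c hc using h1
  have hfin : {i | c i ≠ 0}.Finite := by
    by_contra hinf
    obtain ⟨e⟩ : Nonempty (ℕ ↪ {i | c i ≠ 0}) :=
      ⟨@Infinite.natEmbedding _ (Set.infinite_coe_iff.2 hinf)⟩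
    let U : Set ι := ⋃ n : ℕ, (sp (c (e n)) : Set ι)
    have hU : U.Countable := Set.countable_iUnion fun n => (sp (c (e n))).countable_toSet
    obtain ⟨β, hβ⟩ : ∃ β, β ∉ U := by
      by_contra hne
      push Not at hne
      have : U = Set.univ := Set.eq_univ_of_forall hne
      rw [this] at hU
      exact Set.not_countable_univ hU
    have h2 : Set.range (fun n => (e n).1) ⊆ ((σ ⟨xx β, xx_mem β⟩).support : Set (mm ι k)) := by
      rintro _ ⟨n, rfl⟩
      rw [Finset.mem_coe, Finsupp.mem_support_iff, hc]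
      intro h0
      refine (e n).2 (eq_zero_of_mul (fun h => hβ (Set.mem_iUnion.2 ⟨n, h⟩)) ?_)
      rw [mul_comm]
      exact h0
    exact (Set.infinite_range_of_injective (fun a b h => e.injective (Subtype.ext h)))
      ((Finset.finite_toSet _).subset h2)
  let d : FD ι k := ∑ i ∈ hfin.toFinset, c i * i.1
  have hd : d ∈ mm ι k := Ideal.sum_mem _ fun i _ => Ideal.mul_mem_left _ _ i.2
  have hdm : ∀ m : mm ι k, d * m.1 = m.1 := by
    intro m
    have h2 := congrArg Subtype.val (hσ m)
    rw [Finsupp.linearCombination_apply, Finsupp.sum] at h2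
    have h3 : (σ m).support ⊆ hfin.toFinset := by
      intro i hi
      rw [Set.Finite.mem_toFinset]
      intro h0
      rw [Finsupp.mem_support_iff, hc, h0, zero_mul] at hi
      exact hi rfl
    rw [Finset.sum_subset h3 (fun i _ hi => by
      rw [Finsupp.notMem_support_iff.1 hi, zero_smul])] at h2
    rw [Finset.sum_mul]
    refine Eq.trans ?_ h2
    rw [AddSubmonoidClass.coe_finsetSum]
    refine Finset.sum_congr rfl fun i _ => ?_
    rw [hc]
    change _ = (c i * m.1) * i.1
    ring
  obtain ⟨β, hβ⟩ : ∃ β, β ∉ sp d := Infinite.exists_notMem_finset _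
  have h4 := congrArg (rho β) (hdm ⟨xx β, xx_mem β⟩)
  rw [map_mul, rho_self, mul_one, rho_of_notMem hβ] at h4
  rw [h4] at hd
  exact one_ne_zero hd

end FD

end Pool.Agent.R924
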