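import Pool.Agent.R924.H1
import Pool.Agent.R924.H2

set_option autoImplicit false

/-!
A quotient of a free algebra and a module which is cotorsion over the free algebra but not over the
quotient.
-/

namespace Pool.Agent.R924

open FD

set_option backward.isDefEq.respectTransparency false

lemma isFlat_residue (ι k : Type) [Field k] : IsFlat (FD ι k) (FD ι k ⧸ mm ι k) := by
  intro n r x h
  choose a ha using fun i => Submodule.Quotient.mk_surjective (mm ι k) (x i)
  have hb : ∑ i, r i * a i ∈ mm ι k := by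
    rw [← Submodule.Quotient.mk_eq_zero (mm ι k), ← h]
    refine (map_sum (mm ι k).mkQ _ _).trans (Finset.sum_congr rfl fun i _ => ?_)
    rw [← ha i]
    rfl
  obtain ⟨u, hu, hub⟩ := exists_unit_mem hb
  refine ⟨1, fun i _ => a i * (1 - u), fun _ => Submodule.Quotient.mk 1, ?_, ?_⟩
  · intro i
    rw [Finset.univ_unique, Finset.sum_singleton, ← Submodule.Quotient.mk_smul, ← ha i,
      Submodule.Quotient.eq, smul_eq_mul]
    have : a i - a i * (1 - u) * 1 = a i * u := by ring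
    rw [this]
    exact Ideal.mul_mem_left _ _ hu
  · intro _
    have : ∀ i, r i * (a i * (1 - u)) = (r i * a i) * (1 - u) := fun i => by ring
    simp only [this]
    rw [← Finset.sum_mul, mul_sub, mul_one, mul_comm, hub, sub_self]

/-- Homomorphisms from an ideal extend if the extensions of the cyclic module split. -/
lemma extend_of_ext1Zero {A : Type} [CommRing A] {C : Type} [AddCommGroup C] [Module A C]
    (I : Ideal A) (h : Ext1Zero A (A ⧸ I) C) (φ : I →ₗ[A] C) :
    ∃ c : C, ∀ x : I, φ x = x.1 • c := by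
  let v : I →ₗ[A] C × A := LinearMap.prod φ (-I.subtype)
  let N : Submodule A (C × A) := LinearMap.range v
  let i : C →ₗ[A] (C × A) ⧸ N := N.mkQ ∘ₗ LinearMap.inl A C A
  have hN : N ≤ LinearMap.ker (I.mkQ ∘ₗ LinearMap.snd A C A) := by
    rintro _ ⟨x, rfl⟩
    change I.mkQ (-x.1) = 0
    exact (Submodule.Quotient.mk_eq_zero _).2 (I.neg_mem x.2)
  let p : ((C × A) ⧸ N) →ₗ[A] (A ⧸ I) := N.liftQ (I.mkQ ∘ₗ LinearMap.snd A C A) hN
  have hi : Function.Injective i := by
    rw [injective_iff_map_eq_zero]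
    intro c hc
    obtain ⟨x, hx⟩ : ((c, 0) : C × A) ∈ N := (Submodule.Quotient.mk_eq_zero _).1 hc
    have h1 : φ x = c := congrArg Prod.fst hx
    have h2 : -x.1 = 0 := congrArg Prod.snd hx
    have h3 : x = 0 := Subtype.ext (neg_eq_zero.1 h2)
    rw [← h1, h3, map_zero]
  have hp : Function.Surjective p := by
    intro y
    obtain ⟨a, rfl⟩ := I.mkQ_surjective y
    exact ⟨N.mkQ (0, a), rfl⟩
  have hex : Function.Exact i p := by
    intro y
    obtain ⟨⟨c, a⟩, rfl⟩ := N.mkQ_surjective y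
    constructor
    · intro hy
      have ha : a ∈ I := (Submodule.Quotient.mk_eq_zero _).1 hy
      refine ⟨c + φ ⟨a, ha⟩, ?_⟩
      change N.mkQ (c + φ ⟨a, ha⟩, 0) = N.mkQ (c, a)
      rw [← sub_eq_zero, ← map_sub]
      refine (Submodule.Quotient.mk_eq_zero _).2 ⟨⟨a, ha⟩, ?_⟩
      change (φ ⟨a, ha⟩, -a) = _
      apply Prod.ext
      · change _ = c + φ ⟨a, ha⟩ - c
        abel
      · exact (zero_sub a).symm
    · rintro ⟨c', hc'⟩
      rw [← hc']
      change I.mkQ 0 = 0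
      exact map_zero _
  obtain ⟨s, hs⟩ := h _ i p hi hp hex
  let w : A →ₗ[A] (C × A) ⧸ N := N.mkQ ∘ₗ LinearMap.inr A C A - s ∘ₗ I.mkQ
  have hw : ∀ a, p (w a) = 0 := by
    intro a
    change p (N.mkQ (0, a) - s (I.mkQ a)) = 0
    rw [map_sub]
    have h1 : p (s (I.mkQ a)) = I.mkQ a := LinearMap.congr_fun hs _
    rw [h1]
    exact sub_self _
  obtain ⟨c, hc⟩ := (hex (w 1)).1 (hw 1)
  refine ⟨c, fun x => ?_⟩
  apply hi
  rw [map_smul, hc, ← map_smul, smul_eq_mul, mul_one]
  change N.mkQ (φ x, 0) = N.mkQ (0, x.1) - s (I.mkQ x.1)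
  have h1 : I.mkQ x.1 = 0 := (Submodule.Quotient.mk_eq_zero _).2 x.2
  rw [h1, map_zero, sub_zero, ← sub_eq_zero, ← map_sub]
  refine (Submodule.Quotient.mk_eq_zero _).2 ⟨x, ?_⟩
  change (φ x, -x.1) = (φ x, (0 : A)) - (0, x.1)
  rw [Prod.mk_sub_mk, sub_zero, zero_sub]

/-- The quotient of an injective module by the relations of the maximal ideal is not cotorsion. -/
theorem not_ext1Zero (ι k : Type) [Field k] [Uncountable ι] {E : Type} [AddCommGroup E]
    [Module (FD ι k) E] (hE : Module.Injective (FD ι k) E)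
    (j : LinearMap.ker (Finsupp.linearCombination (FD ι k) (id : mm ι k → mm ι k)) →ₗ[FD ι k] E)
    (hj : Function.Injective j) :
    ¬ Ext1Zero (FD ι k) (FD ι k ⧸ mm ι k) (E ⧸ LinearMap.range j) := by
  intro h
  let π : (mm ι k →₀ FD ι k) →ₗ[FD ι k] mm ι k :=
    Finsupp.linearCombination (FD ι k) (id : mm ι k → mm ι k)
  let K := LinearMap.ker π
  have hπ : Function.Surjective π := Finsupp.linearCombination_id_surjective _ _
  obtain ⟨φ, hφ⟩ := hE.out (X := K) (Y := mm ι k →₀ FD ι k) K.subtype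
    (Submodule.injective_subtype K) j
  let eq : ((mm ι k →₀ FD ι k) ⧸ K) ≃ₗ[FD ι k] mm ι k := π.quotKerEquivOfSurjective hπ
  have hK1 : K ≤ LinearMap.ker ((LinearMap.range j).mkQ ∘ₗ φ) := by
    intro x hx
    change (LinearMap.range j).mkQ (φ x) = 0
    have h1 := hφ ⟨x, hx⟩
    rw [Submodule.subtype_apply] at h1
    rw [h1]
    exact (Submodule.Quotient.mk_eq_zero _).2 ⟨_, rfl⟩
  let φb : mm ι k →ₗ[FD ι k] E ⧸ LinearMap.range j :=
    (K.liftQ ((LinearMap.range j).mkQ ∘ₗ φ) hK1) ∘ₗ eq.symm.toLinearMap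
  have hφb : ∀ p, φb (π p) = (LinearMap.range j).mkQ (φ p) := by
    intro p
    have h1 : eq.symm (π p) = K.mkQ p := by
      rw [LinearEquiv.symm_apply_eq]
      rfl
    change K.liftQ _ hK1 (eq.symm (π p)) = _
    rw [h1]
    rfl
  obtain ⟨c, hc⟩ := extend_of_ext1Zero _ h φb
  obtain ⟨e, rfl⟩ := (LinearMap.range j).mkQ_surjective c
  let d : (mm ι k →₀ FD ι k) →ₗ[FD ι k] E :=
    φ - LinearMap.toSpanSingleton (FD ι k) E e ∘ₗ (mm ι k).subtype ∘ₗ π
  have hd : ∀ p, d p ∈ LinearMap.range j := by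
    intro p
    rw [← Submodule.Quotient.mk_eq_zero]
    change (LinearMap.range j).mkQ (φ p - (π p).1 • e) = 0
    rw [map_sub, map_smul, ← hφb, hc, sub_self]
  let r : (mm ι k →₀ FD ι k) →ₗ[FD ι k] K :=
    (LinearEquiv.ofInjective j hj).symm.toLinearMap ∘ₗ d.codRestrict (LinearMap.range j) hd
  have hr : ∀ x : K, r x = x := by
    intro x
    change (LinearEquiv.ofInjective j hj).symm _ = x
    rw [LinearEquiv.symm_apply_eq]
    apply Subtype.ext
    change φ x.1 - (π x.1).1 • e = j x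
    have h1 : π x.1 = 0 := x.2
    have h2 : φ x.1 = j x := hφ x
    rw [h1, h2]
    change j x - (0 : FD ι k) • e = j x
    rw [zero_smul, sub_zero]
  have hK2 : K ≤ LinearMap.ker (LinearMap.id - K.subtype ∘ₗ r) := by
    intro x hx
    change x - (r x).1 = 0
    rw [hr ⟨x, hx⟩, sub_self]
  let σ : mm ι k →ₗ[FD ι k] (mm ι k →₀ FD ι k) :=
    (K.liftQ (LinearMap.id - K.subtype ∘ₗ r) hK2) ∘ₗ eq.symm.toLinearMap
  refine no_section σ fun m => ?_
  obtain ⟨p, rfl⟩ := hπ m
  have h1 : eq.symm (π p) = K.mkQ p := by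
    rw [LinearEquiv.symm_apply_eq]
    rfl
  have h2 : σ (π p) = p - (r p).1 := by
    change K.liftQ _ hK2 (eq.symm (π p)) = _
    rw [h1]
    rfl
  change π (σ (π p)) = π p
  rw [h2, map_sub]
  have h3 : π (r p).1 = 0 := (r p).2
  rw [h3, sub_zero]

end Pool.Agent.R924
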