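import Mathlib

set_option autoImplicit false

/-!
The sequence ring: pairs `(d, g)` of sequences over a field, acting on `k²` at each `i` by the
lower triangular matrices with diagonal `d i, d (i+1)` and off-diagonal entry `g i`.
-/

namespace Pool.Agent.R924

open CategoryTheory

/-- Pairs of sequences. -/
@[ext] structure SR (k : Type) where
  /-- diagonal part -/
  d : ℕ → k
  /-- off-diagonal part -/
  g : ℕ → k

namespace SR

variable {k : Type} [Field k]

instance : Zero (SR k) := ⟨⟨0, 0⟩⟩
instance : One (SR k) := ⟨⟨1, 0⟩⟩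
instance : Add (SR k) := ⟨fun x y => ⟨x.d + y.d, x.g + y.g⟩⟩
instance : Neg (SR k) := ⟨fun x => ⟨-x.d, -x.g⟩⟩
instance : Mul (SR k) :=
  ⟨fun x y => ⟨fun i => x.d i * y.d i, fun i => x.g i * y.d i + x.d (i + 1) * y.g i⟩⟩

@[simp] theorem zero_d (i : ℕ) : (0 : SR k).d i = 0 := rfl
@[simp] theorem zero_g (i : ℕ) : (0 : SR k).g i = 0 := rfl
@[simp] theorem one_d (i : ℕ) : (1 : SR k).d i = 1 := rfl
@[simp] theorem one_g (i : ℕ) : (1 : SR k).g i = 0 := rfl
@[simp] theorem add_d (x y : SR k) (i : ℕ) : (x + y).d i = x.d i + y.d i := rfl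
@[simp] theorem add_g (x y : SR k) (i : ℕ) : (x + y).g i = x.g i + y.g i := rfl
@[simp] theorem neg_d (x : SR k) (i : ℕ) : (-x).d i = -x.d i := rfl
@[simp] theorem neg_g (x : SR k) (i : ℕ) : (-x).g i = -x.g i := rfl
@[simp] theorem mul_d (x y : SR k) (i : ℕ) : (x * y).d i = x.d i * y.d i := rfl
@[simp] theorem mul_g (x y : SR k) (i : ℕ) :
    (x * y).g i = x.g i * y.d i + x.d (i + 1) * y.g i := rfl

instance : Ring (SR k) where
  add_assoc x y z := by ext i <;> simp [add_assoc]
  zero_add x := by ext i <;> simp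
  add_zero x := by ext i <;> simp
  add_comm x y := by ext i <;> simp [add_comm]
  neg_add_cancel x := by ext i <;> simp
  mul_assoc x y z := by ext i <;> simp <;> ring
  one_mul x := by ext i <;> simp
  mul_one x := by ext i <;> simp
  zero_mul x := by ext i <;> simp
  mul_zero x := by ext i <;> simp
  left_distrib x y z := by ext i <;> simp <;> ring
  right_distrib x y z := by ext i <;> simp <;> ring
  nsmul := nsmulRec
  zsmul := zsmulRec

/-- The idempotents. -/
def e (i : ℕ) (c : k) : SR k := ⟨Pi.single i c, 0⟩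

/-- The arrows. -/
def a (i : ℕ) (c : k) : SR k := ⟨0, Pi.single i c⟩

@[simp] theorem e_d (i j : ℕ) (c : k) : (e i c).d j = Pi.single (M := fun _ => k) i c j := rfl
@[simp] theorem e_g (i j : ℕ) (c : k) : (e i c).g j = 0 := rfl
@[simp] theorem a_d (i j : ℕ) (c : k) : (a i c).d j = 0 := rfl
@[simp] theorem a_g (i j : ℕ) (c : k) : (a i c).g j = Pi.single (M := fun _ => k) i c j := rfl

/-- The simple module at `i`. -/
@[ext] structure Sm (k : Type) (i : ℕ) where
  /-- the value -/
  v : k

/-- The projective module at `i`. -/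
@[ext] structure Pm (k : Type) (i : ℕ) where
  /-- top -/
  t : k
  /-- socle -/
  s : k

instance (i : ℕ) : Zero (Sm k i) := ⟨⟨0⟩⟩
instance (i : ℕ) : Add (Sm k i) := ⟨fun x y => ⟨x.v + y.v⟩⟩
instance (i : ℕ) : Neg (Sm k i) := ⟨fun x => ⟨-x.v⟩⟩
instance (i : ℕ) : SMul (SR k) (Sm k i) := ⟨fun x c => ⟨x.d i * c.v⟩⟩
instance (i : ℕ) : Zero (Pm k i) := ⟨⟨0, 0⟩⟩
instance (i : ℕ) : Add (Pm k i) := ⟨fun x y => ⟨x.t + y.t, x.s + y.s⟩⟩
instance (i : ℕ) : Neg (Pm k i) := ⟨fun x => ⟨-x.t, -x.s⟩⟩
instance (i : ℕ) : SMul (SR k) (Pm k i) :=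
  ⟨fun x c => ⟨x.d i * c.t, x.g i * c.t + x.d (i + 1) * c.s⟩⟩

@[simp] theorem sm_zero {i : ℕ} : (0 : Sm k i).v = 0 := rfl
@[simp] theorem sm_add {i : ℕ} (x y : Sm k i) : (x + y).v = x.v + y.v := rfl
@[simp] theorem sm_neg {i : ℕ} (x : Sm k i) : (-x).v = -x.v := rfl
@[simp] theorem sm_smul {i : ℕ} (x : SR k) (c : Sm k i) : (x • c).v = x.d i * c.v := rfl
@[simp] theorem pm_zero_t {i : ℕ} : (0 : Pm k i).t = 0 := rfl
@[simp] theorem pm_zero_s {i : ℕ} : (0 : Pm k i).s = 0 := rfl
@[simp] theorem pm_add_t {i : ℕ} (x y : Pm k i) : (x + y).t = x.t + y.t := rfl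
@[simp] theorem pm_add_s {i : ℕ} (x y : Pm k i) : (x + y).s = x.s + y.s := rfl
@[simp] theorem pm_neg_t {i : ℕ} (x : Pm k i) : (-x).t = -x.t := rfl
@[simp] theorem pm_neg_s {i : ℕ} (x : Pm k i) : (-x).s = -x.s := rfl
@[simp] theorem pm_smul_t {i : ℕ} (x : SR k) (c : Pm k i) : (x • c).t = x.d i * c.t := rfl
@[simp] theorem pm_smul_s {i : ℕ} (x : SR k) (c : Pm k i) :
    (x • c).s = x.g i * c.t + x.d (i + 1) * c.s := rfl

instance (i : ℕ) : AddCommGroup (Sm k i) where
  add_assoc x y z := by ext; simp [add_assoc]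
  zero_add x := by ext; simp
  add_zero x := by ext; simp
  add_comm x y := by ext; simp [add_comm]
  neg_add_cancel x := by ext; simp
  nsmul := nsmulRec
  zsmul := zsmulRec

instance (i : ℕ) : AddCommGroup (Pm k i) where
  add_assoc x y z := by ext <;> simp [add_assoc]
  zero_add x := by ext <;> simp
  add_zero x := by ext <;> simp
  add_comm x y := by ext <;> simp [add_comm]
  neg_add_cancel x := by ext <;> simp
  nsmul := nsmulRec
  zsmul := zsmulRec

instance (i : ℕ) : Module (SR k) (Sm k i) where
  one_smul c := by ext; simp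
  mul_smul x y c := by ext; simp [mul_assoc]
  smul_zero x := by ext; simp
  smul_add x c c' := by ext; simp [mul_add]
  add_smul x y c := by ext; simp [add_mul]
  zero_smul c := by ext; simp

instance (i : ℕ) : Module (SR k) (Pm k i) where
  one_smul c := by ext <;> simp
  mul_smul x y c := by ext <;> simp <;> ring
  smul_zero x := by ext <;> simp
  smul_add x c c' := by ext <;> simp <;> ring
  add_smul x y c := by ext <;> simp <;> ring
  zero_smul c := by ext <;> simp

/-- The inclusion of the next simple module. -/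
def inc (i : ℕ) : Sm k (i + 1) →ₗ[SR k] Pm k i where
  toFun c := ⟨0, c.v⟩
  map_add' c c' := by ext <;> simp
  map_smul' x c := by ext <;> simp

/-- The projection to the simple module. -/
def prj (i : ℕ) : Pm k i →ₗ[SR k] Sm k i where
  toFun c := ⟨c.t⟩
  map_add' _ _ := rfl
  map_smul' _ _ := rfl

theorem inc_injective (i : ℕ) : Function.Injective (inc (k := k) i) := by
  intro x y h
  ext
  exact congrArg Pm.s h

theorem prj_surjective (i : ℕ) : Function.Surjective (prj (k := k) i) :=
  fun c => ⟨⟨c.v, 0⟩, rfl⟩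

theorem inc_prj_exact (i : ℕ) : Function.Exact (inc (k := k) i) (prj i) := by
  intro c
  constructor
  · intro h
    refine ⟨⟨c.s⟩, ?_⟩
    ext
    · exact (congrArg Sm.v h).symm
    · rfl
  · rintro ⟨y, rfl⟩
    rfl

/-- The projective module as a summand of the ring. -/
def secP (i : ℕ) : Pm k i →ₗ[SR k] SR k where
  toFun c := e i c.t + a i c.s
  map_add' c c' := by
    ext j <;> by_cases h : j = i <;> simp [h]
  map_smul' x c := by
    ext j
    · by_cases h : j = i
      · subst h; simp
      · simp [h]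
    · by_cases h : j = i
      · subst h; simp
      · simp [h]

/-- The retraction. -/
def retP (i : ℕ) : SR k →ₗ[SR k] Pm k i where
  toFun x := ⟨x.d i, x.g i⟩
  map_add' _ _ := rfl
  map_smul' _ _ := rfl

instance (i : ℕ) : Module.Projective (SR k) (Pm k i) := by
  refine Module.Projective.of_split (secP i) (retP i) ?_
  refine LinearMap.ext fun c => ?_
  change (⟨(e i c.t + a i c.s).d i, (e i c.t + a i c.s).g i⟩ : Pm k i) = c
  ext <;> simp

/-- The simple module at `0` is injective. -/
theorem injective_zero : Module.Injective (SR k) (Sm k 0) := by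
  apply Module.Baer.injective
  intro I g
  have he : ∀ x : SR k, e 0 1 * x = e 0 (x.d 0) := by
    intro x
    ext j
    · by_cases h : j = 0
      · subst h; simp
      · simp [h]
    · simp
  have hg : ∀ (x : SR k) (hx : x ∈ I) (hy : e 0 (x.d 0) ∈ I),
      g ⟨x, hx⟩ = g ⟨e 0 (x.d 0), hy⟩ := by
    intro x hx hy
    have h1 : (e 0 1 : SR k) • (⟨x, hx⟩ : I) = ⟨e 0 (x.d 0), hy⟩ := Subtype.ext (he x)
    rw [← h1, map_smul]
    ext
    simp
  by_cases h0 : (e 0 1 : SR k) ∈ I
  · refine ⟨{ toFun := fun r => r • g ⟨e 0 1, h0⟩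
              map_add' := fun r s => add_smul _ _ _
              map_smul' := fun r s => mul_smul _ _ _ }, ?_⟩
    intro x hx
    have hy : e 0 (x.d 0) ∈ I := by
      rw [← he x]
      exact I.mul_mem_left _ hx
    rw [hg x hx hy]
    have h1 : (e 0 (x.d 0) : SR k) • (⟨e 0 1, h0⟩ : I) = ⟨e 0 (x.d 0), hy⟩ := by
      apply Subtype.ext
      change e 0 (x.d 0) * e 0 1 = e 0 (x.d 0)
      ext j
      · by_cases h : j = 0
        · subst h; simp
        · simp [h]
      · simp
    rw [← h1, map_smul]
    ext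
    simp
  · refine ⟨0, ?_⟩
    intro x hx
    have hy : e 0 (x.d 0) ∈ I := by
      rw [← he x]
      exact I.mul_mem_left _ hx
    have hz : x.d 0 = 0 := by
      by_contra hne
      apply h0
      have h1 : (e 0 1 : SR k) = e 0 (x.d 0)⁻¹ * e 0 (x.d 0) := by
        ext j
        · by_cases h : j = 0
          · subst h; simp [hne]
          · simp [h]
        · simp
      rw [h1]
      exact I.mul_mem_left _ hy
    rw [hg x hx hy]
    have h1 : (⟨e 0 (x.d 0), hy⟩ : I) = 0 := by
      apply Subtype.ext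
      change e 0 (x.d 0) = 0
      rw [hz]
      ext j <;> simp
    rw [h1, map_zero, LinearMap.zero_apply]

/-- The first property of projective modules. -/
theorem eq_zero_of_proj {P : Type} [AddCommGroup P] [Module (SR k) P]
    (hP : Module.Projective (SR k) P) (x : P) (h1 : (e 0 1 : SR k) • x = x)
    (h2 : (a 0 1 : SR k) • x = 0) : x = 0 := by
  obtain ⟨s, hs⟩ := Module.projective_def'.1 hP
  have hsx : s x = 0 := by
    refine Finsupp.ext fun p => ?_
    have h3 : (e 0 1 : SR k) * s x p = s x p := by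
      have := congrArg (fun z => s z p) h1
      simpa using this
    have h4 : (a 0 1 : SR k) * s x p = 0 := by
      have := congrArg (fun z => s z p) h2
      simpa using this
    have h5 : (s x p).d 0 = 0 := by
      have := congrArg (fun z => SR.g z 0) h4
      simpa using this
    rw [← h3]
    ext j
    · by_cases h : j = 0
      · subst h; simp [h5]
      · simp [h]
    · simp
  have h6 := congrArg (fun f => f x) hs
  simp only [LinearMap.comp_apply, hsx, map_zero, LinearMap.id_apply] at h6
  exact h6.symm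

/-- The second property of projective modules. -/
theorem exists_of_proj {P : Type} [AddCommGroup P] [Module (SR k) P]
    (hP : Module.Projective (SR k) P) (i : ℕ) (x : P) (h1 : (e (i + 1) 1 : SR k) • x = x)
    (h2 : (a (i + 1) 1 : SR k) • x = 0) :
    ∃ y : P, (e i 1 : SR k) • y = y ∧ (a i 1 : SR k) • y = x := by
  obtain ⟨s, hs⟩ := Module.projective_def'.1 hP
  let φ : SR k → SR k := fun r => e i (r.g i)
  have hφ0 : φ 0 = 0 := by
    ext j <;> simp [φ]
  let y' : P →₀ SR k := Finsupp.mapRange φ hφ0 (s x)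
  have hy1 : (e i 1 : SR k) • y' = y' := by
    refine Finsupp.ext fun p => ?_
    change (e i 1 : SR k) * y' p = y' p
    simp only [y', Finsupp.mapRange_apply, φ]
    ext j
    · by_cases h : j = i
      · subst h; simp
      · simp [h]
    · simp
  have hy2 : (a i 1 : SR k) • y' = s x := by
    refine Finsupp.ext fun p => ?_
    change (a i 1 : SR k) * y' p = s x p
    have h3 : (e (i + 1) 1 : SR k) * s x p = s x p := by
      have := congrArg (fun z => s z p) h1
      simpa using this
    have h4 : (a (i + 1) 1 : SR k) * s x p = 0 := by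
      have := congrArg (fun z => s z p) h2
      simpa using this
    have h5 : (s x p).d (i + 1) = 0 := by
      have := congrArg (fun z => SR.g z (i + 1)) h4
      simpa using this
    rw [← h3]
    simp only [y', Finsupp.mapRange_apply, φ]
    ext j
    · by_cases h : j = i + 1
      · subst h; simp [h5]
      · simp [h]
    · by_cases h : j = i
      · subst h; simp
      · simp [h]
  have h6 : ∀ x, Finsupp.linearCombination (SR k) id (s x) = x := by
    intro x
    have := congrArg (fun f => f x) hs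
    simpa using this
  refine ⟨Finsupp.linearCombination (SR k) id y', ?_, ?_⟩
  · rw [← map_smul, hy1]
  · rw [← map_smul, hy2, h6]

end SR

end Pool.Agent.R924
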