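import Pool.Agent.R924.J1

set_option autoImplicit false

/-!
Relative dimensions of modules, and the dimensions of the simple module at `0` over the sequence
ring.
-/

namespace Pool.Agent.R924

open CategoryTheory Abelian

/-- `M` lies in `⊥𝒫`: `Extⁱ(M, P) = 0` for all `i ≥ 1` and all projective modules `P`. -/
def InPerpProj {R : Type} [Ring R] (M : ModuleCat.{0} R) : Prop :=
  ∀ P : ModuleCat.{0} R, Module.Projective R P → ∀ i : ℕ, 1 ≤ i → ∀ e : Ext M P i, e = 0

/-- There is an exact sequence `0 → T_n → ⋯ → T_1 → T_0 → A → 0` with all `T_i` in the class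
`C`. -/
def HasResolution {R : Type} [Ring R] (C : ModuleCat.{0} R → Prop) (A : ModuleCat.{0} R)
    (n : ℕ) : Prop :=
  ∃ (T : ℕ → ModuleCat.{0} R) (d : ∀ i, T (i + 1) →ₗ[R] T i) (ε : T 0 →ₗ[R] A),
    (∀ i, i ≤ n → C (T i)) ∧ (∀ i, n < i → Subsingleton (T i)) ∧
      Function.Surjective ε ∧ Function.Exact (d 0) ε ∧ ∀ i, Function.Exact (d (i + 1)) (d i)

/-- The dimension of `A` relative to the class `C`: the least length of a resolution as above,
`⊤` if there is none. -/
noncomputable def resDim {R : Type} [Ring R] (C : ModuleCat.{0} R → Prop)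
    (A : ModuleCat.{0} R) : ℕ∞ :=
  ⨅ (n : ℕ) (_ : HasResolution C A n), (n : ℕ∞)

/-- The class of projective modules. -/
def IsProj {R : Type} [Ring R] (M : ModuleCat.{0} R) : Prop := Module.Projective R M

/-- The short complex given by two linear maps. -/
def shc {R : Type} [Ring R] {X Y Z : Type} [AddCommGroup X] [Module R X] [AddCommGroup Y]
    [Module R Y] [AddCommGroup Z] [Module R Z] (f : X →ₗ[R] Y) (g : Y →ₗ[R] Z)
    (h : Function.Exact f g) : ShortComplex (ModuleCat.{0} R) where
  X₁ := ModuleCat.of R X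
  X₂ := ModuleCat.of R Y
  X₃ := ModuleCat.of R Z
  f := ModuleCat.ofHom f
  g := ModuleCat.ofHom g
  zero := by
    ext x
    exact h.apply_apply_eq_zero x

theorem shc_shortExact {R : Type} [Ring R] {X Y Z : Type} [AddCommGroup X] [Module R X]
    [AddCommGroup Y] [Module R Y] [AddCommGroup Z] [Module R Z] (f : X →ₗ[R] Y)
    (g : Y →ₗ[R] Z) (h : Function.Exact f g) (hf : Function.Injective f)
    (hg : Function.Surjective g) : (shc f g h).ShortExact where
  exact := (ShortComplex.ShortExact.moduleCat_exact_iff_function_exact _).2 h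
  mono_f := (ModuleCat.mono_iff_injective _).2 hf
  epi_g := (ModuleCat.epi_iff_surjective _).2 hg

theorem ker_exact {R : Type} [Ring R] {Y Z : Type} [AddCommGroup Y] [Module R Y]
    [AddCommGroup Z] [Module R Z] (g : Y →ₗ[R] Z) :
    Function.Exact (LinearMap.ker g).subtype g := by
  intro x
  constructor
  · intro hx
    exact ⟨⟨x, hx⟩, rfl⟩
  · rintro ⟨y, rfl⟩
    exact y.2

theorem ker_shortExact {R : Type} [Ring R] {Y Z : Type} [AddCommGroup Y] [Module R Y]
    [AddCommGroup Z] [Module R Z] (g : Y →ₗ[R] Z) (hg : Function.Surjective g) :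
    (shc (LinearMap.ker g).subtype g (ker_exact g)).ShortExact :=
  shc_shortExact _ g (ker_exact g) Subtype.val_injective hg

/-- The dimension relative to a class containing `A`. -/
theorem resDim_eq_zero {R : Type} [Ring R] {C : ModuleCat.{0} R → Prop} {A : ModuleCat.{0} R}
    (h : C A) : resDim C A = 0 := by
  rw [← le_zero_iff]
  refine iInf_le_of_le 0 (iInf_le_of_le ?_ le_rfl)
  refine ⟨fun i => match i with | 0 => A | _ + 1 => ModuleCat.of R PUnit, fun i => 0,
    LinearMap.id, ?_, ?_, fun x => ⟨x, rfl⟩, ?_, ?_⟩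
  · intro i hi
    obtain rfl : i = 0 := Nat.le_zero.1 hi
    exact h
  · intro i hi
    match i, hi with
    | i + 1, _ => exact inferInstanceAs (Subsingleton PUnit)
  · intro x
    constructor
    · intro hx
      exact ⟨0, by rw [LinearMap.zero_apply]; exact hx.symm⟩
    · rintro ⟨y, rfl⟩
      rfl
  · intro i x
    constructor
    · intro _
      exact ⟨0, Subsingleton.elim (α := PUnit) _ _⟩
    · rintro ⟨y, rfl⟩
      rfl

/-- A projective resolution of length `n` kills the higher `Ext`. -/
theorem ext_eq_zero_of_hasResolution {R : Type} [Ring R] :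
    ∀ (n : ℕ) (A : ModuleCat.{0} R), HasResolution IsProj A n →
      ∀ (X : ModuleCat.{0} R) (e : Ext A X (n + 1)), e = 0 := by
  intro n
  induction n with
  | zero =>
    rintro A ⟨T, d, ε, hC, hT, hε, hd, -⟩ X e
    have h0 : Function.Injective ε := by
      rw [injective_iff_map_eq_zero]
      intro x hx
      obtain ⟨y, rfl⟩ := (hd x).1 hx
      have := hT 1 Nat.zero_lt_one
      rw [Subsingleton.elim y 0, map_zero]
    have hp : Module.Projective R (T 0) := hC 0 le_rfl
    have : Module.Projective R A :=
      Module.Projective.of_equiv (LinearEquiv.ofBijective ε ⟨h0, hε⟩)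
    exact Ext.eq_zero_of_projective e
  | succ n ih =>
    rintro A ⟨T, d, ε, hC, hT, hε, hd, hdd⟩ X e
    let K : Submodule R (T 0) := LinearMap.ker ε
    have hK : Function.Exact K.subtype ε := by
      intro x
      constructor
      · intro hx
        exact ⟨⟨x, hx⟩, rfl⟩
      · rintro ⟨y, rfl⟩
        exact y.2
    have hS := shc_shortExact K.subtype ε hK Subtype.val_injective hε
    have hp : Module.Projective R (T 0) := hC 0 (Nat.zero_le _)
    have hp' : Projective (ModuleCat.of R (T 0)) := (IsProjective.iff_projective _).1 hp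
    have h1 : (Ext.mk₀ (shc K.subtype ε hK).g).comp e (zero_add (n + 1 + 1)) = 0 :=
      Ext.eq_zero_of_projective (P := ModuleCat.of R (T 0)) _
    obtain ⟨x, hx⟩ := Ext.contravariant_sequence_exact₃ hS X e h1 (add_comm 1 (n + 1))
    have hres : HasResolution IsProj (ModuleCat.of R K) n := by
      refine ⟨fun i => T (i + 1), fun i => d (i + 1), (d 0).codRestrict K
        (fun y => hd.apply_apply_eq_zero y), fun i hi => hC _ (by omega),
        fun i hi => hT _ (by omega), ?_, ?_, fun i => hdd (i + 1)⟩
      · rintro ⟨x, hx⟩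
        obtain ⟨y, rfl⟩ := (hd x).1 hx
        exact ⟨y, rfl⟩
      · intro y
        rw [← hdd 0 y]
        constructor
        · intro h
          exact congrArg Subtype.val h
        · intro h
          exact Subtype.ext h
    have hx0 : x = 0 := ih _ hres X x
    rw [← hx, hx0, Ext.comp_zero]
    rfl

/-- If all `Extⁱ(A, P)`, `i ≥ 0`, `P` projective, vanish and `Extⁿ(A, -) = 0` for some `n`, then
`A = 0`. -/
theorem eq_zero_of_ext {R : Type} [Ring R] (A : ModuleCat.{0} R)
    (h : ∀ P : ModuleCat.{0} R, Module.Projective R P → ∀ (i : ℕ) (e : Ext A P i), e = 0) :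
    ∀ n : ℕ, (∀ (X : ModuleCat.{0} R) (e : Ext A X n), e = 0) →
      ∀ (X : ModuleCat.{0} R) (e : Ext A X 0), e = 0 := by
  intro n
  induction n with
  | zero => exact fun h => h
  | succ n ih =>
    intro hn
    apply ih
    intro X e
    let g : (X →₀ R) →ₗ[R] X := Finsupp.linearCombination R id
    have hg : Function.Surjective g := fun x => ⟨Finsupp.single x 1, by simp [g]⟩
    have hS := ker_shortExact g hg
    have h1 : e.comp hS.extClass rfl = 0 := hn _ _
    obtain ⟨x, hx⟩ := Ext.covariant_sequence_exact₃ A hS e rfl h1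
    have hx0 : x = 0 := h (ModuleCat.of R (X →₀ R)) inferInstance n x
    rw [← hx, hx0, Ext.zero_comp]
    rfl

theorem eq_zero_of_hom {R : Type} [Ring R] (A : ModuleCat.{0} R)
    (h : ∀ (X : ModuleCat.{0} R) (e : Ext A X 0), e = 0) : Subsingleton A := by
  have h1 := h A (Ext.mk₀ (𝟙 A))
  have h2 : (𝟙 A : A ⟶ A) = 0 := by
    apply (Ext.mk₀_bijective A A).1
    rw [h1, Ext.mk₀_zero]
  constructor
  intro a b
  have h3 : ∀ x : A, x = 0 := fun x => by
    have := congrArg (fun f : A ⟶ A => f.hom x) h2
    simpa using this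
  rw [h3 a, h3 b]

namespace SR

variable {k : Type} [Field k]

theorem hom_proj (P : ModuleCat.{0} (SR k)) (hP : Module.Projective (SR k) P)
    (f : Sm k 0 →ₗ[SR k] P) : f = 0 := by
  refine LinearMap.ext fun c => ?_
  rw [LinearMap.zero_apply]
  apply eq_zero_of_proj hP
  · rw [← map_smul]
    congr 1
    ext
    simp
  · rw [← map_smul]
    have : (a 0 1 : SR k) • c = 0 := by
      ext
      simp
    rw [this, map_zero]

theorem ext_proj : ∀ (n i : ℕ) (P : ModuleCat.{0} (SR k)), Module.Projective (SR k) P →
    ∀ e : Ext (ModuleCat.of (SR k) (Sm k i)) P (n + 1), e = 0 := by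
  intro n
  induction n with
  | zero =>
    intro i P hP e
    have hS := shc_shortExact (inc (k := k) i) (prj i) (inc_prj_exact i) (inc_injective i)
      (prj_surjective i)
    have h1 : (Ext.mk₀ (shc (inc (k := k) i) (prj i) (inc_prj_exact i)).g).comp e
        (zero_add 1) = 0 :=
      Ext.eq_zero_of_projective (P := ModuleCat.of (SR k) (Pm k i)) _
    obtain ⟨x, hx⟩ := Ext.contravariant_sequence_exact₃ hS P e h1 (add_zero 1)
    obtain ⟨φ, rfl⟩ := (Ext.mk₀_bijective _ _).2 x
    let φ' : Sm k (i + 1) →ₗ[SR k] P := φ.hom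
    let c₀ : Sm k (i + 1) := ⟨1⟩
    let z : P := φ' c₀
    have hz1 : (SR.e (i + 1) 1 : SR k) • z = z := by
      rw [← map_smul]
      congr 1
      ext
      simp [c₀]
    have hz2 : (a (i + 1) 1 : SR k) • z = 0 := by
      rw [← map_smul]
      have : (a (i + 1) 1 : SR k) • c₀ = 0 := by
        ext
        simp
      rw [this, map_zero]
    obtain ⟨y, hy1, hy2⟩ := exists_of_proj hP i z hz1 hz2
    let ψ : Pm k i →ₗ[SR k] P :=
      { toFun := fun c => (SR.e i c.t + a i c.s) • y
        map_add' := fun c c' => by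
          rw [← add_smul]
          congr 1
          ext j <;> by_cases h : j = i <;> simp [h]
        map_smul' := fun r c => by
          rw [RingHom.id_apply, smul_smul]
          congr 1
          ext j
          · by_cases h : j = i
            · subst h; simp
            · simp [h]
          · by_cases h : j = i
            · subst h; simp
            · simp [h] }
    have hφ' : φ' = ψ ∘ₗ inc (k := k) i := by
      refine LinearMap.ext fun c => ?_
      change φ' c = (SR.e i 0 + a i c.v) • y
      have h2 : c = (SR.e (i + 1) c.v : SR k) • c₀ := by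
        ext
        simp [c₀]
      have h3 : φ' c = (SR.e (i + 1) c.v : SR k) • z := by
        conv_lhs => rw [h2]
        rw [map_smul]
      rw [h3, ← hy2, smul_smul]
      congr 1
      ext j
      · by_cases h : j = i + 1
        · subst h; simp
        · simp [h]
      · by_cases h : j = i
        · subst h; simp
        · simp [h]
    have hφ : φ = (shc (inc (k := k) i) (prj i) (inc_prj_exact i)).f ≫ ModuleCat.ofHom ψ := by
      apply ModuleCat.hom_ext
      exact hφ'
    rw [← hx, hφ, ← Ext.mk₀_comp_mk₀, hS.extClass_comp_assoc]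
    rfl
  | succ n ih =>
    intro i P hP e
    have hS := shc_shortExact (inc (k := k) i) (prj i) (inc_prj_exact i) (inc_injective i)
      (prj_surjective i)
    have h1 : (Ext.mk₀ (shc (inc (k := k) i) (prj i) (inc_prj_exact i)).g).comp e
        (zero_add (n + 1 + 1)) = 0 :=
      Ext.eq_zero_of_projective (P := ModuleCat.of (SR k) (Pm k i)) _
    obtain ⟨x, hx⟩ := Ext.contravariant_sequence_exact₃ hS P e h1 (add_comm 1 (n + 1))
    have hx0 : x = 0 := ih (i + 1) P hP x
    rw [← hx, hx0, Ext.comp_zero]
    rfl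

theorem ext_zero (P : ModuleCat.{0} (SR k)) (hP : Module.Projective (SR k) P) (n : ℕ)
    (e : Ext (ModuleCat.of (SR k) (Sm k 0)) P n) : e = 0 := by
  cases n with
  | zero =>
    obtain ⟨φ, rfl⟩ := (Ext.mk₀_bijective _ _).2 e
    have : φ = 0 := by
      ext c
      have := congrArg (fun f => f c) (hom_proj P hP φ.hom)
      exact this
    rw [this, Ext.mk₀_zero]
  | succ n => exact ext_proj n 0 P hP e

/-- Summary. -/
theorem dims : injectiveDimension (ModuleCat.of (SR k) (Sm k 0)) = 0 ∧
    projectiveDimension (ModuleCat.of (SR k) (Sm k 0)) = ⊤ ∧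
    resDim IsProj (ModuleCat.of (SR k) (Sm k 0)) = ⊤ ∧
    InPerpProj (ModuleCat.of (SR k) (Sm k 0)) ∧
    resDim InPerpProj (ModuleCat.of (SR k) (Sm k 0)) = 0 := by
  have hns : ¬ Subsingleton (Sm k 0) := fun h => by
    have := congrArg Sm.v (h.elim (⟨1⟩ : Sm k 0) ⟨0⟩)
    simp at this
  have hno : ∀ n : ℕ, ¬ ∀ (X : ModuleCat.{0} (SR k))
      (e : Ext (ModuleCat.of (SR k) (Sm k 0)) X n), e = 0 := fun n h =>
    hns (eq_zero_of_hom _ (eq_zero_of_ext _ (fun P hP i e => ext_zero P hP i e) n h))
  have hperp : InPerpProj (ModuleCat.of (SR k) (Sm k 0)) := fun P hP i _ e => ext_zero P hP i e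
  refine ⟨?_, ?_, ?_, hperp, resDim_eq_zero hperp⟩
  · have hinj : Injective (ModuleCat.of (SR k) (Sm k 0)) :=
      (Module.injective_iff_injective_object _ _).1 injective_zero
    apply le_antisymm
    · exact (injectiveDimension_le_iff _ 0).2 inferInstance
    · refine (injectiveDimension_ge_iff _ 0).2 ?_
      rw [hasInjectiveDimensionLT_zero_iff_isZero]
      intro h
      exact hns (ModuleCat.subsingleton_of_isZero h)
  · by_contra h
    obtain ⟨n, hn⟩ := (projectiveDimension_ne_top_iff _).1 h
    exact hno (n + 1) fun X e => Ext.eq_zero_of_hasProjectiveDimensionLT e (n + 1) le_rfl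
  · rw [eq_top_iff]
    refine le_iInf fun n => le_iInf fun h => ?_
    exact absurd (ext_eq_zero_of_hasResolution n _ h) (hno (n + 1))

end SR

end Pool.Agent.R924
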