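import Mathlib

set_option autoImplicit false

/-!
Closure systems: sets closed under finitary set-valued operations with small values.
-/

universe u

namespace Pool.Agent.R924.Fla

open Cardinal

section

variable {U : Type u} (op : U → U → List U → List U → Set U)

/-- Closed sets. -/
def Closed (M : Set U) : Prop :=
  ∀ a ∈ M, ∀ b ∈ M, ∀ v w : List U, (∀ x ∈ v, x ∈ M) → (∀ x ∈ w, x ∈ M) → op a b v w ⊆ M

/-- The closure of a set. -/
def cl (S : Set U) : Set U := ⋂₀ {M | Closed op M ∧ S ⊆ M}

theorem subset_cl (S : Set U) : S ⊆ cl op S := fun _ hx _ hM => hM.2 hx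

theorem closed_cl (S : Set U) : Closed op (cl op S) := by
  intro a ha b hb v w hv hw x hx M hM
  exact hM.1 a (ha M hM) b (hb M hM) v w (fun y hy => hv y hy M hM) (fun y hy => hw y hy M hM) hx

theorem cl_subset {S M : Set U} (hM : Closed op M) (h : S ⊆ M) : cl op S ⊆ M :=
  fun _ hx => hx M ⟨hM, h⟩

theorem cl_mono {S T : Set U} (h : S ⊆ T) : cl op S ⊆ cl op T :=
  cl_subset op (closed_cl op T) (h.trans (subset_cl op T))

theorem exists_index_list {ι : Type u} {N : ι → Set U} (hd : Directed (· ⊆ ·) N) (i₀ : ι) :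
    ∀ v : List U, (∀ x ∈ v, x ∈ ⋃ i, N i) → ∃ i, N i₀ ⊆ N i ∧ ∀ x ∈ v, x ∈ N i := by
  intro v
  induction v with
  | nil => exact fun _ => ⟨i₀, le_rfl, fun x hx => absurd hx (by simp)⟩
  | cons a v ih =>
    intro h
    obtain ⟨i, hi, hv⟩ := ih fun x hx => h x (List.mem_cons_of_mem _ hx)
    obtain ⟨j, hj⟩ := Set.mem_iUnion.1 (h a List.mem_cons_self)
    obtain ⟨k, hk1, hk2⟩ := hd i j
    refine ⟨k, hi.trans hk1, fun x hx => ?_⟩
    rcases List.mem_cons.1 hx with rfl | hx
    · exact hk2 hj
    · exact hk1 (hv x hx)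

theorem closed_iUnion {ι : Type u} {N : ι → Set U} (hd : Directed (· ⊆ ·) N)
    (hN : ∀ i, Closed op (N i)) : Closed op (⋃ i, N i) := by
  intro a ha b hb v w hv hw
  obtain ⟨i₀, _⟩ := Set.mem_iUnion.1 ha
  obtain ⟨i, -, hi⟩ := exists_index_list hd i₀ (a :: b :: (v ++ w)) (by
    intro x hx
    simp only [List.mem_cons, List.mem_append] at hx
    rcases hx with rfl | rfl | hx | hx
    · exact ha
    · exact hb
    · exact hv x hx
    · exact hw x hx)
  have h := hN i a (hi a (by simp)) b (hi b (by simp)) v w (fun x hx => hi x (by simp [hx]))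
    (fun x hx => hi x (by simp [hx]))
  exact h.trans (Set.subset_iUnion N i)

theorem mk_cl_le (lam : Cardinal.{u}) (hlam : ℵ₀ ≤ lam)
    (hop : ∀ a b v w, #(op a b v w) ≤ lam) (S : Set U) : #(cl op S) ≤ max #S lam := by
  set mu := max #S lam with hmu
  have hmu0 : ℵ₀ ≤ mu := hlam.trans (le_max_right _ _)
  let step : Set U → Set U := fun T =>
    T ∪ ⋃ p : (T × T) × (List T × List T),
      op p.1.1 p.1.2 (p.2.1.map Subtype.val) (p.2.2.map Subtype.val)
  have hstep : ∀ T : Set U, #T ≤ mu → #(step T) ≤ mu := by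
    intro T hT
    refine (mk_union_le _ _).trans (add_le_of_le hmu0 hT ?_)
    refine (mk_iUnion_le _).trans ?_
    have h1 : #((T × T) × (List T × List T)) ≤ mu := by
      have hl : #(List T) ≤ mu := (mk_list_le_max T).trans (max_le hmu0 hT)
      simp only [mk_prod, lift_id]
      exact mul_le_of_le hmu0 (mul_le_of_le hmu0 hT hT) (mul_le_of_le hmu0 hl hl)
    refine mul_le_of_le hmu0 h1 (ciSup_le' fun p => ?_)
    exact (hop _ _ _ _).trans (le_max_right _ _)
  let T : ℕ → Set U := fun n => step^[n] S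
  have hT : ∀ n, #(T n) ≤ mu := by
    intro n
    induction n with
    | zero => exact le_max_left _ _
    | succ n ih =>
      change #(step^[n + 1] S) ≤ mu
      rw [Function.iterate_succ_apply']
      exact hstep _ ih
  have hmono : ∀ n, T n ⊆ T (n + 1) := by
    intro n
    change T n ⊆ step^[n + 1] S
    rw [Function.iterate_succ_apply']
    exact Set.subset_union_left
  have hmono' : Monotone T := monotone_nat_of_le_succ hmono
  have hcl : Closed op (⋃ n, T n) := by
    intro a ha b hb v w hv hw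
    have key : ∀ v : List U, (∀ x ∈ v, x ∈ ⋃ n, T n) → ∃ n, ∀ x ∈ v, x ∈ T n := by
      intro v
      induction v with
      | nil => exact fun _ => ⟨0, fun x hx => absurd hx (by simp)⟩
      | cons a v ih =>
        intro h
        obtain ⟨n, hn⟩ := ih fun x hx => h x (List.mem_cons_of_mem _ hx)
        obtain ⟨m, hm⟩ := Set.mem_iUnion.1 (h a List.mem_cons_self)
        refine ⟨max n m, fun x hx => ?_⟩
        rcases List.mem_cons.1 hx with rfl | hx
        · exact hmono' (le_max_right _ _) hm
        · exact hmono' (le_max_left _ _) (hn x hx)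
    obtain ⟨n, hn⟩ := key (a :: b :: (v ++ w)) (by
      intro x hx
      simp only [List.mem_cons, List.mem_append] at hx
      rcases hx with rfl | rfl | hx | hx
      · exact ha
      · exact hb
      · exact hv x hx
      · exact hw x hx)
    refine Set.Subset.trans ?_ (Set.subset_iUnion T (n + 1))
    change _ ⊆ step^[n + 1] S
    rw [Function.iterate_succ_apply']
    refine Set.Subset.trans ?_ Set.subset_union_right
    have hvv : ∀ v : List U, (∀ x ∈ v, x ∈ T n) → ∃ v' : List (T n), v'.map Subtype.val = v := by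
      intro v hv
      exact ⟨v.attach.map fun x => ⟨x.1, hv x.1 x.2⟩, by simp⟩
    obtain ⟨v', hv'⟩ := hvv v fun x hx => hn x (by simp [hx])
    obtain ⟨w', hw'⟩ := hvv w fun x hx => hn x (by simp [hx])
    intro x hx
    refine Set.mem_iUnion.2 ⟨((⟨a, hn a (by simp)⟩, ⟨b, hn b (by simp)⟩), (v', w')), ?_⟩
    change x ∈ op a b (v'.map Subtype.val) (w'.map Subtype.val)
    rw [hv', hw']
    exact hx
  have hsub : cl op S ⊆ ⋃ n, T n := cl_subset op hcl (Set.subset_iUnion T 0)
  refine (mk_le_mk_of_subset hsub).trans ?_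
  have h2 : #(⋃ n, T n) ≤ #(⋃ n : ULift.{u} ℕ, T n.down) := by
    apply mk_le_mk_of_subset
    intro x hx
    obtain ⟨n, hn⟩ := Set.mem_iUnion.1 hx
    exact Set.mem_iUnion.2 ⟨⟨n⟩, hn⟩
  refine h2.trans ((mk_iUnion_le _).trans ?_)
  refine mul_le_of_le hmu0 ?_ (ciSup_le' fun n => hT n.down)
  rw [mk_uLift, mk_nat, lift_aleph0]
  exact hmu0

/-- Monotone families of closures along a union. -/
theorem cl_iUnion_subset {ι : Type u} {S : ι → Set U} (hd : Directed (· ⊆ ·) S) :
    cl op (⋃ i, S i) ⊆ ⋃ i, cl op (S i) := by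
  apply cl_subset
  · apply closed_iUnion
    · intro i j
      obtain ⟨k, hk1, hk2⟩ := hd i j
      exact ⟨k, cl_mono op hk1, cl_mono op hk2⟩
    · exact fun i => closed_cl op _
  · exact Set.iUnion_mono fun i => subset_cl op _

end

end Pool.Agent.R924.Fla
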