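import Pool.Agent.R924.K9

set_option autoImplicit false
set_option linter.unusedSectionVars false

/-!
The induction on the cardinality of closed substructures.
-/

universe u

namespace Pool.Agent.R924.Fla

open Finsupp CategoryTheory Abelian Cardinal

/-- Transfinite recursion with a coherence condition. -/
theorem trec {I : Type u} [LinearOrder I] [WellFoundedLT I] {X : Type u} [Inhabited X]
    (P : I → X → Prop) (Q : I → X → X → Prop)
    (step : ∀ (i : I) (g : I → X), (∀ j < i, P j (g j) ∧ ∀ k < j, Q k (g k) (g j)) →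
      ∃ x, P i x ∧ ∀ j < i, Q j (g j) x) :
    ∃ g : I → X, ∀ i, P i (g i) ∧ ∀ j < i, Q j (g j) (g i) := by
  classical
  let g : I → X := (wellFounded_lt (α := I)).fix fun i ih =>
    if h : ∃ x, P i x ∧ ∀ j (hj : j < i), Q j (ih j hj) x then Classical.choose h else default
  have hg : ∀ i, g i = if h : ∃ x, P i x ∧ ∀ j (_ : j < i), Q j (g j) x then
      Classical.choose h else default := by
    intro i
    have h1 := (wellFounded_lt (α := I)).fix_eq (C := fun _ => X) (fun i ih =>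
      if h : ∃ x, P i x ∧ ∀ j (hj : j < i), Q j (ih j hj) x then Classical.choose h
        else default) i
    exact h1
  refine ⟨g, fun i => ?_⟩
  induction i using (wellFounded_lt (α := I)).induction with
  | _ i ih =>
    have h := step i g ih
    rw [hg i, dif_pos h]
    exact Classical.choose_spec h

section

variable {R : Type u} [Ring R] {A : Type u} [Ring A] {f : R →+* A} {F : Type u}
  [AddCommGroup F] [Module A F] {D : Dat f F} {M N : Set (UU R A F)}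

theorem Clo.SA_mono (hN : Clo D N) (hM : Clo D M) (h : N ⊆ M) : hN.SA ≤ hM.SA := by
  rintro _ ⟨u, hu, rfl⟩
  exact ⟨u, h hu, rfl⟩

theorem Clo.FM_mono (hN : Clo D N) (hM : Clo D M) (h : N ⊆ M) : ∀ z ∈ hN.FM, z ∈ hM.FM := by
  rintro _ ⟨u, hu, rfl⟩
  exact ⟨u, h hu, rfl⟩

theorem Clo.ZM_mono (hN : Clo D N) (hM : Clo D M) (h : N ⊆ M) : ∀ z ∈ hN.ZM, z ∈ hM.ZM :=
  fun z hz => ⟨hN.FM_mono hM h z hz.1, hz.2⟩

/-- The first syzygy of the cycles. -/
def Clo.KK (hM : Clo D M) : Submodule hM.SA (F →₀ A) := Kr hM.SA (hM.ZM : Set F)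

theorem Clo.KK_mono (hN : Clo D N) (hM : Clo D M) (h : N ⊆ M) : ∀ k ∈ hN.KK, k ∈ hM.KK :=
  fun _ hk => Kr_mono (hN.SA_mono hM h) (hN.ZM_mono hM h) hk

theorem Clo.KKK_mono (hN : Clo D N) (hM : Clo D M) (h : N ⊆ M) {w : (F →₀ A) →₀ A}
    (hw : w ∈ Kr hN.SA (hN.KK : Set (F →₀ A))) : w ∈ Kr hM.SA (hM.KK : Set (F →₀ A)) :=
  Kr_mono (hN.SA_mono hM h) (hN.KK_mono hM h) hw

theorem Clo.kz_mem (hM : Clo D M) (v : List (UU R A F)) (hv : ∀ x ∈ v, x ∈ M) :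
    kz v ∈ PP hM.SA (hM.FM : Set F) := by
  unfold kz
  apply list_sum_mem
  intro x hx
  obtain ⟨u, hu, rfl⟩ := List.mem_map.1 hx
  exact single_mem_PP (show u.z ∈ (hM.FM : Set F) from ⟨u, hv u hu, rfl⟩)
    (show u.a ∈ hM.SA from ⟨u, hv u hu, rfl⟩)

theorem Clo.KK_iUnion {ι : Type u} [Nonempty ι] {N : ι → Set (UU R A F)}
    (hd : Directed (· ⊆ ·) N) (hN : ∀ i, Clo D (N i)) (hU : Clo D (⋃ i, N i)) {k : F →₀ A}
    (hk : k ∈ hU.KK) : ∃ i, k ∈ (hN i).KK := by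
  have h1 : k ∈ PP hU.SA (hU.FM : Set F) := ⟨hk.1.1, fun z hz => (hk.1.2 z hz).1⟩
  obtain ⟨v, hv, rfl⟩ := hU.exists_kz h1
  obtain ⟨i, -, hi⟩ := exists_index_list hd (Classical.arbitrary ι) v hv
  have h2 := (hN i).kz_mem v hi
  exact ⟨i, ⟨h2.1, fun z hz => ⟨h2.2 z hz, (hk.1.2 z hz).2⟩⟩, hk.2⟩

theorem Clo.KKK_iUnion {ι : Type u} [Nonempty ι] {N : ι → Set (UU R A F)}
    (hd : Directed (· ⊆ ·) N) (hN : ∀ i, Clo D (N i)) (hU : Clo D (⋃ i, N i))
    {w : (F →₀ A) →₀ A} (hw : w ∈ Kr hU.SA (hU.KK : Set (F →₀ A))) :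
    ∃ i, w ∈ Kr (hN i).SA ((hN i).KK : Set (F →₀ A)) := by
  classical
  have h1 : ∀ k, ∃ i, w k ∈ (hN i).SA ∧ (w k ≠ 0 → k ∈ (hN i).KK) := by
    intro k
    obtain ⟨u, hu, hk⟩ := hw.1.1 k
    obtain ⟨i, hi⟩ := Set.mem_iUnion.1 hu
    by_cases hk0 : w k = 0
    · exact ⟨i, ⟨u, hi, hk⟩, fun h => absurd hk0 h⟩
    · obtain ⟨j, hj⟩ := Clo.KK_iUnion hd hN hU (hw.1.2 k hk0)
      obtain ⟨l, h1, h2⟩ := hd i j
      exact ⟨l, ⟨u, h1 hi, hk⟩, fun _ => (hN j).KK_mono (hN l) h2 _ hj⟩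
  choose i hi using h1
  obtain ⟨z, hz⟩ := hd.finset_le (w.support.image i)
  have hz' : ∀ k, w k ≠ 0 → N (i k) ⊆ N z := fun k hk =>
    hz _ (Finset.mem_image_of_mem i (Finsupp.mem_support_iff.2 hk))
  refine ⟨z, ⟨fun k => ?_, fun k hk => ?_⟩, hw.2⟩
  · by_cases hk : w k = 0
    · rw [hk]
      exact (hN z).SA.zero_mem
    · exact (hN _).SA_mono (hN z) (hz' k hk) (hi k).1
  · exact (hN _).KK_mono (hN z) (hz' k hk) _ ((hi k).2 hk)

/-- Gluing along a directed union. -/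
theorem glue {ι : Type u} [Nonempty ι] {N : ι → Set (UU R A F)} (hd : Directed (· ⊆ ·) N)
    (hN : ∀ i, Clo D (N i)) (hU : Clo D (⋃ i, N i)) {C : Type u} [AddCommGroup C] [Module A C]
    (φ : ((F →₀ A) →₀ A) → C) (G : ι → (F →₀ A) → C)
    (hgood : ∀ i, ∀ w ∈ Kr (hN i).SA ((hN i).KK : Set (F →₀ A)),
      φ w = linearCombination A (G i) w)
    (hag : ∀ i j, N i ⊆ N j → ∀ k ∈ (hN i).KK, G j k = G i k) :
    ∃ g : (F →₀ A) → C, (∀ w ∈ Kr hU.SA (hU.KK : Set (F →₀ A)),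
      φ w = linearCombination A g w) ∧ ∀ i, ∀ k ∈ (hN i).KK, g k = G i k := by
  classical
  let g : (F →₀ A) → C := fun k => if h : ∃ i, k ∈ (hN i).KK then G (Classical.choose h) k else 0
  have hg : ∀ i, ∀ k ∈ (hN i).KK, g k = G i k := by
    intro i k hk
    have h : ∃ i, k ∈ (hN i).KK := ⟨i, hk⟩
    have h0 : g k = G (Classical.choose h) k := dif_pos h
    obtain ⟨l, h1, h2⟩ := hd i (Classical.choose h)
    rw [h0, ← hag i l h1 k hk, ← hag _ l h2 k (Classical.choose_spec h)]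
  refine ⟨g, fun w hw => ?_, hg⟩
  obtain ⟨i, hi⟩ := Clo.KKK_iUnion hd hN hU hw
  rw [hgood i w hi]
  exact lc_congr fun k hk => (hg i k (hi.1.2 k hk)).symm

variable (C : ModuleCat.{u} A) (hC : IsCot R ((ModuleCat.restrictScalars f).obj C))

include hC

theorem exF (hM : Clo D M) : Ex hM.SA (hM.FM : Set F) C :=
  fun φ hφ => exF_aux hM C hC φ hφ

theorem exZ_of (hM : Clo D M) (h : Ex hM.SA (hM.KK : Set (F →₀ A)) C) :
    Ex hM.SA (hM.ZM : Set F) C := by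
  refine Ex.shift D.d D.sig hM.FM hM.ZM ?_ (fun x hx => hx.2) (fun x hx => hx.1)
    (fun x hx h0 => ⟨hx, h0⟩) ?_ D.sig_zero (exF C hC hM) h
  · rintro _ ⟨u, hu, rfl⟩
    exact ⟨⟨_, hM.fd hu, rfl⟩, (D.hd _).2 ⟨_, rfl⟩⟩
  · rintro z ⟨⟨u, hu, rfl⟩, hz⟩
    exact ⟨⟨_, hM.sig hu, rfl⟩, D.sig_spec hz⟩

omit hC in
theorem exKK_countable (hM : Clo D M) (hc : M.Countable) :
    Ex hM.SA (hM.KK : Set (F →₀ A)) C := by
  refine Ex.countable hM.ZM ?_ ?_ C
  · have : Countable M := hc.to_subtype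
    refine (Set.countable_range fun v : List M => kz (v.map Subtype.val)).mono ?_
    intro k hk
    have h1 : k ∈ PP hM.SA (hM.FM : Set F) := ⟨hk.1.1, fun z hz => (hk.1.2 z hz).1⟩
    obtain ⟨v, hv, rfl⟩ := hM.exists_kz h1
    refine ⟨v.attach.map fun x => ⟨x.1, hv x.1 x.2⟩, ?_⟩
    simp
  · intro k hk
    obtain ⟨-, h2⟩ := D.thZ_spec k
    obtain ⟨h3, h4⟩ := h2 (fun z hz => (hk.1.2 z hz).2) hk.2
    have h1 : k ∈ PP hM.SA (hM.FM : Set F) := ⟨hk.1.1, fun z hz => (hk.1.2 z hz).1⟩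
    refine ⟨D.thZ k, fun x => ?_, h4⟩
    have h5 := hM.thZ_mem h1 x
    exact ⟨⟨h5.1, fun z hz => ⟨h5.2 z hz, (h3 x).1 z hz⟩⟩, (h3 x).2⟩

theorem chain (hM : Clo D M) (hunc : ℵ₀ < #M)
    (IH : ∀ (N : Set (UU R A F)) (hN : Clo D N), #N < #M →
      Ex hN.SA (hN.KK : Set (F →₀ A)) C) : Ex hM.SA (hM.KK : Set (F →₀ A)) C := by
  classical
  intro φ hφ
  obtain ⟨u0, hu0⟩ := hM.ne
  let I := (#M).ord.ToType
  obtain ⟨e⟩ : Nonempty (I ≃ M) := Cardinal.eq.1 (mk_ord_toType _)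
  let S : I → Set (UU R A F) := fun i => insert u0 ((fun j => (e j : UU R A F)) '' Set.Iio i)
  let N : I → Set (UU R A F) := fun i => cl (opr D) (S i)
  have hN : ∀ i, Clo D (N i) := fun i =>
    ⟨⟨u0, subset_cl _ _ (Set.mem_insert _ _)⟩, closed_cl _ _⟩
  have hNM : ∀ i, N i ⊆ M := by
    intro i
    refine cl_subset _ hM.cl (Set.insert_subset hu0 ?_)
    rintro _ ⟨j, -, rfl⟩
    exact (e j).2
  have hmono : ∀ i j, i ≤ j → N i ⊆ N j := fun i j hij =>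
    cl_mono _ (Set.insert_subset_insert (Set.image_mono (Set.Iio_subset_Iio hij)))
  have hcard : ∀ i, #(N i) < #M := by
    intro i
    refine (mk_cl_le (opr D) ℵ₀ le_rfl (fun a b v w => ?_) (S i)).trans_lt (max_lt ?_ hunc)
    · exact (countable_opr D a b v w).le_aleph0
    · refine mk_insert_le.trans_lt (add_lt_of_lt hunc.le ?_ (one_lt_aleph0.trans hunc))
      exact mk_image_le.trans_lt (mk_Iio_toType_ord_lt i)
  have hdir : Directed (· ⊆ ·) N := fun i j =>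
    ⟨max i j, hmono _ _ (le_max_left _ _), hmono _ _ (le_max_right _ _)⟩
  have hUM : ⋃ i, N i = M := by
    apply Set.Subset.antisymm (Set.iUnion_subset hNM)
    intro x hx
    have hlim : NoMaxOrder I := Cardinal.noMaxOrder hunc.le
    obtain ⟨i, hi⟩ := exists_gt (e.symm ⟨x, hx⟩)
    refine Set.mem_iUnion.2 ⟨i, subset_cl _ _ (Set.mem_insert_of_mem _ ⟨e.symm ⟨x, hx⟩, hi, ?_⟩)⟩
    simp
  have hneI : Nonempty I := ⟨e.symm ⟨u0, hu0⟩⟩
  have hPk : ∀ i, Ex (hN i).SA ((hN i).KK : Set (F →₀ A)) C := fun i => IH _ (hN i) (hcard i)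
  have hφi : ∀ (N' : Set (UU R A F)) (hN' : Clo D N'), N' ⊆ M →
      LinOn hN'.SA (Kr hN'.SA (hN'.KK : Set (F →₀ A))) φ := by
    intro N' hN' h a ha w hw w' hw'
    exact hφ a (hN'.SA_mono hM h ha) w (hN'.KKK_mono hM h hw) w' (hN'.KKK_mono hM h hw')
  have hinh : Inhabited ((F →₀ A) → C) := ⟨fun _ => 0⟩
  obtain ⟨G, hG⟩ := trec (I := I) (X := (F →₀ A) → C)
    (fun i g => ∀ w ∈ Kr (hN i).SA ((hN i).KK : Set (F →₀ A)), φ w = linearCombination A g w)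
    (fun i g g' => ∀ k ∈ (hN i).KK, g' k = g k) (by
    intro i g hg
    by_cases hi : Nonempty (Set.Iio i)
    · have hdi : Directed (· ⊆ ·) (fun j : Set.Iio i => N j) := fun a b =>
        ⟨max a b, hmono _ _ (le_max_left (a : I) b), hmono _ _ (le_max_right (a : I) b)⟩
      have hsub : (⋃ j : Set.Iio i, N j) ⊆ N i :=
        Set.iUnion_subset fun j => hmono _ _ (le_of_lt j.2)
      have hU : Clo D (⋃ j : Set.Iio i, N j) :=
        ⟨⟨u0, Set.mem_iUnion.2 ⟨Classical.arbitrary _, subset_cl _ _ (Set.mem_insert _ _)⟩⟩,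
          closed_iUnion _ hdi fun j => (hN j).cl⟩
      obtain ⟨g0, h1, h2⟩ := glue hdi (fun j => hN j) hU φ (fun j => g j)
        (fun j => (hg j j.2).1) (by
          rintro ⟨a, ha⟩ ⟨b, hb⟩ hab k hk
          rcases lt_trichotomy a b with h | h | h
          · exact (hg b hb).2 a h k hk
          · subst h
            rfl
          · exact ((hg a ha).2 b h k ((hN a).KK_mono (hN b) hab k hk)).symm)
      have hPz : Ex hU.SA (hU.ZM : Set F) C := exZ_of C hC hU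
        (IH _ hU ((mk_le_mk_of_subset hsub).trans_lt (hcard i)))
      obtain ⟨g', h3, h4⟩ := extend_step (hU.SA_mono (hN i) hsub) (hU.ZM_mono (hN i) hsub)
        hPz (hPk i) φ (hφi _ (hN i) (hNM i)) g0 h1
      refine ⟨g', h3, fun j hj k hk => ?_⟩
      rw [h4 k ((hN j).KK_mono hU (Set.subset_iUnion (fun j : Set.Iio i => N j) ⟨j, hj⟩) k hk),
        h2 ⟨j, hj⟩ k hk]
    · obtain ⟨g', h3⟩ := hPk i φ (hφi _ (hN i) (hNM i))
      exact ⟨g', h3, fun j hj => absurd ⟨⟨j, hj⟩⟩ hi⟩)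
  have hU : Clo D (⋃ i, N i) := hUM ▸ hM
  obtain ⟨g, h1, -⟩ := glue hdir hN hU φ G (fun i => (hG i).1) (by
    intro a b hab k hk
    rcases lt_trichotomy a b with h | h | h
    · exact (hG b).2 a h k hk
    · subst h
      rfl
    · exact ((hG a).2 b h k ((hN a).KK_mono (hN b) hab k hk)).symm)
  exact ⟨g, fun w hw => h1 w (hM.KKK_mono hU hUM.ge hw)⟩

theorem exKK_aux (c : Cardinal.{u}) : ∀ (M : Set (UU R A F)) (hM : Clo D M), #M = c →
    Ex hM.SA (hM.KK : Set (F →₀ A)) C := by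
  induction c using WellFoundedLT.induction with
  | _ c ih =>
    intro M hM hc
    by_cases h : #M ≤ ℵ₀
    · exact exKK_countable C hM (le_aleph0_iff_set_countable.1 h)
    · exact chain C hC hM (not_le.1 h) fun N hN hlt => ih _ (hc ▸ hlt) N hN rfl

theorem exZ (hM : Clo D M) : Ex hM.SA (hM.ZM : Set F) C :=
  exZ_of C hC hM (exKK_aux C hC _ M hM rfl)

omit hC

variable (D) in
theorem clo_univ : Clo D (Set.univ : Set (UU R A F)) := by
  refine ⟨?_, fun _ _ _ _ _ _ _ _ => Set.subset_univ _⟩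
  obtain ⟨j, -⟩ := exists_bound R (I := PEmpty) (by
    rw [mk_pempty]
    exact zero_le) (fun i => i.elim)
  have hL : IsFlat R ((Lam R →₀ R) ⧸ (⊤ : Submodule R (Lam R →₀ R))) := by
    intro n r x _
    refine ⟨0, fun _ i => i.elim0, fun i => i.elim0, fun i => ?_, fun i => i.elim0⟩
    exact Subsingleton.elim _ _
  exact ⟨⟨0, 0, 0, Gen.base 0, ⟨j, ⟨⊤, hL⟩, fun _ => 0, fun _ _ => 0, fun _ _ => Gen.base 0⟩,
    ([] : List R)⟩, trivial⟩

end

end Pool.Agent.R924.Fla
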