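import Pool.Agent.R924.K10

set_option autoImplicit false
set_option linter.unusedSectionVars false

/-!
From complexes to a single module with differential, and the periodicity theorem.
-/

universe u

namespace Pool.Agent.R924.Fla

open Finsupp CategoryTheory Abelian Cardinal

theorem isFlat_of' {S : Type u} [Ring S] {F : Type u} [AddCommGroup F] [Module S F]
    (h : ∀ (n : ℕ) (r : Fin n → S) (x : Fin n → F), ∑ i, r i • x i = 0 →
    ∃ (κ : Type) (_ : Fintype κ) (a : Fin n → κ → S) (y : κ → F),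
      (∀ i, x i = ∑ j, a i j • y j) ∧ ∀ j, ∑ i, r i * a i j = 0) : IsFlat S F := by
  intro n r x hx
  obtain ⟨κ, _, a, y, h1, h2⟩ := h n r x hx
  let e := (Fintype.equivFin κ).symm
  refine ⟨_, fun i j => a i (e j), fun j => y (e j), fun i => ?_, fun j => h2 _⟩
  rw [h1 i]
  exact (Equiv.sum_comp e fun j => a i j • y j).symm

section

variable {A : Type u} [Ring A] {F : ℤ → Type u} [∀ n, AddCommGroup (F n)] [∀ n, Module A (F n)]
  (d : ∀ n, F n →ₗ[A] F (n + 1))

/-- The total module. -/
abbrev FF (F : ℤ → Type u) [∀ n, AddCommGroup (F n)] : Type u := DirectSum ℤ F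

/-- The total differential. -/
noncomputable def dd : FF F →ₗ[A] FF F :=
  DirectSum.toModule A ℤ (FF F) fun n => (DirectSum.lof A ℤ F (n + 1)) ∘ₗ d n

theorem dd_lof (n : ℤ) (x : F n) :
    dd d (DirectSum.lof A ℤ F n x) = DirectSum.lof A ℤ F (n + 1) (d n x) := by
  unfold dd
  rw [DirectSum.toModule_lof]
  rfl

theorem dd_apply (x : FF F) (n : ℤ) : dd d x (n + 1) = d n (x n) := by
  have h : (DirectSum.component A ℤ F (n + 1)) ∘ₗ dd d = d n ∘ₗ DirectSum.component A ℤ F n := by
    apply DirectSum.linearMap_ext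
    intro i
    ext y
    change DirectSum.component A ℤ F (n + 1) (dd d (DirectSum.lof A ℤ F i y)) =
      d n (DirectSum.component A ℤ F n (DirectSum.lof A ℤ F i y))
    rw [dd_lof]
    by_cases hi : i = n
    · subst hi
      rw [DirectSum.component.lof_self, DirectSum.component.lof_self]
    · rw [DirectSum.component.of, DirectSum.component.of, dif_neg hi, dif_neg fun h => hi
        (add_right_cancel h), map_zero]
  exact congrArg (fun g => g x) h

theorem dd_eq_zero {x : FF F} : dd d x = 0 ↔ ∀ n, d n (x n) = 0 := by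
  constructor
  · intro h n
    rw [← dd_apply, h]
    rfl
  · intro h
    refine DFinsupp.ext fun m => ?_
    obtain ⟨n, rfl⟩ : ∃ n, m = n + 1 := ⟨m - 1, by omega⟩
    exact (dd_apply d x n).trans (h n)

theorem sum_lof (x : FF F) (s : Finset ℤ) (hs : ∀ n, x n ≠ 0 → n ∈ s) :
    x = ∑ n ∈ s, DirectSum.lof A ℤ F n (x n) := by
  classical
  refine DFinsupp.ext fun m => ?_
  have h1 : (∑ n ∈ s, DirectSum.lof A ℤ F n (x n)) m =
      ∑ n ∈ s, DirectSum.lof A ℤ F n (x n) m := by
    exact DFinsupp.finsetSum_apply s _ m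
  have h2 : ∀ n ∈ s, n ≠ m → DirectSum.lof A ℤ F n (x n) m = 0 := fun n _ hn =>
    DirectSum.of_eq_of_ne _ _ _ hn.symm
  have h3 : DirectSum.lof A ℤ F m (x m) m = x m := DirectSum.of_eq_same _ _
  rw [h1]
  by_cases hm : m ∈ s
  · rw [Finset.sum_eq_single_of_mem m hm h2, h3]
  · rw [Finset.sum_eq_zero fun n hn => h2 n hn fun h => hm (h ▸ hn)]
    by_contra hne
    exact hm (hs m hne)

theorem exists_supp (x : FF F) : ∃ s : Finset ℤ, ∀ n, x n ≠ 0 → n ∈ s := by
  classical
  exact ⟨DFinsupp.support x, fun n hn => DFinsupp.mem_support_iff.2 hn⟩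

theorem dd_exact (hex : ∀ n, Function.Exact (d n) (d (n + 1))) (x : FF F) :
    dd d x = 0 ↔ ∃ y, dd d y = x := by
  constructor
  · intro h
    rw [dd_eq_zero] at h
    change x ∈ LinearMap.range (dd d)
    obtain ⟨s, hs⟩ := exists_supp x
    rw [sum_lof (A := A) x s hs]
    refine Submodule.sum_mem _ fun m _ => ?_
    obtain ⟨n, rfl⟩ : ∃ n, m = n + 1 := ⟨m - 1, by omega⟩
    obtain ⟨y, hy⟩ := (hex n (x (n + 1))).1 (h (n + 1))
    exact ⟨DirectSum.lof A ℤ F n y, by rw [dd_lof, hy]⟩
  · rintro ⟨y, rfl⟩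
    rw [dd_eq_zero]
    intro m
    obtain ⟨n, rfl⟩ : ∃ n, m = n + 1 := ⟨m - 1, by omega⟩
    rw [dd_apply]
    exact (hex n).apply_apply_eq_zero (y n)

theorem dd_flat (hfl : ∀ n, IsFlat A (LinearMap.ker (d n))) : IsFlat A (LinearMap.ker (dd d)) := by
  classical
  apply isFlat_of'
  intro n r x hx
  have hker : ∀ i m, (x i : FF F) m ∈ LinearMap.ker (d m) := fun i m =>
    (dd_eq_zero d).1 (x i).2 m
  have hsum : ∀ m, ∑ i, r i • (⟨(x i : FF F) m, hker i m⟩ : LinearMap.ker (d m)) = 0 := by
    intro m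
    apply Subtype.ext
    have h1 : ∑ i, r i • (x i : FF F) = 0 := by
      have := congrArg Subtype.val hx
      rw [Submodule.coe_sum] at this
      exact this
    have h2 := congrArg (fun g => DirectSum.component A ℤ F m g) h1
    simp only [map_sum, map_smul, map_zero] at h2
    rw [Submodule.coe_sum]
    exact h2
  choose k a y h1 h2 using fun m => hfl m n r (fun i => ⟨(x i : FF F) m, hker i m⟩) (hsum m)
  choose s hs using fun i => exists_supp (x i : FF F)
  let t : Finset ℤ := Finset.univ.biUnion s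
  have ht : ∀ i m, (x i : FF F) m ≠ 0 → m ∈ t := fun i m hm =>
    Finset.mem_biUnion.2 ⟨i, Finset.mem_univ _, hs i m hm⟩
  refine ⟨Σ m : t, Fin (k m), inferInstance, fun i p => a p.1 i p.2, fun p =>
    ⟨DirectSum.lof A ℤ F p.1 (y p.1 p.2 : F p.1), ?_⟩, fun i => ?_, fun p => h2 p.1 p.2⟩
  · rw [LinearMap.mem_ker, dd_lof, (y p.1 p.2).2, map_zero]
  · apply Subtype.ext
    rw [Submodule.coe_sum, Fintype.sum_sigma, sum_lof (A := A) (x i : FF F) t (ht i),
      ← Finset.sum_coe_sort]
    refine Finset.sum_congr rfl fun m _ => ?_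
    have h3 := congrArg Subtype.val (h1 m i)
    change (x i : FF F) m = _ at h3
    rw [h3, Submodule.coe_sum, map_sum]
    refine Finset.sum_congr rfl fun j _ => ?_
    exact map_smul _ _ _

end

section

variable {R : Type u} [Ring R] {A : Type u} [Ring A] (f : R →+* A)

/-- Relatively flaprojective modules. -/
def Flaproj (F : ModuleCat.{u} A) : Prop :=
  ∀ C : ModuleCat.{u} A, IsCot R ((ModuleCat.restrictScalars f).obj C) → ∀ e : Ext F C 1, e = 0

variable {F : ℤ → Type u} [∀ n, AddCommGroup (F n)] [∀ n, Module A (F n)]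
  (d : ∀ n, F n →ₗ[A] F (n + 1))

theorem exists_split (hF : ∀ n, Flaproj f (ModuleCat.of A (F n))) :
    ∃ s : FF F →ₗ[A] GG (F := FF F) f, ∀ z, epsb (F := FF F) f (s z) = z := by
  choose ψ hψ using fun n => lift_of_ext (ker_exact (epsb (F := FF F) f)) Subtype.val_injective
    (epsb_surjective f) (hF n _ (isCot_ker f)) (DirectSum.lof A ℤ F n)
  refine ⟨DirectSum.toModule A ℤ _ ψ, fun z => ?_⟩
  have h : epsb (F := FF F) f ∘ₗ DirectSum.toModule A ℤ _ ψ = LinearMap.id := by
    apply DirectSum.linearMap_ext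
    intro i
    ext1 y
    change epsb (F := FF F) f (DirectSum.toModule A ℤ _ ψ (DirectSum.lof A ℤ F i y)) = _
    rw [DirectSum.toModule_lof]
    exact congrArg (fun g => g y) (hψ i)
  exact congrArg (fun g => g z) h

/-- The periodicity theorem, for sequences of modules. -/
theorem periodicity (hex : ∀ n, Function.Exact (d n) (d (n + 1)))
    (hF : ∀ n, Flaproj f (ModuleCat.of A (F n))) (hfl : ∀ n, IsFlat A (LinearMap.ker (d n)))
    (n : ℤ) : Flaproj f (ModuleCat.of A (LinearMap.ker (d n))) := by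
  classical
  intro C hC e
  obtain ⟨s, hs⟩ := exists_split f hF
  let D : Dat f (FF F) := ⟨dd d, dd_exact d hex, dd_flat d hfl, s, hs⟩
  have hM := clo_univ D
  obtain ⟨u0, -⟩ := hM.ne
  have hSA : ∀ a : A, a ∈ hM.SA := fun a =>
    ⟨⟨u0.r, a, u0.z, u0.x, u0.q, u0.y⟩, trivial, rfl⟩
  have hFM : ∀ z : FF F, z ∈ hM.FM := fun z =>
    ⟨⟨u0.r, u0.a, z, u0.x, u0.q, u0.y⟩, trivial, rfl⟩
  have hEx : Ex hM.SA (hM.ZM : Set (FF F)) C := exZ C hC hM
  let Z := LinearMap.ker (d n)
  let g : (Z →₀ A) →ₗ[A] Z := linearCombination A id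
  have hg : Function.Surjective g := fun z => ⟨single z 1, by
    change linearCombination A id (single z 1) = z
    rw [linearCombination_single, one_smul]
    rfl⟩
  refine ext_of_extend_ker g hg C inferInstance (fun φ => ?_) e
  let ρ : FF F → Z := fun x => if h : x n ∈ Z then ⟨x n, h⟩ else 0
  let ι : Z → FF F := fun z => DirectSum.lof A ℤ F n (z : F n)
  have hρι : ∀ z, ρ (ι z) = z := by
    intro z
    have h1 : (ι z) n = (z : F n) := DirectSum.of_eq_same _ _
    have h2 : (ι z) n ∈ Z := by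
      rw [h1]
      exact z.2
    have h3 : ρ (ι z) = ⟨(ι z) n, h2⟩ := dif_pos h2
    rw [h3]
    exact Subtype.ext h1
  have hρ : ∀ x ∈ hM.ZM, (ρ x : F n) = x n := by
    intro x hx
    have h2 : x n ∈ Z := (dd_eq_zero d).1 hx.2 n
    have h3 : ρ x = ⟨x n, h2⟩ := dif_pos h2
    rw [h3]
  let P : (FF F →₀ A) →ₗ[A] (Z →₀ A) := linearCombination A fun x => single (ρ x) 1
  let Q : (Z →₀ A) →ₗ[A] (FF F →₀ A) := linearCombination A fun z => single (ι z) 1
  have hP : ∀ w ∈ Kr hM.SA (hM.ZM : Set (FF F)), P w ∈ LinearMap.ker g := by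
    intro w hw
    rw [LinearMap.mem_ker]
    apply Subtype.ext
    change Submodule.subtype Z (linearCombination A id (linearCombination A _ w)) = 0
    rw [lc_comp, lc_comp]
    have h1 : linearCombination A (fun x : FF F => DirectSum.component A ℤ F n x) w = 0 := by
      rw [← lc_comp (DirectSum.component A ℤ F n) (fun x : FF F => x) w]
      have := hw.2
      change linearCombination A (fun x : FF F => x) w = 0 at this
      rw [this, map_zero]
    rw [← h1]
    refine lc_congr fun x hx => ?_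
    rw [linearCombination_single, one_smul]
    exact hρ x (hw.1.2 x hx)
  have hQ : ∀ l ∈ LinearMap.ker g, Q l ∈ Kr hM.SA (hM.ZM : Set (FF F)) := by
    intro l hl
    refine ⟨⟨fun y => hSA _, fun y hy => ⟨hFM _, ?_⟩⟩, ?_⟩
    · change (linearCombination A (fun z => single (ι z) (1 : A)) l) y ≠ 0 at hy
      rw [linearCombination_apply, Finsupp.sum, Finsupp.finsetSum_apply] at hy
      obtain ⟨z, -, hz⟩ := Finset.exists_ne_zero_of_sum_ne_zero hy
      have h1 : single (ι z) (1 : A) y ≠ 0 := by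
        intro h
        apply hz
        rw [Finsupp.smul_apply, h, smul_zero]
      rw [single_apply] at h1
      split_ifs at h1 with h2
      · rw [← h2]
        change dd d (DirectSum.lof A ℤ F n (z : F n)) = 0
        rw [dd_lof, z.2, map_zero]
      · exact absurd rfl h1
    · change linearCombination A id (linearCombination A _ l) = 0
      rw [lc_comp]
      have h1 : (DirectSum.lof A ℤ F n ∘ₗ Submodule.subtype Z) (g l) = 0 := by
        rw [LinearMap.mem_ker.1 hl, map_zero]
      rw [← h1]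
      change _ = (DirectSum.lof A ℤ F n ∘ₗ Submodule.subtype Z) (linearCombination A id l)
      rw [lc_comp]
      refine lc_congr fun z _ => ?_
      rw [linearCombination_single, one_smul]
      rfl
  have hPQ : ∀ l, P (Q l) = l := by
    intro l
    change P (linearCombination A _ l) = l
    rw [lc_comp]
    conv_rhs => rw [← lc_single l]
    refine lc_congr fun z _ => ?_
    change linearCombination A _ (single (ι z) 1) = _
    rw [linearCombination_single, one_smul, hρι]
  let Φ : (FF F →₀ A) → C := fun w => if h : P w ∈ LinearMap.ker g then φ ⟨P w, h⟩ else 0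
  have hΦ : ∀ w (h : P w ∈ LinearMap.ker g), Φ w = φ ⟨P w, h⟩ := fun w h => dif_pos h
  obtain ⟨g', hg'⟩ := hEx Φ (by
    intro a _ w hw w' hw'
    have h3 : P (a • w + w') ∈ LinearMap.ker g := by
      rw [map_add, map_smul]
      exact Submodule.add_mem _ (Submodule.smul_mem _ _ (hP w hw)) (hP w' hw')
    rw [hΦ _ h3, hΦ _ (hP w hw), hΦ _ (hP w' hw'), ← map_smul, ← map_add]
    congr 1
    apply Subtype.ext
    change P (a • w + w') = a • P w + P w'
    rw [map_add, map_smul])
  refine ⟨linearCombination A fun z => g' (ι z), fun l => ?_⟩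
  have h4 := hg' (Q l) (hQ _ l.2)
  have h5 : P (Q l) ∈ LinearMap.ker g := by
    rw [hPQ]
    exact l.2
  rw [hΦ _ h5] at h4
  have h6 : (⟨P (Q l), h5⟩ : LinearMap.ker g) = l := Subtype.ext (hPQ _)
  rw [h6] at h4
  rw [h4]
  change _ = linearCombination A g' (linearCombination A _ (l : Z →₀ A))
  rw [lc_comp]
  refine lc_congr fun z _ => ?_
  rw [linearCombination_single, one_smul]

end

end Pool.Agent.R924.Fla
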