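import Mathlib

set_option autoImplicit false

/-!
Flat modules over noncommutative rings, through the equational criterion.
-/

universe u

namespace Pool.Agent.R924.Fla

open Finsupp

/-- Flat left modules over an arbitrary ring (the equational criterion: every linear relation is a
consequence of relations in the ring). -/
def IsFlat (S : Type u) [Ring S] (F : Type u) [AddCommGroup F] [Module S F] : Prop :=
  ∀ (n : ℕ) (r : Fin n → S) (x : Fin n → F), ∑ i, r i • x i = 0 →
    ∃ (k : ℕ) (a : Fin n → Fin k → S) (y : Fin k → F),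
      (∀ i, x i = ∑ j, a i j • y j) ∧ ∀ j, ∑ i, r i * a i j = 0

section

variable {S : Type u} [Ring S] {F : Type u} [AddCommGroup F] [Module S F]

theorem IsFlat.fintype (hF : IsFlat S F) {ι : Type*} [Fintype ι] (r : ι → S) (x : ι → F)
    (h : ∑ i, r i • x i = 0) : ∃ (k : ℕ) (a : ι → Fin k → S) (y : Fin k → F),
      (∀ i, x i = ∑ j, a i j • y j) ∧ ∀ j, ∑ i, r i * a i j = 0 := by
  let e := (Fintype.equivFin ι).symm
  obtain ⟨k, a, y, h1, h2⟩ := hF _ (r ∘ e) (x ∘ e) (by
    rw [← h]
    exact Equiv.sum_comp e fun i => r i • x i)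
  refine ⟨k, fun i => a (e.symm i), y, fun i => ?_, fun j => ?_⟩
  · rw [← h1]
    simp
  · rw [← h2 j, ← Equiv.sum_comp e fun i => r i * a (e.symm i) j]
    simp

theorem isFlat_of (h : ∀ (n : ℕ) (r : Fin n → S) (x : Fin n → F), ∑ i, r i • x i = 0 →
    ∃ (κ : Type u) (_ : Fintype κ) (a : Fin n → κ → S) (y : κ → F),
      (∀ i, x i = ∑ j, a i j • y j) ∧ ∀ j, ∑ i, r i * a i j = 0) : IsFlat S F := by
  intro n r x hx
  obtain ⟨κ, _, a, y, h1, h2⟩ := h n r x hx
  let e := (Fintype.equivFin κ).symm
  refine ⟨_, fun i j => a i (e j), fun j => y (e j), fun i => ?_, fun j => h2 _⟩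
  rw [h1 i]
  exact (Equiv.sum_comp e fun j => a i j • y j).symm

theorem sum_support_eq {Y : Type u} (l : Y →₀ S) {V : Type*} [AddCommGroup V] [Module S V]
    (v : Y → V) : linearCombination S v l = ∑ i : l.support, l i • v i := by
  rw [linearCombination_apply, Finsupp.sum, ← Finset.sum_coe_sort]

open Classical in
/-- Villamayor's criterion, for a submodule of a module. -/
theorem IsFlat.theta {Z : Submodule S F} (hZ : IsFlat S Z) (k : F →₀ S)
    (hk : ∀ z, k z ≠ 0 → z ∈ Z) (hk0 : linearCombination S id k = 0) :
    ∃ θ : F → (F →₀ S), (∀ z, (∀ z', θ z z' ≠ 0 → z' ∈ Z) ∧ linearCombination S id (θ z) = 0) ∧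
      (∀ z, k z = 0 → θ z = 0) ∧ linearCombination S θ k = k := by
  have hmem : ∀ i : k.support, (i : F) ∈ Z := fun i => hk _ (Finsupp.mem_support_iff.1 i.2)
  obtain ⟨m, a, y, h1, h2⟩ := hZ.fintype (fun i : k.support => k i)
    (fun i => (⟨i, hmem i⟩ : Z)) (by
      apply Subtype.ext
      rw [sum_support_eq] at hk0
      rw [AddSubmonoidClass.coe_finsetSum]
      exact hk0)
  refine ⟨fun z => if h : z ∈ k.support then single z 1 - ∑ j, a ⟨z, h⟩ j • single (y j : F) 1
    else 0, fun z => ?_, fun z hz => ?_, ?_⟩
  · dsimp only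
    split_ifs with h
    · constructor
      · intro z' hz'
        by_contra hno
        apply hz'
        rw [Finsupp.sub_apply, Finsupp.finsetSum_apply]
        have e1 : (single z (1 : S)) z' = 0 := by
          rw [single_apply, if_neg]
          rintro rfl
          exact hno (hmem ⟨z, h⟩)
        rw [e1, zero_sub, neg_eq_zero]
        apply Finset.sum_eq_zero
        intro j _
        rw [Finsupp.smul_apply, single_apply, if_neg, smul_zero]
        rintro rfl
        exact hno (y j).2
      · rw [map_sub, map_sum, linearCombination_single, one_smul, id, sub_eq_zero]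
        have h3 := congrArg Subtype.val (h1 ⟨z, h⟩)
        rw [AddSubmonoidClass.coe_finsetSum] at h3
        refine h3.trans (Finset.sum_congr rfl fun j _ => ?_)
        rw [map_smul, linearCombination_single, one_smul]
        rfl
    · exact ⟨fun z' h' => absurd rfl h', map_zero _⟩
  · refine dif_neg ?_
    rw [Finsupp.mem_support_iff, not_not]
    exact hz
  · rw [sum_support_eq]
    have e1 : ∀ i : k.support, (k i • if h : (i : F) ∈ k.support then
        single (i : F) 1 - ∑ j, a ⟨i, h⟩ j • single (y j : F) (1 : S) else 0) =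
        single (i : F) (k i) - ∑ j, (k i * a i j) • single (y j : F) 1 := by
      intro i
      rw [dif_pos i.2, smul_sub, smul_single, smul_eq_mul, mul_one, Finset.smul_sum]
      congr 1
      refine Finset.sum_congr rfl fun j _ => ?_
      rw [smul_smul]
    rw [Finset.sum_congr rfl fun i _ => e1 i, Finset.sum_sub_distrib, Finset.sum_comm]
    have e2 : ∀ j, ∑ i : k.support, (k i * a i j) • single (y j : F) (1 : S) = 0 := by
      intro j
      rw [← Finset.sum_smul, h2 j, zero_smul]
    rw [Finset.sum_congr rfl fun j _ => e2 j, Finset.sum_const_zero, sub_zero]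
    rw [Finset.sum_coe_sort k.support fun i => single i (k i)]
    exact Finsupp.sum_single k

open Classical in
/-- Villamayor's criterion, for a flat quotient of a free module. -/
theorem IsFlat.theta_quot {Y : Type u} {L : Submodule S (Y →₀ S)}
    (hL : IsFlat S ((Y →₀ S) ⧸ L)) (l : Y →₀ S) (hl : l ∈ L) :
    ∃ θ : Y → (Y →₀ S), (∀ y, θ y ∈ L) ∧ (∀ y, l y = 0 → θ y = 0) ∧
      linearCombination S θ l = l := by
  obtain ⟨m, a, y, h1, h2⟩ := hL.fintype (fun i : l.support => l i)
    (fun i => L.mkQ (single (i : Y) 1)) (by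
      have h3 : l = ∑ i : l.support, l i • single (i : Y) (1 : S) := by
        conv_lhs => rw [← Finsupp.sum_single l, Finsupp.sum, ← Finset.sum_coe_sort]
        refine Finset.sum_congr rfl fun i _ => ?_
        rw [smul_single, smul_eq_mul, mul_one]
      have h4 : L.mkQ l = 0 := (Submodule.Quotient.mk_eq_zero L).2 hl
      rw [h3, map_sum] at h4
      rw [← h4]
      refine Finset.sum_congr rfl fun i _ => ?_
      rw [map_smul])
  choose y' hy' using fun j => Submodule.mkQ_surjective L (y j)
  refine ⟨fun z => if h : z ∈ l.support then single z 1 - ∑ j, a ⟨z, h⟩ j • y' j else 0,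
    fun z => ?_, fun z hz => ?_, ?_⟩
  · dsimp only
    split_ifs with h
    · rw [← Submodule.Quotient.mk_eq_zero L]
      change L.mkQ _ = 0
      rw [map_sub, map_sum, sub_eq_zero, h1 ⟨z, h⟩]
      refine Finset.sum_congr rfl fun j _ => ?_
      rw [map_smul, hy']
    · exact L.zero_mem
  · refine dif_neg ?_
    rw [Finsupp.mem_support_iff, not_not]
    exact hz
  · rw [sum_support_eq]
    have e1 : ∀ i : l.support, (l i • if h : (i : Y) ∈ l.support then
        single (i : Y) 1 - ∑ j, a ⟨i, h⟩ j • y' j else 0) =
        single (i : Y) (l i) - ∑ j, (l i * a i j) • y' j := by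
      intro i
      rw [dif_pos i.2, smul_sub, smul_single, smul_eq_mul, mul_one, Finset.smul_sum]
      congr 1
      refine Finset.sum_congr rfl fun j _ => ?_
      rw [smul_smul]
    rw [Finset.sum_congr rfl fun i _ => e1 i, Finset.sum_sub_distrib, Finset.sum_comm]
    have e2 : ∀ j, ∑ i : l.support, (l i * a i j) • y' j = 0 := by
      intro j
      rw [← Finset.sum_smul, h2 j, zero_smul]
    rw [Finset.sum_congr rfl fun j _ => e2 j, Finset.sum_const_zero, sub_zero]
    rw [Finset.sum_coe_sort l.support fun i => single i (l i)]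
    exact Finsupp.sum_single l

/-- The converse of Villamayor's criterion. -/
theorem isFlat_of_theta {Y : Type u} (L : Submodule S (Y →₀ S))
    (h : ∀ l ∈ L, ∃ θ : Y → (Y →₀ S), (∀ y, θ y ∈ L) ∧ linearCombination S θ l = l) :
    IsFlat S ((Y →₀ S) ⧸ L) := by
  classical
  apply isFlat_of
  intro n r x hx
  choose p hp using fun i => Submodule.mkQ_surjective L (x i)
  have hl : ∑ i, r i • p i ∈ L := by
    rw [← Submodule.Quotient.mk_eq_zero L]
    change L.mkQ _ = 0
    rw [map_sum, ← hx]
    refine Finset.sum_congr rfl fun i _ => ?_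
    rw [map_smul, hp]
  obtain ⟨θ, hθ, hθl⟩ := h _ hl
  have hΘ : ∀ w, linearCombination S θ w ∈ L := by
    intro w
    rw [linearCombination_apply]
    exact Submodule.sum_mem _ fun y _ => L.smul_mem _ (hθ y)
  let p' : Fin n → (Y →₀ S) := fun i => p i - linearCombination S θ (p i)
  have hp' : ∀ i, x i = L.mkQ (p' i) := by
    intro i
    have : L.mkQ (linearCombination S θ (p i)) = 0 :=
      (Submodule.Quotient.mk_eq_zero L).2 (hΘ _)
    rw [map_sub, this, sub_zero, hp]
  have hsum : ∑ i, r i • p' i = 0 := by
    have e1 : ∀ i, r i • p' i = r i • p i - linearCombination S θ (r i • p i) := by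
      intro i
      rw [map_smul, ← smul_sub]
    rw [Finset.sum_congr rfl fun i _ => e1 i, Finset.sum_sub_distrib, ← map_sum, hθl, sub_self]
  let T : Finset Y := Finset.univ.biUnion fun i => (p' i).support
  refine ⟨T, inferInstance, fun i y => p' i y, fun y => L.mkQ (single (y : Y) 1), fun i => ?_,
    fun y => ?_⟩
  · rw [hp' i]
    have e2 : p' i = ∑ y : T, p' i y • single (y : Y) (1 : S) := by
      rw [Finset.sum_coe_sort T fun y => p' i y • single y (1 : S)]
      conv_lhs => rw [← Finsupp.sum_single (p' i), Finsupp.sum]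
      rw [Finset.sum_congr rfl fun y _ => (by rw [smul_single, smul_eq_mul, mul_one] :
        p' i y • single y (1 : S) = single y (p' i y))]
      apply Finset.sum_subset
      · exact Finset.subset_biUnion_of_mem (fun i => (p' i).support) (Finset.mem_univ i)
      · intro y _ hy
        rw [Finsupp.mem_support_iff, not_not] at hy
        rw [hy, single_zero]
    conv_lhs => rw [e2, map_sum]
    refine Finset.sum_congr rfl fun y _ => ?_
    rw [map_smul]
  · have e3 := congrArg (fun w => w (y : Y)) hsum
    simp only [Finsupp.finsetSum_apply, Finsupp.smul_apply, smul_eq_mul,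
      Finsupp.coe_zero, Pi.zero_apply] at e3
    exact e3

end

end Pool.Agent.R924.Fla
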