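import Pool.Agent.R924.K1
import Pool.Agent.R924.K3

set_option autoImplicit false

/-!
Cotorsion modules are detected by flat modules of bounded cardinality.
-/

universe u

namespace Pool.Agent.R924.Fla

open Finsupp CategoryTheory Abelian Cardinal

theorem IsFlat.of_equiv {S : Type u} [Ring S] {F G : Type u} [AddCommGroup F] [Module S F]
    [AddCommGroup G] [Module S G] (e : F ≃ₗ[S] G) (hF : IsFlat S F) : IsFlat S G := by
  intro n r x hx
  obtain ⟨k, a, y, h1, h2⟩ := hF n r (fun i => e.symm (x i)) (by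
    rw [← map_zero e.symm, ← hx, map_sum]
    exact Finset.sum_congr rfl fun i _ => (map_smul e.symm _ _).symm)
  refine ⟨k, a, fun j => e (y j), fun i => ?_, h2⟩
  rw [← e.apply_symm_apply (x i), h1 i, map_sum]
  exact Finset.sum_congr rfl fun j _ => map_smul e _ _

theorem ker_exact {R : Type u} [Ring R] {Y Z : Type u} [AddCommGroup Y] [Module R Y]
    [AddCommGroup Z] [Module R Z] (g : Y →ₗ[R] Z) :
    Function.Exact (LinearMap.ker g).subtype g := by
  intro x
  constructor
  · intro hx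
    exact ⟨⟨x, hx⟩, rfl⟩
  · rintro ⟨y, rfl⟩
    exact y.2

theorem ext_of_extend_ker {R : Type u} [Ring R] {Y Z : Type u} [AddCommGroup Y] [Module R Y]
    [AddCommGroup Z] [Module R Z] (g : Y →ₗ[R] Z) (hg : Function.Surjective g)
    (C : ModuleCat.{u} R) (hY : Module.Projective R Y)
    (H : ∀ φ : LinearMap.ker g →ₗ[R] C, ∃ ψ : Y →ₗ[R] C, ∀ l : LinearMap.ker g, ψ l = φ l)
    (e : Ext (ModuleCat.of R Z) C 1) : e = 0 := by
  refine ext_of_extend (ker_exact g) Subtype.val_injective hg C hY (fun φ => ?_) e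
  obtain ⟨ψ, hψ⟩ := H φ
  exact ⟨ψ, LinearMap.ext hψ⟩

section

variable {R : Type u} [Ring R] {F : Type u} [AddCommGroup F] [Module R F]

/-- Index type for relations among the elements of a list. -/
def RelIx (R : Type u) [Ring R] {F : Type u} [AddCommGroup F] [Module R F] (v : List F) : Type u :=
  {p : Σ n : ℕ, (Fin n → R) × (Fin n → F) //
    List.ofFn p.2.2 = v ∧ ∑ i, p.2.1 i • p.2.2 i = 0}

/-- Index type for equations with right hand side `a`. -/
def SolIx (R : Type u) [Ring R] {F : Type u} [AddCommGroup F] [Module R F] (a : F) : Type u :=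
  {p : Σ n : ℕ, (Fin n → R) // ∃ x : Fin p.1 → F, ∑ i, p.2 i • x i = a}

omit [Ring R] in
theorem mk_sigma_le {lam : Cardinal.{u}} (hlam : ℵ₀ ≤ lam) (hR : #R ≤ lam) :
    #(Σ n : ℕ, (Fin n → R)) ≤ lam := by
  rw [← Cardinal.mk_congr (List.equivSigmaTuple (α := R))]
  exact (mk_list_le_max R).trans (max_le hlam hR)

theorem mk_relIx_le {lam : Cardinal.{u}} (hlam : ℵ₀ ≤ lam) (hR : #R ≤ lam) (v : List F) :
    #(RelIx R v) ≤ lam := by
  refine le_trans ?_ (mk_sigma_le hlam hR)
  refine mk_le_of_injective (f := fun p : RelIx R v => (⟨p.1.1, p.1.2.1⟩ : Σ n : ℕ, (Fin n → R)))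
    ?_
  rintro ⟨⟨n, r, x⟩, h1, h2⟩ ⟨⟨n', r', x'⟩, h1', h2'⟩ h
  obtain ⟨rfl, h3⟩ := Sigma.mk.inj_iff.1 h
  have h4 := eq_of_heq h3
  dsimp only at h4 h1 h1'
  subst h4
  have h5 : x = x' := List.ofFn_injective (h1.trans h1'.symm)
  subst h5
  rfl

theorem mk_solIx_le {lam : Cardinal.{u}} (hlam : ℵ₀ ≤ lam) (hR : #R ≤ lam) (a : F) :
    #(SolIx R a) ≤ lam :=
  (mk_le_of_injective (f := fun p : SolIx R a => p.1) Subtype.val_injective).trans
    (mk_sigma_le hlam hR)

/-- The chosen witnesses for a relation. -/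
noncomputable def relW (hF : IsFlat R F) (v : List F) (p : RelIx R v) : ℕ → F := fun j =>
  if h : j < Classical.choose (hF p.1.1 p.1.2.1 p.1.2.2 p.2.2) then
    Classical.choose (Classical.choose_spec (Classical.choose_spec
      (hF p.1.1 p.1.2.1 p.1.2.2 p.2.2))) ⟨j, h⟩ else 0

theorem relW_spec (hF : IsFlat R F) (n : ℕ) (r : Fin n → R) (x : Fin n → F)
    (h : ∑ i, r i • x i = 0) : ∃ (k : ℕ) (a : Fin n → Fin k → R),
      (∀ i, x i = ∑ j, a i j • relW hF (List.ofFn x) ⟨⟨n, r, x⟩, rfl, h⟩ j) ∧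
        ∀ j, ∑ i, r i * a i j = 0 := by
  refine ⟨_, Classical.choose (Classical.choose_spec (hF n r x h)), fun i => ?_,
    (Classical.choose_spec (Classical.choose_spec (Classical.choose_spec (hF n r x h)))).2⟩
  refine ((Classical.choose_spec (Classical.choose_spec
    (Classical.choose_spec (hF n r x h)))).1 i).trans ?_
  refine Finset.sum_congr rfl fun j _ => ?_
  unfold relW
  rw [dif_pos j.2]

/-- The chosen solutions of an equation. -/
noncomputable def solW (a : F) (p : SolIx R a) : ℕ → F := fun j =>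
  if h : j < p.1.1 then Classical.choose p.2 ⟨j, h⟩ else 0

/-- The closure operation for pure flat submodules. -/
def pop (hF : IsFlat R F) (a b : F) (v _w : List F) : Set F :=
  ({a + b} ∪ Set.range (fun r : R => r • a)) ∪
    ((⋃ p : RelIx R v, Set.range (relW hF v p)) ∪ ⋃ p : SolIx R a, Set.range (solW a p))

theorem mk_pop_le {lam : Cardinal.{u}} (hlam : ℵ₀ ≤ lam) (hR : #R ≤ lam) (hF : IsFlat R F)
    (a b : F) (v w : List F) : #(pop hF a b v w) ≤ lam := by
  have hc : ∀ g : ℕ → F, #(Set.range g) ≤ lam := by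
    intro g
    exact ((Set.countable_range g).le_aleph0).trans hlam
  refine (mk_union_le _ _).trans (add_le_of_le hlam ((mk_union_le _ _).trans
    (add_le_of_le hlam ?_ ?_)) ((mk_union_le _ _).trans (add_le_of_le hlam ?_ ?_)))
  · rw [mk_singleton]
    exact one_le_aleph0.trans hlam
  · exact mk_range_le.trans hR
  · exact (mk_iUnion_le _).trans (mul_le_of_le hlam (mk_relIx_le hlam hR v)
      (ciSup_le' fun p => hc _))
  · exact (mk_iUnion_le _).trans (mul_le_of_le hlam (mk_solIx_le hlam hR a)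
      (ciSup_le' fun p => hc _))

/-- Small pure submodules of flat modules. -/
theorem exists_pure {lam : Cardinal.{u}} (hlam : ℵ₀ ≤ lam) (hR : #R ≤ lam) (hF : IsFlat R F)
    (x₀ : F) : ∃ B : Submodule R F, x₀ ∈ B ∧ #B ≤ lam ∧ IsFlat R B ∧ IsFlat R (F ⧸ B) := by
  let M : Set F := cl (pop hF) {x₀}
  have hM : Closed (pop hF) M := closed_cl _ _
  have hx : x₀ ∈ M := subset_cl _ _ rfl
  have hadd : ∀ a ∈ M, ∀ b ∈ M, a + b ∈ M := fun a ha b hb =>
    hM a ha b hb [] [] (by simp) (by simp) (Or.inl (Or.inl rfl))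
  have hsmul : ∀ (r : R), ∀ a ∈ M, r • a ∈ M := fun r a ha =>
    hM a ha a ha [] [] (by simp) (by simp) (Or.inl (Or.inr ⟨r, rfl⟩))
  let B : Submodule R F :=
    { carrier := M
      add_mem' := fun {a b} ha hb => hadd a ha b hb
      zero_mem' := by
        have := hsmul 0 x₀ hx
        rwa [zero_smul] at this
      smul_mem' := fun r a ha => hsmul r a ha }
  refine ⟨B, hx, ?_, ?_, ?_⟩
  · refine (mk_cl_le (pop hF) lam hlam (mk_pop_le hlam hR hF) {x₀}).trans (max_le ?_ le_rfl)
    rw [mk_singleton]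
    exact one_le_aleph0.trans hlam
  · intro n r x hsum
    have h0 : ∑ i, r i • (x i : F) = 0 := by
      have := congrArg Subtype.val hsum
      rw [AddSubmonoidClass.coe_finsetSum] at this
      exact this
    obtain ⟨k, a, h1, h2⟩ := relW_spec hF n r (fun i => (x i : F)) h0
    have hmem : ∀ j, relW hF (List.ofFn fun i => (x i : F)) ⟨⟨n, r, fun i => (x i : F)⟩, rfl, h0⟩ j
        ∈ M := by
      intro j
      refine hM x₀ hx x₀ hx (List.ofFn fun i => (x i : F)) [] ?_ (by simp)
        (Or.inr (Or.inl (Set.mem_iUnion.2 ⟨_, ⟨j, rfl⟩⟩)))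
      intro y hy
      obtain ⟨i, rfl⟩ := (List.mem_ofFn' _ _).1 hy
      exact (x i).2
    refine ⟨k, a, fun j => ⟨_, hmem j⟩, fun i => ?_, h2⟩
    apply Subtype.ext
    rw [AddSubmonoidClass.coe_finsetSum]
    exact h1 i
  · intro n r x hsum
    choose p hp using fun i => Submodule.mkQ_surjective B (x i)
    have hb : ∑ i, r i • p i ∈ B := by
      rw [← Submodule.Quotient.mk_eq_zero B]
      change B.mkQ _ = 0
      rw [map_sum, ← hsum]
      refine Finset.sum_congr rfl fun i _ => ?_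
      rw [map_smul, hp]
    let q : SolIx R (∑ i, r i • p i) := ⟨⟨n, r⟩, ⟨p, rfl⟩⟩
    have hq : ∑ i : Fin n, r i • solW _ q i = ∑ i, r i • p i := by
      refine Eq.trans ?_ (Classical.choose_spec q.2)
      refine Finset.sum_congr rfl fun i _ => ?_
      unfold solW
      rw [dif_pos i.2]
    have hmem : ∀ j, solW _ q j ∈ B := fun j =>
      hM _ hb _ hb [] [] (by simp) (by simp)
        (Or.inr (Or.inr (Set.mem_iUnion.2 ⟨q, ⟨j, rfl⟩⟩)))
    obtain ⟨k, a, y, h1, h2⟩ := hF n r (fun i => p i - solW _ q i) (by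
      rw [Finset.sum_congr rfl fun i _ => smul_sub (r i) (p i) (solW _ q i),
        Finset.sum_sub_distrib, hq, sub_self])
    refine ⟨k, a, fun j => B.mkQ (y j), fun i => ?_, h2⟩
    have h3 : x i = B.mkQ (p i - solW _ q i) := by
      have : B.mkQ (solW _ q i) = 0 := (Submodule.Quotient.mk_eq_zero B).2 (hmem i)
      rw [map_sub, this, sub_zero, hp]
    rw [h3, h1 i, map_sum]
    refine Finset.sum_congr rfl fun j _ => ?_
    rw [map_smul]

end

/-- Detection of cotorsion modules by small free presentations. -/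
theorem isCot_of_small {R : Type u} [Ring R] {Λ : Type u} (hΛ : ℵ₀ ≤ #Λ) (hR : #R ≤ #Λ)
    (C : ModuleCat.{u} R)
    (H : ∀ L : Submodule R (Λ →₀ R), IsFlat R ((Λ →₀ R) ⧸ L) → ∀ h : L →ₗ[R] C,
      ∃ g : (Λ →₀ R) →ₗ[R] C, ∀ l : L, g l = h l) : IsCot R C := by
  classical
  -- small flat modules
  have h1 : ∀ (B : Type u) [AddCommGroup B] [Module R B], #B ≤ #Λ → IsFlat R B →
      ∀ e : Ext (ModuleCat.of R B) C 1, e = 0 := by
    intro B _ _ hB hBf
    obtain ⟨i⟩ := hB
    let s : Λ → B := Function.invFun i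
    have hs : Function.Surjective s := Function.invFun_surjective i.injective
    let π : (Λ →₀ R) →ₗ[R] B := linearCombination R s
    have hπ : Function.Surjective π := by
      intro b
      obtain ⟨l, rfl⟩ := hs b
      exact ⟨single l 1, by simp [π]⟩
    exact ext_of_extend_ker π hπ C inferInstance fun φ =>
      H (LinearMap.ker π) (hBf.of_equiv (π.quotKerEquivOfSurjective hπ).symm) φ
  intro G hG
  let P := G →₀ R
  let π : (G →₀ R) →ₗ[R] G := linearCombination R id
  have hπ : Function.Surjective π := fun b => ⟨single b 1, by simp [π]⟩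
  refine ext_of_extend_ker π hπ C inferInstance fun φ => ?_
  let f₀ : (G →₀ R) →ₗ.[R] C := ⟨LinearMap.ker π, φ⟩
  let s : Set ((G →₀ R) →ₗ.[R] C) := {f | f₀ ≤ f ∧ IsFlat R ((G →₀ R) ⧸ f.domain)}
  have hf₀ : f₀ ∈ s := ⟨le_rfl, hG.of_equiv (π.quotKerEquivOfSurjective hπ).symm⟩
  obtain ⟨m, -, hm⟩ := zorn_le_nonempty₀ s (by
    intro c hc hchain y hy
    have hdir : DirectedOn (· ≤ ·) c := hchain.directedOn
    refine ⟨LinearPMap.sSup c hdir, ⟨(hc hy).1.trans (LinearPMap.le_sSup hdir hy), ?_⟩,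
      fun z hz => LinearPMap.le_sSup hdir hz⟩
    have hdom : ∀ x, x ∈ (LinearPMap.sSup c hdir).domain ↔ ∃ f ∈ c, x ∈ f.domain := by
      intro x
      change x ∈ sSup (LinearPMap.domain '' c) ↔ _
      rw [Submodule.mem_sSup_of_directed]
      · simp
      · exact ⟨_, ⟨y, hy, rfl⟩⟩
      · exact hdir.mono_comp (fun _ _ h => h.1)
    intro n r x hsum
    choose p hp using fun i => Submodule.mkQ_surjective (LinearPMap.sSup c hdir).domain (x i)
    have hb : ∑ i, r i • p i ∈ (LinearPMap.sSup c hdir).domain := by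
      rw [← Submodule.Quotient.mk_eq_zero]
      change (LinearPMap.sSup c hdir).domain.mkQ _ = 0
      rw [map_sum, ← hsum]
      refine Finset.sum_congr rfl fun i _ => ?_
      rw [map_smul, hp]
    obtain ⟨f, hf, hbf⟩ := (hdom _).1 hb
    obtain ⟨k, a, y', h3, h4⟩ := (hc hf).2 n r (fun i => f.domain.mkQ (p i)) (by
      have h5 : f.domain.mkQ (∑ i, r i • p i) = 0 :=
        (Submodule.Quotient.mk_eq_zero f.domain).2 hbf
      rw [map_sum] at h5
      rw [← h5]
      refine Finset.sum_congr rfl fun i _ => ?_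
      rw [map_smul])
    choose q hq using fun j => Submodule.mkQ_surjective f.domain (y' j)
    refine ⟨k, a, fun j => (LinearPMap.sSup c hdir).domain.mkQ (q j), fun i => ?_, h4⟩
    rw [← hp i]
    have h6 : p i - ∑ j, a i j • q j ∈ f.domain := by
      rw [← Submodule.Quotient.mk_eq_zero]
      change f.domain.mkQ _ = 0
      rw [map_sub, h3 i, map_sum, sub_eq_zero]
      refine Finset.sum_congr rfl fun j _ => ?_
      rw [map_smul, hq]
    have h7 : p i - ∑ j, a i j • q j ∈ (LinearPMap.sSup c hdir).domain := (hdom _).2 ⟨f, hf, h6⟩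
    rw [← Submodule.Quotient.mk_eq_zero] at h7
    change (LinearPMap.sSup c hdir).domain.mkQ _ = 0 at h7
    rw [map_sub, map_sum, sub_eq_zero] at h7
    rw [h7]
    refine Finset.sum_congr rfl fun j _ => ?_
    rw [map_smul]) f₀ hf₀
  -- the maximal element is defined everywhere
  have htop : m.domain = ⊤ := by
    by_contra hne
    obtain ⟨p, hp⟩ : ∃ p, p ∉ m.domain := by
      by_contra h
      exact hne (eq_top_iff.2 fun x _ => not_not.1 fun hx => h ⟨x, hx⟩)
    obtain ⟨B, hB1, hB2, hB3, hB4⟩ := exists_pure hΛ hR hm.prop.2 (m.domain.mkQ p)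
    let P'' : Submodule R (G →₀ R) := B.comap m.domain.mkQ
    have hle : m.domain ≤ P'' := by
      intro x hx
      change m.domain.mkQ x ∈ B
      rw [show m.domain.mkQ x = 0 from (Submodule.Quotient.mk_eq_zero _).2 hx]
      exact B.zero_mem
    let i : m.domain →ₗ[R] P'' := Submodule.inclusion hle
    let g : P'' →ₗ[R] B := (m.domain.mkQ).restrict fun x hx => hx
    have hg : Function.Surjective g := by
      rintro ⟨b, hb⟩
      obtain ⟨x, rfl⟩ := Submodule.mkQ_surjective _ b
      exact ⟨⟨x, hb⟩, rfl⟩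
    have hig : Function.Exact i g := by
      rintro ⟨x, hx⟩
      constructor
      · intro h
        have h' : m.domain.mkQ x = 0 := congrArg Subtype.val h
        exact ⟨⟨x, (Submodule.Quotient.mk_eq_zero _).1 h'⟩, rfl⟩
      · rintro ⟨y, hy⟩
        apply Subtype.ext
        have hy' : (y : G →₀ R) = x := congrArg Subtype.val hy
        change m.domain.mkQ x = 0
        rw [← hy']
        exact (Submodule.Quotient.mk_eq_zero _).2 y.2
    obtain ⟨ψ, hψ⟩ := extend_of_ext (X := m.domain) (Y := P'') (Z := B) hig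
      (Submodule.inclusion_injective hle) hg C
      (h1 B hB2 hB3) m.toFun
    let m' : (G →₀ R) →ₗ.[R] C := ⟨P'', ψ⟩
    have hmm' : m ≤ m' := by
      refine ⟨hle, ?_⟩
      rintro ⟨x, hx⟩ ⟨y, hy⟩ (hxy : x = y)
      subst hxy
      exact (congrArg (fun f => f ⟨x, hx⟩) hψ).symm
    have hm's : m' ∈ s := by
      refine ⟨hm.prop.1.trans hmm', ?_⟩
      have hk : LinearMap.ker (B.mkQ ∘ₗ m.domain.mkQ) = P'' := by
        rw [LinearMap.ker_comp, Submodule.ker_mkQ]
      have hsur : Function.Surjective (B.mkQ ∘ₗ m.domain.mkQ) :=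
        (Submodule.mkQ_surjective B).comp (Submodule.mkQ_surjective m.domain)
      have := hB4.of_equiv (LinearMap.quotKerEquivOfSurjective _ hsur).symm
      rw [hk] at this
      exact this
    have := hm.le_of_ge hm's hmm'
    exact hp (this.1 hB1)
  refine ⟨m.toFun ∘ₗ (LinearMap.id.codRestrict m.domain fun x => htop ▸ Submodule.mem_top),
    fun x => ?_⟩
  exact (hm.prop.1.2 (x := x) (y := ⟨x, htop ▸ Submodule.mem_top⟩) rfl).symm

end Pool.Agent.R924.Fla
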