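import Pool.Agent.R924.K4

set_option autoImplicit false
set_option linter.unusedSectionVars false

/-!
Cell presentations: for every module `F` an extension `GG → F` whose kernel is cotorsion over the
base ring and whose middle term is built from cells `A ⊗ (flat module)`.
-/

universe u

namespace Pool.Agent.R924.Fla

open Finsupp CategoryTheory Abelian Cardinal

section

variable (R : Type u) [Ring R]

/-- The index set of the generators of a cell. -/
abbrev Lam : Type u := List R

theorem aleph0_le_lam : ℵ₀ ≤ #(Lam R) := Cardinal.aleph0_le_mk _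

theorem mk_le_lam : #R ≤ #(Lam R) :=
  mk_le_of_injective (f := fun r : R => ([r] : List R)) fun a b h => by simpa using h

/-- The bound for the cells. -/
noncomputable def bnd : Cardinal.{u} := max (max ℵ₀ #R) #(Lam R →₀ R)

/-- The well-ordered set of levels. -/
abbrev JJ : Type u := (Order.succ (bnd R)).ord.ToType

theorem aleph0_le_bnd : ℵ₀ ≤ bnd R := (le_max_left _ _).trans (le_max_left _ _)

theorem exists_bound {I : Type u} (hI : #I ≤ bnd R) (g : I → JJ R) : ∃ j, ∀ i, g i < j := by
  by_contra hno
  have h1 : ∀ j, ∃ i, j ≤ g i := by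
    intro j
    by_contra h
    exact hno ⟨j, fun i => not_le.1 fun hi => h ⟨i, hi⟩⟩
  have h2 : #(JJ R) ≤ bnd R := by
    have h3 : (Set.univ : Set (JJ R)) ⊆ ⋃ i, Set.Iic (g i) := by
      intro j _
      obtain ⟨i, hi⟩ := h1 j
      exact Set.mem_iUnion.2 ⟨i, hi⟩
    rw [← Cardinal.mk_univ]
    refine (mk_le_mk_of_subset h3).trans ((mk_iUnion_le _).trans ?_)
    refine mul_le_of_le (aleph0_le_bnd R) hI (ciSup_le' fun i => ?_)
    have h4 : Set.Iic (g i) = Set.Iio (g i) ∪ {g i} := by
      ext x
      simp [le_iff_lt_or_eq]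
    rw [h4]
    refine (mk_union_le _ _).trans (add_le_of_le (aleph0_le_bnd R) ?_ ?_)
    · exact Order.lt_succ_iff.1 (mk_Iio_toType_ord_lt (g i))
    · rw [mk_singleton]
      exact one_le_aleph0.trans (aleph0_le_bnd R)
  rw [mk_ord_toType] at h2
  exact absurd h2 (not_le.2 (Order.lt_succ _))

/-- Submodules of the free module with flat quotient. -/
def FlSub : Type u := {L : Submodule R (Lam R →₀ R) // IsFlat R ((Lam R →₀ R) ⧸ L)}

/-- Generators. -/
inductive Gen (A F : Type u) : Type u
  | base (z : F) : Gen A F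
  | cell (j : JJ R) (L : FlSub R) (n : L.1 → ℕ) (c : L.1 → ℕ → A) (g : L.1 → ℕ → Gen A F)
      (y : Lam R) : Gen A F

/-- Cells. -/
structure Code (A F : Type u) : Type u where
  /-- level -/
  j : JJ R
  /-- the flat module, by relations -/
  L : FlSub R
  /-- number of terms -/
  n : L.1 → ℕ
  /-- coefficients -/
  c : L.1 → ℕ → A
  /-- generators -/
  g : L.1 → ℕ → Gen R A F

end

section

variable {R : Type u} [Ring R] {A : Type u} [Ring A] (f : R →+* A) {F : Type u}
  [AddCommGroup F] [Module A F]

/-- The generators of a cell. -/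
def Code.gen {R : Type u} [Ring R] {A F : Type u} (q : Code R A F) (y : Lam R) : Gen R A F :=
  Gen.cell q.j q.L q.n q.c q.g y

/-- The level of a generator. -/
def lab {R : Type u} [Ring R] {A F : Type u} : Gen R A F → WithBot (JJ R)
  | Gen.base _ => ⊥
  | Gen.cell j _ _ _ _ _ => j

/-- The attaching map. -/
noncomputable def tt (q : Code R A F) (l : q.L.1) : Gen R A F →₀ A :=
  ∑ k ∈ Finset.range (q.n l), single (q.g l k) (q.c l k)

/-- The tautological map of a cell. -/
noncomputable def ll (q : Code R A F) (l : Lam R →₀ R) : Gen R A F →₀ A :=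
  mapDomain q.gen (mapRange f (map_zero f) l)

/-- The relations. -/
noncomputable def rel (q : Code R A F) (l : q.L.1) : Gen R A F →₀ A :=
  ll f q l - tt q l

theorem ll_add (q : Code R A F) (l l' : Lam R →₀ R) : ll f q (l + l') = ll f q l + ll f q l' := by
  unfold ll
  rw [mapRange_add (map_add f), mapDomain_add]

theorem ll_smul (q : Code R A F) (r : R) (l : Lam R →₀ R) :
    ll f q (r • l) = f r • ll f q l := by
  unfold ll
  rw [← mapDomain_smul]
  congr 1
  ext y
  rw [mapRange_apply, Finsupp.smul_apply, smul_eq_mul, map_mul, Finsupp.smul_apply, mapRange_apply,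
    smul_eq_mul]

theorem ll_single (q : Code R A F) (y : Lam R) (r : R) :
    ll f q (single y r) = single (q.gen y) (f r) := by
  unfold ll
  rw [mapRange_single, mapDomain_single]

/-- `ll` followed by a linear map. -/
theorem lin_ll {V : Type u} [AddCommGroup V] [Module A V] (q : Code R A F) (γ : Gen R A F → V)
    (l : Lam R →₀ R) : linearCombination A γ (ll f q l) = l.sum fun y r => f r • γ (q.gen y) := by
  induction l using Finsupp.induction_linear with
  | zero =>
    rw [Finsupp.sum_zero_index]
    unfold ll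
    rw [mapRange_zero, mapDomain_zero, map_zero]
  | add l l' h h' =>
    rw [ll_add, map_add, h, h', Finsupp.sum_add_index']
    · intro y
      rw [map_zero, zero_smul]
    · intro y r r'
      rw [map_add, add_smul]
  | single y r =>
    rw [ll_single, linearCombination_single, Finsupp.sum_single_index]
    rw [map_zero, zero_smul]

/-- The structure map on generators. -/
def eps0 : Gen R A F → F
  | Gen.base z => z
  | Gen.cell _ _ _ _ _ _ => 0

/-- The structure map. -/
noncomputable def eps : (Gen R A F →₀ A) →ₗ[A] F := linearCombination A eps0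

theorem eps_ll (q : Code R A F) (l : Lam R →₀ R) : eps (ll f q l) = 0 := by
  unfold eps
  rw [lin_ll]
  refine Finset.sum_eq_zero fun y _ => ?_
  exact smul_zero _

/-- Validity of a cell relative to the relations of smaller cells. -/
def Valid (q : Code R A F) (N : Submodule A (Gen R A F →₀ A)) : Prop :=
  (∀ l, ∀ k < q.n l, lab (q.g l k) < (q.j : WithBot (JJ R))) ∧
    (∀ (r : R) (l l' : q.L.1), tt q (r • l + l') - f r • tt q l - tt q l' ∈ N) ∧
      ∀ l, eps (tt q l) = 0

/-- The relations of level less than `j`. -/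
noncomputable def Nlt : JJ R → Submodule A (Gen R A F →₀ A) :=
  (wellFounded_lt (α := JJ R)).fix fun j ih =>
    Submodule.span A {e | ∃ (q : Code R A F) (h : q.j < j), Valid f q (ih q.j h) ∧
      ∃ l, e = rel f q l}

/-- Valid cells. -/
def VV (q : Code R A F) : Prop := Valid f q (Nlt f q.j)

theorem Nlt_eq (j : JJ R) : Nlt (F := F) f j = Submodule.span A
    {e | ∃ q : Code R A F, q.j < j ∧ VV f q ∧ ∃ l, e = rel f q l} := by
  unfold Nlt
  rw [WellFounded.fix_eq]
  congr 1
  ext e
  constructor
  · rintro ⟨q, h1, h2, h3⟩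
    exact ⟨q, h1, h2, h3⟩
  · rintro ⟨q, h1, h2, h3⟩
    exact ⟨q, h1, h2, h3⟩

theorem Nlt_mono {i j : JJ R} (h : i ≤ j) : Nlt (F := F) f i ≤ Nlt f j := by
  rw [Nlt_eq, Nlt_eq]
  apply Submodule.span_mono
  rintro e ⟨q, h1, h2, h3⟩
  exact ⟨q, h1.trans_le h, h2, h3⟩

/-- All relations. -/
noncomputable def NN : Submodule A (Gen R A F →₀ A) :=
  Submodule.span A {e | ∃ q : Code R A F, VV f q ∧ ∃ l, e = rel f q l}

theorem exists_Nlt {x : Gen R A F →₀ A} (hx : x ∈ NN (F := F) f) : ∃ j, x ∈ Nlt (F := F) f j := by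
  have hne : Nonempty (JJ R) := by
    obtain ⟨j, -⟩ := exists_bound R (I := PEmpty) (by
      rw [mk_pempty]
      exact zero_le) (fun i => i.elim)
    exact ⟨j⟩
  refine Submodule.span_induction ?_ ?_ ?_ ?_ hx
  · rintro e ⟨q, h1, l, rfl⟩
    obtain ⟨j, hj⟩ := exists_bound R (I := PUnit) (by
      rw [mk_punit]
      exact one_le_aleph0.trans (aleph0_le_bnd R)) (fun _ => q.j)
    refine ⟨j, ?_⟩
    rw [Nlt_eq]
    exact Submodule.subset_span ⟨q, hj PUnit.unit, h1, l, rfl⟩
  · exact ⟨Classical.arbitrary _, Submodule.zero_mem _⟩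
  · rintro x y - - ⟨i, hi⟩ ⟨j, hj⟩
    exact ⟨max i j, Submodule.add_mem _ (Nlt_mono f (le_max_left _ _) hi)
      (Nlt_mono f (le_max_right _ _) hj)⟩
  · rintro a x - ⟨i, hi⟩
    exact ⟨i, Submodule.smul_mem _ _ hi⟩

theorem eps_rel {q : Code R A F} (hq : VV f q) (l : q.L.1) : eps (rel f q l) = 0 := by
  unfold rel
  rw [map_sub, eps_ll, hq.2.2 l, sub_zero]

theorem NN_le_ker : NN (F := F) f ≤ LinearMap.ker (eps (R := R) (A := A) (F := F)) := by
  unfold NN
  rw [Submodule.span_le]
  rintro e ⟨q, h1, l, rfl⟩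
  exact eps_rel f h1 l

/-- The middle term. -/
abbrev GG : Type u := (Gen R A F →₀ A) ⧸ NN (F := F) f

/-- The map to `F`. -/
noncomputable def epsb : GG (F := F) f →ₗ[A] F := (NN (F := F) f).liftQ eps (NN_le_ker f)

theorem epsb_mk (w : Gen R A F →₀ A) : epsb (F := F) f ((NN (F := F) f).mkQ w) = eps w := rfl

theorem epsb_surjective : Function.Surjective (epsb (F := F) f) := by
  intro z
  refine ⟨(NN (F := F) f).mkQ (single (Gen.base z) 1), ?_⟩
  rw [epsb_mk]
  unfold eps
  rw [linearCombination_single, one_smul]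
  rfl

theorem exists_rep {X : Type u} [Nonempty X] (w : X →₀ A) : ∃ (n : ℕ) (c : ℕ → A) (g : ℕ → X),
    w = ∑ k ∈ Finset.range n, single (g k) (c k) := by
  induction w using Finsupp.induction with
  | zero => exact ⟨0, 0, fun _ => Classical.arbitrary X, by simp⟩
  | single_add x a w _ _ ih =>
    obtain ⟨n, c, g, rfl⟩ := ih
    refine ⟨n + 1, fun k => if k = n then a else c k, fun k => if k = n then x else g k, ?_⟩
    rw [Finset.sum_range_succ]
    dsimp only
    rw [if_pos rfl, if_pos rfl, add_comm]
    congr 1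
    refine Finset.sum_congr rfl fun k hk => ?_
    rw [if_neg (Finset.mem_range.1 hk).ne, if_neg (Finset.mem_range.1 hk).ne]

/-- The kernel is cotorsion over the base ring. -/
theorem isCot_ker : IsCot R ((ModuleCat.restrictScalars f).obj
    (ModuleCat.of A (LinearMap.ker (epsb (F := F) f)))) := by
  have hX : Nonempty (Gen R A F) := ⟨Gen.base 0⟩
  apply isCot_of_small (Λ := Lam R) (aleph0_le_lam R) (mk_le_lam R)
  intro L hL h
  let D := LinearMap.ker (epsb (F := F) f)
  let hh : L → D := fun l => h l
  have hD : ∀ d : D, ∃ w : Gen R A F →₀ A, (NN (F := F) f).mkQ w = d :=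
    fun d => Submodule.mkQ_surjective _ _
  have hrep : ∀ l : L, ∃ (n : ℕ) (c : ℕ → A) (g : ℕ → Gen R A F),
      (NN (F := F) f).mkQ (∑ k ∈ Finset.range n, single (g k) (c k)) = (hh l : GG f) := by
    intro l
    obtain ⟨w, hw⟩ := hD (hh l)
    obtain ⟨n, c, g, rfl⟩ := exists_rep w
    exact ⟨n, c, g, hw⟩
  choose n c g hw using hrep
  have hL1 : #L ≤ bnd R := by
    refine (mk_le_of_injective (f := fun x : L => (x : Lam R →₀ R)) Subtype.val_injective).trans ?_
    exact le_max_right _ _
  -- a bound for the levels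
  have hlab : ∀ p : L × ULift.{u} ℕ, ∃ j : JJ R, lab (g p.1 p.2.down) < (j : WithBot (JJ R)) := by
    intro p
    cases hg : g p.1 p.2.down with
    | base z =>
      obtain ⟨j, -⟩ := exists_bound R (I := PEmpty) (by
        rw [mk_pempty]
        exact zero_le) (fun i => i.elim)
      exact ⟨j, WithBot.bot_lt_coe j⟩
    | cell j' _ _ _ _ _ =>
      obtain ⟨j, hj⟩ := exists_bound R (I := PUnit) (by
        rw [mk_punit]
        exact one_le_aleph0.trans (aleph0_le_bnd R)) (fun _ => j')
      exact ⟨j, WithBot.coe_lt_coe.2 (hj PUnit.unit)⟩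
  choose jl hjl using hlab
  obtain ⟨j1, hj1⟩ := exists_bound R (by
    rw [mk_prod, lift_id, lift_id]
    refine mul_le_of_le (aleph0_le_bnd R) hL1 ?_
    rw [mk_uLift, mk_nat, lift_aleph0]
    exact aleph0_le_bnd R) jl
  -- a bound for the certificates
  let t : L → (Gen R A F →₀ A) := fun l => ∑ k ∈ Finset.range (n l), single (g l k) (c l k)
  have hcert : ∀ p : R × L × L, ∃ j : JJ R,
      t (p.1 • p.2.1 + p.2.2) - f p.1 • t p.2.1 - t p.2.2 ∈ Nlt (F := F) f j := by
    rintro ⟨r, l, l'⟩
    apply exists_Nlt f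
    rw [← Submodule.Quotient.mk_eq_zero]
    change (NN (F := F) f).mkQ _ = 0
    rw [map_sub, map_sub, map_smul, hw, hw, hw]
    have h1 : hh (r • l + l') = f r • hh l + hh l' := by
      have := h.map_add (r • l) l'
      rw [h.map_smul] at this
      exact this
    rw [h1, Submodule.coe_add, Submodule.coe_smul]
    abel
  choose jc hjc using hcert
  obtain ⟨j2, hj2⟩ := exists_bound R (by
    simp only [mk_prod, lift_id]
    refine mul_le_of_le (aleph0_le_bnd R) ?_ (mul_le_of_le (aleph0_le_bnd R) hL1 hL1)
    exact (le_max_right _ _).trans (le_max_left _ _)) jc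
  let q : Code R A F := ⟨max j1 j2, ⟨L, hL⟩, n, c, g⟩
  have hq : VV f q := by
    refine ⟨fun l k _ => ?_, fun r l l' => ?_, fun l => ?_⟩
    · refine (hjl (l, ⟨k⟩)).trans ?_
      exact WithBot.coe_lt_coe.2 ((hj1 (l, ⟨k⟩)).trans_le (le_max_left _ _))
    · exact Nlt_mono f ((hj2 (r, l, l')).le.trans (le_max_right _ _)) (hjc (r, l, l'))
    · have h2 : epsb (F := F) f (hh l : GG f) = 0 := (hh l).2
      rw [← hw l, epsb_mk] at h2
      exact h2
  let e : Lam R → D := fun y => ⟨(NN (F := F) f).mkQ (single (q.gen y) 1), by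
    change epsb (F := F) f _ = 0
    rw [epsb_mk]
    unfold eps
    rw [linearCombination_single, one_smul]
    rfl⟩
  refine ⟨linearCombination R (M := (ModuleCat.restrictScalars f).obj
    (ModuleCat.of A (LinearMap.ker (epsb (F := F) f)))) e, fun l => ?_⟩
  apply Subtype.ext
  let Ψ : (Lam R →₀ R) → D := fun w => linearCombination R (M := (ModuleCat.restrictScalars f).obj
    (ModuleCat.of A (LinearMap.ker (epsb (F := F) f)))) e w
  have h3 : (Ψ (l : Lam R →₀ R) : GG f) = (NN (F := F) f).mkQ (ll f q l) := by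
    have h4 : ∀ w : Lam R →₀ R, (Ψ w : GG f) = (NN (F := F) f).mkQ (ll f q w) := by
      intro w
      induction w using Finsupp.induction_linear with
      | zero =>
        unfold ll
        rw [mapRange_zero, mapDomain_zero, map_zero]
        have : Ψ 0 = 0 := map_zero _
        rw [this]
        rfl
      | add w w' h h' =>
        have : Ψ (w + w') = Ψ w + Ψ w' := map_add _ _ _
        rw [this, ll_add, map_add, ← h, ← h']
        rfl
      | single y r =>
        have : Ψ (single y r) = f r • e y := by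
          change linearCombination R (M := (ModuleCat.restrictScalars f).obj
            (ModuleCat.of A (LinearMap.ker (epsb (F := F) f)))) e (single y r) = _
          rw [linearCombination_single]
          rfl
        rw [this, ll_single]
        change f r • (NN (F := F) f).mkQ (single (q.gen y) 1) = _
        rw [← map_smul, smul_single, smul_eq_mul, mul_one]
    exact h4 _
  refine h3.trans ?_
  have h5 : (NN (F := F) f).mkQ (rel f q l) = 0 := by
    refine (Submodule.Quotient.mk_eq_zero _).2 (Submodule.subset_span ⟨q, hq, l, rfl⟩)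
  unfold rel at h5
  rw [map_sub, sub_eq_zero] at h5
  rw [h5]
  exact hw l

end

end Pool.Agent.R924.Fla
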