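import Pool.Agent.R924.K3

set_option autoImplicit false
set_option linter.unusedSectionVars false

/-!
`Ext¹(T, C) = 0` over a subring, in elementary terms, and dimension shifting.
-/

universe u

namespace Pool.Agent.R924.Fla

open Finsupp

section

variable {A : Type u} [Ring A]

theorem lc_comp {Y V W : Type u} [AddCommGroup V] [Module A V] [AddCommGroup W] [Module A W]
    (L : V →ₗ[A] W) (θ : Y → V) (w : Y →₀ A) :
    L (linearCombination A θ w) = linearCombination A (fun y => L (θ y)) w := by
  rw [linearCombination_apply, linearCombination_apply, Finsupp.sum, Finsupp.sum, map_sum]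
  refine Finset.sum_congr rfl fun y _ => ?_
  rw [map_smul]

theorem lc_congr {Y V : Type u} [AddCommGroup V] [Module A V] {θ θ' : Y → V} {w : Y →₀ A}
    (h : ∀ y, w y ≠ 0 → θ y = θ' y) : linearCombination A θ w = linearCombination A θ' w := by
  rw [linearCombination_apply, linearCombination_apply, Finsupp.sum, Finsupp.sum]
  refine Finset.sum_congr rfl fun y hy => ?_
  rw [h y (Finsupp.mem_support_iff.1 hy)]

theorem lc_sub {Y V : Type u} [AddCommGroup V] [Module A V] (θ θ' : Y → V) (w : Y →₀ A) :
    linearCombination A (fun y => θ y - θ' y) w =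
      linearCombination A θ w - linearCombination A θ' w := by
  rw [linearCombination_apply, linearCombination_apply, linearCombination_apply, Finsupp.sum,
    Finsupp.sum, Finsupp.sum, ← Finset.sum_sub_distrib]
  refine Finset.sum_congr rfl fun y _ => ?_
  rw [smul_sub]

theorem lc_single {Y : Type u} (w : Y →₀ A) :
    linearCombination A (fun y => single y (1 : A)) w = w := by
  conv_rhs => rw [← Finsupp.sum_single w]
  rw [linearCombination_apply]
  refine Finsupp.sum_congr fun y _ => ?_
  rw [smul_single, smul_eq_mul, mul_one]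

end

section

variable {A : Type u} [Ring A] {X : Type u}

/-- The free module over a subring on a subset. -/
def PP (S : Subring A) (T : Set X) : Submodule S (X →₀ A) where
  carrier := {w | (∀ y, w y ∈ S) ∧ ∀ y, w y ≠ 0 → y ∈ T}
  zero_mem' := ⟨fun _ => S.zero_mem, fun _ h => absurd rfl h⟩
  add_mem' := by
    rintro w w' ⟨h1, h2⟩ ⟨h1', h2'⟩
    refine ⟨fun y => S.add_mem (h1 y) (h1' y), fun y hy => ?_⟩
    by_contra hno
    apply hy
    rw [Finsupp.add_apply, not_not.1 fun h => hno (h2 y h), not_not.1 fun h => hno (h2' y h),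
      add_zero]
  smul_mem' := by
    rintro a w ⟨h1, h2⟩
    refine ⟨fun y => S.mul_mem a.2 (h1 y), fun y hy => h2 y fun h => hy ?_⟩
    change (a : A) * w y = 0
    rw [h, mul_zero]

theorem mem_PP {S : Subring A} {T : Set X} {w : X →₀ A} :
    w ∈ PP S T ↔ (∀ y, w y ∈ S) ∧ ∀ y, w y ≠ 0 → y ∈ T := Iff.rfl

theorem single_mem_PP {S : Subring A} {T : Set X} {x : X} (hx : x ∈ T) {a : A} (ha : a ∈ S) :
    single x a ∈ PP S T := by
  classical
  refine ⟨fun y => ?_, fun y hy => ?_⟩
  · rw [single_apply]
    split_ifs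
    · exact ha
    · exact S.zero_mem
  · rw [single_apply] at hy
    split_ifs at hy with h
    · exact h ▸ hx
    · exact absurd rfl hy

theorem PP_mono {S S' : Subring A} {T T' : Set X} (h : S ≤ S') (hT : T ⊆ T') {w : X →₀ A}
    (hw : w ∈ PP S T) : w ∈ PP S' T' :=
  ⟨fun y => h (hw.1 y), fun y hy => hT (hw.2 y hy)⟩

end

section

variable {A : Type u} [Ring A] {X : Type u} [AddCommGroup X] [Module A X]

/-- The relations over a subring among the elements of a subset. -/
def Kr (S : Subring A) (T : Set X) : Submodule S (X →₀ A) where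
  carrier := {w | w ∈ PP S T ∧ linearCombination A id w = 0}
  zero_mem' := ⟨Submodule.zero_mem _, map_zero _⟩
  add_mem' := by
    rintro w w' ⟨h1, h2⟩ ⟨h1', h2'⟩
    exact ⟨Submodule.add_mem _ h1 h1', by rw [map_add, h2, h2', add_zero]⟩
  smul_mem' := by
    rintro a w ⟨h1, h2⟩
    refine ⟨Submodule.smul_mem _ _ h1, ?_⟩
    change linearCombination A id ((a : A) • w) = 0
    rw [map_smul, h2, smul_zero]

theorem mem_Kr {S : Subring A} {T : Set X} {w : X →₀ A} :
    w ∈ Kr S T ↔ w ∈ PP S T ∧ linearCombination A id w = 0 := Iff.rfl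

theorem Kr_mono {S S' : Subring A} {T T' : Set X} (h : S ≤ S') (hT : T ⊆ T') {w : X →₀ A}
    (hw : w ∈ Kr S T) : w ∈ Kr S' T' :=
  ⟨PP_mono h hT hw.1, hw.2⟩

/-- Membership of linear combinations. -/
theorem lin_mem {Y : Type u} {S : Subring A} (T : Submodule S X) (l : Y →₀ A)
    (hl : ∀ y, l y ∈ S) (θ : Y → X) (hθ : ∀ y, l y ≠ 0 → θ y ∈ T) :
    linearCombination A θ l ∈ T :=
  (LinOn.lin (φ := fun w : X => w) (fun _ _ _ _ _ _ => rfl) l hl θ hθ).1

/-- `Ext¹(T, C) = 0` over the subring `S`: linear maps on the relations extend. -/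
def Ex (S : Subring A) (T : Set X) (C : Type u) [AddCommGroup C] [Module A C] : Prop :=
  ∀ φ : (X →₀ A) → C, LinOn S (Kr S T) φ →
    ∃ g : X → C, ∀ w ∈ Kr S T, φ w = linearCombination A g w

/-- The basic relation. -/
noncomputable def brel (a : A) (k k' : X) : X →₀ A :=
  single (a • k + k') 1 - a • single k 1 - single k' 1

theorem brel_mem {S : Subring A} (T : Submodule S X) {a : A} (ha : a ∈ S) {k k' : X}
    (hk : k ∈ T) (hk' : k' ∈ T) : brel a k k' ∈ Kr S (T : Set X) := by
  refine ⟨?_, ?_⟩
  · refine Submodule.sub_mem _ (Submodule.sub_mem _ (single_mem_PP ?_ S.one_mem)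
      (smul_mem' _ ha (single_mem_PP hk S.one_mem))) (single_mem_PP hk' S.one_mem)
    exact T.add_mem (smul_mem' T ha hk) hk'
  · unfold brel
    rw [map_sub, map_sub, map_smul, linearCombination_single, linearCombination_single,
      linearCombination_single, one_smul, one_smul, one_smul, id, id, id]
    abel

theorem lin_brel {C : Type u} [AddCommGroup C] [Module A C] (g : X → C) (a : A) (k k' : X) :
    linearCombination A g (brel a k k') = g (a • k + k') - a • g k - g k' := by
  unfold brel
  rw [map_sub, map_sub, map_smul, linearCombination_single, linearCombination_single,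
    linearCombination_single, one_smul, one_smul, one_smul]

/-- The image of the basic relation under a map. -/
noncomputable def brel' {Y : Type u} [AddCommGroup Y] [Module A Y] (κ : Y → X) (a : A)
    (k k' : Y) : X →₀ A :=
  single (κ (a • k + k')) 1 - a • single (κ k) 1 - single (κ k') 1

/-- Extension step for the second syzygy. -/
theorem extend_step {S S' : Subring A} {T : Submodule S X} {T' : Submodule S' X} (h : S ≤ S')
    (hT : ∀ x ∈ T, x ∈ T') {C : Type u} [AddCommGroup C] [Module A C]
    (h1 : Ex S (T : Set X) C) (h2 : Ex S' (Kr S' (T' : Set X) : Set (X →₀ A)) C)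
    (φ : ((X →₀ A) →₀ A) → C) (hφ : LinOn S' (Kr S' (Kr S' (T' : Set X) : Set (X →₀ A))) φ)
    (g : (X →₀ A) → C)
    (hg : ∀ w ∈ Kr S (Kr S (T : Set X) : Set (X →₀ A)), φ w = linearCombination A g w) :
    ∃ g' : (X →₀ A) → C,
      (∀ w ∈ Kr S' (Kr S' (T' : Set X) : Set (X →₀ A)), φ w = linearCombination A g' w) ∧
        ∀ k ∈ Kr S (T : Set X), g' k = g k := by
  obtain ⟨g1, hg1⟩ := h2 φ hφ
  have hsub : ∀ k ∈ Kr S (T : Set X), k ∈ Kr S' (T' : Set X) := fun k hk => Kr_mono h hT hk
  have hlin : LinOn S (Kr S (T : Set X)) (fun k => g1 k - g k) := by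
    intro a ha k hk k' hk'
    have e1 := hg _ (brel_mem (Kr S (T : Set X)) ha hk hk')
    have e2 := hg1 _ (brel_mem (Kr S' (T' : Set X)) (h ha) (hsub k hk) (hsub k' hk'))
    rw [e1, lin_brel, lin_brel] at e2
    have e3 : g1 (a • k + k') - g (a • k + k') = a • (g1 k - g k) + (g1 k' - g k') := by
      rw [smul_sub]
      have := sub_eq_zero.2 e2
      rw [← sub_eq_zero, ← neg_eq_zero, ← this]
      abel
    exact e3
  obtain ⟨γ, hγ⟩ := h1 _ hlin
  refine ⟨fun k => g1 k - linearCombination A γ k, fun w hw => ?_, fun k hk => ?_⟩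
  · rw [lc_sub, ← lc_comp (linearCombination A γ) (fun k : X →₀ A => k) w,
      show linearCombination A (fun k : X →₀ A => k) w = 0 from hw.2, map_zero, sub_zero]
    exact hg1 w hw
  · change g1 k - linearCombination A γ k = g k
    rw [← hγ k hk]
    exact sub_sub_cancel _ _

/-- Dimension shifting along `0 → Z → F → Z → 0`. -/
theorem Ex.shift {S : Subring A} (d : X →ₗ[A] X) (σ : X → X) (T0 T1 : Submodule S X)
    (hd : ∀ x ∈ T0, d x ∈ T1) (hd0 : ∀ x ∈ T1, d x = 0) (h01 : ∀ x ∈ T1, x ∈ T0)
    (hd1 : ∀ x ∈ T0, d x = 0 → x ∈ T1) (hσ : ∀ z ∈ T1, σ z ∈ T0 ∧ d (σ z) = z) (hσ0 : σ 0 = 0)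
    {C : Type u} [AddCommGroup C] [Module A C] (H0 : Ex S (T0 : Set X) C)
    (H2 : Ex S (Kr S (T1 : Set X) : Set (X →₀ A)) C) : Ex S (T1 : Set X) C := by
  intro φ hφ
  let κ : (X →₀ A) →ₗ[A] X := linearCombination A σ
  have hκ : ∀ k ∈ Kr S (T1 : Set X), κ k ∈ T1 := by
    intro k hk
    apply hd1
    · exact lin_mem T0 k hk.1.1 σ fun y hy => (hσ y (hk.1.2 y hy)).1
    · rw [← hk.2]
      change d (linearCombination A σ k) = _
      rw [lc_comp]
      exact lc_congr fun y hy => (hσ y (hk.1.2 y hy)).2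
  let m : ((X →₀ A) →₀ A) →ₗ[A] (X →₀ A) := linearCombination A fun k => single (κ k) 1
  have hm : ∀ w ∈ Kr S (Kr S (T1 : Set X) : Set (X →₀ A)), m w ∈ Kr S (T1 : Set X) := by
    intro w hw
    refine ⟨lin_mem (PP S (T1 : Set X)) w hw.1.1 _ fun k hk =>
      single_mem_PP (hκ k (hw.1.2 k hk)) S.one_mem, ?_⟩
    have e1 : linearCombination A id (m w) = κ (linearCombination A id w) := by
      change linearCombination A id (linearCombination A _ w) = κ _
      rw [lc_comp, lc_comp]
      refine lc_congr fun k _ => ?_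
      rw [linearCombination_single, one_smul]
      rfl
    rw [e1, hw.2, map_zero]
  obtain ⟨g2, hg2⟩ := H2 (fun w => φ (m w)) (by
    intro a ha w hw w' hw'
    dsimp only
    rw [map_add, map_smul]
    exact hφ a ha _ (hm w hw) _ (hm w' hw'))
  have hbr : ∀ a ∈ S, ∀ k ∈ Kr S (T1 : Set X), ∀ k' ∈ Kr S (T1 : Set X),
      brel' κ a k k' ∈ Kr S (T1 : Set X) ∧
      φ (brel' κ a k k') = g2 (a • k + k') - a • g2 k - g2 k' := by
    intro a ha k hk k' hk'
    have hb := brel_mem (Kr S (T1 : Set X)) ha hk hk'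
    have e1 : φ (m (brel a k k')) = linearCombination A g2 (brel a k k') := hg2 _ hb
    have e2 : m (brel a k k') = brel' κ a k k' := by
      unfold brel' brel
      change linearCombination A _ _ = _
      rw [map_sub, map_sub, map_smul, linearCombination_single, linearCombination_single,
        linearCombination_single, one_smul, one_smul, one_smul]
    rw [e2, lin_brel] at e1
    exact ⟨e2 ▸ hm _ hb, e1⟩
  -- the extension over `F`
  let kk : (X →₀ A) →ₗ[A] (X →₀ A) := linearCombination A fun x => single (d x) 1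
  let W0 : (X →₀ A) →ₗ[A] (X →₀ A) := linearCombination A fun x => single (x - σ (d x)) 1
  have hkk : ∀ w ∈ Kr S (T0 : Set X), kk w ∈ Kr S (T1 : Set X) := by
    intro w hw
    refine ⟨lin_mem (PP S (T1 : Set X)) w hw.1.1 _ fun x hx =>
      single_mem_PP (hd x (hw.1.2 x hx)) S.one_mem, ?_⟩
    change linearCombination A id (linearCombination A _ w) = 0
    rw [lc_comp, ← map_zero d, ← hw.2, lc_comp]
    refine lc_congr fun x _ => ?_
    rw [linearCombination_single, one_smul]
    rfl
  let W : (X →₀ A) → (X →₀ A) := fun w => W0 w + single (κ (kk w)) 1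
  have hW0 : ∀ w ∈ Kr S (T0 : Set X), W0 w ∈ PP S (T1 : Set X) := by
    intro w hw
    refine lin_mem (PP S (T1 : Set X)) w hw.1.1 _ fun x hx => single_mem_PP ?_ S.one_mem
    have hx0 := hw.1.2 x hx
    apply hd1
    · exact T0.sub_mem hx0 (hσ _ (hd x hx0)).1
    · rw [map_sub, (hσ _ (hd x hx0)).2, sub_self]
  have hW : ∀ w ∈ Kr S (T0 : Set X), W w ∈ Kr S (T1 : Set X) := by
    intro w hw
    refine ⟨Submodule.add_mem _ (hW0 w hw) (single_mem_PP (hκ _ (hkk w hw)) S.one_mem), ?_⟩
    change linearCombination A id (linearCombination A _ w + _) = 0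
    rw [map_add, lc_comp, linearCombination_single, one_smul, id]
    change _ + linearCombination A σ (linearCombination A _ w) = 0
    rw [lc_comp]
    have e1 : linearCombination A (fun y => linearCombination A id (single (y - σ (d y)) (1 : A)))
        w = linearCombination A id w - linearCombination A (fun y => σ (d y)) w := by
      rw [← lc_sub]
      refine lc_congr fun y _ => ?_
      rw [linearCombination_single, one_smul]
      rfl
    have e2 : linearCombination A (fun y => linearCombination A σ (single (d y) (1 : A))) w =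
        linearCombination A (fun y => σ (d y)) w := by
      refine lc_congr fun y _ => ?_
      rw [linearCombination_single, one_smul]
    rw [e1, e2, hw.2]
    abel
  obtain ⟨G, hG⟩ := H0 (fun w => φ (W w) - g2 (kk w)) (by
    intro a ha w hw w' hw'
    dsimp only
    obtain ⟨hb1, hb2⟩ := hbr a ha _ (hkk w hw) _ (hkk w' hw')
    have e1 : W (a • w + w') = a • W w + (W w' + brel' κ a (kk w) (kk w')) := by
      change W0 (a • w + w') + single (κ (kk (a • w + w'))) 1 =
        a • (W0 w + single (κ (kk w)) 1) + (W0 w' + single (κ (kk w')) 1 + _)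
      unfold brel'
      rw [map_add, map_smul, map_add, map_smul, smul_add]
      abel
    rw [e1, hφ a ha _ (hW w hw) _ (Submodule.add_mem _ (hW w' hw') hb1),
      hφ.add (hW w' hw') hb1, hb2, map_add, map_smul, smul_sub]
    abel)
  let s0 : X →₀ A := single 0 1
  have hs0 : s0 ∈ Kr S (T1 : Set X) :=
    ⟨single_mem_PP T1.zero_mem S.one_mem, by rw [linearCombination_single, smul_eq_zero_of_right]; rfl⟩
  have hκs : κ s0 = 0 := by
    change linearCombination A σ (single 0 1) = 0
    rw [linearCombination_single, one_smul, hσ0]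
  have hg20 : g2 0 = φ s0 := by
    have := (hbr 1 S.one_mem 0 (Submodule.zero_mem _) 0 (Submodule.zero_mem _)).2
    unfold brel' at this
    rw [smul_zero, add_zero, map_zero, one_smul, one_smul, sub_self, sub_self, zero_sub, zero_sub] at this
    have h2 : φ (-single 0 1) = -φ s0 := by
      have := hφ.smul (S.neg_mem S.one_mem) hs0
      rw [neg_smul, one_smul, neg_smul, one_smul] at this
      exact this
    rw [h2] at this
    exact (neg_injective this).symm
  have hg2s : ∀ a ∈ S, g2 (a • s0) = a • g2 s0 + φ s0 - a • φ s0 := by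
    intro a ha
    have := (hbr a ha s0 hs0 0 (Submodule.zero_mem _)).2
    unfold brel' at this
    rw [add_zero, map_smul, hκs, smul_zero, map_zero, hg20] at this
    have h2 : φ (single 0 1 - a • single 0 1 - single 0 1) = -(a • φ s0) := by
      have e1 : (single 0 1 - a • single 0 1 - single 0 1 : X →₀ A) = (-a) • s0 := by
        rw [neg_smul]
        change _ = -(a • single 0 1)
        abel
      rw [e1, hφ.smul (S.neg_mem ha) hs0, neg_smul]
    rw [h2] at this
    have e3 : g2 (a • s0) = -(a • φ s0) + a • g2 s0 + φ s0 := by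
      rw [this]
      abel
    rw [e3]
    abel
  refine ⟨fun x => G x - (φ s0 - g2 s0), fun w hw => ?_⟩
  have hw0 : w ∈ Kr S (T0 : Set X) := Kr_mono le_rfl (fun x hx => h01 x hx) hw
  have e1 := hG w hw0
  let a : A := linearCombination A (fun _ => (1 : A)) w
  have ha : a ∈ S := by
    change linearCombination A (fun _ => (1 : A)) w ∈ S
    rw [linearCombination_apply, Finsupp.sum]
    refine S.sum_mem fun y _ => ?_
    rw [smul_eq_mul, mul_one]
    exact hw.1.1 y
  have hconst : ∀ {V : Type u} [AddCommGroup V] [Module A V] (v : V),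
      linearCombination A (fun _ : X => v) w = a • v := by
    intro V _ _ v
    change _ = linearCombination A (fun _ => (1 : A)) w • v
    rw [linearCombination_apply, linearCombination_apply, Finsupp.sum, Finsupp.sum,
      Finset.sum_smul]
    refine Finset.sum_congr rfl fun y _ => ?_
    rw [smul_eq_mul, mul_one]
  have e2 : kk w = a • s0 := by
    rw [← hconst]
    refine lc_congr fun x hx => ?_
    rw [hd0 x (hw.1.2 x hx)]
  have e3 : W w = w + s0 := by
    change W0 w + single (κ (kk w)) 1 = w + single 0 1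
    rw [e2, map_smul, hκs, smul_zero]
    congr 1
    refine (lc_congr fun x hx => ?_).trans (lc_single w)
    rw [hd0 x (hw.1.2 x hx), hσ0, sub_zero]
  rw [e2, e3, hφ.add hw hs0, hg2s a ha] at e1
  rw [lc_sub, ← e1, hconst, smul_sub]
  abel

/-- The countable case: the second syzygy vanishes. -/
theorem Ex.countable {S : Subring A} (T : Submodule S X)
    (hc : (Kr S (T : Set X) : Set (X →₀ A)).Countable)
    (hθ : ∀ k ∈ Kr S (T : Set X), ∃ θ : X → (X →₀ A), (∀ x, θ x ∈ Kr S (T : Set X)) ∧
      linearCombination A θ k = k) (C : Type u) [AddCommGroup C] [Module A C] :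
    Ex S (Kr S (T : Set X) : Set (X →₀ A)) C := by
  classical
  set K := Kr S (T : Set X) with hK
  obtain ⟨e, he⟩ := hc.exists_eq_range ⟨0, K.zero_mem⟩
  have hθ' : ∀ k : X →₀ A, ∃ θ : X → (X →₀ A), (∀ x, θ x ∈ K) ∧
      (k ∈ K → linearCombination A θ k = k) := by
    intro k
    by_cases hk : k ∈ K
    · obtain ⟨θ, h1, h2⟩ := hθ k hk
      exact ⟨θ, h1, fun _ => h2⟩
    · exact ⟨0, fun _ => K.zero_mem, fun h => absurd h hk⟩
  choose θ hθ1 hθ2 using hθ'
  let π : ((X →₀ A) →₀ A) →ₗ[A] (X →₀ A) := linearCombination A id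
  let τ : (X →₀ A) → ((X →₀ A) →ₗ[A] ((X →₀ A) →₀ A)) := fun k =>
    linearCombination A fun x => single (θ k x) 1
  have hπτ : ∀ k ∈ K, π (τ k k) = k := by
    intro k hk
    change linearCombination A id (linearCombination A _ k) = k
    rw [lc_comp]
    refine (lc_congr fun x _ => ?_).trans (hθ2 k hk)
    rw [linearCombination_single, one_smul]
    rfl
  let nxt : ℕ → ((X →₀ A) →ₗ[A] ((X →₀ A) →₀ A)) → ((X →₀ A) →ₗ[A] ((X →₀ A) →₀ A)) :=
    fun n s => s + (τ (e n - π (s (e n)))) ∘ₗ (LinearMap.id - π ∘ₗ s)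
  let s : ℕ → ((X →₀ A) →ₗ[A] ((X →₀ A) →₀ A)) := fun n => Nat.rec 0 nxt n
  have hs : ∀ n, s (n + 1) = s n + (τ (e n - π (s n (e n)))) ∘ₗ (LinearMap.id - π ∘ₗ s n) :=
    fun n => rfl
  have hs' : ∀ n w, s (n + 1) w = s n w + τ (e n - π (s n (e n))) (w - π (s n w)) := by
    intro n w
    rw [hs]
    rfl
  have heK : ∀ n, e n ∈ K := fun n => by
    have : e n ∈ (K : Set (X →₀ A)) := by
      rw [he]
      exact ⟨n, rfl⟩
    exact this
  have hI1 : ∀ n, ∀ w ∈ PP S (T : Set X), s n w ∈ PP S (K : Set (X →₀ A)) := by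
    intro n
    induction n with
    | zero => exact fun w _ => Submodule.zero_mem _
    | succ n ih =>
      intro w hw
      rw [hs']
      have h1 : π (s n w) ∈ K := lin_mem K (s n w) (ih w hw).1 id fun y hy => (ih w hw).2 y hy
      refine Submodule.add_mem _ (ih w hw) ?_
      refine lin_mem (PP S (K : Set (X →₀ A))) (w - π (s n w)) ?_ _ fun x _ =>
        single_mem_PP (hθ1 _ _) S.one_mem
      intro y
      rw [Finsupp.sub_apply]
      exact S.sub_mem (hw.1 y) (h1.1.1 y)
  have hI1' : ∀ n, ∀ w ∈ PP S (T : Set X), π (s n w) ∈ K := fun n w hw =>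
    lin_mem K (s n w) (hI1 n w hw).1 id fun y hy => (hI1 n w hw).2 y hy
  have hI2 : ∀ n, π (s (n + 1) (e n)) = e n := by
    intro n
    rw [hs', map_add, hπτ _ (K.sub_mem (heK n) (hI1' n _ (heK n).1))]
    abel
  have hI3 : ∀ n w, π (s n w) = w → s (n + 1) w = s n w := by
    intro n w h
    rw [hs', h, sub_self, map_zero, add_zero]
  have hst : ∀ n m w, n ≤ m → π (s n w) = w → s m w = s n w := by
    intro n m w hnm h
    induction m, hnm using Nat.le_induction with
    | base => rfl
    | succ m _ ih => rw [hI3 m w (by rw [ih, h]), ih]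
  have hidx : ∀ k : X →₀ A, ∃ n, k ∈ K → e n = k := by
    intro k
    by_cases hk : k ∈ K
    · have : k ∈ (K : Set (X →₀ A)) := hk
      rw [he] at this
      obtain ⟨n, hn⟩ := this
      exact ⟨n, fun _ => hn⟩
    · exact ⟨0, fun h => absurd h hk⟩
  choose idx hidx using hidx
  let sec : (X →₀ A) → ((X →₀ A) →₀ A) := fun k => s (idx k + 1) k
  have hsec1 : ∀ k ∈ K, π (s (idx k + 1) k) = k := by
    intro k hk
    have := hI2 (idx k)
    rwa [hidx k hk] at this
  have hsec : ∀ k ∈ K, ∀ m, idx k + 1 ≤ m → s m k = sec k := fun k hk m hm =>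
    hst _ m k hm (hsec1 k hk)
  have hlin : LinOn S K sec := by
    intro a ha k hk k' hk'
    have h3 : a • k + k' ∈ K := K.add_mem (smul_mem' K ha hk) hk'
    let m := max (idx k + 1) (max (idx k' + 1) (idx (a • k + k') + 1))
    rw [← hsec _ h3 m ((le_max_right _ _).trans (le_max_right _ _)),
      ← hsec k hk m (le_max_left _ _), ← hsec k' hk' m ((le_max_left _ _).trans (le_max_right _ _)),
      map_add, map_smul]
  have hmemK : ∀ k ∈ K, sec k ∈ PP S (K : Set (X →₀ A)) := by
    intro k hk
    change s (idx k + 1) k ∈ _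
    exact hI1 (idx k + 1) k hk.1
  intro φ hφ
  have hsub : ∀ k ∈ K, single k 1 - sec k ∈ Kr S (K : Set (X →₀ A)) := by
    intro k hk
    refine ⟨Submodule.sub_mem _ (single_mem_PP hk S.one_mem) (hmemK k hk), ?_⟩
    rw [map_sub, linearCombination_single, one_smul]
    exact sub_eq_zero.2 (hsec1 k hk).symm
  refine ⟨fun k => φ (single k 1 - sec k), fun w hw => ?_⟩
  obtain ⟨-, h4⟩ := hφ.lin w hw.1.1 (fun k => single k 1 - sec k)
    fun k hk => hsub k (hw.1.2 k hk)
  rw [← h4, lc_sub, lc_single]
  obtain ⟨-, h5⟩ := hlin.lin w hw.1.1 (fun k => k) fun k hk => hw.1.2 k hk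
  rw [← h5, show linearCombination A (fun k : X →₀ A => k) w = 0 from hw.2, hlin.zero, sub_zero]

end

end Pool.Agent.R924.Fla
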