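import Pool.Agent.R924.K5
import Pool.Agent.R924.K6

set_option autoImplicit false
set_option linter.unusedSectionVars false

/-!
The closure system on the data `R → A`, `F`, `d` and the cell presentation of `F`.
-/

universe u

namespace Pool.Agent.R924.Fla

open Finsupp CategoryTheory Abelian Cardinal

/-- Tuples of elements of all the sorts. -/
@[ext] structure UU (R : Type u) [Ring R] (A F : Type u) : Type u where
  /-- base ring -/
  r : R
  /-- ring -/
  a : A
  /-- module -/
  z : F
  /-- generators -/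
  x : Gen R A F
  /-- cells -/
  q : Code R A F
  /-- indices -/
  y : Lam R

section

variable {R : Type u} [Ring R] {A : Type u} [Ring A] (f : R →+* A) {F : Type u}
  [AddCommGroup F] [Module A F]

/-- A certificate of membership. -/
abbrev Cert (R : Type u) [Ring R] (A F : Type u) : Type u :=
  List (A × (Σ q : Code R A F, q.L.1))

/-- The value of a certificate. -/
noncomputable def Cert.val (C : Cert R A F) : Gen R A F →₀ A :=
  (C.map fun p => p.1 • rel f p.2.1 p.2.2).sum

theorem exists_cert (P : Code R A F → Prop) {x : Gen R A F →₀ A}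
    (hx : x ∈ Submodule.span A {e | ∃ q : Code R A F, P q ∧ ∃ l, e = rel f q l}) :
    ∃ C : Cert R A F, (∀ p ∈ C, P p.2.1) ∧ C.val f = x := by
  refine Submodule.span_induction ?_ ?_ ?_ ?_ hx
  · rintro e ⟨q, h1, l, rfl⟩
    refine ⟨[(1, ⟨q, l⟩)], fun p hp => ?_, ?_⟩
    · rw [List.mem_singleton] at hp
      subst hp
      exact h1
    · simp [Cert.val]
  · exact ⟨[], fun p hp => absurd hp (by simp), by simp [Cert.val]⟩
  · rintro x y - - ⟨C, h1, h2⟩ ⟨C', h1', h2'⟩
    refine ⟨C ++ C', fun p hp => ?_, ?_⟩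
    · rcases List.mem_append.1 hp with h | h
      · exact h1 p h
      · exact h1' p h
    · rw [← h2, ← h2']
      simp [Cert.val]
  · rintro a x - ⟨C, h1, h2⟩
    refine ⟨C.map fun p => (a * p.1, p.2), fun p hp => ?_, ?_⟩
    · obtain ⟨p', hp', rfl⟩ := List.mem_map.1 hp
      exact h1 p' hp'
    · rw [← h2]
      unfold Cert.val
      rw [List.map_map, List.smul_sum, List.map_map]
      congr 1
      refine List.map_congr_left fun p _ => ?_
      simp [mul_smul]

/-- The data: a differential with flat cycles, and a splitting of the cell presentation. -/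
structure Dat (f : R →+* A) (F : Type u) [AddCommGroup F] [Module A F] where
  /-- the differential -/
  d : F →ₗ[A] F
  hd : ∀ x, d x = 0 ↔ ∃ y, d y = x
  hflat : IsFlat A (LinearMap.ker d)
  /-- the splitting -/
  s : F →ₗ[A] GG (F := F) f
  hs : ∀ z, epsb (F := F) f (s z) = z

variable {f} (D : Dat f F)

namespace Dat

open Classical in
/-- Chosen preimages. -/
noncomputable def sig (z : F) : F :=
  if h : z ≠ 0 ∧ D.d z = 0 then Classical.choose ((D.hd z).1 h.2) else 0

theorem sig_zero : D.sig 0 = 0 := by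
  unfold sig
  rw [dif_neg]
  rintro ⟨h, -⟩
  exact h rfl

theorem sig_spec {z : F} (hz : D.d z = 0) : D.d (D.sig z) = z := by
  unfold sig
  split_ifs with h
  · exact Classical.choose_spec ((D.hd z).1 h.2)
  · rw [map_zero]
    by_contra hne
    exact h ⟨fun h0 => hne h0.symm, hz⟩

/-- Representatives of the splitting. -/
noncomputable def st (z : F) : Gen R A F →₀ A :=
  Classical.choose (Submodule.mkQ_surjective (NN (F := F) f) (D.s z))

theorem st_spec (z : F) : (NN (F := F) f).mkQ (D.st z) = D.s z :=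
  Classical.choose_spec (Submodule.mkQ_surjective (NN (F := F) f) (D.s z))

theorem eps_st (z : F) : eps (D.st z) = z := by
  rw [← epsb_mk f, D.st_spec, D.hs]

theorem theta_exists (k : F →₀ A) : ∃ θ : F → (F →₀ A), (∀ z, k z = 0 → θ z = 0) ∧
    ((∀ z, k z ≠ 0 → D.d z = 0) → linearCombination A id k = 0 →
      (∀ z, (∀ z', θ z z' ≠ 0 → D.d z' = 0) ∧ linearCombination A id (θ z) = 0) ∧
        linearCombination A θ k = k) := by
  by_cases h : (∀ z, k z ≠ 0 → D.d z = 0) ∧ linearCombination A id k = 0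
  · obtain ⟨θ, h1, h2, h3⟩ := D.hflat.theta k (fun z hz => LinearMap.mem_ker.2 (h.1 z hz)) h.2
    exact ⟨θ, h2, fun _ _ => ⟨fun z => ⟨fun z' hz' => LinearMap.mem_ker.1 ((h1 z).1 z' hz'),
      (h1 z).2⟩, h3⟩⟩
  · exact ⟨0, fun _ _ => rfl, fun h1 h2 => absurd ⟨h1, h2⟩ h⟩

/-- Chosen Villamayor maps for the cycles. -/
noncomputable def thZ (k : F →₀ A) : F → (F →₀ A) := Classical.choose (D.theta_exists k)

theorem thZ_spec (k : F →₀ A) : (∀ z, k z = 0 → D.thZ k z = 0) ∧
    ((∀ z, k z ≠ 0 → D.d z = 0) → linearCombination A id k = 0 →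
      (∀ z, (∀ z', D.thZ k z z' ≠ 0 → D.d z' = 0) ∧ linearCombination A id (D.thZ k z) = 0) ∧
        linearCombination A (D.thZ k) k = k) := Classical.choose_spec (D.theta_exists k)

end Dat

theorem thL_exists (q : Code R A F) (l : Lam R →₀ R) : ∃ θ : Lam R → (Lam R →₀ R),
    (∀ y, l y = 0 → θ y = 0) ∧ (l ∈ q.L.1 → (∀ y, θ y ∈ q.L.1) ∧
      linearCombination R θ l = l) := by
  by_cases h : l ∈ q.L.1
  · obtain ⟨θ, h1, h2, h3⟩ := q.L.2.theta_quot l h
    exact ⟨θ, h2, fun _ => ⟨h1, h3⟩⟩
  · exact ⟨0, fun _ _ => rfl, fun h1 => absurd h1 h⟩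

/-- Chosen Villamayor maps for the cells. -/
noncomputable def thL (q : Code R A F) (l : Lam R →₀ R) : Lam R → (Lam R →₀ R) :=
  Classical.choose (thL_exists q l)

theorem thL_spec (q : Code R A F) (l : Lam R →₀ R) :
    (∀ y, l y = 0 → thL q l y = 0) ∧ (l ∈ q.L.1 → (∀ y, thL q l y ∈ q.L.1) ∧
      linearCombination R (thL q l) l = l) := Classical.choose_spec (thL_exists q l)

theorem certD_exists (f : R →+* A) (q : Code R A F) (r : R) (l l' : q.L.1) :
    ∃ C : Cert R A F, VV f q → (∀ p ∈ C, p.2.1.j < q.j ∧ VV f p.2.1) ∧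
      C.val f = tt q (r • l + l') - f r • tt q l - tt q l' := by
  by_cases h : VV f q
  · have h1 := h.2.1 r l l'
    rw [Nlt_eq] at h1
    obtain ⟨C, h2, h3⟩ := exists_cert f (fun q' => q'.j < q.j ∧ VV f q') (by
      convert h1 using 3
      ext e
      constructor
      · rintro ⟨q, h1, h2⟩
        exact ⟨q, h1.1, h1.2, h2⟩
      · rintro ⟨q, h1, h2, h3⟩
        exact ⟨q, ⟨h1, h2⟩, h3⟩)
    exact ⟨C, fun _ => ⟨h2, h3⟩⟩
  · exact ⟨[], fun h' => absurd h' h⟩

/-- Certificates for the linearity of the attaching maps. -/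
noncomputable def certD (f : R →+* A) (q : Code R A F) (r : R) (l l' : q.L.1) : Cert R A F :=
  Classical.choose (certD_exists f q r l l')

theorem certD_spec (f : R →+* A) (q : Code R A F) (r : R) (l l' : q.L.1) (hq : VV f q) :
    (∀ p ∈ certD f q r l l', p.2.1.j < q.j ∧ VV f p.2.1) ∧
      (certD f q r l l').val f = tt q (r • l + l') - f r • tt q l - tt q l' :=
  Classical.choose_spec (certD_exists f q r l l') hq

namespace Dat

theorem certS_exists (a : A) (z z' : F) : ∃ C : Cert R A F, (∀ p ∈ C, VV f p.2.1) ∧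
    C.val f = D.st (a • z + z') - a • D.st z - D.st z' := by
  apply exists_cert f (fun q => VV f q)
  change _ ∈ NN (F := F) f
  rw [← Submodule.Quotient.mk_eq_zero]
  change (NN (F := F) f).mkQ _ = 0
  rw [map_sub, map_sub, map_smul, D.st_spec, D.st_spec, D.st_spec, map_add, map_smul]
  abel

/-- Certificates for the linearity of the splitting. -/
noncomputable def certS (a : A) (z z' : F) : Cert R A F := Classical.choose (D.certS_exists a z z')

theorem certS_spec (a : A) (z z' : F) : (∀ p ∈ D.certS a z z', VV f p.2.1) ∧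
    (D.certS a z z').val f = D.st (a • z + z') - a • D.st z - D.st z' :=
  Classical.choose_spec (D.certS_exists a z z')

end Dat

/-! ### The closure operation -/

/-- Coefficients and support, in the generators. -/
def outX (u : UU R A F) (p : Gen R A F →₀ A) : Set (UU R A F) :=
  (fun x => ⟨u.r, p x, u.z, x, u.q, u.y⟩) '' (p.support : Set (Gen R A F))

/-- Coefficients and support, in the module. -/
def outZ (u : UU R A F) (p : F →₀ A) : Set (UU R A F) :=
  (fun z => ⟨u.r, p z, z, u.x, u.q, u.y⟩) '' (p.support : Set F)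

/-- Coefficients and support, in the index set. -/
def outL (u : UU R A F) (p : Lam R →₀ R) : Set (UU R A F) :=
  (fun y => ⟨p y, u.a, u.z, u.x, u.q, y⟩) '' (p.support : Set (Lam R))

/-- The entries of a certificate. -/
def outC (u : UU R A F) (C : Cert R A F) : Set (UU R A F) :=
  ⋃ p ∈ {p | p ∈ C}, ({⟨u.r, p.1, u.z, u.x, p.2.1, u.y⟩} ∪ outL u p.2.2)

/-- The element of the free module given by a list. -/
noncomputable def kz (v : List (UU R A F)) : F →₀ A := (v.map fun x => single x.z x.a).sum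

/-- The element of the free module given by a list. -/
noncomputable def kl (v : List (UU R A F)) : Lam R →₀ R := (v.map fun x => single x.y x.r).sum

open Classical in
/-- The closure operation. -/
noncomputable def opr (u u' : UU R A F) (v w : List (UU R A F)) : Set (UU R A F) :=
  (({⟨u.r + u'.r, u.a + u'.a, u.z + u'.z, u.x, u.q, u.y⟩,
    ⟨u.r * u'.r, u.a * u'.a, u.a • u'.z, u.x, u.q, u.y⟩,
    ⟨-u.r, -u.a, -u.z, u.x, u.q, u.y⟩,
    ⟨0, 0, 0, u.x, u.q, u.y⟩,
    ⟨1, 1, 0, u.x, u.q, u.y⟩,
    ⟨u.r, f u.r, D.d u.z, u.x, u.q, u.y⟩,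
    ⟨u.r, u.a, D.sig u.z, u.x, u.q, u.y⟩,
    ⟨u.r, u.a, eps0 u.x, u.x, u.q, u.y⟩,
    ⟨u.r, u.a, u.z, u.q.gen u.y, u.q, u.y⟩,
    ⟨u'.r, u.a, u.z, u.x, u.q, u.y⟩,
    ⟨u.r, u'.a, u.z, u.x, u.q, u.y⟩,
    ⟨u.r, u.a, u'.z, u.x, u.q, u.y⟩,
    ⟨u.r, u.a, u.z, u'.x, u.q, u.y⟩,
    ⟨u.r, u.a, u.z, u.x, u'.q, u.y⟩} : Set (UU R A F)) ∪
    (outX u (D.st u.z) ∪ ⋃ z ∈ ((kz v).support : Set F), outZ u (D.thZ (kz v) z))) ∪
    (((if h : kl v ∈ u.q.L.1 then outX u (tt u.q ⟨kl v, h⟩) else ∅) ∪
      ⋃ y ∈ ((kl v).support : Set (Lam R)), outL u (thL u.q (kl v) y)) ∪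
    ((if h : kl v ∈ u.q.L.1 ∧ kl w ∈ u.q.L.1 then
      outC u (certD f u.q u.r ⟨kl v, h.1⟩ ⟨kl w, h.2⟩) else ∅) ∪
      outC u (D.certS u.a u.z u'.z)))

theorem countable_outL (u : UU R A F) (p : Lam R →₀ R) : (outL u p).Countable :=
  (Finset.countable_toSet _).image _

theorem countable_outC (u : UU R A F) (C : Cert R A F) : (outC u C).Countable := by
  refine Set.Countable.biUnion (List.finite_toSet C).countable fun p _ => ?_
  exact (Set.countable_singleton _).union (countable_outL _ _)

theorem countable_opr (u u' : UU R A F) (v w : List (UU R A F)) :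
    (opr D u u' v w).Countable := by
  unfold opr
  refine ((?_ : Set.Countable _).union (((Finset.countable_toSet _).image _).union
    (Set.Countable.biUnion (Finset.countable_toSet _) fun z _ =>
      (Finset.countable_toSet _).image _))).union
    ((Set.Countable.union ?_ (Set.Countable.biUnion (Finset.countable_toSet _) fun z _ =>
      countable_outL _ _)).union (Set.Countable.union ?_ (countable_outC _ _)))
  · exact (Set.toFinite _).countable
  · split_ifs
    · exact (Finset.countable_toSet _).image _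
    · exact Set.countable_empty
  · split_ifs
    · exact countable_outC _ _
    · exact Set.countable_empty

end

end Pool.Agent.R924.Fla
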