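import Pool.Agent.R924.K7

set_option autoImplicit false
set_option linter.unusedSectionVars false

/-!
Closed sets: the subrings and submodules they define, and the closure properties.
-/

universe u

namespace Pool.Agent.R924.Fla

open Finsupp CategoryTheory Abelian Cardinal

section

variable {R : Type u} [Ring R] {A : Type u} [Ring A] {f : R →+* A} {F : Type u}
  [AddCommGroup F] [Module A F] (D : Dat f F)

/-- Nonempty closed sets. -/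
structure Clo (M : Set (UU R A F)) : Prop where
  ne : M.Nonempty
  cl : Closed (opr D) M

variable {D} {M : Set (UU R A F)} (hM : Clo D M)

include hM

theorem Clo.step {u u' : UU R A F} (hu : u ∈ M) (hu' : u' ∈ M) {x : UU R A F}
    (hx : x ∈ opr D u u' [] []) : x ∈ M :=
  hM.cl u hu u' hu' [] [] (by simp) (by simp) hx

theorem Clo.add {u u' : UU R A F} (hu : u ∈ M) (hu' : u' ∈ M) :
    (⟨u.r + u'.r, u.a + u'.a, u.z + u'.z, u.x, u.q, u.y⟩ : UU R A F) ∈ M :=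
  hM.step hu hu' (Or.inl (Or.inl (by simp)))

theorem Clo.mul {u u' : UU R A F} (hu : u ∈ M) (hu' : u' ∈ M) :
    (⟨u.r * u'.r, u.a * u'.a, u.a • u'.z, u.x, u.q, u.y⟩ : UU R A F) ∈ M :=
  hM.step hu hu' (Or.inl (Or.inl (by simp)))

theorem Clo.neg {u : UU R A F} (hu : u ∈ M) :
    (⟨-u.r, -u.a, -u.z, u.x, u.q, u.y⟩ : UU R A F) ∈ M :=
  hM.step hu hu (Or.inl (Or.inl (by simp)))

theorem Clo.zero {u : UU R A F} (hu : u ∈ M) :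
    (⟨0, 0, 0, u.x, u.q, u.y⟩ : UU R A F) ∈ M :=
  hM.step hu hu (Or.inl (Or.inl (by simp)))

theorem Clo.one {u : UU R A F} (hu : u ∈ M) :
    (⟨1, 1, 0, u.x, u.q, u.y⟩ : UU R A F) ∈ M :=
  hM.step hu hu (Or.inl (Or.inl (by simp)))

theorem Clo.fd {u : UU R A F} (hu : u ∈ M) :
    (⟨u.r, f u.r, D.d u.z, u.x, u.q, u.y⟩ : UU R A F) ∈ M :=
  hM.step hu hu (Or.inl (Or.inl (by simp)))

theorem Clo.sig {u : UU R A F} (hu : u ∈ M) :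
    (⟨u.r, u.a, D.sig u.z, u.x, u.q, u.y⟩ : UU R A F) ∈ M :=
  hM.step hu hu (Or.inl (Or.inl (by simp)))

theorem Clo.eps {u : UU R A F} (hu : u ∈ M) :
    (⟨u.r, u.a, eps0 u.x, u.x, u.q, u.y⟩ : UU R A F) ∈ M :=
  hM.step hu hu (Or.inl (Or.inl (by simp)))

theorem Clo.gen {u : UU R A F} (hu : u ∈ M) :
    (⟨u.r, u.a, u.z, u.q.gen u.y, u.q, u.y⟩ : UU R A F) ∈ M :=
  hM.step hu hu (Or.inl (Or.inl (by simp)))

theorem Clo.mixr {u u' : UU R A F} (hu : u ∈ M) (hu' : u' ∈ M) :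
    (⟨u'.r, u.a, u.z, u.x, u.q, u.y⟩ : UU R A F) ∈ M :=
  hM.step hu hu' (Or.inl (Or.inl (by simp)))

theorem Clo.mixa {u u' : UU R A F} (hu : u ∈ M) (hu' : u' ∈ M) :
    (⟨u.r, u'.a, u.z, u.x, u.q, u.y⟩ : UU R A F) ∈ M :=
  hM.step hu hu' (Or.inl (Or.inl (by simp)))

theorem Clo.mixz {u u' : UU R A F} (hu : u ∈ M) (hu' : u' ∈ M) :
    (⟨u.r, u.a, u'.z, u.x, u.q, u.y⟩ : UU R A F) ∈ M :=
  hM.step hu hu' (Or.inl (Or.inl (by simp)))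

theorem Clo.mixx {u u' : UU R A F} (hu : u ∈ M) (hu' : u' ∈ M) :
    (⟨u.r, u.a, u.z, u'.x, u.q, u.y⟩ : UU R A F) ∈ M :=
  hM.step hu hu' (Or.inl (Or.inl (by simp)))

theorem Clo.mixq {u u' : UU R A F} (hu : u ∈ M) (hu' : u' ∈ M) :
    (⟨u.r, u.a, u.z, u.x, u'.q, u.y⟩ : UU R A F) ∈ M :=
  hM.step hu hu' (Or.inl (Or.inl (by simp)))

/-- Mixing all components. -/
theorem Clo.mix {u₁ u₂ u₃ u₄ u₅ u₆ : UU R A F} (h1 : u₁ ∈ M) (h2 : u₂ ∈ M) (h3 : u₃ ∈ M)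
    (h4 : u₄ ∈ M) (h5 : u₅ ∈ M) (h6 : u₆ ∈ M) :
    (⟨u₁.r, u₂.a, u₃.z, u₄.x, u₅.q, u₆.y⟩ : UU R A F) ∈ M :=
  hM.mixr (hM.mixa (hM.mixz (hM.mixx (hM.mixq h6 h5) h4) h3) h2) h1

omit hM

variable (M) in
/-- Components of a set. -/
def pr {V : Type*} (g : UU R A F → V) : Set V := {v | ∃ u ∈ M, g u = v}

include hM

/-- The subring of the base ring. -/
def Clo.SR : Subring R where
  carrier := pr M UU.r
  mul_mem' := by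
    rintro _ _ ⟨u, hu, rfl⟩ ⟨u', hu', rfl⟩
    exact ⟨_, hM.mul hu hu', rfl⟩
  one_mem' := by
    obtain ⟨u, hu⟩ := hM.ne
    exact ⟨_, hM.one hu, rfl⟩
  add_mem' := by
    rintro _ _ ⟨u, hu, rfl⟩ ⟨u', hu', rfl⟩
    exact ⟨_, hM.add hu hu', rfl⟩
  zero_mem' := by
    obtain ⟨u, hu⟩ := hM.ne
    exact ⟨_, hM.zero hu, rfl⟩
  neg_mem' := by
    rintro _ ⟨u, hu, rfl⟩
    exact ⟨_, hM.neg hu, rfl⟩

/-- The subring. -/
def Clo.SA : Subring A where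
  carrier := pr M UU.a
  mul_mem' := by
    rintro _ _ ⟨u, hu, rfl⟩ ⟨u', hu', rfl⟩
    exact ⟨_, hM.mul hu hu', rfl⟩
  one_mem' := by
    obtain ⟨u, hu⟩ := hM.ne
    exact ⟨_, hM.one hu, rfl⟩
  add_mem' := by
    rintro _ _ ⟨u, hu, rfl⟩ ⟨u', hu', rfl⟩
    exact ⟨_, hM.add hu hu', rfl⟩
  zero_mem' := by
    obtain ⟨u, hu⟩ := hM.ne
    exact ⟨_, hM.zero hu, rfl⟩
  neg_mem' := by
    rintro _ ⟨u, hu, rfl⟩
    exact ⟨_, hM.neg hu, rfl⟩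

/-- The submodule. -/
def Clo.FM : Submodule hM.SA F where
  carrier := pr M UU.z
  add_mem' := by
    rintro _ _ ⟨u, hu, rfl⟩ ⟨u', hu', rfl⟩
    exact ⟨_, hM.add hu hu', rfl⟩
  zero_mem' := by
    obtain ⟨u, hu⟩ := hM.ne
    exact ⟨_, hM.zero hu, rfl⟩
  smul_mem' := by
    rintro ⟨_, ⟨u, hu, rfl⟩⟩ _ ⟨u', hu', rfl⟩
    exact ⟨_, hM.mul hu hu', rfl⟩

/-- The cycles. -/
def Clo.ZM : Submodule hM.SA F where
  carrier := {z | z ∈ hM.FM ∧ D.d z = 0}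
  add_mem' := by
    rintro _ _ ⟨h1, h2⟩ ⟨h3, h4⟩
    exact ⟨hM.FM.add_mem h1 h3, by rw [map_add, h2, h4, add_zero]⟩
  zero_mem' := ⟨hM.FM.zero_mem, map_zero _⟩
  smul_mem' := by
    rintro a z ⟨h1, h2⟩
    refine ⟨hM.FM.smul_mem a h1, ?_⟩
    change D.d ((a : A) • z) = 0
    rw [map_smul, h2, smul_zero]

theorem Clo.mem_SR {r : R} : r ∈ hM.SR ↔ ∃ u ∈ M, u.r = r := Iff.rfl
theorem Clo.mem_SA {a : A} : a ∈ hM.SA ↔ ∃ u ∈ M, u.a = a := Iff.rfl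
theorem Clo.mem_FM {z : F} : z ∈ hM.FM ↔ ∃ u ∈ M, u.z = z := Iff.rfl
theorem Clo.mem_ZM {z : F} : z ∈ hM.ZM ↔ z ∈ hM.FM ∧ D.d z = 0 := Iff.rfl

theorem Clo.f_mem {r : R} (hr : r ∈ hM.SR) : f r ∈ hM.SA := by
  obtain ⟨u, hu, rfl⟩ := hr
  exact ⟨_, hM.fd hu, rfl⟩

theorem Clo.exists_kz {k : F →₀ A} (hk : k ∈ PP hM.SA (hM.FM : Set F)) :
    ∃ v : List (UU R A F), (∀ x ∈ v, x ∈ M) ∧ kz v = k := by
  obtain ⟨u0, hu0⟩ := hM.ne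
  have h1 : ∀ z, k z ≠ 0 → (⟨u0.r, k z, z, u0.x, u0.q, u0.y⟩ : UU R A F) ∈ M := by
    intro z hz
    obtain ⟨u1, hu1, h1⟩ := hk.1 z
    obtain ⟨u2, hu2, h2⟩ := hk.2 z hz
    rw [← h1]
    conv in z => rw [← h2]
    exact hM.mix hu0 hu1 hu2 hu0 hu0 hu0
  refine ⟨k.support.toList.map fun z => ⟨u0.r, k z, z, u0.x, u0.q, u0.y⟩, fun x hx => ?_, ?_⟩
  · obtain ⟨z, hz, rfl⟩ := List.mem_map.1 hx
    exact h1 z (Finsupp.mem_support_iff.1 (Finset.mem_toList.1 hz))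
  · unfold kz
    rw [List.map_map]
    change (k.support.toList.map fun z => single z (k z)).sum = k
    rw [Finset.sum_map_toList]
    exact Finsupp.sum_single k

theorem Clo.exists_kl {l : Lam R →₀ R} (hl : l ∈ PP hM.SR (pr M UU.y)) :
    ∃ v : List (UU R A F), (∀ x ∈ v, x ∈ M) ∧ kl v = l := by
  obtain ⟨u0, hu0⟩ := hM.ne
  have h1 : ∀ y, l y ≠ 0 → (⟨l y, u0.a, u0.z, u0.x, u0.q, y⟩ : UU R A F) ∈ M := by
    intro y hy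
    obtain ⟨u1, hu1, h1⟩ := hl.1 y
    obtain ⟨u2, hu2, h2⟩ := hl.2 y hy
    rw [← h1]
    conv in y => rw [← h2]
    exact hM.mix hu1 hu0 hu0 hu0 hu0 hu2
  refine ⟨l.support.toList.map fun y => ⟨l y, u0.a, u0.z, u0.x, u0.q, y⟩, fun x hx => ?_, ?_⟩
  · obtain ⟨z, hz, rfl⟩ := List.mem_map.1 hx
    exact h1 z (Finsupp.mem_support_iff.1 (Finset.mem_toList.1 hz))
  · unfold kl
    rw [List.map_map]
    change (l.support.toList.map fun z => single z (l z)).sum = l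
    rw [Finset.sum_map_toList]
    exact Finsupp.sum_single l

theorem Clo.mem_PPX {u : UU R A F} {p : Gen R A F →₀ A} (h : outX u p ⊆ M) :
    p ∈ PP hM.SA (pr M UU.x) := by
  refine ⟨fun x => ?_, fun x hx => ⟨_, h ⟨x, Finsupp.mem_support_iff.2 hx, rfl⟩, rfl⟩⟩
  by_cases hx : p x = 0
  · rw [hx]
    exact hM.SA.zero_mem
  · exact ⟨_, h ⟨x, Finsupp.mem_support_iff.2 hx, rfl⟩, rfl⟩

theorem Clo.mem_PPZ {u : UU R A F} {p : F →₀ A} (h : outZ u p ⊆ M) :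
    p ∈ PP hM.SA (hM.FM : Set F) := by
  refine ⟨fun x => ?_, fun x hx => ⟨_, h ⟨x, Finsupp.mem_support_iff.2 hx, rfl⟩, rfl⟩⟩
  by_cases hx : p x = 0
  · rw [hx]
    exact hM.SA.zero_mem
  · exact ⟨_, h ⟨x, Finsupp.mem_support_iff.2 hx, rfl⟩, rfl⟩

theorem Clo.mem_PPL {u : UU R A F} {p : Lam R →₀ R} (h : outL u p ⊆ M) :
    p ∈ PP hM.SR (pr M UU.y) := by
  refine ⟨fun x => ?_, fun x hx => ⟨_, h ⟨x, Finsupp.mem_support_iff.2 hx, rfl⟩, rfl⟩⟩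
  by_cases hx : p x = 0
  · rw [hx]
    exact hM.SR.zero_mem
  · exact ⟨_, h ⟨x, Finsupp.mem_support_iff.2 hx, rfl⟩, rfl⟩

theorem Clo.st_mem {z : F} (hz : z ∈ hM.FM) : D.st z ∈ PP hM.SA (pr M UU.x) := by
  obtain ⟨u, hu, rfl⟩ := hz
  refine hM.mem_PPX (u := u) fun x hx => ?_
  exact hM.step hu hu (Or.inl (Or.inr (Or.inl hx)))

theorem Clo.thZ_mem {k : F →₀ A} (hk : k ∈ PP hM.SA (hM.FM : Set F)) (z : F) :
    D.thZ k z ∈ PP hM.SA (hM.FM : Set F) := by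
  by_cases hz : k z = 0
  · rw [(D.thZ_spec k).1 z hz]
    exact Submodule.zero_mem _
  · obtain ⟨v, hv, rfl⟩ := hM.exists_kz hk
    obtain ⟨u0, hu0⟩ := hM.ne
    refine hM.mem_PPZ (u := u0) fun x hx => ?_
    refine hM.cl u0 hu0 u0 hu0 v [] hv (by simp) (Or.inl (Or.inr (Or.inr ?_)))
    exact Set.mem_biUnion (Finsupp.mem_support_iff.2 hz) hx

theorem Clo.thL_mem {q : Code R A F} (hq : q ∈ pr M UU.q) {l : Lam R →₀ R}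
    (hl : l ∈ PP hM.SR (pr M UU.y)) (y : Lam R) : thL q l y ∈ PP hM.SR (pr M UU.y) := by
  by_cases hy : l y = 0
  · rw [(thL_spec q l).1 y hy]
    exact Submodule.zero_mem _
  · obtain ⟨v, hv, rfl⟩ := hM.exists_kl hl
    obtain ⟨u, hu, rfl⟩ := hq
    refine hM.mem_PPL (u := u) fun x hx => ?_
    refine hM.cl u hu u hu v [] hv (by simp) (Or.inr (Or.inl (Or.inr ?_)))
    exact Set.mem_biUnion (Finsupp.mem_support_iff.2 hy) hx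

theorem Clo.tt_mem {q : Code R A F} (hq : q ∈ pr M UU.q) {l : q.L.1}
    (hl : (l : Lam R →₀ R) ∈ PP hM.SR (pr M UU.y)) : tt q l ∈ PP hM.SA (pr M UU.x) := by
  obtain ⟨v, hv, hvl⟩ := hM.exists_kl hl
  obtain ⟨u, hu, rfl⟩ := hq
  refine hM.mem_PPX (u := u) fun x hx => ?_
  have h1 : kl v ∈ u.q.L.1 := hvl ▸ l.2
  refine hM.cl u hu u hu v [] hv (by simp) (Or.inr (Or.inl (Or.inl ?_)))
  rw [dif_pos h1]
  have h2 : (⟨kl v, h1⟩ : u.q.L.1) = l := Subtype.ext hvl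
  rw [h2]
  exact hx

theorem Clo.cert_mem {u : UU R A F} {C : Cert R A F} (h : outC u C ⊆ M) :
    ∀ p ∈ C, p.1 ∈ hM.SA ∧ p.2.1 ∈ pr M UU.q ∧
      (p.2.2 : Lam R →₀ R) ∈ PP hM.SR (pr M UU.y) := by
  intro p hp
  have h1 : ({⟨u.r, p.1, u.z, u.x, p.2.1, u.y⟩} ∪ outL u p.2.2 : Set (UU R A F)) ⊆ M :=
    fun x hx => h (Set.mem_biUnion (show p ∈ {p | p ∈ C} from hp) hx)
  exact ⟨⟨_, h1 (Or.inl rfl), rfl⟩, ⟨_, h1 (Or.inl rfl), rfl⟩,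
    hM.mem_PPL (u := u) fun x hx => h1 (Or.inr hx)⟩

theorem Clo.certD_mem {q : Code R A F} (hq : q ∈ pr M UU.q) {r : R} (hr : r ∈ hM.SR)
    {l l' : q.L.1} (hl : (l : Lam R →₀ R) ∈ PP hM.SR (pr M UU.y))
    (hl' : (l' : Lam R →₀ R) ∈ PP hM.SR (pr M UU.y)) :
    ∀ p ∈ certD f q r l l', p.1 ∈ hM.SA ∧ p.2.1 ∈ pr M UU.q ∧
      (p.2.2 : Lam R →₀ R) ∈ PP hM.SR (pr M UU.y) := by
  obtain ⟨v, hv, hvl⟩ := hM.exists_kl hl
  obtain ⟨w, hw, hwl⟩ := hM.exists_kl hl'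
  obtain ⟨u, hu, rfl⟩ := hq
  obtain ⟨u', hu', rfl⟩ := hr
  have hm := hM.mixr hu hu'
  refine hM.cert_mem (u := ⟨u'.r, u.a, u.z, u.x, u.q, u.y⟩) fun x hx => ?_
  have h1 : kl v ∈ u.q.L.1 := hvl ▸ l.2
  have h2 : kl w ∈ u.q.L.1 := hwl ▸ l'.2
  refine hM.cl _ hm _ hm v w hv hw (Or.inr (Or.inr (Or.inl ?_)))
  rw [dif_pos ⟨h1, h2⟩]
  have h3 : (⟨kl v, h1⟩ : u.q.L.1) = l := Subtype.ext hvl
  have h4 : (⟨kl w, h2⟩ : u.q.L.1) = l' := Subtype.ext hwl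
  rw [h3, h4]
  exact hx

theorem Clo.certS_mem {a : A} (ha : a ∈ hM.SA) {z z' : F} (hz : z ∈ hM.FM) (hz' : z' ∈ hM.FM) :
    ∀ p ∈ D.certS a z z', p.1 ∈ hM.SA ∧ p.2.1 ∈ pr M UU.q ∧
      (p.2.2 : Lam R →₀ R) ∈ PP hM.SR (pr M UU.y) := by
  obtain ⟨u1, hu1, rfl⟩ := ha
  obtain ⟨u2, hu2, rfl⟩ := hz
  obtain ⟨u3, hu3, rfl⟩ := hz'
  have hm := hM.mixa hu2 hu1
  refine hM.cert_mem (u := ⟨u2.r, u1.a, u2.z, u2.x, u2.q, u2.y⟩) fun x hx => ?_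
  exact hM.cl _ hm _ hu3 [] [] (by simp) (by simp) (Or.inr (Or.inr (Or.inr hx)))

end

end Pool.Agent.R924.Fla
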