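import Pool.Agent.R924.K8

set_option autoImplicit false
set_option linter.unusedSectionVars false

/-!
`Ext¹(F_M, C) = 0` over every closed substructure.
-/

universe u

namespace Pool.Agent.R924.Fla

open Finsupp CategoryTheory Abelian Cardinal

section

variable {R : Type u} [Ring R] {A : Type u} [Ring A] {f : R →+* A} {F : Type u}
  [AddCommGroup F] [Module A F]

/-- The structure map on formal sums. -/
noncomputable def EE : (Gen R A F →₀ A) →ₗ[A] (F →₀ A) :=
  linearCombination A fun x => single (eps0 x) 1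

theorem lin_EE (w : Gen R A F →₀ A) : linearCombination A id (EE w) = eps w := by
  unfold EE eps
  rw [lc_comp]
  refine lc_congr fun x _ => ?_
  rw [linearCombination_single, one_smul]
  rfl

/-- The function on generators given by values on the cells. -/
def gam {C : Type u} [AddCommGroup C] (c0 : C) (G : Code R A F → Lam R → C) : Gen R A F → C
  | Gen.base _ => 0
  | Gen.cell j L n c g y => G ⟨j, L, n, c, g⟩ y - c0

theorem gam_gen {C : Type u} [AddCommGroup C] (c0 : C) (G : Code R A F → Lam R → C)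
    (q : Code R A F) (y : Lam R) : gam c0 G (q.gen y) = G q y - c0 := rfl

theorem gam_congr {C : Type u} [AddCommGroup C] (c0 : C) {G G' : Code R A F → Lam R → C}
    {j : JJ R} (h : ∀ q : Code R A F, q.j < j → G q = G' q) {x : Gen R A F}
    (hx : lab x < (j : WithBot (JJ R))) : gam c0 G x = gam c0 G' x := by
  cases x with
  | base z => rfl
  | cell i L n c g y =>
    change G ⟨i, L, n, c, g⟩ y - c0 = G' ⟨i, L, n, c, g⟩ y - c0
    rw [h ⟨i, L, n, c, g⟩ (WithBot.coe_lt_coe.1 hx)]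

theorem lab_of_tt {q : Code R A F} (hq : VV f q) {l : q.L.1} {x : Gen R A F}
    (hx : tt q l x ≠ 0) : lab x < (q.j : WithBot (JJ R)) := by
  classical
  unfold tt at hx
  rw [Finsupp.finsetSum_apply] at hx
  obtain ⟨k, hk, hne⟩ := Finset.exists_ne_zero_of_sum_ne_zero hx
  rw [single_apply] at hne
  split_ifs at hne with h
  · rw [← h]
    exact hq.1 l k (Finset.mem_range.1 hk)
  · exact absurd rfl hne

variable {D : Dat f F} {M : Set (UU R A F)} (hM : Clo D M) (C : ModuleCat.{u} A)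
  (hC : IsCot R ((ModuleCat.restrictScalars f).obj C)) (φ : (F →₀ A) → C)
  (hφ : LinOn hM.SA (Kr hM.SA (hM.FM : Set F)) φ)

/-- The condition on the values on a cell. -/
def Cnd (hM : Clo D M) (C : ModuleCat.{u} A) (φ : (F →₀ A) → C) (q : Code R A F)
    (γ : Gen R A F → C) (g : Lam R → C) : Prop :=
  ∀ l : q.L.1, (l : Lam R →₀ R) ∈ PP hM.SR (pr M UU.y) →
    (l : Lam R →₀ R).sum (fun y r => f r • g y) =
      linearCombination A γ (tt q l) + φ (EE (tt q l))

open Classical in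
/-- The values on the cells, by recursion on the level. -/
noncomputable def Gam (hM : Clo D M) (C : ModuleCat.{u} A) (φ : (F →₀ A) → C) :
    Code R A F → (Lam R → C) :=
  (InvImage.wf (fun q : Code R A F => q.j) (wellFounded_lt (α := JJ R))).fix fun q ih =>
    if h : ∃ g : Lam R → C, Cnd hM C φ q
      (gam (φ (single 0 1)) fun q' y => if h' : q'.j < q.j then ih q' h' y else 0) g
    then Classical.choose h else 0

theorem Gam_spec (q : Code R A F) (hq : VV f q)
    (h : ∃ g : Lam R → C, Cnd hM C φ q (gam (φ (single 0 1)) (Gam hM C φ)) g) :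
    Cnd hM C φ q (gam (φ (single 0 1)) (Gam hM C φ)) (Gam hM C φ q) := by
  classical
  have hcongr : ∀ l : q.L.1, linearCombination A (gam (φ (single 0 1)) fun q' y =>
      if _ : q'.j < q.j then Gam hM C φ q' y else 0) (tt q l) =
        linearCombination A (gam (φ (single 0 1)) (Gam hM C φ)) (tt q l) := by
    intro l
    refine lc_congr fun x hx => gam_congr _ (fun q' hq' => ?_) (lab_of_tt hq hx)
    funext y
    rw [dif_pos hq']
  have hcnd : ∀ g, Cnd hM C φ q (gam (φ (single 0 1)) fun q' y =>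
      if _ : q'.j < q.j then Gam hM C φ q' y else 0) g ↔
        Cnd hM C φ q (gam (φ (single 0 1)) (Gam hM C φ)) g := by
    intro g
    unfold Cnd
    refine forall_congr' fun l => ?_
    rw [hcongr]
  have h' : ∃ g : Lam R → C, Cnd hM C φ q (gam (φ (single 0 1)) fun q' y =>
      if _ : q'.j < q.j then Gam hM C φ q' y else 0) g := by
    obtain ⟨g, hg⟩ := h
    exact ⟨g, (hcnd g).2 hg⟩
  have heq : Gam hM C φ q = Classical.choose h' := by
    have h1 : Gam hM C φ q = if h : ∃ g : Lam R → C, Cnd hM C φ q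
        (gam (φ (single 0 1)) fun q' y => if _ : q'.j < q.j then Gam hM C φ q' y else 0) g
        then Classical.choose h else 0 := by
      conv_lhs => rw [Gam, WellFounded.fix_eq]
      rfl
    rw [h1, dif_pos h']
  rw [heq]
  exact (hcnd _).1 (Classical.choose_spec h')

include hφ

theorem s0_mem : (single 0 1 : F →₀ A) ∈ Kr hM.SA (hM.FM : Set F) :=
  ⟨single_mem_PP hM.FM.zero_mem hM.SA.one_mem, by
    rw [linearCombination_single, smul_eq_zero_of_right]
    rfl⟩

omit hφ in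
/-- Formal sums of generators of `M` with value zero. -/
def WK (hM : Clo D M) : Submodule hM.SA (Gen R A F →₀ A) where
  carrier := {w | w ∈ PP hM.SA (pr M UU.x) ∧ eps w = 0}
  add_mem' := by
    rintro w w' ⟨h1, h2⟩ ⟨h3, h4⟩
    exact ⟨Submodule.add_mem _ h1 h3, by rw [map_add, h2, h4, add_zero]⟩
  zero_mem' := ⟨Submodule.zero_mem _, map_zero _⟩
  smul_mem' := by
    rintro a w ⟨h1, h2⟩
    refine ⟨Submodule.smul_mem _ _ h1, ?_⟩
    change eps ((a : A) • w) = 0
    rw [map_smul, h2, smul_zero]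

omit hφ in
theorem EE_mem_PP {w : Gen R A F →₀ A} (hw : w ∈ PP hM.SA (pr M UU.x)) :
    EE w ∈ PP hM.SA (hM.FM : Set F) := by
  refine lin_mem (PP hM.SA (hM.FM : Set F)) w hw.1 _ fun x hx => single_mem_PP ?_ hM.SA.one_mem
  obtain ⟨u, hu, rfl⟩ := hw.2 x hx
  exact ⟨_, hM.eps hu, rfl⟩

omit hφ in
theorem EE_mem {w : Gen R A F →₀ A} (hw : w ∈ WK hM) : EE w ∈ Kr hM.SA (hM.FM : Set F) :=
  ⟨EE_mem_PP hM hw.1, by rw [lin_EE, hw.2]⟩

/-- The functional on `WK`. -/
theorem linOn_P (γ : Gen R A F → C) :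
    LinOn hM.SA (WK hM) fun w => linearCombination A γ w + φ (EE w) := by
  intro a ha w hw w' hw'
  dsimp only
  rw [map_add, map_smul, map_add, map_smul, hφ a ha _ (EE_mem hM hw) _ (EE_mem hM hw'), smul_add]
  abel

omit hφ in
theorem ll_mem {q : Code R A F} (hq : q ∈ pr M UU.q) {l : Lam R →₀ R}
    (hl : l ∈ PP hM.SR (pr M UU.y)) : ll f q l ∈ WK hM := by
  refine ⟨?_, eps_ll f q l⟩
  have h1 := lin_ll f q (fun x => single x (1 : A)) l
  rw [lc_single] at h1
  rw [h1]
  refine Submodule.sum_mem _ fun y hy => ?_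
  refine smul_mem' _ (hM.f_mem (hl.1 y)) (single_mem_PP ?_ hM.SA.one_mem)
  obtain ⟨u, hu, rfl⟩ := hq
  obtain ⟨u', hu', rfl⟩ := hl.2 y (Finsupp.mem_support_iff.1 hy)
  exact ⟨_, hM.gen (hM.mix hu hu hu hu hu hu'), rfl⟩

omit hφ in
theorem tt_mem {q : Code R A F} (hq : q ∈ pr M UU.q) (hv : VV f q) {l : q.L.1}
    (hl : (l : Lam R →₀ R) ∈ PP hM.SR (pr M UU.y)) : tt q l ∈ WK hM :=
  ⟨hM.tt_mem hq hl, hv.2.2 l⟩

theorem P_ll (G : Code R A F → Lam R → C) {q : Code R A F} {l : Lam R →₀ R}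
    (hl : l ∈ PP hM.SR (pr M UU.y)) :
    linearCombination A (gam (φ (single 0 1)) G) (ll f q l) + φ (EE (ll f q l)) =
      l.sum fun y r => f r • G q y := by
  have h1 := lin_ll f q (gam (φ (single 0 1)) G) l
  have h2 := lin_ll f q (fun x => single (eps0 x) (1 : A)) l
  let b : A := l.sum fun _ r => f r
  have hb : b ∈ hM.SA := hM.SA.sum_mem fun y _ => hM.f_mem (hl.1 y)
  have h3 : EE (ll f q l) = b • single 0 1 := by
    refine h2.trans ?_
    change _ = (∑ y ∈ l.support, f (l y)) • (single 0 1 : F →₀ A)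
    rw [Finset.sum_smul]
    rfl
  rw [h1, h3, hφ.smul hb (s0_mem hM C φ hφ)]
  change (∑ y ∈ l.support, f (l y) • gam (φ (single 0 1)) G (q.gen y)) +
    (∑ y ∈ l.support, f (l y)) • φ (single 0 1) = ∑ y ∈ l.support, f (l y) • G q y
  rw [Finset.sum_smul, ← Finset.sum_add_distrib]
  refine Finset.sum_congr rfl fun y _ => ?_
  rw [gam_gen, smul_sub, sub_add_cancel]

theorem cert_null (γ : Gen R A F → C) (Ce : Cert R A F)
    (h : ∀ p ∈ Ce, p.1 ∈ hM.SA ∧ rel f p.2.1 p.2.2 ∈ WK hM ∧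
      linearCombination A γ (rel f p.2.1 p.2.2) + φ (EE (rel f p.2.1 p.2.2)) = 0) :
    Ce.val f ∈ WK hM ∧ linearCombination A γ (Ce.val f) + φ (EE (Ce.val f)) = 0 := by
  have hP := linOn_P hM C φ hφ γ
  induction Ce with
  | nil =>
    refine ⟨Submodule.zero_mem _, ?_⟩
    exact hP.zero
  | cons p Ce ih =>
    obtain ⟨h1, h2⟩ := ih fun p' hp' => h p' (List.mem_cons_of_mem _ hp')
    obtain ⟨h3, h4, h5⟩ := h p List.mem_cons_self
    have h6 : Cert.val f (p :: Ce) = p.1 • rel f p.2.1 p.2.2 + Cert.val f Ce := by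
      unfold Cert.val
      rw [List.map_cons, List.sum_cons]
    rw [h6]
    refine ⟨Submodule.add_mem _ (smul_mem' _ h3 h4) h1, ?_⟩
    refine (hP _ h3 _ h4 _ h1).trans ?_
    dsimp only
    rw [h5, h2, smul_zero, add_zero]

theorem rel_null {G : Code R A F → Lam R → C} {q : Code R A F} (hq : q ∈ pr M UU.q)
    (hv : VV f q) (hg : Cnd hM C φ q (gam (φ (single 0 1)) G) (G q)) {l : q.L.1}
    (hl : (l : Lam R →₀ R) ∈ PP hM.SR (pr M UU.y)) :
    rel f q l ∈ WK hM ∧ linearCombination A (gam (φ (single 0 1)) G) (rel f q l) +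
      φ (EE (rel f q l)) = 0 := by
  have h1 := ll_mem hM hq hl
  have h2 := tt_mem hM hq hv hl
  have hP := linOn_P hM C φ hφ (gam (φ (single 0 1)) G)
  refine ⟨Submodule.sub_mem _ h1 h2, ?_⟩
  refine (hP.sub h1 h2).trans ?_
  rw [P_ll hM C φ hφ G hl, hg l hl, sub_self]

include hC

theorem good : ∀ q : Code R A F, VV f q → q ∈ pr M UU.q →
    Cnd hM C φ q (gam (φ (single 0 1)) (Gam hM C φ)) (Gam hM C φ q) := by
  classical
  intro q
  induction q using (InvImage.wf (fun q : Code R A F => q.j)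
    (wellFounded_lt (α := JJ R))).induction with
  | _ q ih =>
  intro hv hq
  apply Gam_spec hM C φ q hv
  set γ := gam (φ (single 0 1)) (Gam hM C φ) with hγ
  have hP := linOn_P hM C φ hφ γ
  let T : Submodule hM.SR (Lam R →₀ R) :=
    { carrier := {l | l ∈ q.L.1 ∧ l ∈ PP hM.SR (pr M UU.y)}
      add_mem' := fun {l l'} h h' => ⟨q.L.1.add_mem h.1 h'.1, Submodule.add_mem _ h.2 h'.2⟩
      zero_mem' := ⟨q.L.1.zero_mem, Submodule.zero_mem _⟩
      smul_mem' := fun r l h => ⟨q.L.1.smul_mem (r : R) h.1, Submodule.smul_mem _ _ h.2⟩ }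
  let h : (Lam R →₀ R) → C := fun l => if hl : l ∈ q.L.1 then
    linearCombination A γ (tt q ⟨l, hl⟩) + φ (EE (tt q ⟨l, hl⟩)) else 0
  have hh : ∀ (l : Lam R →₀ R) (hl : l ∈ q.L.1),
      h l = linearCombination A γ (tt q ⟨l, hl⟩) + φ (EE (tt q ⟨l, hl⟩)) :=
    fun l hl => dif_pos hl
  have hlin : ∀ a ∈ hM.SR, ∀ w ∈ T, ∀ w' ∈ T, h (a • w + w') = f a • h w + h w' := by
    intro a ha w hw w' hw'
    have hm : a • w + w' ∈ q.L.1 := q.L.1.add_mem (q.L.1.smul_mem a hw.1) hw'.1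
    rw [hh _ hm, hh _ hw.1, hh _ hw'.1]
    obtain ⟨hc1, hc2⟩ := certD_spec f q a ⟨w, hw.1⟩ ⟨w', hw'.1⟩ hv
    obtain ⟨hn1, hn2⟩ := cert_null hM C φ hφ γ (certD f q a ⟨w, hw.1⟩ ⟨w', hw'.1⟩) (by
      intro p hp
      obtain ⟨h1, h2, h3⟩ := hM.certD_mem hq ha (l := ⟨w, hw.1⟩) (l' := ⟨w', hw'.1⟩) hw.2 hw'.2 p hp
      obtain ⟨h4, h5⟩ := hc1 p hp
      exact ⟨h1, rel_null hM C φ hφ h2 h5 (ih _ h4 h5 h2) h3⟩)
    have e1 : tt q ⟨a • w + w', hm⟩ = f a • tt q ⟨w, hw.1⟩ + (tt q ⟨w', hw'.1⟩ +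
        (certD f q a ⟨w, hw.1⟩ ⟨w', hw'.1⟩).val f) := by
      rw [hc2]
      have : (⟨a • w + w', hm⟩ : q.L.1) = a • ⟨w, hw.1⟩ + ⟨w', hw'.1⟩ := rfl
      rw [this]
      abel
    have ht1 := tt_mem hM hq hv (l := ⟨w, hw.1⟩) hw.2
    have ht2 := tt_mem hM hq hv (l := ⟨w', hw'.1⟩) hw'.2
    rw [e1]
    refine (hP _ (hM.f_mem ha) _ ht1 _ (Submodule.add_mem _ ht2 hn1)).trans ?_
    congr 1
    refine (hP.add ht2 hn1).trans ?_
    rw [hn2, add_zero]
  obtain ⟨g, hg⟩ := hC.extend_sub hM.SR T (fun l hl y => hl.2.1 y) (fun l hl => by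
    obtain ⟨-, h2⟩ := thL_spec q l
    obtain ⟨h3, h4⟩ := h2 hl.1
    exact ⟨thL q l, fun y => ⟨h3 y, hM.thL_mem hq hl.2 y⟩, h4⟩) h
    (fun a ha w hw w' hw' => hlin a ha w hw w' hw')
  refine ⟨g, fun l hl => ?_⟩
  have h1 := hg l ⟨l.2, hl⟩
  rw [hh _ l.2] at h1
  refine Eq.trans ?_ h1
  rw [linearCombination_apply]
  rfl

/-- `Ext¹(F_M, C) = 0` over every closed substructure. -/
theorem exF_aux : ∃ g : F → C, ∀ w ∈ Kr hM.SA (hM.FM : Set F),
    φ w = linearCombination A g w := by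
  classical
  set γ := gam (φ (single 0 1)) (Gam hM C φ) with hγ
  have hP := linOn_P hM C φ hφ γ
  -- the null elements
  let NU : Submodule hM.SA (Gen R A F →₀ A) :=
    { carrier := {w | w ∈ WK hM ∧ linearCombination A γ w + φ (EE w) = 0}
      add_mem' := by
        rintro w w' ⟨h1, h2⟩ ⟨h3, h4⟩
        refine ⟨Submodule.add_mem _ h1 h3, (hP.add h1 h3).trans ?_⟩
        rw [h2, h4, add_zero]
      zero_mem' := ⟨Submodule.zero_mem _, hP.zero⟩
      smul_mem' := by
        rintro a w ⟨h1, h2⟩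
        refine ⟨Submodule.smul_mem _ _ h1, (hP.smul a.2 h1).trans ?_⟩
        rw [h2, smul_zero] }
  have hlinst : ∀ a ∈ hM.SA, ∀ z ∈ hM.FM, ∀ z' ∈ hM.FM,
      D.st (a • z + z') - a • D.st z - D.st z' ∈ NU := by
    intro a ha z hz z' hz'
    obtain ⟨h1, h2⟩ := D.certS_spec a z z'
    rw [← h2]
    refine cert_null hM C φ hφ γ (D.certS a z z') fun p hp => ?_
    obtain ⟨h3, h4, h5⟩ := hM.certS_mem ha hz hz' p hp
    exact ⟨h3, rel_null hM C φ hφ h4 (h1 p hp) (good hM C hC φ hφ _ (h1 p hp) h4) h5⟩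
  have hst0 : D.st 0 ∈ NU := by
    have h1 := hlinst 1 hM.SA.one_mem 0 hM.FM.zero_mem 0 hM.FM.zero_mem
    rw [smul_zero, add_zero, one_smul, sub_self, zero_sub] at h1
    exact (Submodule.neg_mem_iff NU).1 h1
  have hfin : ∀ (k : F →₀ A), k ∈ PP hM.SA (hM.FM : Set F) → ∀ s : Finset F, s ⊆ k.support →
      (∑ z ∈ s, k z • z) ∈ hM.FM ∧
        D.st (∑ z ∈ s, k z • z) - ∑ z ∈ s, k z • D.st z ∈ NU := by
    intro k hk s
    induction s using Finset.induction_on with
    | empty =>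
      intro _
      rw [Finset.sum_empty, Finset.sum_empty, sub_zero]
      exact ⟨hM.FM.zero_mem, hst0⟩
    | insert z s hz ih =>
      intro hs
      obtain ⟨h1, h2⟩ := ih fun x hx => hs (Finset.mem_insert_of_mem hx)
      have hzM := hk.2 z (Finsupp.mem_support_iff.1 (hs (Finset.mem_insert_self _ _)))
      rw [Finset.sum_insert hz, Finset.sum_insert hz]
      refine ⟨hM.FM.add_mem (smul_mem' _ (hk.1 z) hzM) h1, ?_⟩
      have h3 := hlinst _ (hk.1 z) z hzM _ h1
      have h4 := NU.add_mem h3 h2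
      convert h4 using 1
      abel
  refine ⟨fun z => -(linearCombination A γ (D.st z) + φ (EE (D.st z) - single z 1)),
    fun w hw => ?_⟩
  let u : Gen R A F →₀ A := linearCombination A D.st w
  have hu : u ∈ NU := by
    obtain ⟨-, h2⟩ := hfin w hw.1 w.support le_rfl
    have h3 : ∑ z ∈ w.support, w z • z = 0 := by
      have := hw.2
      rw [linearCombination_apply] at this
      exact this
    rw [h3] at h2
    have h4 := NU.sub_mem hst0 h2
    rw [sub_sub_cancel] at h4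
    exact h4
  have hK : ∀ z ∈ hM.FM, EE (D.st z) - single z 1 ∈ Kr hM.SA (hM.FM : Set F) := by
    intro z hz
    refine ⟨Submodule.sub_mem _ (EE_mem_PP hM (hM.st_mem hz)) (single_mem_PP hz hM.SA.one_mem), ?_⟩
    rw [map_sub, lin_EE, D.eps_st, linearCombination_single, one_smul]
    exact sub_self _
  obtain ⟨-, h5⟩ := hφ.lin w hw.1.1 (fun z => EE (D.st z) - single z 1)
    fun z hz => hK z (hw.1.2 z hz)
  have h6 : linearCombination A (fun z => EE (D.st z) - single z 1) w = EE u - w := by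
    rw [lc_sub, lc_single, ← lc_comp EE D.st w]
  have h7 : linearCombination A (fun z => -(linearCombination A γ (D.st z) +
      φ (EE (D.st z) - single z 1))) w = -(linearCombination A γ u +
        linearCombination A (fun z => φ (EE (D.st z) - single z 1)) w) := by
    rw [lc_comp (linearCombination A γ) D.st w]
    rw [linearCombination_apply, linearCombination_apply, linearCombination_apply, Finsupp.sum,
      Finsupp.sum, Finsupp.sum, ← Finset.sum_add_distrib, ← Finset.sum_neg_distrib]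
    refine Finset.sum_congr rfl fun z _ => ?_
    rw [smul_neg, smul_add]
  rw [h7, ← h5, h6, hφ.sub (EE_mem hM hu.1) hw, ← add_sub_assoc, hu.2, zero_sub, neg_neg]

end

end Pool.Agent.R924.Fla
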