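import Pool.Agent.R924.C4
import Pool.Agent.W456.Geo9

set_option autoImplicit false

/-!
Perfectness is local.
-/

universe u

open CategoryTheory CategoryTheory.Limits TopologicalSpace AlgebraicGeometry Opposite Pretriangulated

namespace Pool.Agent.R924

open Pool.Agent.W506 Pool.Agent.W456

attribute [local instance] HasDerivedCategory.standard Abelian.hasFiniteBiproducts

lemma resD_comp {W' W X : Scheme.{u}} (f : W' ⟶ W) (g : W ⟶ X) (h : W' ⟶ X) [IsOpenImmersion f]
    [IsOpenImmersion g] [IsOpenImmersion h] (hh : f ≫ g = h) (E : DerivedCategory X.Modules) :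
    Nonempty ((resD f).obj ((resD g).obj E) ≅ (resD h).obj E) :=
  mapD_comp _ _ _ ((Scheme.Modules.restrictFunctorComp f g).symm ≪≫
    Scheme.Modules.restrictFunctorCongr hh) E

lemma bff_res {W X : Scheme.{u}} (f : W ⟶ X) [IsOpenImmersion f]
    {K : CochainComplex X.Modules ℤ} (hK : IsBFF K) :
    IsBFF (((Scheme.Modules.restrictFunctor f).mapHomologicalComplex (ComplexShape.up ℤ)).obj K) := by
  obtain ⟨⟨a, b, hab⟩, hfree⟩ := hK
  exact ⟨⟨a, b, fun i hi => Functor.map_isZero (Scheme.Modules.restrictFunctor f) (hab i hi)⟩,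
    fun i => (hfree i).restrict f⟩

/-- A free model near a point. -/
def FreeAt {X : Scheme.{u}} (E : DerivedCategory X.Modules) (x : X) : Prop :=
  ∃ (W : Scheme.{u}) (g : W ⟶ X) (_ : IsOpenImmersion g) (w : W)
      (_ : g w = x) (K : CochainComplex W.Modules ℤ), IsBFF K ∧
      Nonempty ((resD g).obj E ≅ DerivedCategory.Q.obj K)

theorem isPerfect_iff {X : Scheme.{u}} (E : DerivedCategory X.Modules) :
    isPerfect X E ↔ ∀ x : X, FreeAt E x := by
  refine ⟨fun hE x => hE.exists_free x, fun h x => ?_⟩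
  obtain ⟨W, g, hg, w, rfl, K, hK, ⟨e⟩⟩ := h x
  obtain ⟨i⟩ := resD_comp g.isoOpensRange.inv g g.opensRange.ι g.isoOpensRange_inv_comp E
  refine ⟨g.opensRange, ⟨w, rfl⟩, _, IsBFF.isStrictlyPerfect (bff_res g.isoOpensRange.inv hK), ⟨?_⟩⟩
  exact i.symm ≪≫ (resD g.isoOpensRange.inv).mapIso e ≪≫
    (Scheme.Modules.restrictFunctor g.isoOpensRange.inv).mapDerivedCategoryFactors.app K

theorem isPerfect_res {W X : Scheme.{u}} (f : W ⟶ X) [IsOpenImmersion f]
    {E : DerivedCategory X.Modules} (hE : isPerfect X E) : isPerfect W ((resD f).obj E) := by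
  rw [isPerfect_iff] at hE ⊢
  intro w
  obtain ⟨W', g, hg, w', hw', K, hK, ⟨e⟩⟩ := hE (f w)
  obtain ⟨z, hz1, hz2⟩ := Scheme.Pullback.exists_preimage_pullback w w' hw'.symm
  obtain ⟨i⟩ := resD_comp (pullback.fst f g) f _ rfl E
  obtain ⟨j⟩ := resD_comp (pullback.snd f g) g _ pullback.condition.symm E
  refine ⟨_, pullback.fst f g, inferInstance, z, hz1, _, bff_res (pullback.snd f g) hK, ⟨?_⟩⟩
  exact i ≪≫ j.symm ≪≫ (resD (pullback.snd f g)).mapIso e ≪≫
    (Scheme.Modules.restrictFunctor (pullback.snd f g)).mapDerivedCategoryFactors.app K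

theorem isPerfect_of_local {X : Scheme.{u}} {E : DerivedCategory X.Modules}
    (h : ∀ x : X, ∃ (W : Scheme.{u}) (g : W ⟶ X) (_ : IsOpenImmersion g) (w : W) (_ : g w = x),
      isPerfect W ((resD g).obj E)) : isPerfect X E := by
  rw [isPerfect_iff]
  intro x
  obtain ⟨W, g, hg, w, rfl, hW⟩ := h x
  rw [isPerfect_iff] at hW
  obtain ⟨W', g', hg', w', rfl, K, hK, ⟨e⟩⟩ := hW w
  obtain ⟨i⟩ := resD_comp g' g _ rfl E
  exact ⟨W', g' ≫ g, inferInstance, w', rfl, K, hK, ⟨i.symm ≪≫ e⟩⟩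

end Pool.Agent.R924
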