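import Pool.Agent.R924.P1
import Pool.Agent.R924.D1

set_option autoImplicit false

/-!
Local sections of epimorphisms onto the structure sheaf.
-/

universe u

open CategoryTheory CategoryTheory.Limits TopologicalSpace AlgebraicGeometry Opposite Pretriangulated

namespace Pool.Agent.R924

open Pool.Agent.W506 Pool.Agent.W456

set_option backward.isDefEq.respectTransparency false

variable {X : Scheme.{u}}

lemma exists_hom_of_isGen {M N : X.Modules} {e : Γ(M, ⊤)} (he : IsGen e) (z : Γ(N, ⊤)) :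
    ∃ f : M ⟶ N, ap f ⊤ e = z := by
  have key : ∀ {N : X.Modules} (z : Γ(N, ⊤)), ∃ f : FR X 1 ⟶ N, ∀ i, ap f ⊤ (fs _ i) = z := by
    intro N z
    refine ⟨(SheafOfModules.freeHomEquiv N).symm (fun i => secOf z), fun i => ?_⟩
    rw [ap_fs, Equiv.apply_symm_apply]
    exact rs_refl (M := N) _ _
  obtain ⟨f, hf⟩ := key e
  obtain ⟨g, hg⟩ := key z
  have := isIso_of_bases (isBasisOn_fs X 1) he f hf
  refine ⟨inv f ≫ g, ?_⟩
  have h1 : ap (inv f) ⊤ e = fs X 0 := by
    rw [← hf 0, ← ap_comp, IsIso.hom_inv_id, ap_id]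
  rw [ap_comp, h1, hg 0]

lemma hom_ext_of_isGen {M N : X.Modules} {e : Γ(M, ⊤)} (he : IsGen e) {f g : M ⟶ N}
    (h : ap f ⊤ e = ap g ⊤ e) : f = g := by
  apply ap_ext
  intro V s
  obtain ⟨a, rfl⟩ := he.exists_smul le_top s
  rw [map_smul, map_smul, ap_rs, ap_rs, h]

/-- Epimorphisms onto the structure sheaf split locally. -/
theorem exists_local_split {Z : X.Modules} (π : Z ⟶ unitMod X) [Epi π] (x : X) :
    ∃ U : X.Opens, x ∈ U ∧ ∃ σ : (Scheme.Modules.restrictFunctor U.ι).obj (unitMod X) ⟶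
      (Scheme.Modules.restrictFunctor U.ι).obj Z,
      σ ≫ (Scheme.Modules.restrictFunctor U.ι).map π = 𝟙 _ := by
  obtain ⟨U, hU, hx, z, hz⟩ := locally_surj_of_epi π ⊤ (ooE ⊤ 1) x trivial
  refine ⟨U, hx, ?_⟩
  have hb : IsBasisOn (N := OO X) (U := U) (fun _ : Fin 1 => rs (OO X) hU (ooE ⊤ 1)) :=
    (isBasisOn_one X).mono hU
  have hgen := isBasisOn_restrict hb
  obtain ⟨f, hf⟩ := exists_hom_of_isGen (M := (OO X).restrict U.ι) (N := Z.restrict U.ι) hgen
    (rs Z (Scheme.Opens.ι_image_le U ⊤) z)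
  refine ⟨f, ?_⟩
  refine hom_ext_of_isGen (M := (OO X).restrict U.ι) hgen ?_
  rw [ap_comp]
  erw [hf]
  have h1 := ap_rs π (Scheme.Opens.ι_image_le U ⊤) z
  rw [hz] at h1
  exact h1

end Pool.Agent.R924
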