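import Mathlib

set_option autoImplicit false

/-!
Splitting quasi-isomorphisms onto complexes in one degree, and cones of fractions.
-/

universe w₁ w₂ v₁ v₂ u₁ u₂

open CategoryTheory CategoryTheory.Limits Pretriangulated

namespace Pool.Agent.R924

noncomputable section

variable {A : Type u₁} [Category.{v₁} A] [Abelian A] {B : Type u₂} [Category.{v₂} B] [Abelian B]
  (R : A ⥤ B) [R.Additive]

/-- The complex in one degree. -/
abbrev sc (n : ℤ) (M : A) : CochainComplex A ℤ :=
  (HomologicalComplex.single A (ComplexShape.up ℤ) n).obj M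

/-- The map from cycles given by a map to a complex in one degree. -/
def cycMap {K : CochainComplex A ℤ} {n : ℤ} {M : A} (s : K ⟶ sc n M) : K.cycles n ⟶ M :=
  K.iCycles n ≫ s.f n ≫ (HomologicalComplex.singleObjXSelf (ComplexShape.up ℤ) n M).hom

lemma epi_cycMap {K : CochainComplex A ℤ} {n : ℤ} {M : A} (s : K ⟶ sc n M) [QuasiIso s] :
    Epi (cycMap s) := by
  have i1 : IsIso ((sc n M).iCycles n) := by
    apply HomologicalComplex.isIso_iCycles _ n (n + 1) (by simp)
    simp
  have i2 : IsIso ((sc n M).homologyπ n) := by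
    apply HomologicalComplex.isIso_homologyπ _ (n - 1) n (by simp)
    simp
  have i3 : IsIso (HomologicalComplex.homologyMap s n) := by
    have := (quasiIso_iff s).1 inferInstance n
    exact (quasiIsoAt_iff_isIso_homologyMap s n).1 this
  have e1 : Epi (HomologicalComplex.cyclesMap s n) := by
    have h1 : HomologicalComplex.cyclesMap s n =
        (K.homologyπ n ≫ HomologicalComplex.homologyMap s n) ≫ inv ((sc n M).homologyπ n) := by
      rw [HomologicalComplex.homologyπ_naturality, Category.assoc, IsIso.hom_inv_id,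
        Category.comp_id]
    rw [h1]
    infer_instance
  have h2 : cycMap s = HomologicalComplex.cyclesMap s n ≫ (sc n M).iCycles n ≫
      (HomologicalComplex.singleObjXSelf (ComplexShape.up ℤ) n M).hom := by
    rw [cycMap, HomologicalComplex.cyclesMap_i_assoc]
  rw [h2]
  infer_instance

/-- Splitting on cycles gives a splitting of complexes. -/
theorem exists_split {K : CochainComplex A ℤ} {n : ℤ} {M : A} (s : K ⟶ sc n M)
    (σ : R.obj M ⟶ R.obj (K.cycles n)) (hσ : σ ≫ R.map (cycMap s) = 𝟙 _) :
    ∃ t : (R.mapHomologicalComplex (ComplexShape.up ℤ)).obj (sc n M) ⟶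
      (R.mapHomologicalComplex (ComplexShape.up ℤ)).obj K,
      t ≫ (R.mapHomologicalComplex (ComplexShape.up ℤ)).map s = 𝟙 _ := by
  let τ : R.obj M ⟶ ((R.mapHomologicalComplex (ComplexShape.up ℤ)).obj K).X n :=
    σ ≫ R.map (K.iCycles n)
  have hτ : ∀ j, (ComplexShape.up ℤ).Rel n j →
      τ ≫ ((R.mapHomologicalComplex (ComplexShape.up ℤ)).obj K).d n j = 0 := by
    intro j hj
    change (σ ≫ R.map (K.iCycles n)) ≫ R.map (K.d n j) = 0
    rw [Category.assoc, ← R.map_comp, HomologicalComplex.iCycles_d, R.map_zero, comp_zero]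
  let e := (HomologicalComplex.singleMapHomologicalComplex R (ComplexShape.up ℤ) n).app M
  refine ⟨e.hom ≫ HomologicalComplex.mkHomFromSingle τ hτ, ?_⟩
  have key : HomologicalComplex.mkHomFromSingle τ hτ ≫
      (R.mapHomologicalComplex (ComplexShape.up ℤ)).map s = e.inv := by
    apply HomologicalComplex.from_single_hom_ext
    have h1 : e.inv.f n = (HomologicalComplex.singleObjXSelf (ComplexShape.up ℤ) n (R.obj M)).hom ≫
        R.map (HomologicalComplex.singleObjXSelf (ComplexShape.up ℤ) n M).inv :=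
      HomologicalComplex.singleMapHomologicalComplex_inv_app_self R (ComplexShape.up ℤ) n M
    rw [h1, HomologicalComplex.comp_f, HomologicalComplex.mkHomFromSingle_f, Category.assoc]
    congr 1
    change (σ ≫ R.map (K.iCycles n)) ≫ R.map (s.f n) = _
    have h2 : K.iCycles n ≫ s.f n = cycMap s ≫
        (HomologicalComplex.singleObjXSelf (ComplexShape.up ℤ) n M).inv := by
      rw [cycMap, Category.assoc, Category.assoc, Iso.hom_inv_id, Category.comp_id]
    rw [Category.assoc, ← R.map_comp, h2, R.map_comp, ← Category.assoc, hσ, Category.id_comp]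
  rw [Category.assoc, key, Iso.hom_inv_id]

variable [HasDerivedCategory.{w₁} A] [HasDerivedCategory.{w₂} B] [PreservesFiniteLimits R]
  [PreservesFiniteColimits R]

/-- The cone of a morphism which becomes a morphism of complexes. -/
theorem exists_cone_iso {K L K' : CochainComplex A ℤ} (s : K' ⟶ K) (g : K' ⟶ L)
    (T : Triangle (DerivedCategory A)) (hT : T ∈ distTriang (DerivedCategory A))
    (e₁ : T.obj₁ ≅ DerivedCategory.Q.obj K) (e₂ : T.obj₂ ≅ DerivedCategory.Q.obj L)
    (he : DerivedCategory.Q.map s ≫ e₁.inv ≫ T.mor₁ ≫ e₂.hom = DerivedCategory.Q.map g)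
    (t : (R.mapHomologicalComplex (ComplexShape.up ℤ)).obj K ⟶
      (R.mapHomologicalComplex (ComplexShape.up ℤ)).obj K')
    (ht : t ≫ (R.mapHomologicalComplex (ComplexShape.up ℤ)).map s = 𝟙 _) :
    Nonempty (R.mapDerivedCategory.obj T.obj₃ ≅ DerivedCategory.Q.obj
      (CochainComplex.mappingCone (t ≫ (R.mapHomologicalComplex (ComplexShape.up ℤ)).map g))) := by
  let F := R.mapHomologicalComplex (ComplexShape.up ℤ)
  let α := R.mapDerivedCategoryFactors
  let T₁ := R.mapDerivedCategory.mapTriangle.obj T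
  have hT₁ : T₁ ∈ distTriang (DerivedCategory B) := R.mapDerivedCategory.map_distinguished T hT
  let T₂ := DerivedCategory.Q.mapTriangle.obj (CochainComplex.mappingCone.triangle (t ≫ F.map g))
  have hT₂ : T₂ ∈ distTriang (DerivedCategory B) :=
    DerivedCategory.mappingCone_triangle_distinguished (t ≫ F.map g)
  let i₁ : T₁.obj₁ ≅ T₂.obj₁ := R.mapDerivedCategory.mapIso e₁ ≪≫ α.app K
  let i₂ : T₁.obj₂ ≅ T₂.obj₂ := R.mapDerivedCategory.mapIso e₂ ≪≫ α.app L
  have n1 : ∀ {P P' : CochainComplex A ℤ} (f : P ⟶ P'),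
      R.mapDerivedCategory.map (DerivedCategory.Q.map f) ≫ α.hom.app P' =
        α.hom.app P ≫ DerivedCategory.Q.map (F.map f) := fun f => α.hom.naturality f
  have comm : T₁.mor₁ ≫ i₂.hom = i₁.hom ≫ T₂.mor₁ := by
    have h0 := congrArg (fun f => R.mapDerivedCategory.map f ≫ α.hom.app L) he
    simp only [Functor.map_comp, Category.assoc] at h0
    rw [n1] at h0
    have h4 : α.inv.app K = DerivedCategory.Q.map t ≫ α.inv.app K' ≫
        R.mapDerivedCategory.map (DerivedCategory.Q.map s) := by
      rw [← cancel_mono (α.hom.app K), Category.assoc, Category.assoc, n1 s,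
        Iso.inv_hom_id_app, Iso.inv_hom_id_app_assoc]
      change _ = DerivedCategory.Q.map t ≫ DerivedCategory.Q.map (F.map s)
      rw [← Functor.map_comp, ht, CategoryTheory.Functor.map_id]
      rfl
    have h3 : α.inv.app K ≫ R.mapDerivedCategory.map e₁.inv ≫
        R.mapDerivedCategory.map T.mor₁ ≫ R.mapDerivedCategory.map e₂.hom ≫ α.hom.app L =
        DerivedCategory.Q.map (t ≫ F.map g) := by
      rw [h4, Category.assoc, Category.assoc, h0, Functor.map_comp]
      congr 1
      exact Iso.inv_hom_id_app_assoc α K' _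
    change R.mapDerivedCategory.map T.mor₁ ≫ R.mapDerivedCategory.map e₂.hom ≫ α.hom.app L =
      (R.mapDerivedCategory.map e₁.hom ≫ α.hom.app K) ≫ DerivedCategory.Q.map (t ≫ F.map g)
    rw [← h3, Category.assoc]
    have h5 : α.hom.app K ≫ α.inv.app K ≫ R.mapDerivedCategory.map e₁.inv ≫
        R.mapDerivedCategory.map T.mor₁ ≫ R.mapDerivedCategory.map e₂.hom ≫ α.hom.app L =
        R.mapDerivedCategory.map e₁.inv ≫
        R.mapDerivedCategory.map T.mor₁ ≫ R.mapDerivedCategory.map e₂.hom ≫ α.hom.app L :=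
      Iso.hom_inv_id_app_assoc α K _
    rw [h5, ← Functor.map_comp_assoc R.mapDerivedCategory e₁.hom e₁.inv, Iso.hom_inv_id,
      CategoryTheory.Functor.map_id, Category.id_comp]
  obtain ⟨e, -⟩ := exists_iso_of_arrow_iso T₁ T₂ hT₁ hT₂ (Arrow.isoMk i₁ i₂ comm.symm)
  exact ⟨Triangle.π₃.mapIso e⟩

end

end Pool.Agent.R924
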