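import Pool.Agent.R924.P2
import Pool.Agent.R924.P3

set_option autoImplicit false

/-!
Cones of morphisms from the structure sheaf to perfect complexes.
-/

universe u

open CategoryTheory CategoryTheory.Limits TopologicalSpace AlgebraicGeometry Opposite Pretriangulated

namespace Pool.Agent.R924

open Pool.Agent.W506 Pool.Agent.W456

attribute [local instance] HasDerivedCategory.standard Abelian.hasFiniteBiproducts

lemma bff_sc (X : Scheme.{u}) (n : ℤ) : IsBFF (sc n (unitMod X)) := by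
  have hz : ∀ i : ℤ, i ≠ n → IsZero ((sc n (unitMod X)).X i) := fun i hi =>
    HomologicalComplex.isZero_single_obj_X _ _ _ _ hi
  refine ⟨⟨n, n, fun i hi => hz i (by lia)⟩, fun i => ?_⟩
  by_cases hi : i = n
  · subst hi
    have h1 : IsFF (unitMod X) := ⟨1, ⟨(biproductUniqueIso (fun _ : Fin 1 => unitMod X)).symm⟩⟩
    exact h1.of_iso (HomologicalComplex.singleObjXSelf (ComplexShape.up ℤ) i (unitMod X)).symm
  · exact isFF_of_isZero (hz i hi)

theorem isPerfect_cone_unit {X : Scheme.{u}} (n : ℤ) (K : CochainComplex X.Modules ℤ)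
    (hK : IsBFF K) (T : Triangle (DerivedCategory X.Modules))
    (hT : T ∈ distTriang (DerivedCategory X.Modules))
    (e₁ : T.obj₁ ≅ DerivedCategory.Q.obj (sc n (unitMod X)))
    (e₂ : T.obj₂ ≅ DerivedCategory.Q.obj K) : isPerfect X T.obj₃ := by
  rw [isPerfect_iff]
  intro x
  obtain ⟨X', s, hs, g, hg⟩ := DerivedCategory.right_fac (e₁.inv ≫ T.mor₁ ≫ e₂.hom)
  rw [DerivedCategory.isIso_Q_map_iff_quasiIso] at hs
  have hepi := epi_cycMap s
  obtain ⟨U, hx, σ, hσ⟩ := exists_local_split (cycMap s) x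
  obtain ⟨t, ht⟩ := exists_split (Scheme.Modules.restrictFunctor U.ι) s σ hσ
  obtain ⟨e⟩ := exists_cone_iso (Scheme.Modules.restrictFunctor U.ι) s g T hT e₁ e₂ (by
    rw [hg]
    have : IsIso (DerivedCategory.Q.map s) := by
      rw [DerivedCategory.isIso_Q_map_iff_quasiIso]
      exact hs
    exact IsIso.hom_inv_id_assoc _ _) t ht
  exact ⟨U.toScheme, U.ι, inferInstance, ⟨x, hx⟩, rfl, _,
    isBFF_cone _ (bff_res U.ι (bff_sc X n)) (bff_res U.ι hK), ⟨e⟩⟩

end Pool.Agent.R924
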