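import Pool.Agent.R924.P4

set_option autoImplicit false

/-!
The objects whose cones into perfect complexes are perfect.
-/

universe u

open CategoryTheory CategoryTheory.Limits TopologicalSpace AlgebraicGeometry Opposite Pretriangulated
open ZeroObject

namespace Pool.Agent.R924

open Pool.Agent.W506 Pool.Agent.W456

attribute [local instance] HasDerivedCategory.standard Abelian.hasFiniteBiproducts

/-- Objects all of whose cones into perfect complexes, on all open subschemes, are perfect. -/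
def ConeGood (X : Scheme.{u}) : ObjectProperty (DerivedCategory X.Modules) := fun A =>
  ∀ (W : Scheme.{u}) (g : W ⟶ X) (_ : IsOpenImmersion g) (i : ℤ)
    (T : Triangle (DerivedCategory W.Modules)),
    T ∈ distTriang (DerivedCategory W.Modules) → Nonempty (T.obj₁ ≅ ((resD g).obj A)⟦i⟧) →
    isPerfect W T.obj₂ → isPerfect W T.obj₃

instance (X : Scheme.{u}) : (ConeGood X).IsClosedUnderIsomorphisms where
  of_iso e hA W g hg i T hT := by
    rintro ⟨e₁⟩ h₂
    exact hA W g hg i T hT ⟨e₁ ≪≫ (shiftFunctor _ i).mapIso ((resD g).mapIso e.symm)⟩ h₂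

instance (X : Scheme.{u}) : (ConeGood X).ContainsZero where
  exists_zero := ⟨0, isZero_zero _, fun W g hg i T hT ⟨e₁⟩ h₂ => by
    have h1 : IsZero T.obj₁ :=
      (Functor.map_isZero (shiftFunctor _ i)
        (Functor.map_isZero (resD g) (isZero_zero (DerivedCategory X.Modules)))).of_iso e₁
    have := (T.isZero₁_iff_isIso₂ hT).1 h1
    exact isPerfect_of_iso (asIso T.mor₂) h₂⟩

instance (X : Scheme.{u}) : (ConeGood X).IsStableUnderShift ℤ where
  isStableUnderShiftBy n := ⟨fun A hA W g hg i T hT ⟨e₁⟩ h₂ =>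
    hA W g hg (n + i) T hT ⟨e₁ ≪≫
      (shiftFunctor _ i).mapIso (((resD g).commShiftIso n).app A) ≪≫
      ((shiftFunctorAdd _ n i).app ((resD g).obj A)).symm⟩ h₂⟩

instance (X : Scheme.{u}) : (ConeGood X).IsTriangulatedClosed₂ := by
  apply ObjectProperty.IsTriangulatedClosed₂.mk'
  intro T₀ hT₀ h₁ h₃ W g hg i T hT ⟨e⟩ hP
  let D : Triangle (DerivedCategory W.Modules) :=
    (Triangle.shiftFunctor _ i).obj ((resD g).mapTriangle.obj T₀)
  have hD : D ∈ distTriang (DerivedCategory W.Modules) :=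
    Triangle.shift_distinguished _ ((resD g).map_distinguished _ hT₀) i
  let e' : D.obj₂ ≅ T.obj₁ := e.symm
  let D' : Triangle (DerivedCategory W.Modules) :=
    Triangle.mk (D.mor₁ ≫ e'.hom) (e'.inv ≫ D.mor₂) D.mor₃
  have hD' : D' ∈ distTriang (DerivedCategory W.Modules) := by
    refine isomorphic_distinguished _ hD _ (Triangle.isoMk _ _ (Iso.refl _) e'.symm (Iso.refl _)
      ?_ ?_ ?_)
    · change (D.mor₁ ≫ e'.hom) ≫ e'.inv = 𝟙 _ ≫ D.mor₁
      rw [Category.assoc, Iso.hom_inv_id, Category.comp_id, Category.id_comp]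
    · change (e'.inv ≫ D.mor₂) ≫ 𝟙 _ = e'.inv ≫ D.mor₂
      rw [Category.comp_id]
    · change D.mor₃ ≫ (shiftFunctor (DerivedCategory W.Modules) (1 : ℤ)).map (𝟙 D.obj₁) =
        𝟙 _ ≫ D.mor₃
      rw [CategoryTheory.Functor.map_id, Category.comp_id, Category.id_comp]
  obtain ⟨Z, v, w, h13⟩ := distinguished_cocone_triangle (D'.mor₁ ≫ T.mor₁)
  have hZ : isPerfect W Z := h₁ W g hg i _ h13 ⟨Iso.refl _⟩ hP
  let o := Triangulated.someOctahedron (u₁₂ := D'.mor₁) (u₂₃ := T.mor₁) rfl hD' hT h13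
  exact h₃ W g hg i (Triangle.mk o.m₁ o.m₃ _) o.mem ⟨Iso.refl _⟩ hZ

instance (X : Scheme.{u}) : (ConeGood X).IsTriangulated where

lemma isPerfect_zero (X : Scheme.{u}) :
    Pool.Agent.W456.isPerfect X (0 : DerivedCategory X.Modules) := by
  rw [isPerfect_iff]
  intro x
  refine ⟨X, 𝟙 X, inferInstance, x, rfl, 0, ⟨⟨0, 0, fun i _ => ?_⟩, fun i => ?_⟩, ⟨?_⟩⟩
  · exact Functor.map_isZero (HomologicalComplex.eval _ _ i) (isZero_zero _)
  · exact isFF_of_isZero (Functor.map_isZero (HomologicalComplex.eval _ _ i) (isZero_zero _))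
  · exact (Functor.map_isZero (resD (𝟙 X)) (isZero_zero _)).iso
      (Functor.map_isZero DerivedCategory.Q (isZero_zero _))

theorem ConeGood.isPerfect {X : Scheme.{u}} {A : DerivedCategory X.Modules}
    (hA : ConeGood X A) : isPerfect X A := by
  apply isPerfect_of_local
  intro x
  refine ⟨X, 𝟙 X, inferInstance, x, rfl, ?_⟩
  obtain ⟨Z, v, w, h⟩ := distinguished_cocone_triangle
    (0 : ((resD (𝟙 X)).obj A)⟦(-1 : ℤ)⟧ ⟶ 0)
  have h1 : IsIso w := (Triangle.isZero₂_iff_isIso₃ _ h).1 (isZero_zero _)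
  have h2 : Pool.Agent.W456.isPerfect X Z :=
    hA X (𝟙 X) inferInstance (-1) _ h ⟨Iso.refl _⟩ (isPerfect_zero X)
  exact isPerfect_of_iso (asIso w ≪≫ (shiftEquiv (DerivedCategory X.Modules) (1 : ℤ)).counitIso.app _) h2

/-- Being cone-good is local. -/
theorem coneGood_of_local {X : Scheme.{u}} {A : DerivedCategory X.Modules}
    (h : ∀ x : X, ∃ (V : Scheme.{u}) (g : V ⟶ X) (_ : IsOpenImmersion g) (v : V) (_ : g v = x),
      ConeGood V ((resD g).obj A)) : ConeGood X A := by
  intro W f hf i T hT ⟨e₁⟩ h₂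
  apply isPerfect_of_local
  intro w
  obtain ⟨V, g, hg, v, hv, hV⟩ := h (f w)
  obtain ⟨z, hz1, hz2⟩ := Scheme.Pullback.exists_preimage_pullback w v hv.symm
  obtain ⟨a⟩ := resD_comp (pullback.fst f g) f _ rfl A
  obtain ⟨b⟩ := resD_comp (pullback.snd f g) g _ pullback.condition.symm A
  refine ⟨_, pullback.fst f g, inferInstance, z, hz1, ?_⟩
  refine hV _ (pullback.snd f g) inferInstance i ((resD (pullback.fst f g)).mapTriangle.obj T)
    ((resD (pullback.fst f g)).map_distinguished _ hT) ⟨?_⟩ (isPerfect_res _ h₂)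
  exact (resD (pullback.fst f g)).mapIso e₁ ≪≫ ((resD (pullback.fst f g)).commShiftIso i).app _ ≪≫
    (shiftFunctor _ i).mapIso (a ≪≫ b.symm)

/-- The structure sheaf is cone-good. -/
theorem coneGood_unit (X : Scheme.{u}) : ConeGood X (sg (unitMod X)) := by
  intro W f hf i T hT ⟨e₁⟩ h₂
  apply isPerfect_of_local
  intro w
  obtain ⟨W', g, hg, w', hw', K, hK, ⟨e⟩⟩ := h₂.exists_free w
  refine ⟨W', g, hg, w', hw', ?_⟩
  obtain ⟨a⟩ := resD_comp g f _ rfl (sg (unitMod X))
  obtain ⟨b⟩ := mapD_single (Scheme.Modules.restrictFunctor (g ≫ f)) (unitMod X) 0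
  let c : (DerivedCategory.singleFunctor W'.Modules 0).obj
      ((Scheme.Modules.restrictFunctor (g ≫ f)).obj (unitMod X)) ≅ sg (unitMod W') :=
    (DerivedCategory.singleFunctor W'.Modules 0).mapIso (Scheme.Modules.restrictUnitIso (g ≫ f))
  let d : (sg (unitMod W'))⟦i⟧ ≅ (DerivedCategory.singleFunctor W'.Modules (-i)).obj (unitMod W') :=
    ((DerivedCategory.singleFunctors W'.Modules).shiftIso i (-i) 0 (by ring)).app (unitMod W')
  let d' : (DerivedCategory.singleFunctor W'.Modules (-i)).obj (unitMod W') ≅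
      DerivedCategory.Q.obj (sc (-i) (unitMod W')) :=
    (DerivedCategory.singleFunctorIsoCompQ W'.Modules (-i)).app (unitMod W')
  refine isPerfect_cone_unit (-i) K hK ((resD g).mapTriangle.obj T)
    ((resD g).map_distinguished _ hT) ?_ e
  exact (resD g).mapIso e₁ ≪≫ ((resD g).commShiftIso i).app _ ≪≫
    (shiftFunctor _ i).mapIso (a ≪≫ b ≪≫ c) ≪≫ d ≪≫ d'

end Pool.Agent.R924
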