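import Pool.Agent.R924.P5
import Pool.Agent.R924.D3

set_option autoImplicit false

/-!
On schemes with good charts and enough vector bundles the perfect complexes form a thick subcategory,
which consists of the bounded complexes with coherent cohomology.
-/

universe u

open CategoryTheory CategoryTheory.Limits TopologicalSpace AlgebraicGeometry Opposite Pretriangulated
open ZeroObject

namespace Pool.Agent.R924

open Pool.Agent.W506 Pool.Agent.W456

attribute [local instance] HasDerivedCategory.standard Abelian.hasFiniteBiproducts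

lemma coneGood_isFF {X : Scheme.{u}} {M : X.Modules} (h : IsFF M) : ConeGood X (sg M) := by
  have key : ∀ n : ℕ, ConeGood X (sg (⨁ fun _ : Fin n => unitMod X)) := by
    intro n
    induction n with
    | zero =>
      apply ObjectProperty.prop_of_isZero
      apply Functor.map_isZero
      rw [IsZero.iff_id_eq_zero]
      ext i
      exact i.elim0
    | succ n ih =>
      refine mem_iso (ConeGood X) (biprodFin (unitMod X) n 1) (mem_biprod (ConeGood X) ih ?_)
      exact mem_iso (ConeGood X) (biproductUniqueIso (fun _ : Fin 1 => unitMod X)).symm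
        (coneGood_unit X)
  obtain ⟨n, ⟨e⟩⟩ := h
  exact mem_iso (ConeGood X) e.symm (key n)

lemma isFF_FR (X : Scheme.{u}) (n : ℕ) : IsFF (FR X n) := by
  refine ⟨n, ⟨?_⟩⟩
  exact Sigma.whiskerEquiv (f := fun _ : ULift.{u} (Fin n) => unitMod X)
    (g := fun _ : Fin n => unitMod X) Equiv.ulift (fun _ => Iso.refl _) ≪≫
    (biproduct.isoCoproduct (fun _ : Fin n => unitMod X)).symm

lemma coneGood_of_basis {X : Scheme.{u}} {M : X.Modules}
    (h : ∀ x : X, ∃ (U : X.Opens) (_ : x ∈ U) (n : ℕ) (e : Fin n → Γ(M, U)), IsBasisOn e) :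
    ConeGood X (sg M) := by
  apply coneGood_of_local
  intro x
  obtain ⟨U, hx, n, e, he⟩ := h x
  refine ⟨U.toScheme, U.ι, inferInstance, ⟨x, hx⟩, rfl, ?_⟩
  obtain ⟨a⟩ := mapD_single (Scheme.Modules.restrictFunctor U.ι) M 0
  obtain ⟨b⟩ := exists_iso_free he
  have h1 : ConeGood U.toScheme (sg ((Scheme.Modules.restrictFunctor U.ι).obj M)) :=
    coneGood_isFF (IsFF.of_iso (isFF_FR U.toScheme n) b.symm)
  exact (ConeGood U.toScheme).prop_of_iso a.symm h1

variable {X : Scheme.{u}} {J : Type} {U : J → X.Opens} {N : ℕ}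

lemma coneGood_bundle (h : IsGood U N) (M : X.Modules) (hM : CohU U M) (hM' : ProjU U M) :
    ConeGood X (sg M) := by
  apply coneGood_of_basis
  intro x
  obtain ⟨i, hi⟩ := h.cover x
  have := (hM i).2
  have := hM' i
  obtain ⟨V, hxV, -, n, e, he⟩ := exists_basis_of_projective (h.aff i) (hM i).1 x hi
  exact ⟨V, hxV, n, e, he⟩

/-- Coherent modules belong to triangulated subcategories containing the vector bundles. -/
theorem coh_mem_of_bundles (h : IsGood U N) (T : ObjectProperty (DerivedCategory X.Modules))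
    [T.IsTriangulated] [T.IsClosedUnderIsomorphisms]
    (hb : ∀ K, CohU U K → ProjU U K → T (sg K))
    (hcov : ∀ M, CohU U M → ∃ (Q : X.Modules) (φ : Q ⟶ M), CohU U Q ∧ ProjU U Q ∧ Epi φ)
    (M : X.Modules) (hM : CohU U M) : T (sg M) := by
  have key : ∀ (j : ℕ) (M : X.Modules), CohU U M →
      (∀ i, Hilb.PdLT Γ(X, U i) Γ(M, U i) (j + 1)) → T (sg M) := by
    intro j
    induction j with
    | zero =>
      intro M hM hd
      exact hb M hM fun i => Hilb.projective_of_pdLT_one (hd i)
    | succ j ih =>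
      intro M hM hd
      obtain ⟨Q, φ, hQ, hQ', hφ⟩ := hcov M hM
      have hS := kerSC_shortExact φ
      exact mem_right T hS (ih _ (hQ.kernel h _ hS hM) (pd_kernel h j _ hS hQ hQ' hM hd))
        (hb Q hQ hQ')
  exact key N M hM fun i => h.dim i _

/-- The bounded complexes with coherent cohomology. -/
structure DCoh (E : DerivedCategory X.Modules) : Prop where
  coh : ∀ i, CohAll (Hh i E)
  bdd : ∃ (a : ℤ) (n : ℕ), (∀ i, i < a → IsZero (Hh i E)) ∧ (∀ i, a + n ≤ i → IsZero (Hh i E))

lemma cohAll_retract {M N : X.Modules} (r : Retract M N) (hN : CohAll N) : CohAll M := by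
  have hr : ∀ (V : X.Opens) (s : Γ(M, V)), ap r.r V (ap r.i V s) = s := by
    intro V s
    rw [← ap_comp, r.retract, ap_id]
  intro W hW
  refine ⟨⟨fun W' hW' hle f s => ?_, fun W' hW' hle f t ht => ?_⟩, ?_⟩
  · obtain ⟨k, t, ht⟩ := (hN W hW).1.ext W' hW' hle f (ap r.i _ s)
    exact ⟨k, ap r.r _ t, by rw [← ap_rs, ht, map_smul, hr]⟩
  · obtain ⟨k, hk⟩ := (hN W hW).1.uniq W' hW' hle f (ap r.i _ t) (by rw [← ap_rs, ht, map_zero])
    exact ⟨k, by rw [← hr _ (f ^ k • t), map_smul, hk, map_zero]⟩
  · have := (hN W hW).2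
    exact Module.Finite.of_surjective (ap r.r W) fun s => ⟨_, hr W s⟩

lemma DCoh.retract {E E' : DerivedCategory X.Modules} (r : Retract E E') (h : DCoh E') : DCoh E where
  coh i := cohAll_retract (r.map (DerivedCategory.homologyFunctor X.Modules i)) (h.coh i)
  bdd := by
    obtain ⟨a, n, h1, h2⟩ := h.bdd
    refine ⟨a, n, fun i hi => ?_, fun i hi => ?_⟩
    · exact (h1 i hi).of_mono (r.map (DerivedCategory.homologyFunctor X.Modules i)).i
    · exact (h2 i hi).of_mono (r.map (DerivedCategory.homologyFunctor X.Modules i)).i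

/-- Bounded complexes with coherent cohomology are cone-good. -/
theorem DCoh.coneGood (h : IsGood U N)
    (hcov : ∀ M, CohU U M → ∃ (Q : X.Modules) (φ : Q ⟶ M), CohU U Q ∧ ProjU U Q ∧ Epi φ)
    {E : DerivedCategory X.Modules} (hE : DCoh E) : ConeGood X E := by
  obtain ⟨a, n, h1, h2⟩ := hE.bdd
  exact mem_of_homology (ConeGood X) n E a h1 h2 fun i =>
    coh_mem_of_bundles h (ConeGood X) (coneGood_bundle h) hcov _ fun j => hE.coh i (U j) (h.aff j)

variable [CompactSpace X] [IsLocallyNoetherian X]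

theorem dCoh_of_isPerfect {E : DerivedCategory X.Modules} (hE : isPerfect X E) : DCoh E :=
  ⟨fun i => cohAll_homology hE i, exists_bounds hE⟩

theorem isPerfect_eq_coneGood (h : IsGood U N)
    (hcov : ∀ M, CohU U M → ∃ (Q : X.Modules) (φ : Q ⟶ M), CohU U Q ∧ ProjU U Q ∧ Epi φ) :
    isPerfect X = ConeGood X := by
  apply le_antisymm
  · intro E hE
    exact (dCoh_of_isPerfect hE).coneGood h hcov
  · intro E hE
    exact hE.isPerfect

theorem isTriangulated_isPerfect (h : IsGood U N)
    (hcov : ∀ M, CohU U M → ∃ (Q : X.Modules) (φ : Q ⟶ M), CohU U Q ∧ ProjU U Q ∧ Epi φ) :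
    (isPerfect X).IsTriangulated := by
  rw [isPerfect_eq_coneGood h hcov]
  infer_instance

theorem isStableUnderRetracts_isPerfect (h : IsGood U N)
    (hcov : ∀ M, CohU U M → ∃ (Q : X.Modules) (φ : Q ⟶ M), CohU U Q ∧ ProjU U Q ∧ Epi φ) :
    (isPerfect X).IsStableUnderRetracts where
  of_retract r hE :=
    (DCoh.coneGood h hcov ((dCoh_of_isPerfect hE).retract r)).isPerfect

end Pool.Agent.R924
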